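import Pool.Agent.U462.Sh.ZAdm

/-!
# Two sets of shifts at given places
-/

set_option autoImplicit false

open Finset Filter Topology

namespace Pool.Agent.U462.Sh

/-- two sets of shifts at given places -/
theorem shiftsOn (D₁ D₂ : Finset ℕ) (h₁ : 0 ∈ D₁) (h₂ : 0 ∈ D₂) (hne : D₁ ≠ D₂) (T₁ T₂ : Set ℕ) : ∃ S : Set ℕ,
    (∀ m ∈ S, 2 ≤ m ∧ Law.Rough m) ∧ (∀ t ∈ T₁, ¬ ∀ d ∈ D₁, t + d ∈ S) ∧ (∀ t ∈ T₂, ¬ ∀ d ∈ D₂, t + d ∈ S) ∧
    Law.LawOn S (fun L u v => (∀ a b : ℤ, (∀ d ∈ D₁, (a, b + d) ∈ L) →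
        ∀ n : ℕ, u ≤ n → n < v → Law.value (a, b) n ∉ T₁) ∧
      ∀ a b : ℤ, (∀ d ∈ D₂, (a, b + d) ∈ L) → ∀ n : ℕ, u ≤ n → n < v → Law.value (a, b) n ∉ T₂) := by
  classical
  obtain ⟨f, hf⟩ : ∃ f : Finset ℕ → Finset (ℤ × ℤ), f = fun D => D.image fun d : ℕ => ((1, (d : ℤ)) : ℤ × ℤ) :=
    ⟨_, rfl⟩
  have hinj : f D₁ ≠ f D₂ := by
    intro h
    apply hne
    rw [hf] at h
    refine image_injective ?_ h
    intro d d' hd
    have := congrArg Prod.snd hd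
    simp only [Nat.cast_inj] at this
    exact this
  obtain ⟨S, h1, h2, h3⟩ := patOn {f D₁, f D₂} (by
    intro P hP
    rw [mem_insert, mem_singleton] at hP
    have key : ∀ D : Finset ℕ, 0 ∈ D → ((1, 0) : ℤ × ℤ) ∈ f D ∧ ∀ l ∈ f D, 1 ≤ l.1 := by
      intro D hD
      rw [hf]
      refine ⟨mem_image.2 ⟨0, hD, by simp⟩, ?_⟩
      intro l hl
      obtain ⟨d, _, rfl⟩ := mem_image.1 hl
      exact le_refl _
    rcases hP with rfl | rfl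
    exacts [key _ h₁, key _ h₂]) (fun P => if P = f D₁ then T₁ else T₂)
  have hav : ∀ D : Finset ℕ, f D ∈ ({f D₁, f D₂} : Finset (Finset (ℤ × ℤ))) → ∀ t,
      t ∈ (if f D = f D₁ then T₁ else T₂) → ¬ ∀ d ∈ D, t + d ∈ S := by
    intro D hD t ht hall
    apply h2 (f D) hD t ht
    intro l hl
    rw [hf] at hl
    obtain ⟨d, hd, rfl⟩ := mem_image.1 hl
    exact ⟨t + d, hall d hd, by push_cast; ring⟩
  refine ⟨S, h1, ?_, ?_, on_mono ?_ h3⟩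
  · intro t ht
    exact hav D₁ (mem_insert_self _ _) t (by rw [if_pos rfl]; exact ht)
  · intro t ht
    exact hav D₂ (mem_insert_of_mem (mem_singleton_self _)) t (by rw [if_neg hinj.symm]; exact ht)
  · intro L u v hL P hP l0 hl0 hall n hn1 hn2
    have key : ∀ D : Finset ℕ, P = f D → ∀ d ∈ D, (l0.1, l0.2 + d) ∈ L := by
      intro D hD d hd
      have h4 := hall ((1, (d : ℤ)) : ℤ × ℤ) (by rw [hD, hf]; exact mem_image_of_mem _ hd)
      simpa using h4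
    rw [mem_insert, mem_singleton] at hP
    rcases hP with hP | hP
    · rw [if_pos hP]
      exact hL.1 l0.1 l0.2 (key D₁ hP) n hn1 hn2
    · rw [if_neg (by rw [hP]; exact hinj.symm)]
      exact hL.2 l0.1 l0.2 (key D₂ hP) n hn1 hn2

/-- the system of a set of shifts -/
def ssys (D : Finset ℕ) : Finset (ℤ × ℤ) := D.image fun d : ℕ => ((1, (d : ℤ)) : ℤ × ℤ)

lemma ssys_mem {D : Finset ℕ} {a b : ℤ} : (a, b) ∈ ssys D ↔ a = 1 ∧ ∃ d ∈ D, (d : ℤ) = b := by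
  unfold ssys
  rw [mem_image]
  constructor
  · rintro ⟨d, hd, h⟩
    rw [Prod.mk.injEq] at h
    exact ⟨h.1.symm, d, hd, h.2⟩
  · rintro ⟨rfl, d, hd, rfl⟩
    exact ⟨d, hd, rfl⟩

lemma ssys_sys (D : Finset ℕ) : Law.IsSystem (ssys D) := by
  refine ⟨?_, ?_⟩
  · rintro ⟨a, b⟩ hl
    obtain ⟨rfl, _⟩ := ssys_mem.1 hl
    exact ⟨one_ne_zero, isCoprime_one_left⟩
  · rintro ⟨a, b⟩ hl ⟨a', b'⟩ hl' hne
    obtain ⟨rfl, _⟩ := ssys_mem.1 hl
    obtain ⟨rfl, _⟩ := ssys_mem.1 hl'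
    simp only [one_mul, ne_eq]
    intro h
    exact hne (by rw [h])

/-- many translates in dyadic intervals -/
lemma many_shift {S : Set ℕ} {good : Finset (ℤ × ℤ) → ℕ → ℕ → Prop} (hlaw : Law.LawOn S good) (D : Finset ℕ)
    (hadm : ∀ p : ℕ, p.Prime → ∃ r : ℕ, r < p ∧ ∀ d ∈ D, ¬ p ∣ r + d) (K : ℕ) :
    ∃ x₀ : ℕ, ∀ x : ℕ, x₀ ≤ x → good (ssys D) x (2 * x) →
      K ≤ {t : ℕ | x ≤ t ∧ t < 2 * x ∧ ∀ d ∈ D, t + d ∈ S}.ncard := by
  classical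
  obtain ⟨X0, hX0⟩ := many hlaw (ssys D) (ssys_sys D) (by
    intro p hp
    obtain ⟨r, hr, hd⟩ := hadm p hp
    apply adm_of r hr
    rintro ⟨a, b⟩ hl
    obtain ⟨rfl, d, hdD, rfl⟩ := ssys_mem.1 hl
    simp only [one_mul]
    intro hdvd
    apply hd d hdD
    have : (p : ℤ) ∣ ((r + d : ℕ) : ℤ) := by push_cast; exact hdvd
    exact Int.natCast_dvd_natCast.1 this) (1 / 2) (by norm_num) K
  refine ⟨X0 + 2, ?_⟩
  intro x hx hgood
  refine (hX0 (2 * x) (by omega) x (2 * x) (by omega) le_rfl ?_ ?_ hgood).trans ?_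
  · rw [← Real.sqrt_eq_rpow]
    apply Real.sqrt_le_iff.2
    have hxR : (2 : ℝ) ≤ x := by exact_mod_cast (by omega : 2 ≤ x)
    push_cast
    constructor
    · linarith
    · nlinarith
  · rintro m hm1 hm2 ⟨a, b⟩ hl
    obtain ⟨rfl, d, hdD, rfl⟩ := ssys_mem.1 hl
    have h4 : (2 : ℤ) ≤ m := by exact_mod_cast (by omega : 2 ≤ m)
    have h5 : (0 : ℤ) ≤ d := Int.natCast_nonneg d
    simp only
    linarith
  · unfold Law.count
    apply Set.ncard_le_ncard _ ((Set.finite_Iio (2 * x)).subset fun t ht => ht.2.1)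
    rintro m ⟨hm1, hm2, hall⟩
    refine ⟨hm1, hm2, fun d hd => ?_⟩
    have h4 := hall (1, (d : ℤ)) (ssys_mem.2 ⟨rfl, d, hd, rfl⟩)
    have e : Law.value (1, (d : ℤ)) m = m + d := by
      unfold Law.value
      omega
    rw [e] at h4
    exact h4

end Pool.Agent.U462.Sh
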