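import Pool.Agent.U462.Sh.ZMany

/-!
# Admissible systems, instances at given places
-/

set_option autoImplicit false

open Finset Filter Topology

namespace Pool.Agent.U462.Sh

lemma adm_of {L : Finset (ℤ × ℤ)} {p : ℕ} (r : ℕ) (hr : r < p) (h : ∀ l ∈ L, ¬ (p : ℤ) ∣ l.1 * (r : ℤ) + l.2) :
    Law.rootCount L p < p := by
  unfold Law.rootCount
  calc _ < #(range p) := by
        apply card_lt_card
        rw [filter_ssubset]
        refine ⟨r, mem_range.2 hr, ?_⟩
        rintro ⟨l, hl, hd⟩
        exact h l hl hd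
    _ = p := card_range p

/-- a small positive number is not divisible by p -/
lemma ndvd {p : ℕ} {m : ℤ} (h : 0 < m) (h' : m < p) : ¬ (p : ℤ) ∣ m := fun hd => by
  have := Int.le_of_dvd h hd
  omega

lemma twin_sys : Law.IsSystem {((1 : ℤ), (0 : ℤ)), (1, 2)} := by
  refine ⟨?_, ?_⟩
  · intro l hl
    simp only [mem_insert, mem_singleton] at hl
    rcases hl with rfl | rfl
    · exact ⟨one_ne_zero, isCoprime_one_left⟩
    · exact ⟨one_ne_zero, isCoprime_one_left⟩
  · intro l hl l' hl' hne
    simp only [mem_insert, mem_singleton] at hl hl'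
    rcases hl with rfl | rfl <;> rcases hl' with rfl | rfl <;> first | exact absurd rfl hne | norm_num

lemma twin_adm : ∀ p : ℕ, p.Prime → Law.rootCount {((1 : ℤ), (0 : ℤ)), (1, 2)} p < p := by
  intro p hp
  have h2 := hp.two_le
  by_cases h3 : p = 3
  · subst h3
    apply adm_of 2 (by norm_num)
    intro l hl
    simp only [mem_insert, mem_singleton] at hl
    rcases hl with rfl | rfl <;> norm_num
  · by_cases h2' : p = 2
    · subst h2'
      apply adm_of 1 (by norm_num)
      intro l hl
      simp only [mem_insert, mem_singleton] at hl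
      rcases hl with rfl | rfl <;> norm_num
    · apply adm_of 1 (by omega)
      intro l hl
      simp only [mem_insert, mem_singleton] at hl
      rcases hl with rfl | rfl
      · apply ndvd (by norm_num)
        push_cast
        omega
      · apply ndvd (by norm_num)
        push_cast
        omega

/-- one set of shifts at given places -/
theorem shiftOn (D : Finset ℕ) (h0 : 0 ∈ D) (T : Set ℕ) : ∃ S : Set ℕ,
    (∀ m ∈ S, 2 ≤ m ∧ Law.Rough m) ∧ (∀ t ∈ T, ¬ ∀ d ∈ D, t + d ∈ S) ∧
    Law.LawOn S (fun L u v => ∀ a b : ℤ, (∀ d ∈ D, (a, b + d) ∈ L) →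
      ∀ n : ℕ, u ≤ n → n < v → Law.value (a, b) n ∉ T) := by
  classical
  obtain ⟨S, h1, h2, h3⟩ := patOn {D.image fun d : ℕ => ((1, (d : ℤ)) : ℤ × ℤ)} (by
    intro P hP
    rw [mem_singleton] at hP
    subst hP
    refine ⟨mem_image.2 ⟨0, h0, by simp⟩, ?_⟩
    intro l hl
    obtain ⟨d, _, rfl⟩ := mem_image.1 hl
    exact le_refl _) (fun _ => T)
  refine ⟨S, h1, ?_, on_mono ?_ h3⟩
  · intro t ht hall
    apply h2 _ (mem_singleton_self _) t ht
    intro l hl
    obtain ⟨d, hd, rfl⟩ := mem_image.1 hl
    exact ⟨t + d, hall d hd, by push_cast; ring⟩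
  · intro L u v hL P hP l0 hl0 hall n hn1 hn2
    rw [mem_singleton] at hP
    subst hP
    apply hL l0.1 l0.2 _ n hn1 hn2
    intro d hd
    have h4 := hall _ (mem_image_of_mem _ hd)
    simpa using h4

/-- one linear map at given places -/
theorem affineOn (a b : ℤ) (ha : 1 ≤ a) (T : Set ℕ) : ∃ S : Set ℕ,
    (∀ m ∈ S, 2 ≤ m ∧ Law.Rough m) ∧ (∀ p ∈ T, p ∈ S → ∀ q ∈ S, (q : ℤ) ≠ a * p + b) ∧
    Law.LawOn S (fun L u v => ∀ l ∈ L, (a * l.1, a * l.2 + b) ∈ L →
      ∀ n : ℕ, u ≤ n → n < v → Law.value l n ∉ T) := by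
  classical
  obtain ⟨S, h1, h2, h3⟩ := patOn {{(1, 0), (a, b)}} (by
    intro P hP
    rw [mem_singleton] at hP
    subst hP
    refine ⟨by simp, ?_⟩
    intro l hl
    rw [mem_insert, mem_singleton] at hl
    rcases hl with rfl | rfl
    · exact le_refl _
    · exact ha) (fun _ => T)
  refine ⟨S, h1, ?_, on_mono ?_ h3⟩
  · intro p hpT hp q hq he
    apply h2 _ (mem_singleton_self _) p hpT
    intro l hl
    rw [mem_insert, mem_singleton] at hl
    rcases hl with rfl | rfl
    · exact ⟨p, hp, by simp⟩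
    · exact ⟨q, hq, he⟩
  · intro L u v hL P hP l0 hl0 hall n hn1 hn2
    rw [mem_singleton] at hP
    subst hP
    exact hL l0 hl0 (hall (a, b) (by simp)) n hn1 hn2

end Pool.Agent.U462.Sh

namespace Pool.Agent.U462.Sh

lemma sexy_sys : Law.IsSystem {((35 : ℤ), (26 : ℤ)), (35, 32)} := by
  refine ⟨?_, ?_⟩
  · intro l hl
    simp only [mem_insert, mem_singleton] at hl
    rcases hl with rfl | rfl
    · exact ⟨by norm_num, by norm_num [Int.isCoprime_iff_gcd_eq_one]⟩
    · exact ⟨by norm_num, by norm_num [Int.isCoprime_iff_gcd_eq_one]⟩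
  · intro l hl l' hl' hne
    simp only [mem_insert, mem_singleton] at hl hl'
    rcases hl with rfl | rfl <;> rcases hl' with rfl | rfl <;> first | exact absurd rfl hne | norm_num

lemma sexy_adm : ∀ p : ℕ, p.Prime → Law.rootCount {((35 : ℤ), (26 : ℤ)), (35, 32)} p < p := by
  intro p hp
  have h2 := hp.two_le
  by_cases h13 : p = 13
  · subst h13
    apply adm_of 1 (by norm_num)
    intro l hl
    simp only [mem_insert, mem_singleton] at hl
    rcases hl with rfl | rfl <;> norm_num
  · by_cases h2' : p = 2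
    · subst h2'
      apply adm_of 1 (by norm_num)
      intro l hl
      simp only [mem_insert, mem_singleton] at hl
      rcases hl with rfl | rfl <;> norm_num
    · apply adm_of 0 (by omega)
      intro l hl
      simp only [mem_insert, mem_singleton] at hl
      rcases hl with rfl | rfl
      · intro hd
        have h3 : p ∣ 26 := by
          have : (p : ℤ) ∣ ((26 : ℕ) : ℤ) := by simpa using hd
          exact Int.natCast_dvd_natCast.1 this
        have h4 : p ∣ 2 * 13 := by norm_num; exact h3
        rcases (Nat.Prime.dvd_mul hp).1 h4 with h5 | h5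
        · exact h2' ((Nat.prime_dvd_prime_iff_eq hp Nat.prime_two).1 h5)
        · exact h13 ((Nat.prime_dvd_prime_iff_eq hp (by norm_num)).1 h5)
      · intro hd
        have h3 : p ∣ 32 := by
          have : (p : ℤ) ∣ ((32 : ℕ) : ℤ) := by simpa using hd
          exact Int.natCast_dvd_natCast.1 this
        have h4 : p ∣ 2 ^ 5 := by norm_num; exact h3
        exact h2' ((Nat.prime_dvd_prime_iff_eq hp Nat.prime_two).1 (hp.dvd_of_dvd_pow h4))

lemma half_sys : Law.IsSystem {((1 : ℤ), (0 : ℤ)), (2, -1)} := by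
  refine ⟨?_, ?_⟩
  · intro l hl
    simp only [mem_insert, mem_singleton] at hl
    rcases hl with rfl | rfl
    · exact ⟨by norm_num, by norm_num [Int.isCoprime_iff_gcd_eq_one]⟩
    · exact ⟨by norm_num, by norm_num [Int.isCoprime_iff_gcd_eq_one]⟩
  · intro l hl l' hl' hne
    simp only [mem_insert, mem_singleton] at hl hl'
    rcases hl with rfl | rfl <;> rcases hl' with rfl | rfl <;> first | exact absurd rfl hne | norm_num

lemma half_adm : ∀ p : ℕ, p.Prime → Law.rootCount {((1 : ℤ), (0 : ℤ)), (2, -1)} p < p := by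
  intro p hp
  have h2 := hp.two_le
  apply adm_of 1 (by omega)
  intro l hl
  simp only [mem_insert, mem_singleton] at hl
  rcases hl with rfl | rfl
  · apply ndvd (by norm_num)
    push_cast
    omega
  · apply ndvd (by norm_num)
    push_cast
    omega

end Pool.Agent.U462.Sh
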