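import Pool.Agent.U462.Sh.Law

/-!
# The uniform Hardy–Littlewood law for given systems and intervals
-/

set_option autoImplicit false

open Finset Filter Topology

namespace Pool.Agent.U462.Sh.Law

/-- **The uniform Hardy–Littlewood law** for the set `S` and the systems `L` and intervals `[u, v)` with
`good L u v`: for every `δ > 0` there is `c > 0` such that for every `k` and all large `X` the following
holds for all systems `L` of `k` linear forms with coefficients of absolute value at most `X`. The singular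
series of `L` converges to some `𝔖`, it is positive if `L` has no local obstruction, and for all intervals
`[u, v)` with `v ≤ X`, `v - u ≥ X ^ δ` and `good L u v` in which all forms have values `≥ 2`, the number of
the `n` in the interval with all values in `S` is `𝔖` times the sum of `∏ 1 / log (a n + b)` over the
interval, up to the error `(v - u) exp (-c √(log X))`. -/
def LawOn (S : Set ℕ) (good : Finset (ℤ × ℤ) → ℕ → ℕ → Prop) : Prop :=
  ∀ δ : ℝ, 0 < δ → ∃ c : ℝ, 0 < c ∧ ∀ k : ℕ, ∃ X₀ : ℕ, ∀ X : ℕ, X₀ ≤ X →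
    ∀ L : Finset (ℤ × ℤ), IsSystem L → #L = k → (∀ l ∈ L, |l.1| ≤ X ∧ |l.2| ≤ X) →
      ∃ 𝔖 : ℝ, Tendsto (series L) atTop (𝓝 𝔖) ∧ ((∀ p : ℕ, p.Prime → rootCount L p < p) → 0 < 𝔖) ∧
        ∀ u v : ℕ, u < v → v ≤ X → (X : ℝ) ^ δ ≤ (v : ℝ) - u →
          (∀ n : ℕ, u ≤ n → n < v → ∀ l ∈ L, 2 ≤ l.1 * (n : ℤ) + l.2) → good L u v →
          |(count S L u v : ℝ) - 𝔖 * weight L u v| ≤
            ((v : ℝ) - u) * Real.exp (-(c * Real.sqrt (Real.log X)))

end Pool.Agent.U462.Sh.Law
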