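import Pool.Agent.U462.Sh.ZInst
import Pool.Agent.U462.Sh.LawOn

/-!
# The general theorem for given systems and intervals
-/

set_option autoImplicit false
set_option maxHeartbeats 4000000

open Finset Filter Topology

namespace Pool.Agent.U462.Sh

/-- fewer systems -/
lemma on_mono {S : Set ℕ} {g g' : Finset (ℤ × ℤ) → ℕ → ℕ → Prop} (h : ∀ L u v, g' L u v → g L u v)
    (hL : Law.LawOn S g) : Law.LawOn S g' := by
  intro δ hδ
  obtain ⟨c, hc, h1⟩ := hL δ hδ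
  refine ⟨c, hc, fun k => ?_⟩
  obtain ⟨X0, h2⟩ := h1 k
  refine ⟨X0, fun X hX L h3 h4 h5 => ?_⟩
  obtain ⟨𝔖, h6, h7, h8⟩ := h2 X hX L h3 h4 h5
  exact ⟨𝔖, h6, h7, fun u v h9 h10 h11 h12 h13 => h8 u v h9 h10 h11 h12 (h L u v h13)⟩

/-- A set with the law up to the number of the values which contain a forbidden set. -/
theorem on_of (H : Finset ℕ → Prop) (h0 : ¬ H ∅) (hsp : SparseFam H) : ∃ S : Set ℕ,
    (∀ m ∈ S, 2 ≤ m ∧ Law.Rough m) ∧ (∀ e : Finset ℕ, H e → ¬ ∀ m ∈ e, m ∈ S) ∧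
    ∀ good : Finset (ℤ × ℤ) → ℕ → ℕ → Prop,
      (∀ k : ℕ, ∃ C : ℝ, ∃ X₀ : ℕ, ∀ X : ℕ, X₀ ≤ X → ∀ L : Finset (ℤ × ℤ), Law.IsSystem L → #L = k →
        (∀ l ∈ L, |l.1| ≤ X ∧ |l.2| ≤ X) → ∀ u v : ℕ, u < v → v ≤ X →
          (∀ n : ℕ, u ≤ n → n < v → ∀ l ∈ L, 2 ≤ l.1 * (n : ℤ) + l.2) → good L u v →
          (({n : ℕ | u ≤ n ∧ n < v ∧ ∃ e : Finset ℕ, H e ∧ ∀ m ∈ e, ∃ l ∈ L, Law.value l n = m}.ncard : ℕ) : ℝ) ≤
            C * Real.sqrt ((v : ℝ) - u)) →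
      Law.LawOn S good := by
  classical
  obtain ⟨c, hc, hgen⟩ := generalZ
  obtain ⟨S, hS1, hS2, hS3⟩ := hgen H h0 hsp
  refine ⟨S, hS2, hS1, ?_⟩
  intro good hgood δ hδ
  obtain ⟨q, hq⟩ : ∃ q : ℕ, q = ⌈1 / δ⌉₊ := ⟨_, rfl⟩
  have hq1 : 1 ≤ q := by
    rw [hq]
    exact Nat.one_le_ceil_iff.2 (by positivity)
  have hcq := hc q hq1
  refine ⟨c q / 2, by positivity, ?_⟩
  intro k
  obtain ⟨X1, hX1⟩ := hS3 q k hq1
  obtain ⟨C, X4, hX4⟩ := hgood k
  obtain ⟨X2, hX2⟩ := sqrt_small C (c q) δ hδ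
  have htz : Tendsto (fun X : ℕ => Real.sqrt (Real.log X)) atTop atTop :=
    Real.tendsto_sqrt_atTop.comp (Real.tendsto_log_atTop.comp tendsto_natCast_atTop_atTop)
  obtain ⟨X3, hX3⟩ := eventually_atTop.1 (htz.eventually (poly_expR 2 (c q / 2) (by positivity) 0))
  refine ⟨X1 + X2 + X3 + X4 + 2, ?_⟩
  intro X hX L hL hk hbox
  obtain ⟨𝔖, hlim, hposi, hlaw⟩ := hX1 X (by omega) L hL hk hbox
  refine ⟨𝔖, hlim, hposi, ?_⟩
  intro u v huv hvX hlen hpos hgL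
  have h1 := hlaw u v huv hvX (by rw [hq]; exact pow_of_rpow hδ (by omega) huv hlen) hpos
  have h2 := (hX4 X (by omega) L hL hk hbox u v huv hvX hpos hgL).trans (hX2 X (by omega) u v hlen)
  have h3 := hX3 X (by omega)
  rw [pow_zero, mul_one] at h3
  obtain ⟨z, hz⟩ : ∃ z, z = Real.sqrt (Real.log X) := ⟨_, rfl⟩
  rw [← hz] at h1 h2 h3 ⊢
  have hN0 : 0 ≤ (v : ℝ) - u := by
    rw [sub_nonneg]; exact_mod_cast huv.le
  have e1 : (Law.count S L u v : ℝ) = (#((Ico u v).filter (fun n => ∀ l ∈ L, val l n ∈ S)) : ℝ) := by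
    unfold Law.count
    congr 1
    rw [← Set.ncard_coe_finset]
    congr 1
    ext n
    rw [mem_coe, mem_filter, mem_Ico, and_assoc]
    rfl
  have e2 : (({n : ℕ | u ≤ n ∧ n < v ∧ ∃ e : Finset ℕ, H e ∧ ∀ m ∈ e, ∃ l ∈ L, Law.value l n = m}.ncard : ℕ) : ℝ) =
      (#((Ico u v).filter (fun n => ¬ Avoids H (valsZ L n))) : ℝ) := by
    congr 1
    rw [← Set.ncard_coe_finset]
    congr 1
    ext n
    rw [mem_coe, mem_filter, mem_Ico, and_assoc]
    unfold Avoids valsZ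
    push Not
    constructor
    · rintro ⟨h4, h5, e, h6, h7⟩
      refine ⟨h4, h5, e, h6, fun m hm => ?_⟩
      obtain ⟨l, hl, hlm⟩ := h7 m hm
      exact mem_image.2 ⟨l, hl, hlm⟩
    · rintro ⟨h4, h5, e, h6, h7⟩
      refine ⟨h4, h5, e, h6, fun m hm => ?_⟩
      exact mem_image.1 (h7 hm)
  rw [e2] at h2
  rw [e1]
  have htwo : 2 * Real.exp (-(c q * z)) ≤ Real.exp (-(c q / 2 * z)) := by
    have h4 : Real.exp (-(c q / 2 * z)) = Real.exp (c q / 2 * z) * Real.exp (-(c q * z)) := by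
      rw [← Real.exp_add]
      congr 1
      ring
    rw [h4]
    exact mul_le_mul_of_nonneg_right h3 (Real.exp_pos _).le
  have h5 := mul_le_mul_of_nonneg_left htwo hN0
  refine h1.trans ?_
  linarith

/-- a family in which every number is linked with few others is sparse -/
lemma sparse_of_few (H : Finset ℕ → Prop) (K : ℕ) (f : ℕ → Finset ℕ) (hf : ∀ n, #(f n) ≤ K)
    (hH : ∀ e, H e → ∀ n ∈ e, ∀ m ∈ e, m ∈ f n) : SparseFam H := by
  intro ε hε
  obtain ⟨M, hM⟩ : ∃ M : ℕ, M = ⌈Real.exp (((K + 1) / ε) ^ 2)⌉₊ := ⟨_, rfl⟩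
  refine ⟨M, ?_⟩
  intro n _ F hF
  have hcardF : #F ≤ K := by
    refine (card_le_card ?_).trans (hf n)
    intro m hm
    obtain ⟨_, e, he, h1, h2⟩ := hF m hm
    exact hH e he n h1 m h2
  have hK : (0 : ℝ) < (K : ℝ) + 1 := by positivity
  have hbig : ∀ m ∈ F, 1 / Real.sqrt (Real.log m) ≤ ε / (K + 1) := by
    intro m hm
    have h1 : Real.exp (((K + 1) / ε) ^ 2) ≤ m := by
      refine (Nat.le_ceil _).trans ?_
      rw [← hM]
      exact_mod_cast (hF m hm).1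
    have h2 : ((K + 1) / ε) ^ 2 ≤ Real.log m := by
      rw [← Real.log_exp (((K + 1) / ε) ^ 2)]
      exact Real.log_le_log (Real.exp_pos _) h1
    have h3 : (K + 1) / ε ≤ Real.sqrt (Real.log m) := Real.le_sqrt_of_sq_le h2
    have h4 : 0 < (K + 1) / ε := by positivity
    calc 1 / Real.sqrt (Real.log m) ≤ 1 / ((K + 1) / ε) := one_div_le_one_div_of_le h4 h3
      _ = ε / (K + 1) := by field_simp
  calc ∑ m ∈ F, 1 / Real.sqrt (Real.log m) ≤ ∑ m ∈ F, ε / (K + 1) := sum_le_sum hbig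
    _ = #F * (ε / (K + 1)) := by rw [sum_const, nsmul_eq_mul]
    _ ≤ (K + 1) * (ε / (K + 1)) := by
        apply mul_le_mul_of_nonneg_right _ (by positivity)
        have : (#F : ℝ) ≤ K := by exact_mod_cast hcardF
        linarith
    _ = ε := by field_simp

/-- **Finite families of linear patterns, at given places.** -/
theorem patOn (Ps : Finset (Finset (ℤ × ℤ))) (hPs : ∀ P ∈ Ps, ((1, 0) : ℤ × ℤ) ∈ P ∧ ∀ l ∈ P, 1 ≤ l.1)
    (T : Finset (ℤ × ℤ) → Set ℕ) : ∃ S : Set ℕ,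
    (∀ m ∈ S, 2 ≤ m ∧ Law.Rough m) ∧ (∀ P ∈ Ps, ∀ t ∈ T P, ¬ ∀ l ∈ P, ∃ m ∈ S, (m : ℤ) = l.1 * t + l.2) ∧
    Law.LawOn S (fun L u v => ∀ P ∈ Ps, ∀ l₀ ∈ L, (∀ l ∈ P, (l.1 * l₀.1, l.1 * l₀.2 + l.2) ∈ L) →
      ∀ n : ℕ, u ≤ n → n < v → Law.value l₀ n ∉ T P) := by
  classical
  obtain ⟨Δ, hΔ⟩ : ∃ Δ : Finset (ℤ × ℤ), Δ = Ps.biUnion id := ⟨_, rfl⟩
  have hmemΔ : ∀ P ∈ Ps, ∀ l ∈ P, l ∈ Δ := fun P hP l hl => by
    rw [hΔ, mem_biUnion]; exact ⟨P, hP, hl⟩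
  obtain ⟨H, hH⟩ : ∃ H : Finset ℕ → Prop, H = fun e => ∃ P ∈ Ps, ∃ t ∈ T P, (∀ l ∈ P, 0 ≤ l.1 * (t : ℤ) + l.2) ∧
    e = P.image (fun l => val l t) := ⟨_, rfl⟩
  have h0 : ¬ H ∅ := by
    rw [hH]
    rintro ⟨P, hP, t, _, _, he⟩
    have h1 : val (1, 0) t ∈ P.image (fun l => val l t) := mem_image_of_mem _ (hPs P hP).1
    rw [← he] at h1
    exact notMem_empty _ h1
  have hsp : SparseFam H := by
    refine sparse_of_few H (#Δ * #Δ)
      (fun n => (Δ ×ˢ Δ).image (fun q => val q.2 (((n : ℤ) - q.1.2) / q.1.1).toNat)) ?_ ?_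
    · intro n
      refine card_image_le.trans ?_
      rw [card_product]
    · intro e he n h1 m h2
      rw [hH] at he
      obtain ⟨P, hP, t, _, hpos, rfl⟩ := he
      obtain ⟨l, hl, hln⟩ := mem_image.1 h1
      obtain ⟨l', hl', hlm⟩ := mem_image.1 h2
      rw [mem_image]
      refine ⟨(l, l'), mem_product.2 ⟨hmemΔ P hP l hl, hmemΔ P hP l' hl'⟩, ?_⟩
      simp only at hln hlm ⊢
      have e1 := val_cast (hpos l hl)
      have hl1 := (hPs P hP).2 l hl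
      have e2 : ((n : ℤ) - l.2) / l.1 = (t : ℤ) := by
        rw [← hln, e1]
        have e3 : l.1 * (t : ℤ) + l.2 - l.2 = l.1 * t := by ring
        rw [e3]
        exact Int.mul_ediv_cancel_left _ (by omega)
      rw [e2, Int.toNat_natCast]
      exact hlm
  obtain ⟨S, hS1, hS2, hS3⟩ := on_of H h0 hsp
  refine ⟨S, hS1, ?_, ?_⟩
  · intro P hP t ht hall
    apply hS2 (P.image (fun l => val l t))
    · rw [hH]
      refine ⟨P, hP, t, ht, fun l hl => ?_, rfl⟩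
      obtain ⟨m, _, hm⟩ := hall l hl
      rw [← hm]
      exact Int.natCast_nonneg m
    · intro m hm
      obtain ⟨l, hl, rfl⟩ := mem_image.1 hm
      obtain ⟨m', hm', hme⟩ := hall l hl
      have : val l t = m' := by
        unfold val
        rw [← hme]
        exact Int.toNat_natCast m'
      rw [this]
      exact hm'
  · apply hS3
    intro k
    refine ⟨((#Δ * (k * k) : ℕ) : ℝ), 0, ?_⟩
    intro X hX L hL hk _ u v huv _ hpos hgood
    have hone : (1 : ℝ) ≤ Real.sqrt ((v : ℝ) - u) := by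
      rw [Real.one_le_sqrt, ← Nat.cast_sub huv.le]
      exact_mod_cast (by omega : 1 ≤ v - u)
    refine le_trans ?_ (le_mul_of_one_le_right (by positivity) hone)
    -- the exceptional `n`
    have hsub : {n : ℕ | u ≤ n ∧ n < v ∧ ∃ e : Finset ℕ, H e ∧ ∀ m ∈ e, ∃ l ∈ L, Law.value l n = m} ⊆
        (((Δ ×ˢ (L ×ˢ L)).filter (fun q => ¬ (q.2.2.1 = q.1.1 * q.2.1.1 ∧ q.2.2.2 = q.1.1 * q.2.1.2 + q.1.2))).biUnion
          fun q => (Ico u v).filter fun n : ℕ => q.2.2.1 * (n : ℤ) + q.2.2.2 =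
            (q.1.1 * q.2.1.1) * n + (q.1.1 * q.2.1.2 + q.1.2) : Finset ℕ) := by
      rintro n ⟨hn1, hn2, e, he, hall⟩
      rw [hH] at he
      obtain ⟨P, hP, t, htT, hpos', rfl⟩ := he
      obtain ⟨l0, hl0, ht⟩ := hall (val (1, 0) t) (mem_image_of_mem _ (hPs P hP).1)
      have e1 : Law.value l0 n = t := by
        rw [ht]
        unfold val
        simp
      have ht' : (t : ℤ) = l0.1 * (n : ℤ) + l0.2 := by
        have e2 := val_cast (l := l0) (n := n) (by have := hpos n hn1 hn2 l0 hl0; linarith)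
        rw [← e2]
        exact_mod_cast e1.symm
      have hex : ∃ l ∈ P, (l.1 * l0.1, l.1 * l0.2 + l.2) ∉ L := by
        by_contra hcon
        push Not at hcon
        exact hgood P hP l0 hl0 hcon n hn1 hn2 (by rw [e1]; exact htT)
      obtain ⟨l, hl, hlL⟩ := hex
      obtain ⟨l1, hl1, hlt⟩ := hall (val l t) (mem_image_of_mem _ hl)
      rw [mem_coe, mem_biUnion]
      refine ⟨(l, (l0, l1)), mem_filter.2 ⟨mem_product.2 ⟨hmemΔ P hP l hl, mem_product.2 ⟨hl0, hl1⟩⟩, ?_⟩, ?_⟩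
      · rintro ⟨h1, h2⟩
        apply hlL
        simp only at h1 h2
        rw [← h1, ← h2]
        exact hl1
      · rw [mem_filter, mem_Ico]
        refine ⟨⟨hn1, hn2⟩, ?_⟩
        simp only
        have e1 := val_cast (l := l1) (n := n) (by have := hpos n hn1 hn2 l1 hl1; linarith)
        have e2 := val_cast (hpos' l hl)
        have e3 : ((val l1 n : ℕ) : ℤ) = ((val l t : ℕ) : ℤ) := by exact_mod_cast hlt
        rw [e1, e2, ht'] at e3
        rw [e3]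
        ring
    have h1 := Set.ncard_le_ncard hsub (Finset.finite_toSet _)
    rw [Set.ncard_coe_finset] at h1
    have h2 : #(((Δ ×ˢ (L ×ˢ L)).filter (fun q => ¬ (q.2.2.1 = q.1.1 * q.2.1.1 ∧
        q.2.2.2 = q.1.1 * q.2.1.2 + q.1.2))).biUnion
          fun q => (Ico u v).filter fun n : ℕ => q.2.2.1 * (n : ℤ) + q.2.2.2 =
            (q.1.1 * q.2.1.1) * n + (q.1.1 * q.2.1.2 + q.1.2)) ≤ #Δ * (k * k) := by
      refine (card_biUnion_le_card_mul _ _ 1 ?_).trans ?_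
      · intro q hq
        rw [mem_filter] at hq
        rw [card_le_one]
        intro m hm m' hm'
        rw [mem_filter] at hm hm'
        exact one_solZ hq.2 hm.2 hm'.2
      · rw [mul_one]
        refine (card_le_card (filter_subset _ _)).trans ?_
        rw [card_product, card_product, hk]
    exact_mod_cast h1.trans h2

end Pool.Agent.U462.Sh
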