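import Pool.Agent.U462.Sh.ZTwo

/-!
# The system of the forms `n` and `4 n + 1`
-/

set_option autoImplicit false

open Finset Filter Topology

namespace Pool.Agent.U462.Sh

lemma four_sys : Law.IsSystem {((1 : ℤ), (0 : ℤ)), (4, 1)} := by
  refine ⟨?_, ?_⟩
  · intro l hl
    simp only [mem_insert, mem_singleton] at hl
    rcases hl with rfl | rfl
    · exact ⟨by norm_num, by norm_num [Int.isCoprime_iff_gcd_eq_one]⟩
    · exact ⟨by norm_num, by norm_num [Int.isCoprime_iff_gcd_eq_one]⟩
  · intro l hl l' hl' hne
    simp only [mem_insert, mem_singleton] at hl hl'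
    rcases hl with rfl | rfl <;> rcases hl' with rfl | rfl <;> first | exact absurd rfl hne | norm_num

lemma four_adm : ∀ p : ℕ, p.Prime → Law.rootCount {((1 : ℤ), (0 : ℤ)), (4, 1)} p < p := by
  intro p hp
  have h2 := hp.two_le
  by_cases h5 : p = 5
  · subst h5
    apply adm_of 2 (by norm_num)
    intro l hl
    simp only [mem_insert, mem_singleton] at hl
    rcases hl with rfl | rfl <;> norm_num
  · apply adm_of 1 (by omega)
    intro l hl
    simp only [mem_insert, mem_singleton] at hl
    rcases hl with rfl | rfl
    · apply ndvd (by norm_num)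
      push_cast
      omega
    · intro hd
      have h3 : p ∣ 5 := by
        have : (p : ℤ) ∣ ((5 : ℕ) : ℤ) := by simpa using hd
        exact Int.natCast_dvd_natCast.1 this
      exact h5 ((Nat.prime_dvd_prime_iff_eq hp Nat.prime_five).1 h3)

end Pool.Agent.U462.Sh
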