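import Pool.Agent.U462.Sh.ZAdm

set_option autoImplicit false

open Finset Filter Topology

namespace Pool.Agent.U462.Sh

lemma pair_sys (a b b' : ℤ) (ha : a ≠ 0) (hb : IsCoprime a b) (hb' : IsCoprime a b') (h : b ≠ b') :
    Law.IsSystem {(a, b), (a, b')} := by
  refine ⟨?_, ?_⟩
  · intro l hl
    simp only [mem_insert, mem_singleton] at hl
    rcases hl with rfl | rfl
    exacts [⟨ha, hb⟩, ⟨ha, hb'⟩]
  · intro l hl l' hl' hne
    simp only [mem_insert, mem_singleton] at hl hl'
    rcases hl with rfl | rfl <;> rcases hl' with rfl | rfl
    · exact absurd rfl hne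
    · intro he
      exact h (mul_left_cancel₀ ha he).symm
    · intro he
      exact h (mul_left_cancel₀ ha he)
    · exact absurd rfl hne

lemma four1_sys : Law.IsSystem {((4 : ℤ), (1 : ℤ)), (4, 3)} :=
  pair_sys 4 1 3 (by norm_num) (by norm_num [Int.isCoprime_iff_gcd_eq_one])
    (by norm_num [Int.isCoprime_iff_gcd_eq_one]) (by norm_num)

lemma four3_sys : Law.IsSystem {((4 : ℤ), (3 : ℤ)), (4, 5)} :=
  pair_sys 4 3 5 (by norm_num) (by norm_num [Int.isCoprime_iff_gcd_eq_one])
    (by norm_num [Int.isCoprime_iff_gcd_eq_one]) (by norm_num)

lemma four1_adm : ∀ p : ℕ, p.Prime → Law.rootCount {((4 : ℤ), (1 : ℤ)), (4, 3)} p < p := by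
  intro p hp
  have h2 := hp.two_le
  by_cases h3 : p = 3
  · subst h3
    apply adm_of 1 (by norm_num)
    intro l hl
    simp only [mem_insert, mem_singleton] at hl
    rcases hl with rfl | rfl <;> norm_num
  · by_cases h2' : p = 2
    · subst h2'
      apply adm_of 1 (by norm_num)
      intro l hl
      simp only [mem_insert, mem_singleton] at hl
      rcases hl with rfl | rfl <;> norm_num
    · apply adm_of 0 (by omega)
      intro l hl
      simp only [mem_insert, mem_singleton] at hl
      rcases hl with rfl | rfl
      · apply ndvd (by norm_num)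
        push_cast
        omega
      · apply ndvd (by norm_num)
        push_cast
        omega

lemma four3_adm : ∀ p : ℕ, p.Prime → Law.rootCount {((4 : ℤ), (3 : ℤ)), (4, 5)} p < p := by
  intro p hp
  have h2 := hp.two_le
  by_cases h3 : p = 3
  · subst h3
    apply adm_of 2 (by norm_num)
    intro l hl
    simp only [mem_insert, mem_singleton] at hl
    rcases hl with rfl | rfl <;> norm_num
  · by_cases h2' : p = 2
    · subst h2'
      apply adm_of 1 (by norm_num)
      intro l hl
      simp only [mem_insert, mem_singleton] at hl
      rcases hl with rfl | rfl <;> norm_num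
    · by_cases h5 : p = 5
      · subst h5
        apply adm_of 1 (by norm_num)
        intro l hl
        simp only [mem_insert, mem_singleton] at hl
        rcases hl with rfl | rfl <;> norm_num
      · have h4 : p ≠ 4 := by
          rintro rfl
          exact absurd hp (by norm_num)
        apply adm_of 0 (by omega)
        intro l hl
        simp only [mem_insert, mem_singleton] at hl
        rcases hl with rfl | rfl
        · apply ndvd (by norm_num)
          push_cast
          omega
        · apply ndvd (by norm_num)
          push_cast
          omega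

end Pool.Agent.U462.Sh
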