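import Pool.Agent.U462.Sh.ZGold

/-!
# Sets without given sums
-/

set_option autoImplicit false
set_option maxHeartbeats 4000000

open Finset Filter Topology

namespace Pool.Agent.U462.Sh

/-- the pairs with a sum in a sparse sequence form a sparse family -/
lemma sum_sparse (N : ℕ → ℕ) (hN1 : ∀ i, 2 ^ 16 ^ i ≤ N i) (hN2 : ∀ i, 2 * N i ≤ N (i + 1)) :
    SparseFam (fun e => ∃ i, ∃ a b : ℕ, a + b = N i ∧ e = {a, b}) := by
  classical
  intro ε hε
  have hmono : ∀ i j, i < j → 2 * N i ≤ N j := by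
    intro i j hij
    obtain ⟨d, rfl⟩ : ∃ d, j = i + 1 + d := ⟨j - (i + 1), by omega⟩
    clear hij
    induction d with
    | zero => exact hN2 i
    | succ d ih =>
      have := hN2 (i + 1 + d)
      have e : i + 1 + (d + 1) = i + 1 + d + 1 := by ring
      rw [e]
      omega
  -- the tail
  obtain ⟨J, hJ⟩ : ∃ J : ℕ, (1 / 2 : ℝ) ^ J ≤ ε / 8 := by
    obtain ⟨J, hJ⟩ := exists_pow_lt_of_lt_one (by positivity : (0 : ℝ) < ε / 8) (by norm_num : (1 / 2 : ℝ) < 1)
    exact ⟨J, hJ.le⟩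
  obtain ⟨M, hM⟩ : ∃ M : ℕ, M = max (⌈Real.exp ((4 / ε) ^ 2)⌉₊) (N (J + 1)) + 2 := ⟨_, rfl⟩
  refine ⟨M, ?_⟩
  intro n hn F hF
  -- each member of F is N i - n or n
  have hidx : ∀ m ∈ F, m ≠ n → ∃ i, m + n = N i := by
    intro m hm hmn
    obtain ⟨_, e, ⟨i, a, b, hab, rfl⟩, h1, h2⟩ := hF m hm
    simp only [mem_insert, mem_singleton] at h1 h2
    refine ⟨i, ?_⟩
    rcases h1 with rfl | rfl <;> rcases h2 with rfl | rfl
    · exact absurd rfl hmn
    · omega
    · omega
    · exact absurd rfl hmn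
  have hbig : ∀ m : ℕ, M ≤ m → 1 / Real.sqrt (Real.log m) ≤ ε / 4 := by
    intro m hm
    have h1 : Real.exp ((4 / ε) ^ 2) ≤ m := by
      refine (Nat.le_ceil _).trans ?_
      have : ⌈Real.exp ((4 / ε) ^ 2)⌉₊ ≤ m := by
        have := le_max_left (⌈Real.exp ((4 / ε) ^ 2)⌉₊) (N (J + 1))
        omega
      exact_mod_cast this
    have h2 : (4 / ε) ^ 2 ≤ Real.log m := by
      rw [← Real.log_exp ((4 / ε) ^ 2)]
      exact Real.log_le_log (Real.exp_pos _) h1
    have h3 : 4 / ε ≤ Real.sqrt (Real.log m) := Real.le_sqrt_of_sq_le h2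
    calc 1 / Real.sqrt (Real.log m) ≤ 1 / (4 / ε) := one_div_le_one_div_of_le (by positivity) h3
      _ = ε / 4 := by rw [one_div_div]
  have hnonneg : ∀ m : ℕ, 0 ≤ 1 / Real.sqrt (Real.log (m : ℝ)) := fun m => by positivity
  -- split F
  obtain ⟨F1, hF1⟩ : ∃ F1, F1 = F.filter (fun m => m = n ∨ m ≤ n) := ⟨_, rfl⟩
  obtain ⟨F2, hF2⟩ : ∃ F2, F2 = F.filter (fun m => ¬ (m = n ∨ m ≤ n)) := ⟨_, rfl⟩
  have hsplit : ∑ m ∈ F, 1 / Real.sqrt (Real.log (m : ℝ)) =
      ∑ m ∈ F1, 1 / Real.sqrt (Real.log (m : ℝ)) + ∑ m ∈ F2, 1 / Real.sqrt (Real.log (m : ℝ)) := by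
    rw [hF1, hF2]
    exact (sum_filter_add_sum_filter_not F _ _).symm
  -- F1 has at most two elements
  have hc1 : #F1 ≤ 2 := by
    have hsub : F1 ⊆ insert n (F1.filter fun m => m < n) := by
      intro m hm
      have hm' := hm
      rw [hF1, mem_filter] at hm
      rw [mem_insert, mem_filter]
      rcases hm.2 with h | h
      · left; exact h
      · by_cases hmn : m = n
        · left; exact hmn
        · right; exact ⟨hm', by omega⟩
    have hone : #(F1.filter fun m => m < n) ≤ 1 := by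
      rw [card_le_one]
      intro m hm m' hm'
      rw [mem_filter, hF1, mem_filter] at hm hm'
      obtain ⟨i, hi⟩ := hidx m hm.1.1 (by omega)
      obtain ⟨i', hi'⟩ := hidx m' hm'.1.1 (by omega)
      by_contra hne
      have hii : i ≠ i' := by
        rintro rfl
        omega
      rcases lt_or_gt_of_ne hii with h | h
      · have := hmono i i' h
        have := hm.2
        omega
      · have := hmono i' i h
        have := hm.2
        omega
    have := (card_le_card hsub).trans (card_insert_le _ _)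
    omega
  have hs1 : ∑ m ∈ F1, 1 / Real.sqrt (Real.log (m : ℝ)) ≤ ε / 2 := by
    calc ∑ m ∈ F1, 1 / Real.sqrt (Real.log (m : ℝ)) ≤ ∑ m ∈ F1, ε / 4 := by
          apply sum_le_sum
          intro m hm
          rw [hF1, mem_filter] at hm
          exact hbig m (hF m hm.1).1
      _ = #F1 * (ε / 4) := by rw [sum_const, nsmul_eq_mul]
      _ ≤ 2 * (ε / 4) := by
          apply mul_le_mul_of_nonneg_right _ (by positivity)
          exact_mod_cast hc1
      _ = ε / 2 := by ring
  -- F2: m > n, index i with N i > 2 n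
  have hidx2 : ∀ m ∈ F2, ∃ i, m + n = N i ∧ J + 1 ≤ i ∧ 16 ^ i ≤ 2 * (Nat.log 2 m + 1) := by
    intro m hm
    rw [hF2, mem_filter] at hm
    push Not at hm
    obtain ⟨i, hi⟩ := hidx m hm.1 hm.2.1
    refine ⟨i, hi, ?_, ?_⟩
    · by_contra hcon
      have h1 : N i ≤ N (J + 1) := by
        rcases Nat.lt_or_ge i (J + 1) with h | h
        · have := hmono i (J + 1) h
          omega
        · exact absurd h hcon
      have h2 := le_max_right (⌈Real.exp ((4 / ε) ^ 2)⌉₊) (N (J + 1))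
      omega
    · have h1 : 2 ^ 16 ^ i ≤ 2 * m := by
        have := hN1 i
        omega
      have h2 : m < 2 ^ (Nat.log 2 m + 1) := Nat.lt_pow_succ_log_self (by norm_num) m
      have h3 : 2 ^ 16 ^ i < 2 ^ (Nat.log 2 m + 2) := by
        calc 2 ^ 16 ^ i ≤ 2 * m := h1
          _ < 2 * 2 ^ (Nat.log 2 m + 1) := by omega
          _ = 2 ^ (Nat.log 2 m + 2) := by ring
      have h4 := (Nat.pow_lt_pow_iff_right (by norm_num : 1 < 2)).1 h3
      omega
  choose! idx hidx3 using hidx2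
  have hterm : ∀ m ∈ F2, 1 / Real.sqrt (Real.log (m : ℝ)) ≤ 2 * (1 / 2 : ℝ) ^ (idx m) := by
    intro m hm
    obtain ⟨h1, h2, h3⟩ := hidx3 m hm
    have hmM : 2 ≤ m := by
      rw [hF2, mem_filter] at hm
      have := (hF m hm.1).1
      omega
    have h4 : (Nat.log 2 m : ℝ) * Real.log 2 ≤ Real.log m := by
      rw [← Real.log_pow]
      apply Real.log_le_log (by positivity)
      exact_mod_cast Nat.pow_log_le_self 2 (by omega)
    have h5 : (1 : ℝ) ≤ Nat.log 2 m := by
      exact_mod_cast (Nat.log_pos (by norm_num) hmM : 0 < Nat.log 2 m)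
    have h6 : ((16 : ℝ)) ^ idx m ≤ 2 * ((Nat.log 2 m : ℝ) + 1) := by exact_mod_cast h3
    have h7 := Real.log_two_gt_d9
    have h8 : (16 : ℝ) ^ idx m / 8 ≤ Real.log m := by nlinarith
    have h9 : (4 : ℝ) ^ idx m / 3 ≤ Real.sqrt (Real.log m) := by
      apply Real.le_sqrt_of_sq_le
      have e : ((4 : ℝ) ^ idx m / 3) ^ 2 = 16 ^ idx m / 9 := by
        rw [div_pow, ← pow_mul, mul_comm, pow_mul]
        norm_num
      rw [e]
      have : (0 : ℝ) < 16 ^ idx m := by positivity
      linarith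
    have h10 : (1 / 2 : ℝ) ^ idx m * (4 : ℝ) ^ idx m = 2 ^ idx m := by
      rw [← mul_pow]
      norm_num
    have h11 : (2 : ℝ) ≤ 2 ^ idx m := by
      calc (2 : ℝ) = 2 ^ 1 := by norm_num
        _ ≤ 2 ^ idx m := pow_le_pow_right₀ (by norm_num) (by omega)
    have h12 : (0 : ℝ) < Real.sqrt (Real.log m) := by
      have : (0 : ℝ) < 4 ^ idx m / 3 := by positivity
      linarith
    rw [div_le_iff₀ h12]
    have h13 : 2 * (1 / 2 : ℝ) ^ idx m * (4 ^ idx m / 3) ≤ 2 * (1 / 2 : ℝ) ^ idx m * Real.sqrt (Real.log m) :=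
      mul_le_mul_of_nonneg_left h9 (by positivity)
    have h14 : 2 * (1 / 2 : ℝ) ^ idx m * (4 ^ idx m / 3) = 2 / 3 * 2 ^ idx m := by
      rw [← h10]
      ring
    rw [h14] at h13
    linarith
  have hinj : Set.InjOn idx (F2 : Set ℕ) := by
    intro m hm m' hm' he
    have h1 := (hidx3 m (by exact_mod_cast hm)).1
    have h2 := (hidx3 m' (by exact_mod_cast hm')).1
    rw [he] at h1
    omega
  have hs2 : ∑ m ∈ F2, 1 / Real.sqrt (Real.log (m : ℝ)) ≤ ε / 2 := by
    calc ∑ m ∈ F2, 1 / Real.sqrt (Real.log (m : ℝ)) ≤ ∑ m ∈ F2, 2 * (1 / 2 : ℝ) ^ (idx m) := sum_le_sum hterm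
      _ = ∑ i ∈ F2.image idx, 2 * (1 / 2 : ℝ) ^ i := by
          rw [sum_image]
          intro m hm m' hm' he
          exact hinj hm hm' he
      _ ≤ ∑ i ∈ (range (F2.sup idx + 1)).filter (fun i => J + 1 ≤ i), 2 * (1 / 2 : ℝ) ^ i := by
          apply sum_le_sum_of_subset_of_nonneg
          · intro i hi
            obtain ⟨m, hm, rfl⟩ := mem_image.1 hi
            rw [mem_filter, mem_range]
            exact ⟨Nat.lt_succ_of_le (le_sup (f := idx) hm), (hidx3 m hm).2.1⟩
          · intro i _ _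
            positivity
      _ ≤ 2 * (1 / 2 : ℝ) ^ J := by
          have hgeo : ∀ T : ℕ, ∑ i ∈ (range T).filter (fun i => J + 1 ≤ i), 2 * (1 / 2 : ℝ) ^ i ≤
              2 * (1 / 2 : ℝ) ^ J - 2 * (1 / 2 : ℝ) ^ (max T (J + 1) - 1) := by
            intro T
            induction T with
            | zero =>
              simp
            | succ T ih =>
              rw [range_add_one, filter_insert]
              split_ifs with h
              · rw [sum_insert (by simp)]
                have e1 : max T (J + 1) - 1 = T - 1 := by omega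
                have e2 : max (T + 1) (J + 1) - 1 = T := by omega
                rw [e1] at ih
                rw [e2]
                obtain ⟨T', rfl⟩ : ∃ T', T = T' + 1 := ⟨T - 1, by omega⟩
                rw [Nat.add_sub_cancel] at ih
                have e3 : (1 / 2 : ℝ) ^ (T' + 1) = (1 / 2) ^ T' / 2 := by rw [pow_succ]; ring
                rw [e3]
                linarith
              · have e1 : max T (J + 1) - 1 = J := by omega
                have e2 : max (T + 1) (J + 1) - 1 = J := by omega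
                rw [e1] at ih
                rw [e2]
                exact ih
          have h1 := hgeo (F2.sup idx + 1)
          have h2 : (0 : ℝ) ≤ 2 * (1 / 2 : ℝ) ^ (max (F2.sup idx + 1) (J + 1) - 1) := by positivity
          linarith
      _ ≤ 2 * (ε / 8) := by linarith
      _ ≤ ε / 2 := by linarith
  rw [hsplit]
  linarith

/-- sets without given sums -/
theorem sumOn (N : ℕ → ℕ) (hN1 : ∀ i, 2 ^ 16 ^ i ≤ N i) (hN2 : ∀ i, 2 * N i ≤ N (i + 1)) : ∃ S : Set ℕ,
    (∀ m ∈ S, 2 ≤ m ∧ Law.Rough m) ∧ (∀ i, ∀ a ∈ S, ∀ b ∈ S, a + b ≠ N i) ∧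
    Law.LawOn S (fun L u v => (({n : ℕ | u ≤ n ∧ n < v ∧ ∃ i, ∃ l ∈ L, ∃ l' ∈ L,
      Law.value l n + Law.value l' n = N i}.ncard : ℕ) : ℝ) ≤ Real.sqrt ((v : ℝ) - u)) := by
  classical
  obtain ⟨S, h1, h2, h3⟩ := on_of (fun e => ∃ i, ∃ a b : ℕ, a + b = N i ∧ e = {a, b}) (by
    rintro ⟨i, a, b, _, he⟩
    have : a ∈ (∅ : Finset ℕ) := by rw [he]; simp
    exact notMem_empty _ this) (sum_sparse N hN1 hN2)
  refine ⟨S, h1, ?_, ?_⟩
  · intro i a ha b hb hab
    apply h2 {a, b} ⟨i, a, b, hab, rfl⟩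
    intro m hm
    simp only [mem_insert, mem_singleton] at hm
    rcases hm with rfl | rfl
    exacts [ha, hb]
  · apply h3
    intro k
    refine ⟨1, 0, ?_⟩
    intro X _ L _ _ _ u v _ _ _ hgood
    rw [one_mul]
    refine le_trans ?_ hgood
    rw [Nat.cast_le]
    apply Set.ncard_le_ncard _ ((Set.finite_Iio v).subset fun n hn => hn.2.1)
    rintro n ⟨hn1, hn2, e, ⟨i, a, b, hab, rfl⟩, hall⟩
    obtain ⟨l, hl, hl2⟩ := hall a (by simp)
    obtain ⟨l', hl', hl2'⟩ := hall b (by simp)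
    exact ⟨hn1, hn2, i, l, hl, l', hl', by rw [hl2, hl2', hab]⟩

end Pool.Agent.U462.Sh
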