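import Pool.Agent.U462.Sh.ZPat

/-!
# Instances
-/

set_option autoImplicit false

open Finset Filter Topology

namespace Pool.Agent.U462.Sh

/-- fewer systems -/
lemma law_mono {S : Set ℕ} {g g' : Finset (ℤ × ℤ) → Prop} (h : ∀ L, g' L → g L) (hL : Law.Law S g) :
    Law.Law S g' := by
  intro δ hδ
  obtain ⟨c, hc, h1⟩ := hL δ hδ
  refine ⟨c, hc, fun k => ?_⟩
  obtain ⟨X0, h2⟩ := h1 k
  exact ⟨X0, fun X hX L h3 h4 h5 h6 => h2 X hX L h3 h4 h5 (h L h6)⟩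

/-- one or several sets of shifts -/
theorem shifts (Ds : Finset (Finset ℕ)) (h0 : ∀ D ∈ Ds, 0 ∈ D) : ∃ S : Set ℕ,
    (∀ m ∈ S, 2 ≤ m ∧ Law.Rough m) ∧ (∀ D ∈ Ds, ∀ t : ℕ, ¬ ∀ d ∈ D, t + d ∈ S) ∧
    Law.Law S (fun L => ∀ D ∈ Ds, ¬ ∃ a b : ℤ, ∀ d ∈ D, (a, b + d) ∈ L) := by
  classical
  obtain ⟨S, h1, h2, h3⟩ := pat (Ds.image fun D : Finset ℕ => D.image fun d : ℕ => ((1, (d : ℤ)) : ℤ × ℤ)) (by
    intro P hP
    obtain ⟨D, hD, rfl⟩ := mem_image.1 hP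
    refine ⟨mem_image.2 ⟨0, h0 D hD, by simp⟩, ?_⟩
    intro l hl
    obtain ⟨d, _, rfl⟩ := mem_image.1 hl
    exact le_refl _)
  refine ⟨S, h1, ?_, law_mono ?_ h3⟩
  · intro D hD t hall
    apply h2 _ (mem_image_of_mem _ hD) t
    intro l hl
    obtain ⟨d, hd, rfl⟩ := mem_image.1 hl
    exact ⟨t + d, hall d hd, by push_cast; ring⟩
  · intro L hL P hP
    obtain ⟨D, hD, rfl⟩ := mem_image.1 hP
    rintro ⟨l0, _, hall⟩
    apply hL D hD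
    refine ⟨l0.1, l0.2, fun d hd => ?_⟩
    have h4 := hall _ (mem_image_of_mem _ hd)
    simpa using h4

/-- one set of shifts -/
theorem shift (D : Finset ℕ) (h0 : 0 ∈ D) : ∃ S : Set ℕ,
    (∀ m ∈ S, 2 ≤ m ∧ Law.Rough m) ∧ (∀ t : ℕ, ¬ ∀ d ∈ D, t + d ∈ S) ∧
    Law.Law S (fun L => ¬ ∃ a b : ℤ, ∀ d ∈ D, (a, b + d) ∈ L) := by
  obtain ⟨S, h1, h2, h3⟩ := shifts {D} (by
    intro D' hD'
    rw [mem_singleton] at hD'
    rw [hD']
    exact h0)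
  refine ⟨S, h1, h2 D (mem_singleton_self _), law_mono ?_ h3⟩
  intro L hL D' hD'
  rw [mem_singleton] at hD'
  rw [hD']
  exact hL

/-- one linear map -/
theorem affine (a b : ℤ) (ha : 1 ≤ a) : ∃ S : Set ℕ,
    (∀ m ∈ S, 2 ≤ m ∧ Law.Rough m) ∧ (∀ p ∈ S, ∀ q ∈ S, (q : ℤ) ≠ a * p + b) ∧
    Law.Law S (fun L => ¬ ∃ l ∈ L, (a * l.1, a * l.2 + b) ∈ L) := by
  classical
  obtain ⟨S, h1, h2, h3⟩ := pat {{(1, 0), (a, b)}} (by
    intro P hP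
    rw [mem_singleton] at hP
    subst hP
    refine ⟨by simp, ?_⟩
    intro l hl
    rw [mem_insert, mem_singleton] at hl
    rcases hl with rfl | rfl
    · exact le_refl _
    · exact ha)
  refine ⟨S, h1, ?_, law_mono ?_ h3⟩
  · intro p hp q hq he
    apply h2 _ (mem_singleton_self _) p
    intro l hl
    rw [mem_insert, mem_singleton] at hl
    rcases hl with rfl | rfl
    · exact ⟨p, hp, by simp⟩
    · exact ⟨q, hq, he⟩
  · intro L hL P hP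
    rw [mem_singleton] at hP
    subst hP
    rintro ⟨l0, hl0, hall⟩
    exact hL ⟨l0, hl0, hall (a, b) (by simp)⟩

/-- the law for all systems -/
theorem all : ∃ S : Set ℕ, (∀ m ∈ S, 2 ≤ m ∧ Law.Rough m) ∧ Law.Law S (fun _ => True) := by
  obtain ⟨S, h1, _, h3⟩ := pat ∅ (by simp)
  exact ⟨S, h1, law_mono (fun L _ P hP => absurd hP (notMem_empty _)) h3⟩

end Pool.Agent.U462.Sh
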