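import Pool.Agent.U462.Sh.ZOn

/-!
# Numbers `n` and `f n`, `f` a polynomial of degree at least two
-/

set_option autoImplicit false
set_option maxHeartbeats 4000000

open Finset Filter Topology

namespace Pool.Agent.U462.Sh

theorem polyFree (F : Finset (Polynomial ℤ)) (hF : ∀ f ∈ F, 2 ≤ f.natDegree) : ∃ S : Set ℕ,
    (∀ m ∈ S, 2 ≤ m ∧ Law.Rough m) ∧ (∀ f ∈ F, ∀ n ∈ S, ∀ m ∈ S, (m : ℤ) ≠ f.eval (n : ℤ)) ∧
    Law.LawOn S (fun _ _ _ => True) := by
  classical
  obtain ⟨H, hH⟩ : ∃ H : Finset ℕ → Prop, H = fun e => ∃ f ∈ F, ∃ n m : ℕ, (m : ℤ) = f.eval (n : ℤ) ∧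
    e = {n, m} := ⟨_, rfl⟩
  have h0 : ¬ H ∅ := by
    rw [hH]
    rintro ⟨f, _, n, m, _, he⟩
    have : n ∈ (∅ : Finset ℕ) := by rw [he]; simp
    exact notMem_empty _ this
  obtain ⟨D, hD⟩ : ∃ D : ℕ, ∀ f ∈ F, f.natDegree ≤ D :=
    ⟨F.sup Polynomial.natDegree, fun f hf => le_sup (f := Polynomial.natDegree) hf⟩
  have hsp : SparseFam H := by
    refine sparse_of_few H (1 + #F + #F * D) (fun n => insert n (F.image (fun f => (f.eval (n : ℤ)).toNat) ∪
      F.biUnion (fun f => (f - Polynomial.C (n : ℤ)).roots.toFinset.image Int.toNat))) ?_ ?_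
    · intro n
      refine (card_insert_le _ _).trans ?_
      have h1 := card_union_le (F.image (fun f => (f.eval (n : ℤ)).toNat))
        (F.biUnion (fun f => (f - Polynomial.C (n : ℤ)).roots.toFinset.image Int.toNat))
      have h2 : #(F.image (fun f => (f.eval (n : ℤ)).toNat)) ≤ #F := card_image_le
      have h3 : #(F.biUnion (fun f => (f - Polynomial.C (n : ℤ)).roots.toFinset.image Int.toNat)) ≤ #F * D := by
        apply card_biUnion_le_card_mul
        intro f hf
        refine card_image_le.trans ?_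
        refine (Multiset.toFinset_card_le _).trans ?_
        refine (Polynomial.card_roots' _).trans ?_
        rw [Polynomial.natDegree_sub_C]
        exact hD f hf
      omega
    · intro e he n hn m hm
      rw [hH] at he
      obtain ⟨f, hf, a, b, hab, rfl⟩ := he
      have hroot : ∀ x y : ℕ, (y : ℤ) = f.eval (x : ℤ) →
          x ∈ (f - Polynomial.C (y : ℤ)).roots.toFinset.image Int.toNat := by
        intro x y hxy
        rw [mem_image]
        refine ⟨(x : ℤ), ?_, by simp⟩
        rw [Multiset.mem_toFinset, Polynomial.mem_roots]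
        · rw [Polynomial.IsRoot.def, Polynomial.eval_sub, Polynomial.eval_C, hxy, sub_self]
        · intro h0
          have h2 : f.natDegree = 0 := by
            have : f = Polynomial.C (y : ℤ) := by rwa [sub_eq_zero] at h0
            rw [this, Polynomial.natDegree_C]
          have := hF f hf
          omega
      simp only [mem_insert, mem_singleton] at hn hm
      simp only [mem_insert, mem_union, mem_biUnion]
      rcases hn with hn | hn <;> rcases hm with hm | hm
      · left
        rw [hn, hm]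
      · right; left
        rw [mem_image]
        exact ⟨f, hf, by rw [hn, hm, ← hab]; simp⟩
      · right; right
        exact ⟨f, hf, by rw [hn, hm]; exact hroot _ _ hab⟩
      · left
        rw [hn, hm]
  obtain ⟨S, h1, h2, h3⟩ := on_of H h0 hsp
  refine ⟨S, h1, ?_, h3 _ ?_⟩
  · intro f hf n hn m hm hnm
    apply h2 {n, m}
    · rw [hH]
      exact ⟨f, hf, n, m, hnm, rfl⟩
    · intro x hx
      simp only [mem_insert, mem_singleton] at hx
      rcases hx with rfl | rfl
      · exact hn
      · exact hm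
  · intro k
    refine ⟨((#F * (k * k) * D : ℕ) : ℝ), 0, ?_⟩
    intro N _ L hL hk hbox u v huv hvX hval _
    obtain ⟨G, hG⟩ : ∃ G : Polynomial ℤ → ℤ × ℤ → ℤ × ℤ → Polynomial ℤ, G = fun f l l' =>
      f.comp (Polynomial.C l.1 * Polynomial.X + Polynomial.C l.2) -
        (Polynomial.C l'.1 * Polynomial.X + Polynomial.C l'.2) := ⟨_, rfl⟩
    have hcomp : ∀ f : Polynomial ℤ, ∀ l ∈ L,
        (f.comp (Polynomial.C l.1 * Polynomial.X + Polynomial.C l.2)).natDegree = f.natDegree := by
      intro f l hl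
      rw [Polynomial.natDegree_comp, Polynomial.natDegree_linear (hL.1 l hl).1, mul_one]
    have hne : ∀ f ∈ F, ∀ l ∈ L, ∀ l' ∈ L, G f l l' ≠ 0 := by
      intro f hf l hl l' _ h
      rw [hG] at h
      simp only at h
      rw [sub_eq_zero] at h
      have h6 : (Polynomial.C l'.1 * Polynomial.X + Polynomial.C l'.2 : Polynomial ℤ).natDegree ≤ 1 :=
        Polynomial.natDegree_linear_le
      rw [← h, hcomp f l hl] at h6
      have := hF f hf
      omega
    have hdeg : ∀ f ∈ F, ∀ l ∈ L, ∀ l' ∈ L, (G f l l').natDegree ≤ D := by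
      intro f hf l hl l' _
      rw [hG]
      refine (Polynomial.natDegree_sub_le _ _).trans (max_le ?_ ?_)
      · rw [hcomp f l hl]
        exact hD f hf
      · refine Polynomial.natDegree_linear_le.trans ?_
        have h7 := hF f hf
        have h8 := hD f hf
        omega
    have hsub : {n : ℕ | u ≤ n ∧ n < v ∧ ∃ e : Finset ℕ, H e ∧ ∀ m ∈ e, ∃ l ∈ L, Law.value l n = m} ⊆
        (((F ×ˢ (L ×ˢ L)).biUnion fun q => (G q.1 q.2.1 q.2.2).roots.toFinset.image Int.toNat : Finset ℕ) :
          Set ℕ) := by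
      rintro n ⟨hn1, hn2, e, he, hall⟩
      rw [hH] at he
      obtain ⟨f, hf, a, b, hab, rfl⟩ := he
      obtain ⟨l, hl, hla⟩ := hall a (by simp)
      obtain ⟨l', hl', hlb⟩ := hall b (by simp)
      have e1 : l.1 * (n : ℤ) + l.2 = a := by
        have h9 := hval n hn1 hn2 l hl
        rw [← hla]
        unfold Law.value
        rw [Int.toNat_of_nonneg (by linarith)]
      have e2 : l'.1 * (n : ℤ) + l'.2 = b := by
        have h9 := hval n hn1 hn2 l' hl'
        rw [← hlb]
        unfold Law.value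
        rw [Int.toNat_of_nonneg (by linarith)]
      rw [mem_coe, mem_biUnion]
      refine ⟨(f, (l, l')), mem_product.2 ⟨hf, mem_product.2 ⟨hl, hl'⟩⟩, ?_⟩
      rw [mem_image]
      refine ⟨(n : ℤ), ?_, by simp⟩
      rw [Multiset.mem_toFinset, Polynomial.mem_roots (hne f hf l hl l' hl'), hG]
      simp only [Polynomial.IsRoot.def, Polynomial.eval_sub, Polynomial.eval_comp, Polynomial.eval_add,
        Polynomial.eval_mul, Polynomial.eval_C, Polynomial.eval_X]
      rw [e1, e2, ← hab, sub_self]
    have hc : {n : ℕ | u ≤ n ∧ n < v ∧ ∃ e : Finset ℕ, H e ∧ ∀ m ∈ e, ∃ l ∈ L, Law.value l n = m}.ncard ≤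
        #F * (k * k) * D := by
      refine (Set.ncard_le_ncard hsub (finite_toSet _)).trans ?_
      rw [Set.ncard_coe_finset]
      have h10 : #(F ×ˢ (L ×ˢ L)) = #F * (k * k) := by
        rw [card_product, card_product, hk]
      rw [← h10]
      apply card_biUnion_le_card_mul
      rintro ⟨f, l, l'⟩ hq
      rw [mem_product, mem_product] at hq
      refine card_image_le.trans ?_
      refine (Multiset.toFinset_card_le _).trans ?_
      exact (Polynomial.card_roots' _).trans (hdeg f hq.1 l hq.2.1 l' hq.2.2)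
    have hs : 1 ≤ Real.sqrt ((v : ℝ) - u) := by
      rw [Real.one_le_sqrt]
      have : (u : ℝ) + 1 ≤ v := by exact_mod_cast huv
      linarith
    have hcR : (({n : ℕ | u ≤ n ∧ n < v ∧ ∃ e : Finset ℕ, H e ∧ ∀ m ∈ e, ∃ l ∈ L, Law.value l n = m}.ncard : ℕ) : ℝ) ≤
        ((#F * (k * k) * D : ℕ) : ℝ) := by exact_mod_cast hc
    refine hcR.trans ?_
    exact le_mul_of_one_le_right (by positivity) hs

end Pool.Agent.U462.Sh
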