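import Pool.Agent.U462.Sh.ZMany

/-!
# Pairs with given sum
-/

set_option autoImplicit false
set_option maxHeartbeats 4000000

open Finset Filter Topology

namespace Pool.Agent.U462.Sh

/-- the law gives many values in long intervals, uniformly for the systems with singular series `≥ s` -/
lemma manyU {S : Set ℕ} {good : Finset (ℤ × ℤ) → ℕ → ℕ → Prop} (hlaw : Law.LawOn S good) (k : ℕ) (s : ℝ)
    (hs : 0 < s) (δ : ℝ) (hδ : 0 < δ) (K : ℕ) :
    ∃ X₀ : ℕ, ∀ X : ℕ, X₀ ≤ X → ∀ L : Finset (ℤ × ℤ), Law.IsSystem L → #L = k →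
      (∀ l ∈ L, |l.1| ≤ X ∧ |l.2| ≤ X) → (∀ t, s ≤ Law.series L t) →
      ∀ u v : ℕ, u < v → v ≤ X → (X : ℝ) ^ δ ≤ (v : ℝ) - u →
      (∀ n : ℕ, u ≤ n → n < v → ∀ l ∈ L, 2 ≤ l.1 * (n : ℤ) + l.2) → good L u v → K ≤ Law.count S L u v := by
  classical
  obtain ⟨c, hc, h1⟩ := hlaw δ hδ
  obtain ⟨X1, h2⟩ := h1 k
  have htz : Tendsto (fun X : ℕ => Real.sqrt (Real.log X)) atTop atTop :=
    Real.tendsto_sqrt_atTop.comp (Real.tendsto_log_atTop.comp tendsto_natCast_atTop_atTop)
  obtain ⟨X2, hX2⟩ := eventually_atTop.1 (htz.eventually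
    (((poly_expR (2 * 3 ^ k / s) c hc (2 * k)).and (poly_expR (K * (2 * 3 ^ k) / s) δ hδ (2 * k))).and
      (eventually_ge_atTop 1)))
  refine ⟨X1 + X2 + 2, ?_⟩
  intro X hX L hL hk hbox hser u v huv hvX hlen hval hgood
  obtain ⟨𝔖, hlim, _, h3⟩ := h2 X (by omega) L hL hk hbox
  have h𝔖s : s ≤ 𝔖 := ge_of_tendsto' hlim hser
  have h4 := h3 u v huv hvX hlen hval hgood
  obtain ⟨⟨h5, h6⟩, h7⟩ := hX2 X (by omega)
  obtain ⟨z, hz⟩ : ∃ z, z = Real.sqrt (Real.log X) := ⟨_, rfl⟩
  rw [← hz] at h4 h5 h6 h7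
  have hXR : (2 : ℝ) ≤ X := by exact_mod_cast (by omega : 2 ≤ X)
  have hzsq : z ^ 2 = Real.log X := by rw [hz]; exact Real.sq_sqrt (Real.log_natCast_nonneg X)
  have hN0 : 0 ≤ (v : ℝ) - u := by
    rw [sub_nonneg]; exact_mod_cast huv.le
  -- the weight
  have hw : ((v : ℝ) - u) / (3 * z ^ 2) ^ k ≤ Law.weight L u v := by
    unfold Law.weight
    have h8 : ∀ n ∈ Ico u v, 1 / (3 * z ^ 2) ^ k ≤ ∏ l ∈ L, 1 / Real.log (Law.value l n) := by
      intro n hn
      rw [mem_Ico] at hn
      rw [← hk, ← one_div_pow, ← prod_const]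
      apply Finset.prod_le_prod
      · intro _ _; positivity
      · intro l hl
        have h9 := hval n hn.1 hn.2 l hl
        have h10 : ((Law.value l n : ℕ) : ℤ) = l.1 * (n : ℤ) + l.2 := Int.toNat_of_nonneg (by linarith)
        have h11 : (2 : ℝ) ≤ Law.value l n := by
          have : (2 : ℤ) ≤ ((Law.value l n : ℕ) : ℤ) := by rw [h10]; exact h9
          exact_mod_cast this
        have h12 : ((Law.value l n : ℕ) : ℝ) ≤ (X : ℝ) ^ 3 := by
          have h13 := hbox l hl
          have h14 : l.1 * (n : ℤ) ≤ X * X := by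
            have h15 : l.1 ≤ X := (le_abs_self _).trans h13.1
            have h16 : (n : ℤ) ≤ X := by exact_mod_cast (by omega : n ≤ X)
            have h17 : (0 : ℤ) ≤ n := Int.natCast_nonneg n
            have h18 : (0 : ℤ) ≤ X := Int.natCast_nonneg X
            calc l.1 * (n : ℤ) ≤ X * n := mul_le_mul_of_nonneg_right h15 h17
              _ ≤ X * X := mul_le_mul_of_nonneg_left h16 h18
          have h19 : l.2 ≤ X := (le_abs_self _).trans h13.2
          have h20 : ((Law.value l n : ℕ) : ℤ) ≤ X * X + X := by rw [h10]; linarith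
          have h21 : ((Law.value l n : ℕ) : ℝ) ≤ X * X + X := by exact_mod_cast h20
          nlinarith
        have h22 : Real.log (Law.value l n) ≤ 3 * z ^ 2 := by
          rw [hzsq]
          have := Real.log_le_log (by linarith) h12
          rwa [Real.log_pow] at this
        exact one_div_le_one_div_of_le (Real.log_pos (by linarith)) h22
    have h23 := sum_le_sum h8
    rw [sum_const, nsmul_eq_mul, Nat.card_Ico, Nat.cast_sub huv.le] at h23
    refine le_trans (le_of_eq ?_) h23
    ring
  have hzpos : (0 : ℝ) < (3 * z ^ 2) ^ k := by positivity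
  have hz1 : z ^ (2 * k) ≤ (1 + z) ^ (2 * k) := pow_le_pow_left₀ (by linarith) (by linarith) _
  -- the error is at most half of the main term
  have h8 : Real.exp (-(c * z)) ≤ s / (2 * (3 * z ^ 2) ^ k) := by
    rw [Real.exp_neg, inv_eq_one_div, div_le_div_iff₀ (Real.exp_pos _) (by positivity), one_mul]
    have e1 : 2 * 3 ^ k / s * z ^ (2 * k) = 2 * (3 * z ^ 2) ^ k / s := by
      rw [mul_pow, ← pow_mul]
      ring
    replace h5 := (mul_le_mul_of_nonneg_left hz1 (by positivity)).trans h5
    rw [e1, div_le_iff₀ hs] at h5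
    linarith
  have h9 : (K : ℝ) ≤ (X : ℝ) ^ δ * (s / (2 * (3 * z ^ 2) ^ k)) := by
    have e1 : (K : ℝ) * (2 * 3 ^ k) / s * z ^ (2 * k) = K * (2 * (3 * z ^ 2) ^ k) / s := by
      rw [mul_pow, ← pow_mul]
      ring
    replace h6 := (mul_le_mul_of_nonneg_left hz1 (by positivity)).trans h6
    rw [e1, div_le_iff₀ hs] at h6
    have h10 : Real.exp (δ * z) ≤ (X : ℝ) ^ δ := by
      rw [Real.rpow_def_of_pos (by linarith), Real.exp_le_exp, ← hzsq]
      have h15 : 0 ≤ δ * z * (z - 1) := mul_nonneg (mul_nonneg hδ.le (by linarith)) (by linarith)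
      nlinarith [h15]
    rw [← mul_div_assoc, le_div_iff₀ (by positivity)]
    refine h6.trans ?_
    exact mul_le_mul_of_nonneg_right h10 hs.le
  have h10 : (K : ℝ) ≤ ((v : ℝ) - u) * (s / (2 * (3 * z ^ 2) ^ k)) :=
    h9.trans (mul_le_mul_of_nonneg_right hlen (by positivity))
  have h11 : s * (((v : ℝ) - u) / (3 * z ^ 2) ^ k) ≤ 𝔖 * Law.weight L u v :=
    mul_le_mul h𝔖s hw (by positivity) (hs.le.trans h𝔖s)
  have h12 := (abs_le.1 h4).1
  have h13 := mul_le_mul_of_nonneg_left h8 hN0
  have e2 : s * (((v : ℝ) - u) / (3 * z ^ 2) ^ k) = 2 * (((v : ℝ) - u) * (s / (2 * (3 * z ^ 2) ^ k))) := by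
    field_simp
  have h14 : (K : ℝ) ≤ (Law.count S L u v : ℝ) := by linarith
  exact_mod_cast h14

/-- comparison product -/
noncomputable def hm (m : ℕ) : ℝ := if m ≤ 1 then 1 else if m = 2 then 2 else 1 - 1 / ((m : ℝ) - 1) ^ 2

lemma hm_prod (t : ℕ) (ht : 2 ≤ t) : ∏ m ∈ range (t + 1), hm m = (t : ℝ) / (t - 1) := by
  induction t, ht using Nat.le_induction with
  | base =>
    rw [prod_range_succ, prod_range_succ, prod_range_succ, prod_range_zero]
    unfold hm
    norm_num
  | succ t ht ih =>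
    rw [prod_range_succ, ih]
    have htR : (2 : ℝ) ≤ t := by exact_mod_cast ht
    have e : hm (t + 1) = 1 - 1 / (t : ℝ) ^ 2 := by
      unfold hm
      rw [if_neg (by omega), if_neg (by omega)]
      push_cast
      ring_nf
    rw [e]
    push_cast
    have h1 : (t : ℝ) - 1 ≠ 0 := by linarith
    have h2 : (t : ℝ) ≠ 0 := by linarith
    have h3 : (t : ℝ) + 1 - 1 ≠ 0 := by linarith
    field_simp
    ring

/-- two forms with an even sum have a singular series `≥ 1` -/
lemma ser_ge (L : Finset (ℤ × ℤ)) (hL : Law.IsSystem L) (hk : #L = 2) (h2 : Law.rootCount L 2 ≤ 1) (t : ℕ) :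
    1 ≤ Law.series L t := by
  classical
  have hroots : ∀ p : ℕ, p.Prime → Law.rootCount L p ≤ 2 := by
    intro p hp
    have := rts_card_le (L := L) (s := L) hL (Subset.refl L) p hp
    rw [hk] at this
    exact this
  by_cases ht : 2 ≤ t
  · have hprod := hm_prod t ht
    have htR : (2 : ℝ) ≤ t := by exact_mod_cast ht
    have h1 : 1 ≤ ∏ m ∈ range (t + 1), hm m := by
      rw [hprod, le_div_iff₀ (by linarith)]
      linarith
    refine h1.trans ?_
    have hpos : ∀ m, 0 < hm m := by
      intro m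
      unfold hm
      split_ifs with h3 h4
      · exact one_pos
      · exact two_pos
      · have hm3 : (3 : ℝ) ≤ m := by exact_mod_cast (by omega : 3 ≤ m)
        rw [sub_pos, div_lt_one (by nlinarith)]
        nlinarith
    have hle : ∀ m, m ≠ 2 → hm m ≤ 1 := by
      intro m hm2
      unfold hm
      split_ifs with h3
      · exact le_rfl
      · have : 0 ≤ 1 / ((m : ℝ) - 1) ^ 2 := by positivity
        linarith
    rw [← prod_filter_mul_prod_filter_not (range (t + 1)) Nat.Prime hm]
    have h3 : ∏ m ∈ (range (t + 1)).filter (fun m => ¬ Nat.Prime m), hm m ≤ 1 := by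
      apply prod_le_one
      · intro m _; exact (hpos m).le
      · intro m hm
        rw [mem_filter] at hm
        apply hle
        rintro rfl
        exact hm.2 Nat.prime_two
    have h4 : 0 ≤ ∏ m ∈ (range (t + 1)).filter Nat.Prime, hm m := prod_nonneg fun m _ => (hpos m).le
    refine (mul_le_of_le_one_right h4 h3).trans ?_
    unfold Law.series
    apply Finset.prod_le_prod
    · intro m _; exact (hpos m).le
    · intro p hp
      rw [mem_filter] at hp
      have hp2 := hp.2.two_le
      rw [hk]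
      unfold hm
      rw [if_neg (by omega)]
      split_ifs with h5
      · subst h5
        have h6 : (Law.rootCount L 2 : ℝ) ≤ 1 := by exact_mod_cast h2
        have e : (1 - (Law.rootCount L 2 : ℝ) / (2 : ℕ)) / (1 - 1 / ((2 : ℕ) : ℝ)) ^ 2 =
            4 * (1 - (Law.rootCount L 2 : ℝ) / 2) := by
          push_cast
          norm_num
          ring
        rw [e]
        linarith
      · have hp3 : (3 : ℝ) ≤ p := by exact_mod_cast (by omega : 3 ≤ p)
        have h6 : (Law.rootCount L p : ℝ) ≤ 2 := by exact_mod_cast hroots p hp.2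
        have h7 : 1 - 1 / ((p : ℝ) - 1) ^ 2 = (1 - 2 / (p : ℝ)) / (1 - 1 / (p : ℝ)) ^ 2 := by
          have a1 : (p : ℝ) - 1 ≠ 0 := by linarith
          have a2 : (p : ℝ) ≠ 0 := by linarith
          have a3 : 1 - 1 / (p : ℝ) ≠ 0 := by
            rw [Ne, sub_eq_zero, eq_comm, div_eq_one_iff_eq a2]
            intro h
            linarith
          field_simp
          ring
        rw [h7]
        apply div_le_div_of_nonneg_right _ (by positivity)
        have h8 : (Law.rootCount L p : ℝ) / p ≤ 2 / p := div_le_div_of_nonneg_right h6 (by positivity)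
        linarith
  · unfold Law.series
    rw [filter_eq_empty_iff.2, prod_empty]
    intro p hp
    rw [mem_range] at hp
    intro hpp
    have := hpp.two_le
    omega

/-- the system of the pairs with sum `b + b'` -/
lemma gold_sys (b b' : ℤ) (h : b + b' ≠ 0) : Law.IsSystem {((1 : ℤ), b), (-1, b')} := by
  refine ⟨?_, ?_⟩
  · intro l hl
    simp only [mem_insert, mem_singleton] at hl
    rcases hl with rfl | rfl
    · exact ⟨one_ne_zero, isCoprime_one_left⟩
    · exact ⟨by norm_num, isCoprime_one_left.neg_left⟩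
  · intro l hl l' hl' hne
    simp only [mem_insert, mem_singleton] at hl hl'
    rcases hl with rfl | rfl <;> rcases hl' with rfl | rfl
    · exact absurd rfl hne
    · intro he; apply h; simp only at he; linarith
    · intro he; apply h; simp only at he; linarith
    · exact absurd rfl hne

lemma gold_card (b b' : ℤ) : #({((1 : ℤ), b), (-1, b')} : Finset (ℤ × ℤ)) = 2 := by
  rw [card_pair]
  intro h
  have := congrArg Prod.fst h
  norm_num at this

lemma gold_two (b b' : ℤ) (h : (2 : ℤ) ∣ b + b') : Law.rootCount {((1 : ℤ), b), (-1, b')} 2 ≤ 1 := by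
  unfold Law.rootCount
  rw [card_le_one]
  intro r hr r' hr'
  simp only [mem_filter, mem_range, mem_insert, mem_singleton, exists_eq_or_imp, exists_eq_left] at hr hr'
  obtain ⟨c, hc⟩ := h
  push_cast at hr hr'
  omega

end Pool.Agent.U462.Sh
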