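import Mathlib

/-!
# The uniform Hardy–Littlewood law for a set of natural numbers: definitions
-/

set_option autoImplicit false
set_option linter.dupNamespace false

open Finset Filter Topology

namespace Pool.Agent.U462.Sh.Law

/-- the value `a n + b` of the form `(a, b)` (`0` if it is negative) -/
def value (l : ℤ × ℤ) (n : ℕ) : ℕ := (l.1 * (n : ℤ) + l.2).toNat

/-- A system of linear forms `a n + b`, given by the pairs `(a, b)` of integers: `a ≠ 0`, `a` and `b`
coprime, no two forms proportional. -/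
def IsSystem (L : Finset (ℤ × ℤ)) : Prop :=
  (∀ l ∈ L, l.1 ≠ 0 ∧ IsCoprime l.1 l.2) ∧ ∀ l ∈ L, ∀ l' ∈ L, l ≠ l' → l.1 * l'.2 ≠ l'.1 * l.2

/-- the number of the residues `r` modulo `p` for which `p` divides `a r + b` for some `(a, b)` in `L` -/
def rootCount (L : Finset (ℤ × ℤ)) (p : ℕ) : ℕ :=
  #((range p).filter fun r : ℕ => ∃ l ∈ L, (p : ℤ) ∣ l.1 * (r : ℤ) + l.2)

/-- the partial product of the singular series of `L` over the primes `p ≤ t` -/
noncomputable def series (L : Finset (ℤ × ℤ)) (t : ℕ) : ℝ :=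
  ∏ p ∈ (range (t + 1)).filter Nat.Prime, (1 - (rootCount L p : ℝ) / p) / (1 - 1 / (p : ℝ)) ^ #L

/-- the number of the `n` with `u ≤ n < v` for which all values of the forms of `L` at `n` belong to `S` -/
noncomputable def count (S : Set ℕ) (L : Finset (ℤ × ℤ)) (u v : ℕ) : ℕ :=
  {n : ℕ | u ≤ n ∧ n < v ∧ ∀ l ∈ L, value l n ∈ S}.ncard

/-- the expected number, without the factor given by the singular series: the sum of
`∏ 1 / log (a n + b)` over `u ≤ n < v` -/
noncomputable def weight (L : Finset (ℤ × ℤ)) (u v : ℕ) : ℝ :=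
  ∑ n ∈ Ico u v, ∏ l ∈ L, 1 / Real.log (value l n)

/-- **The uniform Hardy–Littlewood law** for the set `S` and the systems with the property `good`: for
every `δ > 0` there is `c > 0` such that for every `k` and all large `X` the following holds for all good
systems `L` of `k` linear forms with coefficients of absolute value at most `X`. The singular series of
`L` converges to some `𝔖`, it is positive if `L` has no local obstruction, and for all intervals
`[u, v)` with `v ≤ X` and `v - u ≥ X ^ δ` in which all forms have values `≥ 2`, the number of the `n` in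
the interval with all values in `S` is `𝔖` times the sum of `∏ 1 / log (a n + b)` over the interval, up
to the error `(v - u) exp (-c √(log X))`. -/
def Law (S : Set ℕ) (good : Finset (ℤ × ℤ) → Prop) : Prop :=
  ∀ δ : ℝ, 0 < δ → ∃ c : ℝ, 0 < c ∧ ∀ k : ℕ, ∃ X₀ : ℕ, ∀ X : ℕ, X₀ ≤ X →
    ∀ L : Finset (ℤ × ℤ), IsSystem L → #L = k → (∀ l ∈ L, |l.1| ≤ X ∧ |l.2| ≤ X) → good L →
      ∃ 𝔖 : ℝ, Tendsto (series L) atTop (𝓝 𝔖) ∧ ((∀ p : ℕ, p.Prime → rootCount L p < p) → 0 < 𝔖) ∧
        ∀ u v : ℕ, u < v → v ≤ X → (X : ℝ) ^ δ ≤ (v : ℝ) - u →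
          (∀ n : ℕ, u ≤ n → n < v → ∀ l ∈ L, 2 ≤ l.1 * (n : ℤ) + l.2) →
          |(count S L u v : ℝ) - 𝔖 * weight L u v| ≤
            ((v : ℝ) - u) * Real.exp (-(c * Real.sqrt (Real.log X)))

/-- `m` has no prime factor up to `2 ^ 2 ^ h`, where `h` is the integer part of half of the (integer part
of the) twice iterated logarithm of `m` to base `2`; so `2 ^ 2 ^ h` lies between two powers of the form
`exp (c √(log m))`. -/
def Rough (m : ℕ) : Prop := ∀ p : ℕ, p.Prime → p ≤ 2 ^ 2 ^ (Nat.log 2 (Nat.log 2 m) / 2) → ¬ p ∣ m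

end Pool.Agent.U462.Sh.Law
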