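import Pool.Agent.U462.Sh.ZGen
import Pool.Agent.U462.Sh.Law

/-!
# The general theorem for finite families of linear patterns, and for sparse families
-/

set_option autoImplicit false
set_option maxHeartbeats 4000000

open Finset Filter Topology

namespace Pool.Agent.U462.Sh


/-- from an exponent to a natural number -/
lemma pow_of_rpow {δ : ℝ} (hδ : 0 < δ) {X u v : ℕ} (hX : 1 ≤ X) (huv : u < v) (h : (X : ℝ) ^ δ ≤ (v : ℝ) - u) :
    X ≤ (v - u) ^ (⌈1 / δ⌉₊) := by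
  have hXR : (1 : ℝ) ≤ X := by exact_mod_cast hX
  have hN1 : (1 : ℝ) ≤ (v : ℝ) - u := by
    rw [← Nat.cast_sub huv.le]
    exact_mod_cast (by omega : 1 ≤ v - u)
  have h1 : (X : ℝ) ≤ ((v : ℝ) - u) ^ (1 / δ) := by
    calc (X : ℝ) = ((X : ℝ) ^ δ) ^ (1 / δ) := by
          rw [← Real.rpow_mul (by linarith), mul_one_div_cancel hδ.ne', Real.rpow_one]
      _ ≤ _ := Real.rpow_le_rpow (by positivity) h (by positivity)
  have h2 : ((v : ℝ) - u) ^ (1 / δ) ≤ ((v : ℝ) - u) ^ ((⌈1 / δ⌉₊ : ℕ) : ℝ) :=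
    Real.rpow_le_rpow_of_exponent_le hN1 (Nat.le_ceil _)
  rw [Real.rpow_natCast] at h2
  have h3 := h1.trans h2
  rw [← Nat.cast_sub huv.le] at h3
  exact_mod_cast h3

/-- A set with the law up to the number of the values which contain a forbidden set. -/
theorem law_of (H : Finset ℕ → Prop) (h0 : ¬ H ∅) (hsp : SparseFam H) : ∃ S : Set ℕ,
    (∀ m ∈ S, 2 ≤ m ∧ Law.Rough m) ∧ (∀ e : Finset ℕ, H e → ¬ ∀ m ∈ e, m ∈ S) ∧
    ∀ good : Finset (ℤ × ℤ) → Prop,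
      (∀ k : ℕ, ∀ c : ℝ, 0 < c → ∀ δ : ℝ, 0 < δ → ∃ X₀ : ℕ, ∀ X : ℕ, X₀ ≤ X → ∀ L : Finset (ℤ × ℤ), Law.IsSystem L →
        #L = k → (∀ l ∈ L, |l.1| ≤ X ∧ |l.2| ≤ X) → good L → ∀ u v : ℕ, u < v → v ≤ X → (X : ℝ) ^ δ ≤ (v : ℝ) - u →
          (∀ n : ℕ, u ≤ n → n < v → ∀ l ∈ L, 2 ≤ l.1 * (n : ℤ) + l.2) →
          (({n : ℕ | u ≤ n ∧ n < v ∧ ∃ e : Finset ℕ, H e ∧ ∀ m ∈ e, ∃ l ∈ L, Law.value l n = m}.ncard : ℕ) : ℝ) ≤
            ((v : ℝ) - u) * Real.exp (-(c * Real.sqrt (Real.log X)))) →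
      Law.Law S good := by
  classical
  obtain ⟨c, hc, hgen⟩ := generalZ
  obtain ⟨S, hS1, hS2, hS3⟩ := hgen H h0 hsp
  refine ⟨S, hS2, hS1, ?_⟩
  intro good hgood δ hδ
  obtain ⟨q, hq⟩ : ∃ q : ℕ, q = ⌈1 / δ⌉₊ := ⟨_, rfl⟩
  have hq1 : 1 ≤ q := by
    rw [hq]
    exact Nat.one_le_ceil_iff.2 (by positivity)
  have hcq := hc q hq1
  refine ⟨c q / 2, by positivity, ?_⟩
  intro k
  obtain ⟨X1, hX1⟩ := hS3 q k hq1
  obtain ⟨X2, hX2⟩ := hgood k (c q) hcq δ hδ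
  have htz : Tendsto (fun X : ℕ => Real.sqrt (Real.log X)) atTop atTop :=
    Real.tendsto_sqrt_atTop.comp (Real.tendsto_log_atTop.comp tendsto_natCast_atTop_atTop)
  obtain ⟨X3, hX3⟩ := eventually_atTop.1 (htz.eventually (poly_expR 2 (c q / 2) (by positivity) 0))
  refine ⟨X1 + X2 + X3 + 2, ?_⟩
  intro X hX L hL hk hbox hgL
  obtain ⟨𝔖, hlim, hposi, hlaw⟩ := hX1 X (by omega) L hL hk hbox
  refine ⟨𝔖, hlim, hposi, ?_⟩
  intro u v huv hvX hlen hpos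
  have h1 := hlaw u v huv hvX (by rw [hq]; exact pow_of_rpow hδ (by omega) huv hlen) hpos
  have h2 := hX2 X (by omega) L hL hk hbox hgL u v huv hvX hlen hpos
  have h3 := hX3 X (by omega)
  rw [pow_zero, mul_one] at h3
  obtain ⟨z, hz⟩ : ∃ z, z = Real.sqrt (Real.log X) := ⟨_, rfl⟩
  rw [← hz] at h1 h2 h3 ⊢
  have hN0 : 0 ≤ (v : ℝ) - u := by
    rw [sub_nonneg]; exact_mod_cast huv.le
  have e1 : (Law.count S L u v : ℝ) = (#((Ico u v).filter (fun n => ∀ l ∈ L, val l n ∈ S)) : ℝ) := by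
    unfold Law.count
    congr 1
    rw [← Set.ncard_coe_finset]
    congr 1
    ext n
    rw [mem_coe, mem_filter, mem_Ico, and_assoc]
    rfl
  have e2 : (({n : ℕ | u ≤ n ∧ n < v ∧ ∃ e : Finset ℕ, H e ∧ ∀ m ∈ e, ∃ l ∈ L, Law.value l n = m}.ncard : ℕ) : ℝ) =
      (#((Ico u v).filter (fun n => ¬ Avoids H (valsZ L n))) : ℝ) := by
    congr 1
    rw [← Set.ncard_coe_finset]
    congr 1
    ext n
    rw [mem_coe, mem_filter, mem_Ico, and_assoc]
    unfold Avoids valsZ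
    push Not
    constructor
    · rintro ⟨h4, h5, e, h6, h7⟩
      refine ⟨h4, h5, e, h6, fun m hm => ?_⟩
      obtain ⟨l, hl, hlm⟩ := h7 m hm
      exact mem_image.2 ⟨l, hl, hlm⟩
    · rintro ⟨h4, h5, e, h6, h7⟩
      refine ⟨h4, h5, e, h6, fun m hm => ?_⟩
      exact mem_image.1 (h7 hm)
  rw [e2] at h2
  rw [e1]
  have htwo : 2 * Real.exp (-(c q * z)) ≤ Real.exp (-(c q / 2 * z)) := by
    have h4 : Real.exp (-(c q / 2 * z)) = Real.exp (c q / 2 * z) * Real.exp (-(c q * z)) := by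
      rw [← Real.exp_add]
      congr 1
      ring
    rw [h4]
    exact mul_le_mul_of_nonneg_right h3 (Real.exp_pos _).le
  have h5 := mul_le_mul_of_nonneg_left htwo hN0
  refine h1.trans ?_
  linarith

/-- a constant is small -/
lemma const_pow (Q : ℕ) (c : ℝ) (δ : ℝ) (hδ : 0 < δ) : ∃ X₀ : ℕ, ∀ X : ℕ, X₀ ≤ X →
    (Q : ℝ) ≤ (X : ℝ) ^ δ * Real.exp (-(c * Real.sqrt (Real.log X))) := by
  have htz : Tendsto (fun X : ℕ => Real.sqrt (Real.log X)) atTop atTop :=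
    Real.tendsto_sqrt_atTop.comp (Real.tendsto_log_atTop.comp tendsto_natCast_atTop_atTop)
  obtain ⟨X1, hX1⟩ := eventually_atTop.1 (htz.eventually ((poly_expR Q 1 one_pos 0).and
    (eventually_ge_atTop ((1 + c) / δ))))
  refine ⟨X1 + 1, ?_⟩
  intro X hX
  obtain ⟨h1, h2⟩ := hX1 X (by omega)
  have hXR : (1 : ℝ) ≤ X := by exact_mod_cast (by omega : 1 ≤ X)
  obtain ⟨z, hz⟩ : ∃ z, z = Real.sqrt (Real.log X) := ⟨_, rfl⟩
  rw [← hz] at h1 h2 ⊢
  rw [pow_zero, mul_one, one_mul] at h1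
  have hz0 : 0 ≤ z := by rw [hz]; exact Real.sqrt_nonneg _
  have hzsq : z ^ 2 = Real.log X := by rw [hz]; exact Real.sq_sqrt (Real.log_natCast_nonneg X)
  have h3 : z + c * z ≤ δ * Real.log X := by
    rw [div_le_iff₀ hδ] at h2
    have h4 := mul_le_mul_of_nonneg_left h2 hz0
    rw [← hzsq]
    linarith
  calc (Q : ℝ) ≤ Real.exp z := h1
    _ = Real.exp (z + c * z) * Real.exp (-(c * z)) := by rw [← Real.exp_add]; congr 1; ring
    _ ≤ Real.exp (δ * Real.log X) * Real.exp (-(c * z)) :=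
        mul_le_mul_of_nonneg_right (Real.exp_le_exp.2 h3) (Real.exp_pos _).le
    _ = (X : ℝ) ^ δ * Real.exp (-(c * z)) := by
        rw [Real.rpow_def_of_pos (by linarith), mul_comm δ]

/-- a constant is small -/
lemma const_small (Q : ℕ) (c : ℝ) (δ : ℝ) (hδ : 0 < δ) : ∃ X₀ : ℕ, ∀ X : ℕ, X₀ ≤ X → ∀ u v : ℕ,
    (X : ℝ) ^ δ ≤ (v : ℝ) - u → (Q : ℝ) ≤ ((v : ℝ) - u) * Real.exp (-(c * Real.sqrt (Real.log X))) := by
  obtain ⟨X0, hX0⟩ := const_pow Q c δ hδ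
  exact ⟨X0, fun X hX u v hlen => (hX0 X hX).trans (mul_le_mul_of_nonneg_right hlen (Real.exp_pos _).le)⟩

/-- a constant times a square root is small -/
lemma sqrt_small (C : ℝ) (c : ℝ) (δ : ℝ) (hδ : 0 < δ) : ∃ X₀ : ℕ, ∀ X : ℕ, X₀ ≤ X → ∀ u v : ℕ,
    (X : ℝ) ^ δ ≤ (v : ℝ) - u →
      C * Real.sqrt ((v : ℝ) - u) ≤ ((v : ℝ) - u) * Real.exp (-(c * Real.sqrt (Real.log X))) := by
  obtain ⟨X0, hX0⟩ := const_pow ⌈C⌉₊ c (δ / 2) (by positivity)
  refine ⟨X0, fun X hX u v hlen => ?_⟩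
  have h1 := hX0 X hX
  have hp : (0 : ℝ) ≤ (X : ℝ) ^ δ := by positivity
  have hN0 : 0 ≤ (v : ℝ) - u := hp.trans hlen
  have h2 : (X : ℝ) ^ (δ / 2) ≤ Real.sqrt ((v : ℝ) - u) := by
    apply Real.le_sqrt_of_sq_le
    rw [← Real.rpow_natCast, ← Real.rpow_mul (Nat.cast_nonneg X)]
    have : δ / 2 * ((2 : ℕ) : ℝ) = δ := by push_cast; ring
    rw [this]
    exact hlen
  have h3 : C ≤ Real.sqrt ((v : ℝ) - u) * Real.exp (-(c * Real.sqrt (Real.log X))) :=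
    ((Nat.le_ceil C).trans h1).trans (mul_le_mul_of_nonneg_right h2 (Real.exp_pos _).le)
  have h4 := mul_le_mul_of_nonneg_right h3 (Real.sqrt_nonneg ((v : ℝ) - u))
  refine h4.trans (le_of_eq ?_)
  rw [mul_assoc, mul_comm (Real.exp _), ← mul_assoc, Real.mul_self_sqrt hN0]

/-- **Finite families of linear patterns.** -/
theorem pat (Ps : Finset (Finset (ℤ × ℤ))) (hPs : ∀ P ∈ Ps, ((1, 0) : ℤ × ℤ) ∈ P ∧ ∀ l ∈ P, 1 ≤ l.1) : ∃ S : Set ℕ,
    (∀ m ∈ S, 2 ≤ m ∧ Law.Rough m) ∧ (∀ P ∈ Ps, ∀ t : ℕ, ¬ ∀ l ∈ P, ∃ m ∈ S, (m : ℤ) = l.1 * t + l.2) ∧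
    Law.Law S (fun L => ∀ P ∈ Ps, ¬ ∃ l₀ ∈ L, ∀ l ∈ P, (l.1 * l₀.1, l.1 * l₀.2 + l.2) ∈ L) := by
  classical
  obtain ⟨Δ, hΔ⟩ : ∃ Δ : Finset (ℤ × ℤ), Δ = Ps.biUnion id := ⟨_, rfl⟩
  have hmemΔ : ∀ P ∈ Ps, ∀ l ∈ P, l ∈ Δ := fun P hP l hl => by
    rw [hΔ, mem_biUnion]; exact ⟨P, hP, hl⟩
  have hΔ1 : ∀ l ∈ Δ, 1 ≤ l.1 := by
    intro l hl
    rw [hΔ, mem_biUnion] at hl
    obtain ⟨P, hP, hl⟩ := hl
    exact (hPs P hP).2 l hl
  obtain ⟨H, hH⟩ : ∃ H : Finset ℕ → Prop, H = fun e => ∃ P ∈ Ps, ∃ t : ℕ, (∀ l ∈ P, 0 ≤ l.1 * (t : ℤ) + l.2) ∧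
    e = P.image (fun l => val l t) := ⟨_, rfl⟩
  have h0 : ¬ H ∅ := by
    rw [hH]
    rintro ⟨P, hP, t, _, he⟩
    have h1 : val (1, 0) t ∈ P.image (fun l => val l t) := mem_image_of_mem _ (hPs P hP).1
    rw [← he] at h1
    exact notMem_empty _ h1
  have hsp : SparseFam H := by
    intro ε hε
    obtain ⟨K, hK⟩ : ∃ K : ℕ, K = #Δ * #Δ + 1 := ⟨_, rfl⟩
    obtain ⟨M, hM⟩ : ∃ M : ℕ, M = ⌈Real.exp ((K / ε) ^ 2)⌉₊ := ⟨_, rfl⟩
    refine ⟨M, ?_⟩
    intro n _ F hF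
    have hcardF : #F ≤ K := by
      have hsub : F ⊆ (Δ ×ˢ Δ).image (fun q => val q.2 (((n : ℤ) - q.1.2) / q.1.1).toNat) := by
        intro m hm
        obtain ⟨_, e, he, h1, h2⟩ := hF m hm
        rw [hH] at he
        obtain ⟨P, hP, t, hpos, rfl⟩ := he
        obtain ⟨l, hl, hln⟩ := mem_image.1 h1
        obtain ⟨l', hl', hlm⟩ := mem_image.1 h2
        rw [mem_image]
        refine ⟨(l, l'), mem_product.2 ⟨hmemΔ P hP l hl, hmemΔ P hP l' hl'⟩, ?_⟩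
        simp only at hln hlm ⊢
        have e1 := val_cast (hpos l hl)
        have hl1 := (hPs P hP).2 l hl
        have e2 : ((n : ℤ) - l.2) / l.1 = (t : ℤ) := by
          rw [← hln, e1]
          have e3 : l.1 * (t : ℤ) + l.2 - l.2 = l.1 * t := by ring
          rw [e3]
          exact Int.mul_ediv_cancel_left _ (by omega)
        rw [e2, Int.toNat_natCast]
        exact hlm
      have h3 := (card_le_card hsub).trans card_image_le
      rw [card_product] at h3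
      omega
    have hKR : (0 : ℝ) < K := by rw [hK]; positivity
    have hbig : ∀ m ∈ F, 1 / Real.sqrt (Real.log m) ≤ ε / K := by
      intro m hm
      have h1 : Real.exp ((K / ε) ^ 2) ≤ m := by
        refine (Nat.le_ceil _).trans ?_
        rw [← hM]
        exact_mod_cast (hF m hm).1
      have h2 : (K / ε) ^ 2 ≤ Real.log m := by
        rw [← Real.log_exp ((K / ε) ^ 2)]
        exact Real.log_le_log (Real.exp_pos _) h1
      have h3 : K / ε ≤ Real.sqrt (Real.log m) := Real.le_sqrt_of_sq_le h2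
      have h4 : 0 < K / ε := by positivity
      calc 1 / Real.sqrt (Real.log m) ≤ 1 / (K / ε) := one_div_le_one_div_of_le h4 h3
        _ = ε / K := by field_simp
    calc ∑ m ∈ F, 1 / Real.sqrt (Real.log m) ≤ ∑ m ∈ F, ε / K := sum_le_sum hbig
      _ = #F * (ε / K) := by rw [sum_const, nsmul_eq_mul]
      _ ≤ K * (ε / K) := by
          apply mul_le_mul_of_nonneg_right _ (by positivity)
          exact_mod_cast hcardF
      _ = ε := by field_simp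
  obtain ⟨S, hS1, hS2, hS3⟩ := law_of H h0 hsp
  refine ⟨S, hS1, ?_, ?_⟩
  · intro P hP t hall
    apply hS2 (P.image (fun l => val l t))
    · rw [hH]
      refine ⟨P, hP, t, fun l hl => ?_, rfl⟩
      obtain ⟨m, _, hm⟩ := hall l hl
      rw [← hm]
      exact Int.natCast_nonneg m
    · intro m hm
      obtain ⟨l, hl, rfl⟩ := mem_image.1 hm
      obtain ⟨m', hm', hme⟩ := hall l hl
      have : val l t = m' := by
        unfold val
        rw [← hme]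
        exact Int.toNat_natCast m'
      rw [this]
      exact hm'
  · apply hS3
    intro k c hc δ hδ
    obtain ⟨X0, hX0⟩ := const_small (#Δ * (k * k)) c δ hδ
    refine ⟨X0, ?_⟩
    intro X hX L hL hk _ hgood u v huv _ hlen hpos
    refine le_trans ?_ (hX0 X hX u v hlen)
    -- the exceptional `n`
    have hsub : {n : ℕ | u ≤ n ∧ n < v ∧ ∃ e : Finset ℕ, H e ∧ ∀ m ∈ e, ∃ l ∈ L, Law.value l n = m} ⊆
        (((Δ ×ˢ (L ×ˢ L)).filter (fun q => ¬ (q.2.2.1 = q.1.1 * q.2.1.1 ∧ q.2.2.2 = q.1.1 * q.2.1.2 + q.1.2))).biUnion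
          fun q => (Ico u v).filter fun n : ℕ => q.2.2.1 * (n : ℤ) + q.2.2.2 =
            (q.1.1 * q.2.1.1) * n + (q.1.1 * q.2.1.2 + q.1.2) : Finset ℕ) := by
      rintro n ⟨hn1, hn2, e, he, hall⟩
      rw [hH] at he
      obtain ⟨P, hP, t, hpos', rfl⟩ := he
      obtain ⟨l0, hl0, ht⟩ := hall (val (1, 0) t) (mem_image_of_mem _ (hPs P hP).1)
      have ht' : (t : ℤ) = l0.1 * (n : ℤ) + l0.2 := by
        have e1 : Law.value l0 n = t := by
          rw [ht]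
          unfold val
          simp
        have e2 := val_cast (l := l0) (n := n) (by have := hpos n hn1 hn2 l0 hl0; linarith)
        rw [← e2]
        exact_mod_cast e1.symm
      have hex : ∃ l ∈ P, (l.1 * l0.1, l.1 * l0.2 + l.2) ∉ L := by
        by_contra hcon
        push Not at hcon
        exact hgood P hP ⟨l0, hl0, hcon⟩
      obtain ⟨l, hl, hlL⟩ := hex
      obtain ⟨l1, hl1, hlt⟩ := hall (val l t) (mem_image_of_mem _ hl)
      rw [mem_coe, mem_biUnion]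
      refine ⟨(l, (l0, l1)), mem_filter.2 ⟨mem_product.2 ⟨hmemΔ P hP l hl, mem_product.2 ⟨hl0, hl1⟩⟩, ?_⟩, ?_⟩
      · rintro ⟨h1, h2⟩
        apply hlL
        simp only at h1 h2
        rw [← h1, ← h2]
        exact hl1
      · rw [mem_filter, mem_Ico]
        refine ⟨⟨hn1, hn2⟩, ?_⟩
        simp only
        have e1 := val_cast (l := l1) (n := n) (by have := hpos n hn1 hn2 l1 hl1; linarith)
        have e2 := val_cast (hpos' l hl)
        have e3 : ((val l1 n : ℕ) : ℤ) = ((val l t : ℕ) : ℤ) := by exact_mod_cast hlt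
        rw [e1, e2, ht'] at e3
        rw [e3]
        ring
    have h1 := Set.ncard_le_ncard hsub (Finset.finite_toSet _)
    rw [Set.ncard_coe_finset] at h1
    have h2 : #(((Δ ×ˢ (L ×ˢ L)).filter (fun q => ¬ (q.2.2.1 = q.1.1 * q.2.1.1 ∧
        q.2.2.2 = q.1.1 * q.2.1.2 + q.1.2))).biUnion
          fun q => (Ico u v).filter fun n : ℕ => q.2.2.1 * (n : ℤ) + q.2.2.2 =
            (q.1.1 * q.2.1.1) * n + (q.1.1 * q.2.1.2 + q.1.2)) ≤ #Δ * (k * k) := by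
      refine (card_biUnion_le_card_mul _ _ 1 ?_).trans ?_
      · intro q hq
        rw [mem_filter] at hq
        rw [card_le_one]
        intro m hm m' hm'
        rw [mem_filter] at hm hm'
        exact one_solZ hq.2 hm.2 hm'.2
      · rw [mul_one]
        refine (card_le_card (filter_subset _ _)).trans ?_
        rw [card_product, card_product, hk]
    exact_mod_cast h1.trans h2

end Pool.Agent.U462.Sh
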