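import Mathlib

/-!
# Singular series of systems of linear forms
-/

set_option autoImplicit false

open Finset Filter Topology

namespace Pool.Agent.U462.Sh

/-- The primes `≤ t`. -/
def primesUpTo (t : ℕ) : Finset ℕ := (range (t + 1)).filter Nat.Prime

/-- The residues `r` modulo `p` for which `p` divides `a r + b` for some `(a, b)` in `L`. -/
def roots (L : Finset (ℕ × ℕ)) (p : ℕ) : Finset ℕ :=
  (range p).filter fun r => ∃ l ∈ L, p ∣ l.1 * r + l.2

/-- The partial product of the singular series of the linear forms `a n + b`, `(a, b) ∈ L`, over the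
primes `p ≤ t`. -/
noncomputable def series (L : Finset (ℕ × ℕ)) (t : ℕ) : ℝ :=
  ∏ p ∈ primesUpTo t, (1 - ((roots L p).card : ℝ) / p) / (1 - 1 / (p : ℝ)) ^ L.card

/-- `L` is a finite set of different linear forms `a n + b`, `a ≥ 1`, `a` and `b` coprime. -/
def IsSystem (L : Finset (ℕ × ℕ)) : Prop := ∀ l ∈ L, 0 < l.1 ∧ l.1.Coprime l.2

lemma mem_primes {t p : ℕ} : p ∈ primesUpTo t ↔ p.Prime ∧ p ≤ t := by
  unfold primesUpTo
  rw [mem_filter, mem_range]
  constructor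
  · rintro ⟨h1, h2⟩; exact ⟨h2, by omega⟩
  · rintro ⟨h1, h2⟩; exact ⟨by omega, h1⟩

lemma prod_ge' (F : Finset ℕ) (x : ℕ → ℝ) (hx : ∀ n ∈ F, 0 ≤ x n ∧ x n ≤ 1) :
    1 - ∑ m ∈ F, x m ≤ ∏ m ∈ F, (1 - x m) ∧ 0 ≤ ∏ m ∈ F, (1 - x m) ∧ ∏ m ∈ F, (1 - x m) ≤ 1 := by
  classical
  induction F using Finset.induction_on with
  | empty => simp
  | insert n F hn ih =>
    rw [sum_insert hn, prod_insert hn]
    obtain ⟨h1, h2, h3⟩ := ih fun m hm => hx m (mem_insert_of_mem hm)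
    obtain ⟨h4, h5⟩ := hx n (mem_insert_self _ _)
    have h6 : 0 ≤ ∑ m ∈ F, x m := sum_nonneg fun m hm => (hx m (mem_insert_of_mem hm)).1
    refine ⟨?_, mul_nonneg (by linarith) h2, mul_le_one₀ (by linarith) h2 h3⟩
    nlinarith

/-- the factor of a large prime -/
noncomputable def Fm (m p : ℕ) : ℝ := (1 - (m : ℝ) / p) / (1 - 1 / (p : ℝ)) ^ m

lemma fm_bounds (m k p : ℕ) (hm : m ≤ k) (hp : 2 * k ≤ p) (hp2 : 2 ≤ p) :
    1 - (k : ℝ) ^ 2 * ((p : ℝ) ^ 2)⁻¹ ≤ Fm m p ∧ Fm m p ≤ 1 ∧ 0 ≤ Fm m p := by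
  have hpR : (2 : ℝ) ≤ p := by exact_mod_cast hp2
  have hkR : (2 : ℝ) * k ≤ p := by exact_mod_cast hp
  have hmR : (m : ℝ) ≤ k := by exact_mod_cast hm
  have hm0 : (0 : ℝ) ≤ m := Nat.cast_nonneg m
  obtain ⟨x, hx⟩ : ∃ x : ℝ, x = 1 / (p : ℝ) := ⟨_, rfl⟩
  have hx0 : 0 < x := by rw [hx]; positivity
  have hx1 : x ≤ 1 / 2 := by rw [hx]; exact one_div_le_one_div_of_le (by norm_num) hpR
  have hmx : (m : ℝ) * x ≤ 1 / 2 := by
    rw [hx, mul_one_div, div_le_iff₀ (by linarith)]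
    linarith
  have e1 : (m : ℝ) / p = m * x := by rw [hx]; ring
  have hpow : 0 < (1 - x) ^ m := pow_pos (by linarith) m
  have h1 : 1 - m * x ≤ (1 - x) ^ m := by
    have := one_add_mul_le_pow (a := -x) (by linarith) m
    have e2 : 1 + (m : ℝ) * -x = 1 - m * x := by ring
    have e3 : (1 + -x) = 1 - x := by ring
    rwa [e2, e3] at this
  have h2 : 1 + m * x ≤ (1 + x) ^ m := one_add_mul_le_pow (by linarith) m
  have h3 : (1 - x) ^ m * (1 + x) ^ m ≤ 1 := by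
    rw [← mul_pow]
    exact pow_le_one₀ (by nlinarith) (by nlinarith)
  unfold Fm
  rw [e1, ← hx]
  refine ⟨?_, (div_le_one hpow).2 h1, div_nonneg (by linarith) hpow.le⟩
  rw [le_div_iff₀ hpow]
  have e4 : ((p : ℝ) ^ 2)⁻¹ = x ^ 2 := by rw [hx]; ring
  rw [e4]
  have h4 : (1 - x) ^ m * (1 + m * x) ≤ 1 := le_trans (mul_le_mul_of_nonneg_left h2 hpow.le) h3
  have h5 : (1 - x) ^ m * ((1 - m * x) * (1 + m * x)) ≤ 1 - m * x := by
    have : (1 - x) ^ m * ((1 - m * x) * (1 + m * x)) = (1 - m * x) * ((1 - x) ^ m * (1 + m * x)) := by ring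
    rw [this]
    exact (mul_le_mul_of_nonneg_left h4 (by linarith)).trans (by rw [mul_one])
  have h6 : (1 - (k : ℝ) ^ 2 * x ^ 2) ≤ (1 - m * x) * (1 + m * x) := by
    have : (m : ℝ) ^ 2 * x ^ 2 ≤ (k : ℝ) ^ 2 * x ^ 2 := by gcongr
    nlinarith
  calc (1 - (k : ℝ) ^ 2 * x ^ 2) * (1 - x) ^ m ≤ ((1 - m * x) * (1 + m * x)) * (1 - x) ^ m :=
        mul_le_mul_of_nonneg_right h6 hpow.le
    _ = (1 - x) ^ m * ((1 - m * x) * (1 + m * x)) := by ring
    _ ≤ _ := h5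

/-- products over large primes -/
lemma prod_fm (m k Z N : ℕ) (hm : m ≤ k) (hZ : 2 * k ≤ Z) (hZ1 : 1 ≤ Z) (S : Finset ℕ)
    (hS : S ⊆ Ioc Z N) :
    1 - (k : ℝ) ^ 2 / Z ≤ ∏ p ∈ S, Fm m p ∧ ∏ p ∈ S, Fm m p ≤ 1 ∧ 0 ≤ ∏ p ∈ S, Fm m p := by
  have hb : ∀ p ∈ S, 1 - (k : ℝ) ^ 2 * ((p : ℝ) ^ 2)⁻¹ ≤ Fm m p ∧ Fm m p ≤ 1 ∧ 0 ≤ Fm m p := by
    intro p hp
    have := mem_Ioc.1 (hS hp)
    exact fm_bounds m k p hm (by omega) (by omega)
  have h1 := prod_ge' S (fun p => 1 - Fm m p) (fun p hp => by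
    have := hb p hp
    exact ⟨by linarith, by linarith⟩)
  simp only [sub_sub_cancel] at h1
  refine ⟨?_, h1.2.2, h1.2.1⟩
  have h2 : ∑ p ∈ S, (1 - Fm m p) ≤ (k : ℝ) ^ 2 / Z := by
    rcases Nat.lt_or_ge N Z with hNZ | hNZ
    · have : S = ∅ := by
        rw [← subset_empty]
        refine hS.trans ?_
        rw [Ioc_eq_empty (by omega)]
      rw [this, sum_empty]
      positivity
    · calc ∑ p ∈ S, (1 - Fm m p) ≤ ∑ p ∈ S, (k : ℝ) ^ 2 * ((p : ℝ) ^ 2)⁻¹ :=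
            sum_le_sum fun p hp => by have := (hb p hp).1; linarith
        _ ≤ ∑ p ∈ Ioc Z N, (k : ℝ) ^ 2 * ((p : ℝ) ^ 2)⁻¹ :=
            sum_le_sum_of_subset_of_nonneg hS fun p _ _ => by positivity
        _ = (k : ℝ) ^ 2 * ∑ p ∈ Ioc Z N, ((p : ℝ) ^ 2)⁻¹ := by rw [mul_sum]
        _ ≤ (k : ℝ) ^ 2 * ((Z : ℝ)⁻¹ - (N : ℝ)⁻¹) :=
            mul_le_mul_of_nonneg_left (sum_Ioc_inv_sq_le_sub (by omega) hNZ) (by positivity)
        _ ≤ (k : ℝ) ^ 2 * (Z : ℝ)⁻¹ := by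
            apply mul_le_mul_of_nonneg_left _ (by positivity)
            have : (0 : ℝ) ≤ (N : ℝ)⁻¹ := by positivity
            linarith
        _ = _ := by rw [div_eq_mul_inv]
  linarith

/-! ### Roots -/

lemma roots_subset (L : Finset (ℕ × ℕ)) (p : ℕ) : roots L p ⊆ range p := filter_subset _ _

lemma roots_single (p : ℕ) (hp : p.Prime) (l : ℕ × ℕ) (h : ¬ p ∣ l.1) :
    ∃ r, roots {l} p = {r} := by
  have : Fact p.Prime := ⟨hp⟩
  have ha : (l.1 : ZMod p) ≠ 0 := by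
    rw [Ne, ZMod.natCast_eq_zero_iff]; exact h
  refine ⟨((-(l.2 : ZMod p)) * (l.1 : ZMod p)⁻¹).val, ?_⟩
  ext r
  unfold roots
  simp only [mem_filter, mem_range, mem_singleton, exists_eq_left]
  constructor
  · rintro ⟨h1, h2⟩
    rw [← ZMod.natCast_eq_zero_iff] at h2
    push_cast at h2
    have h3 : (r : ZMod p) = (-(l.2 : ZMod p)) * (l.1 : ZMod p)⁻¹ := by
      field_simp
      linear_combination h2
    rw [← h3, ZMod.val_natCast, Nat.mod_eq_of_lt h1]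
  · rintro rfl
    refine ⟨ZMod.val_lt _, ?_⟩
    rw [← ZMod.natCast_eq_zero_iff]
    push_cast
    rw [ZMod.natCast_zmod_val]
    field_simp
    ring

lemma roots_single_le (p : ℕ) (hp : p.Prime) (l : ℕ × ℕ) (h : l.1.Coprime l.2) :
    (roots {l} p).card ≤ 1 := by
  by_cases h1 : p ∣ l.1
  · have : roots {l} p = ∅ := by
      unfold roots
      rw [filter_eq_empty_iff]
      intro r _
      simp only [mem_singleton, exists_eq_left]
      intro h2
      have h3 : p ∣ l.2 := (Nat.dvd_add_right (h1.mul_right r)).1 h2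
      exact hp.one_lt.ne' (Nat.dvd_one.1 (h ▸ Nat.dvd_gcd h1 h3))
    rw [this]; simp
  · obtain ⟨r, hr⟩ := roots_single p hp l h1
    rw [hr]; simp

lemma roots_biUnion (L : Finset (ℕ × ℕ)) (p : ℕ) : roots L p = L.biUnion fun l => roots {l} p := by
  ext r
  simp only [roots, mem_filter, mem_biUnion, mem_singleton, exists_eq_left, mem_range]
  constructor
  · rintro ⟨h1, l, h2, h3⟩; exact ⟨l, h2, h1, h3⟩
  · rintro ⟨l, h2, h1, h3⟩; exact ⟨h1, l, h2, h3⟩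

lemma roots_card_le {L : Finset (ℕ × ℕ)} (hL : IsSystem L) (p : ℕ) (hp : p.Prime) :
    (roots L p).card ≤ L.card := by
  rw [roots_biUnion]
  refine (card_biUnion_le_card_mul L _ 1 fun l hl => roots_single_le p hp l (hL l hl).2).trans ?_
  rw [mul_one]

/-- the bound for the exceptional primes -/
def P0 (L : Finset (ℕ × ℕ)) : ℕ := (∑ l ∈ L, (l.1 + l.2) + 1) ^ 2 + 2 * L.card + 1

lemma le_sum_of {L : Finset (ℕ × ℕ)} {l : ℕ × ℕ} (h : l ∈ L) :
    l.1 + l.2 ≤ ∑ l ∈ L, (l.1 + l.2) := single_le_sum (f := fun l : ℕ × ℕ => l.1 + l.2) (fun _ _ => Nat.zero_le _) h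

lemma roots_card {L s : Finset (ℕ × ℕ)} (hL : IsSystem L) (hs : s ⊆ L) (p : ℕ) (hp : p.Prime)
    (hp0 : P0 L < p) : (roots s p).card = s.card := by
  rw [roots_biUnion, card_biUnion]
  · have : ∀ l ∈ s, (roots {l} p).card = 1 := by
      intro l hl
      have h1 := (hL l (hs hl)).1
      have h2 := le_sum_of (hs hl)
      have h3 : ¬ p ∣ l.1 := by
        intro h
        have := Nat.le_of_dvd h1 h
        unfold P0 at hp0
        nlinarith
      obtain ⟨r, hr⟩ := roots_single p hp l h3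
      rw [hr]; simp
    rw [sum_congr rfl this]
    simp
  · intro l hl l' hl' hne
    show Disjoint (roots {l} p) (roots {l'} p)
    rw [disjoint_left]
    intro r h1 h2
    replace hl : l ∈ s := hl
    replace hl' : l' ∈ s := hl'
    simp only [roots, mem_filter, mem_singleton, exists_eq_left, mem_range] at h1 h2
    have hA := le_sum_of (hs hl)
    have hA' := le_sum_of (hs hl')
    obtain ⟨A, hAe⟩ : ∃ A, A = ∑ l ∈ L, (l.1 + l.2) := ⟨_, rfl⟩
    rw [← hAe] at hA hA'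
    have hpA : (A + 1) ^ 2 < p := by
      unfold P0 at hp0
      rw [← hAe] at hp0
      omega
    -- the resultant is divisible by `p`
    have h3 : (p : ℤ) ∣ (l.1 : ℤ) * l'.2 - l'.1 * l.2 := by
      have e1 : (p : ℤ) ∣ (l.1 : ℤ) * r + l.2 := by exact_mod_cast h1.2
      have e2 : (p : ℤ) ∣ (l'.1 : ℤ) * r + l'.2 := by exact_mod_cast h2.2
      have := dvd_sub (dvd_mul_of_dvd_right e2 (l.1 : ℤ)) (dvd_mul_of_dvd_right e1 (l'.1 : ℤ))
      have e3 : (l.1 : ℤ) * ((l'.1 : ℤ) * r + l'.2) - l'.1 * ((l.1 : ℤ) * r + l.2) =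
        (l.1 : ℤ) * l'.2 - l'.1 * l.2 := by ring
      rwa [e3] at this
    have h4 : (l.1 : ℤ) * l'.2 - l'.1 * l.2 = 0 := by
      by_contra h0
      have h5 := Int.le_of_dvd (abs_pos.2 h0) ((dvd_abs _ _).2 h3)
      have h6 : |(l.1 : ℤ) * l'.2 - l'.1 * l.2| ≤ (A : ℤ) ^ 2 := by
        have g1 : l.1 * l'.2 ≤ A ^ 2 := by nlinarith
        have g2 : l'.1 * l.2 ≤ A ^ 2 := by nlinarith
        have g3 : (l.1 : ℤ) * l'.2 ≤ (A : ℤ) ^ 2 := by exact_mod_cast g1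
        have g4 : (l'.1 : ℤ) * l.2 ≤ (A : ℤ) ^ 2 := by exact_mod_cast g2
        have g5 : (0 : ℤ) ≤ (l.1 : ℤ) * l'.2 := by positivity
        have g6 : (0 : ℤ) ≤ (l'.1 : ℤ) * l.2 := by positivity
        rw [abs_le]
        constructor <;> linarith
      have h7 : ((A : ℤ) + 1) ^ 2 < p := by exact_mod_cast hpA
      nlinarith
    have h8 : l.1 * l'.2 = l'.1 * l.2 := by
      have : (l.1 : ℤ) * l'.2 = l'.1 * l.2 := by linarith
      exact_mod_cast this
    have c1 := (hL l (hs hl))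
    have c2 := (hL l' (hs hl'))
    have d1 : l.1 ∣ l'.1 := by
      have : l.1 ∣ l'.1 * l.2 := ⟨l'.2, h8.symm⟩
      exact c1.2.dvd_of_dvd_mul_right this
    have d2 : l'.1 ∣ l.1 := by
      have : l'.1 ∣ l.1 * l'.2 := ⟨l.2, h8⟩
      exact c2.2.dvd_of_dvd_mul_right this
    have e1 : l.1 = l'.1 := Nat.dvd_antisymm d1 d2
    have e2 : l.2 = l'.2 := by
      rw [e1] at h8
      exact (Nat.eq_of_mul_eq_mul_left c2.1 h8).symm
    exact hne (Prod.ext e1 e2)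

/-! ### The series -/

lemma primes_split {s t : ℕ} (h : s ≤ t) :
    primesUpTo t = primesUpTo s ∪ (Ioc s t).filter Nat.Prime ∧
      Disjoint (primesUpTo s) ((Ioc s t).filter Nat.Prime) := by
  constructor
  · ext p
    rw [mem_union, mem_primes, mem_primes, mem_filter, mem_Ioc]
    constructor
    · rintro ⟨h1, h2⟩
      by_cases h3 : p ≤ s
      · left; exact ⟨h1, h3⟩
      · right; exact ⟨⟨by omega, h2⟩, h1⟩
    · rintro (⟨h1, h2⟩ | ⟨⟨h1, h2⟩, h3⟩)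
      · exact ⟨h1, by omega⟩
      · exact ⟨h3, h2⟩
  · rw [disjoint_left]
    intro p h1 h2
    rw [mem_primes] at h1
    rw [mem_filter, mem_Ioc] at h2
    omega

lemma factor_nonneg (L : Finset (ℕ × ℕ)) (p : ℕ) (hp : p.Prime) :
    0 ≤ (1 - ((roots L p).card : ℝ) / p) / (1 - 1 / (p : ℝ)) ^ L.card := by
  have hpR : (1 : ℝ) < p := by exact_mod_cast hp.one_lt
  have h1 : ((roots L p).card : ℝ) ≤ p := by
    have := card_le_card (roots_subset L p)
    rw [card_range] at this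
    exact_mod_cast this
  apply div_nonneg
  · rw [sub_nonneg, div_le_one (by linarith)]; exact h1
  · apply pow_nonneg
    rw [sub_nonneg, div_le_one (by linarith)]; exact hpR.le

lemma series_nonneg (L : Finset (ℕ × ℕ)) (t : ℕ) : 0 ≤ series L t :=
  prod_nonneg fun p hp => factor_nonneg L p (mem_primes.1 hp).1

lemma series_split {L : Finset (ℕ × ℕ)} (hL : IsSystem L) {s t : ℕ} (h0 : P0 L ≤ s) (h : s ≤ t) :
    series L t = series L s * ∏ p ∈ (Ioc s t).filter Nat.Prime, Fm L.card p := by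
  unfold series
  rw [(primes_split h).1, prod_union (primes_split h).2]
  congr 1
  apply prod_congr rfl
  intro p hp
  rw [mem_filter, mem_Ioc] at hp
  unfold Fm
  rw [roots_card hL le_rfl p hp.2 (by omega)]

lemma two_card_le (L : Finset (ℕ × ℕ)) : 2 * L.card ≤ P0 L ∧ 1 ≤ P0 L := by
  unfold P0
  constructor
  · have : 0 ≤ (∑ l ∈ L, (l.1 + l.2) + 1) ^ 2 := Nat.zero_le _
    omega
  · omega

lemma series_bounds {L : Finset (ℕ × ℕ)} (hL : IsSystem L) {s t : ℕ} (h0 : P0 L ≤ s) (h : s ≤ t) :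
    series L s * (1 - (L.card : ℝ) ^ 2 / s) ≤ series L t ∧ series L t ≤ series L s := by
  have h1 := two_card_le L
  obtain ⟨h2, h3, h4⟩ := prod_fm L.card L.card s t le_rfl (by omega) (by omega)
    ((Ioc s t).filter Nat.Prime) (filter_subset _ _)
  rw [series_split hL h0 h]
  have h5 := series_nonneg L s
  constructor
  · exact mul_le_mul_of_nonneg_left h2 h5
  · exact (mul_le_mul_of_nonneg_left h3 h5).trans (by rw [mul_one])

/-- the singular series -/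
theorem series_limit {L : Finset (ℕ × ℕ)} (hL : IsSystem L) : ∃ 𝔖 : ℝ, 0 ≤ 𝔖 ∧
    Tendsto (series L) atTop (𝓝 𝔖) ∧
    (∀ t, P0 L ≤ t → series L t * (1 - (L.card : ℝ) ^ 2 / t) ≤ 𝔖 ∧ 𝔖 ≤ series L t) ∧
    ((∀ p : ℕ, p.Prime → (roots L p).card < p) → 0 < 𝔖) := by
  have h1 : Antitone fun n : ℕ => series L (n + P0 L) := by
    intro m n hmn
    exact (series_bounds hL (s := m + P0 L) (t := n + P0 L) (by omega) (by omega)).2
  have h2 : Tendsto (fun n : ℕ => series L (n + P0 L)) atTop (𝓝 (⨅ n, series L (n + P0 L))) :=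
    tendsto_atTop_ciInf h1 ⟨0, by rintro _ ⟨n, rfl⟩; exact series_nonneg _ _⟩
  obtain ⟨𝔖, h𝔖⟩ : ∃ 𝔖, 𝔖 = ⨅ n, series L (n + P0 L) := ⟨_, rfl⟩
  rw [← h𝔖] at h2
  have h3 : Tendsto (series L) atTop (𝓝 𝔖) := (tendsto_add_atTop_iff_nat (P0 L)).1 h2
  have h4 : ∀ t, P0 L ≤ t → series L t * (1 - (L.card : ℝ) ^ 2 / t) ≤ 𝔖 ∧ 𝔖 ≤ series L t := by
    intro t ht
    constructor
    · exact ge_of_tendsto h3 (by
        filter_upwards [eventually_ge_atTop t] with n hn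
        exact (series_bounds hL ht hn).1)
    · exact le_of_tendsto h3 (by
        filter_upwards [eventually_ge_atTop t] with n hn
        exact (series_bounds hL ht hn).2)
  refine ⟨𝔖, ge_of_tendsto' h3 fun n => series_nonneg L n, h3, h4, ?_⟩
  intro hadm
  obtain ⟨t, ht⟩ : ∃ t : ℕ, t = P0 L + 2 * L.card ^ 2 + 1 := ⟨_, rfl⟩
  have h5 := (h4 t (by omega)).1
  have h6 : 0 < series L t := by
    apply prod_pos
    intro p hp
    have hpp := (mem_primes.1 hp).1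
    have hpR : (1 : ℝ) < p := by exact_mod_cast hpp.one_lt
    apply div_pos
    · rw [sub_pos, div_lt_one (by linarith)]
      exact_mod_cast hadm p hpp
    · apply pow_pos
      rw [sub_pos, div_lt_one (by linarith)]
      exact hpR
  have h7 : (L.card : ℝ) ^ 2 / t ≤ 1 / 2 := by
    have htR : (t : ℝ) = P0 L + 2 * (L.card : ℝ) ^ 2 + 1 := by rw [ht]; push_cast; ring
    have : (0 : ℝ) ≤ P0 L := Nat.cast_nonneg _
    rw [div_le_iff₀ (by rw [htR]; positivity), htR]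
    linarith
  nlinarith

end Pool.Agent.U462.Sh
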