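import Pool.Agent.U462.Sh.MomH
import Pool.Agent.U462.Sh.Sing

/-!
# Infinite sets which satisfy countably many constraints
-/

set_option autoImplicit false

open Finset Filter Topology

namespace Pool.Agent.U462.Sh

/-- the values of the forms of `L` at `n` -/
def vals (L : Finset (ℕ × ℕ)) (n : ℕ) : Finset ℕ := L.image fun l => l.1 * n + l.2

lemma form_inj {L : Finset (ℕ × ℕ)} (hL : IsSystem L) {l : ℕ × ℕ} (hl : l ∈ L) {m n : ℕ}
    (h : l.1 * m + l.2 = l.1 * n + l.2) : m = n := by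
  have h1 := (hL l hl).1
  exact Nat.eq_of_mul_eq_mul_left h1 (Nat.add_right_cancel h)

/-- few values of the system meet the values at `n` -/
lemma overlap {L : Finset (ℕ × ℕ)} (hL : IsSystem L) (I : Finset ℕ) (n : ℕ) :
    #(I.filter (fun n' => ¬ Disjoint (vals L n) (vals L n'))) ≤ #L ^ 2 := by
  classical
  have h1 : I.filter (fun n' => ¬ Disjoint (vals L n) (vals L n')) ⊆
      (L ×ˢ L).biUnion fun q => I.filter fun n' => q.2.1 * n' + q.2.2 = q.1.1 * n + q.1.2 := by
    intro n' hn'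
    rw [mem_filter, not_disjoint_iff] at hn'
    obtain ⟨hI, u, hu1, hu2⟩ := hn'
    unfold vals at hu1 hu2
    rw [mem_image] at hu1 hu2
    obtain ⟨l, hl, hlu⟩ := hu1
    obtain ⟨l', hl', hlu'⟩ := hu2
    rw [mem_biUnion]
    refine ⟨(l, l'), mem_product.2 ⟨hl, hl'⟩, mem_filter.2 ⟨hI, ?_⟩⟩
    simp only
    rw [hlu, hlu']
  refine (card_le_card h1).trans ((card_biUnion_le_card_mul _ _ 1 ?_).trans ?_)
  · intro q hq
    rw [mem_product] at hq
    rw [card_le_one]
    intro m hm m' hm'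
    rw [mem_filter] at hm hm'
    exact form_inj hL hq.2 (hm.2.trans hm'.2.symm)
  · rw [mul_one, card_product, sq]

/-- the bound from which the constraints of a system start -/
noncomputable def thr (L : Finset (ℕ × ℕ)) : ℕ := (#L ^ 2 + 1) * 2 ^ (Encodable.encode L + 2)

open Classical in
/-- the first `X` finite sets of forms -/
noncomputable def sys (X : ℕ) : Finset (Finset (ℕ × ℕ)) :=
  (range X).biUnion fun i => ((Encodable.decode₂ (Finset (ℕ × ℕ)) i).toFinset)

lemma mem_sys {X : ℕ} {L : Finset (ℕ × ℕ)} : L ∈ sys X ↔ Encodable.encode L < X := by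
  classical
  unfold sys
  rw [mem_biUnion]
  constructor
  · rintro ⟨i, hi, h1⟩
    rw [Option.mem_toFinset, Encodable.mem_decode₂] at h1
    rw [mem_range] at hi
    rw [h1]; exact hi
  · intro h1
    refine ⟨Encodable.encode L, mem_range.2 h1, ?_⟩
    rw [Option.mem_toFinset, Encodable.mem_decode₂]

open Classical in
/-- the finitely many constraints up to `X` -/
noncomputable def cons (X : ℕ) : Finset (Finset (ℕ × ℕ) × ℕ) :=
  (sys X ×ˢ range X).filter fun κ => IsSystem κ.1 ∧ thr κ.1 < κ.2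

lemma mem_cons {X : ℕ} {κ : Finset (ℕ × ℕ) × ℕ} : κ ∈ cons X ↔
    Encodable.encode κ.1 < X ∧ κ.2 < X ∧ IsSystem κ.1 ∧ thr κ.1 < κ.2 := by
  classical
  unfold cons
  rw [mem_filter, mem_product, mem_sys, mem_range]
  tauto

lemma sum_cons (X : ℕ) : ∑ κ ∈ cons X, ((#κ.1 : ℝ) ^ 2 * (κ.2 : ℝ) ^ 4) / ((κ.2 : ℝ) ^ 3) ^ 2 < 1 := by
  classical
  have hone : ∀ L ∈ sys X, ∑ j ∈ range X, (if IsSystem L ∧ thr L < j then
      ((#L : ℝ) ^ 2 * (j : ℝ) ^ 4) / ((j : ℝ) ^ 3) ^ 2 else 0) ≤ (1 / 2) ^ (Encodable.encode L + 2) := by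
    intro L _
    have hthr : 1 ≤ thr L := by
      unfold thr
      exact Nat.mul_pos (by positivity) (by positivity)
    have hthrR : (0 : ℝ) < thr L := by exact_mod_cast hthr
    have h1 : ∑ j ∈ range X, (if IsSystem L ∧ thr L < j then
        ((#L : ℝ) ^ 2 * (j : ℝ) ^ 4) / ((j : ℝ) ^ 3) ^ 2 else 0) ≤
        (#L : ℝ) ^ 2 * (thr L : ℝ)⁻¹ := by
      rw [← sum_filter]
      rcases Nat.lt_or_ge X (thr L) with hX | hX
      · have : (range X).filter (fun j => IsSystem L ∧ thr L < j) = ∅ := by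
          rw [filter_eq_empty_iff]
          intro j hj h
          rw [mem_range] at hj
          omega
        rw [this, sum_empty]
        positivity
      · calc ∑ j ∈ (range X).filter (fun j => IsSystem L ∧ thr L < j),
              ((#L : ℝ) ^ 2 * (j : ℝ) ^ 4) / ((j : ℝ) ^ 3) ^ 2
            ≤ ∑ j ∈ (range X).filter (fun j => IsSystem L ∧ thr L < j), (#L : ℝ) ^ 2 * ((j : ℝ) ^ 2)⁻¹ := by
              apply sum_le_sum
              intro j hj
              have hj0 : (0 : ℝ) < j := by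
                have := (mem_filter.1 hj).2.2
                exact_mod_cast (by omega : 0 < j)
              apply le_of_eq
              field_simp
          _ ≤ ∑ j ∈ Ioc (thr L) X, (#L : ℝ) ^ 2 * ((j : ℝ) ^ 2)⁻¹ := by
              apply sum_le_sum_of_subset_of_nonneg
              · intro j hj
                rw [mem_filter, mem_range] at hj
                rw [mem_Ioc]
                omega
              · intro j _ _
                positivity
          _ = (#L : ℝ) ^ 2 * ∑ j ∈ Ioc (thr L) X, ((j : ℝ) ^ 2)⁻¹ := by rw [mul_sum]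
          _ ≤ (#L : ℝ) ^ 2 * ((thr L : ℝ)⁻¹ - (X : ℝ)⁻¹) :=
              mul_le_mul_of_nonneg_left (sum_Ioc_inv_sq_le_sub (by omega) hX) (by positivity)
          _ ≤ _ := by
              apply mul_le_mul_of_nonneg_left _ (by positivity)
              have : (0 : ℝ) ≤ (X : ℝ)⁻¹ := by positivity
              linarith
    refine h1.trans ?_
    rw [← div_eq_mul_inv, div_le_iff₀ hthrR]
    unfold thr
    push_cast
    have e1 : (1 / 2 : ℝ) ^ (Encodable.encode L + 2) * (((#L : ℝ) ^ 2 + 1) * 2 ^ (Encodable.encode L + 2)) =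
        ((#L : ℝ) ^ 2 + 1) * ((1 / 2) ^ (Encodable.encode L + 2) * 2 ^ (Encodable.encode L + 2)) := by ring
    rw [e1, ← mul_pow]
    norm_num
  unfold cons
  rw [sum_filter, sum_product]
  refine lt_of_le_of_lt (sum_le_sum hone) ?_
  have h2 : ∑ L ∈ sys X, (1 / 2 : ℝ) ^ (Encodable.encode L + 2) ≤ ∑ i ∈ range X, (1 / 2 : ℝ) ^ (i + 2) := by
    rw [← sum_image (f := fun i : ℕ => (1 / 2 : ℝ) ^ (i + 2)) (g := fun L : Finset (ℕ × ℕ) => Encodable.encode L)
      (fun a _ b _ h => Encodable.encode_injective h)]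
    apply sum_le_sum_of_subset_of_nonneg
    · intro i hi
      rw [mem_image] at hi
      obtain ⟨L, hL, rfl⟩ := hi
      rw [mem_range]
      exact mem_sys.1 hL
    · intro i _ _
      positivity
  refine lt_of_le_of_lt h2 ?_
  have h3 : ∀ X : ℕ, ∑ i ∈ range X, (1 / 2 : ℝ) ^ (i + 2) = 1 / 2 - (1 / 2) ^ (X + 1) := by
    intro X
    induction X with
    | zero => norm_num
    | succ X ih => rw [sum_range_succ, ih]; ring
  rw [h3]
  have : (0 : ℝ) < (1 / 2) ^ (X + 1) := by positivity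
  linarith

section

variable {H : Finset ℕ → Prop} {a : ℕ → ℝ}

open Classical in
/-- A set without forbidden configurations for which the number of the `n < j ^ 4` with all values of the
system in the set is as expected. -/
theorem exists_set (h0 : ¬ H ∅) (hS : SmallH H a) : ∃ S : Set ℕ,
    (∀ e : Finset ℕ, H e → ¬ (∀ m ∈ e, m ∈ S)) ∧ (∀ m ∈ S, a m ≠ 0) ∧
    ∀ L : Finset (ℕ × ℕ), IsSystem L → ∀ j : ℕ, thr L < j →
      |(#((range (j ^ 4)).filter (fun n => ∀ m ∈ vals L n, m ∈ S)) : ℝ) -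
        ∑ n ∈ range (j ^ 4), ch H a (vals L n)| ≤ (j : ℝ) ^ 3 := by
  -- the finite sets
  have hfin : ∀ X : ℕ, ∃ A : Finset ℕ, ch H a A ≠ 0 ∧ ∀ κ ∈ cons X,
      |cnt (fun n => vals κ.1 n) (range (κ.2 ^ 4)) A - ∑ n ∈ range (κ.2 ^ 4), ch H a (vals κ.1 n)| <
        (κ.2 : ℝ) ^ 3 := by
    intro X
    obtain ⟨A, _, h1, h2⟩ := choose_set h0 hS
      ((cons X).biUnion fun κ => (range (κ.2 ^ 4)).biUnion fun n => vals κ.1 n) (cons X)
      (fun κ => range (κ.2 ^ 4)) (fun κ n => vals κ.1 n) (fun κ => (κ.2 : ℝ) ^ 3)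
      (fun κ => (#κ.1 : ℝ) ^ 2 * (κ.2 : ℝ) ^ 4)
      (by
        intro κ hκ
        have : 0 < κ.2 := by have := (mem_cons.1 hκ).2.2.2; omega
        positivity)
      (by
        intro κ hκ n hn
        exact (subset_biUnion_of_mem (fun n => vals κ.1 n) hn).trans
          (subset_biUnion_of_mem (fun κ : Finset (ℕ × ℕ) × ℕ => (range (κ.2 ^ 4)).biUnion fun n => vals κ.1 n) hκ))
      (by
        intro κ hκ
        have hsys := (mem_cons.1 hκ).2.2.1
        calc ∑ n ∈ range (κ.2 ^ 4), ((#((range (κ.2 ^ 4)).filter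
              (fun n' => ¬ Disjoint (vals κ.1 n) (vals κ.1 n'))) : ℕ) : ℝ)
            ≤ ∑ n ∈ range (κ.2 ^ 4), ((#κ.1 ^ 2 : ℕ) : ℝ) := by
              apply sum_le_sum
              intro n _
              exact_mod_cast overlap hsys _ n
          _ = _ := by
              rw [sum_const, card_range, nsmul_eq_mul]
              push_cast
              ring)
      (sum_cons X)
    exact ⟨A, h1, h2⟩
  choose A hA1 hA2 using hfin
  refine ⟨{m | ∀ᶠ X in (hyperfilter ℕ : Filter ℕ), m ∈ A X}, ?_, ?_, ?_⟩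
  · intro e he hsub
    have h1 : ∀ᶠ X in (hyperfilter ℕ : Filter ℕ), ∀ m ∈ e, m ∈ A X := by
      rw [Filter.eventually_all_finset]
      exact hsub
    obtain ⟨X, hX⟩ := h1.exists
    have h2 : Avoids H (A X) := by
      by_contra hcon
      have := hA1 X
      unfold ch at this
      rw [if_neg hcon] at this
      exact this rfl
    exact h2 e he hX
  · intro m hm
    obtain ⟨X, hX⟩ := (show ∀ᶠ X in (hyperfilter ℕ : Filter ℕ), m ∈ A X from hm).exists
    intro hm0
    apply hA1 X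
    unfold ch
    split_ifs
    · exact prod_eq_zero hX hm0
    · rfl
  · intro L hL j hj
    have h1 : ∀ m : ℕ, ∀ᶠ X in (hyperfilter ℕ : Filter ℕ),
        (m ∈ A X ↔ m ∈ {m | ∀ᶠ X in (hyperfilter ℕ : Filter ℕ), m ∈ A X}) := by
      intro m
      by_cases h : ∀ᶠ X in (hyperfilter ℕ : Filter ℕ), m ∈ A X
      · filter_upwards [h] with X hX
        exact ⟨fun _ => h, fun _ => hX⟩
      · filter_upwards [Ultrafilter.eventually_not.2 h] with X hX
        exact ⟨fun h' => absurd h' hX, fun h' => absurd h' h⟩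
    have h2 : ∀ᶠ X in (hyperfilter ℕ : Filter ℕ), ∀ m ∈ (range (j ^ 4)).biUnion (fun n => vals L n),
        (m ∈ A X ↔ m ∈ {m | ∀ᶠ X in (hyperfilter ℕ : Filter ℕ), m ∈ A X}) := by
      rw [Filter.eventually_all_finset]
      exact fun m _ => h1 m
    have h3 : ∀ᶠ X in (hyperfilter ℕ : Filter ℕ), max (Encodable.encode L) j < X := by
      have : ∀ᶠ X in atTop, max (Encodable.encode L) j < X := eventually_gt_atTop _
      exact (Nat.cofinite_eq_atTop ▸ this).filter_mono hyperfilter_le_cofinite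
    obtain ⟨X, hX2, hX3⟩ := (h2.and h3).exists
    have h4 := hA2 X (L, j) (mem_cons.2 ⟨by have := le_max_left (Encodable.encode L) j; simp only; omega,
      by have := le_max_right (Encodable.encode L) j; simp only; omega, hL, hj⟩)
    simp only at h4
    refine le_of_eq_of_le ?_ h4.le
    congr 2
    unfold cnt
    rw [card_eq_sum_ones, Nat.cast_sum, sum_filter]
    apply sum_congr rfl
    intro n hn
    have h5 : (∀ m ∈ vals L n, m ∈ {m | ∀ᶠ X in (hyperfilter ℕ : Filter ℕ), m ∈ A X}) ↔ vals L n ⊆ A X := by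
      constructor
      · intro h m hm
        exact (hX2 m (mem_biUnion.2 ⟨n, hn, hm⟩)).2 (h m hm)
      · intro h m hm
        exact (hX2 m (mem_biUnion.2 ⟨n, hn, hm⟩)).1 (h hm)
    by_cases h6 : vals L n ⊆ A X
    · rw [if_pos h6, if_pos (h5.2 h6)]; norm_num
    · rw [if_neg h6, if_neg (fun h => h6 (h5.1 h))]

end

end Pool.Agent.U462.Sh
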