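import Pool.Agent.U462.Sh.Main
import Pool.Agent.U462.Sh.Comp

/-!
# The general theorem
-/

set_option autoImplicit false
set_option maxHeartbeats 1000000

open Finset Filter Topology

namespace Pool.Agent.U462.Sh

/-- Every large `n` is linked to few large `m`, where `m` is counted with the weight `1/√(log m)`. -/
def SparseFam (H : Finset ℕ → Prop) : Prop :=
  ∀ ε : ℝ, 0 < ε → ∃ M : ℕ, ∀ n : ℕ, M ≤ n → ∀ F : Finset ℕ, (∀ m ∈ F, M ≤ m ∧ Linked H n m) →
    ∑ m ∈ F, 1 / Real.sqrt (Real.log m) ≤ ε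

open Classical in
/-- The values of the system contain a forbidden set for at most `C √x` of the `n < x`. -/
def Rare (H : Finset ℕ → Prop) (L : Finset (ℕ × ℕ)) : Prop :=
  ∃ C : ℝ, ∀ x : ℕ, (#((range x).filter (fun n => ¬ Avoids H (vals L n))) : ℝ) ≤ C * Real.sqrt x

lemma small_den {H : Finset ℕ → Prop} (hsp : SparseFam H) : ∃ M : ℕ, 2 ≤ M ∧ SmallH H (den M) := by
  classical
  obtain ⟨C, hC, hb⟩ := den_bound
  obtain ⟨M0, hM0⟩ := hsp (1 / (4 * C)) (by positivity)
  obtain ⟨M, hM⟩ : ∃ M, M = max (max M0 2) ⌈Real.exp (16 * C ^ 2)⌉₊ := ⟨_, rfl⟩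
  have h1 : M0 ≤ M := by rw [hM]; exact (le_max_left _ _).trans (le_max_left _ _)
  have h2 : 2 ≤ M := by rw [hM]; exact (le_max_right _ _).trans (le_max_left _ _)
  have h3 : Real.exp (16 * C ^ 2) ≤ M := by
    rw [hM]
    exact (Nat.le_ceil _).trans (by exact_mod_cast le_max_right _ _)
  refine ⟨M, h2, fun n => ⟨den_nonneg M n, ?_, ?_⟩⟩
  · by_cases hn : M ≤ n
    · refine (hb M n (h2.trans hn)).trans ?_
      have h4 : 16 * C ^ 2 ≤ Real.log n := by
        rw [← Real.log_exp (16 * C ^ 2)]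
        apply Real.log_le_log (Real.exp_pos _)
        exact h3.trans (by exact_mod_cast hn)
      have h5 : 4 * C ≤ Real.sqrt (Real.log n) := by
        apply Real.le_sqrt_of_sq_le
        nlinarith
      rw [div_le_iff₀ (by linarith)]
      linarith
    · unfold den
      rw [if_neg hn]
      norm_num
  · intro hne F hF
    have hn : M ≤ n := by
      by_contra hcon
      apply hne
      unfold den
      rw [if_neg hcon]
    have e1 : ∑ m ∈ F, den M m = ∑ m ∈ F.filter (fun m => M ≤ m), den M m := by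
      rw [sum_filter]
      apply sum_congr rfl
      intro m _
      split_ifs with h
      · rfl
      · unfold den
        rw [if_neg h]
    rw [e1]
    calc ∑ m ∈ F.filter (fun m => M ≤ m), den M m
        ≤ ∑ m ∈ F.filter (fun m => M ≤ m), C * (1 / Real.sqrt (Real.log m)) := by
          apply sum_le_sum
          intro m hm
          refine (hb M m (h2.trans (mem_filter.1 hm).2)).trans (le_of_eq ?_)
          ring
      _ = C * ∑ m ∈ F.filter (fun m => M ≤ m), 1 / Real.sqrt (Real.log m) := by rw [mul_sum]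
      _ ≤ C * (1 / (4 * C)) := by
          apply mul_le_mul_of_nonneg_left _ hC.le
          apply hM0 n (h1.trans hn)
          intro m hm
          rw [mem_filter] at hm
          exact ⟨h1.trans hm.2, hF m hm.1⟩
      _ = 1 / 4 := by field_simp

lemma one_sol {a b a' b' : ℕ} (h : ¬ (a' = a ∧ b' = b)) {m n : ℕ} (hm : a' * m + b' = a * m + b)
    (hn : a' * n + b' = a * n + b) : m = n := by
  have hm' : (a' : ℤ) * m + b' = a * m + b := by exact_mod_cast hm
  have hn' : (a' : ℤ) * n + b' = a * n + b := by exact_mod_cast hn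
  have h1 : ((a' : ℤ) - a) * ((m : ℤ) - n) = 0 := by linear_combination hm' - hn'
  rcases mul_eq_zero.1 h1 with h2 | h2
  · exfalso
    apply h
    have h3 : a' = a := by omega
    subst h3
    exact ⟨rfl, by omega⟩
  · omega

open Classical in
/-- few `n` for which two of the values coincide -/
lemma not_inj {L : Finset (ℕ × ℕ)} (I : Finset ℕ) :
    #(I.filter (fun n => ¬ Set.InjOn (fun l : ℕ × ℕ => l.1 * n + l.2) (L : Set (ℕ × ℕ)))) ≤ #L ^ 2 := by
  have h1 : I.filter (fun n => ¬ Set.InjOn (fun l : ℕ × ℕ => l.1 * n + l.2) (L : Set (ℕ × ℕ))) ⊆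
      ((L ×ˢ L).filter (fun q => q.1 ≠ q.2)).biUnion fun q =>
        I.filter fun n => q.1.1 * n + q.1.2 = q.2.1 * n + q.2.2 := by
    intro n hn
    rw [mem_filter] at hn
    obtain ⟨hI, hn⟩ := hn
    unfold Set.InjOn at hn
    push Not at hn
    obtain ⟨l, hl, l', hl', he, hne⟩ := hn
    rw [mem_biUnion]
    exact ⟨(l, l'), mem_filter.2 ⟨mem_product.2 ⟨hl, hl'⟩, hne⟩, mem_filter.2 ⟨hI, he⟩⟩
  refine (card_le_card h1).trans ((card_biUnion_le_card_mul _ _ 1 ?_).trans ?_)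
  · intro q hq
    rw [mem_filter] at hq
    rw [card_le_one]
    intro m hm m' hm'
    rw [mem_filter] at hm hm'
    refine one_sol (fun h => hq.2 ?_) hm.2 hm'.2
    exact Prod.ext h.1 h.2
  · rw [mul_one]
    refine (card_le_card (filter_subset _ _)).trans ?_
    rw [card_product, sq]

/-- the final estimate -/
lemma quarter (c : ℝ) (hc0 : 0 ≤ c) (hc : c ≤ 1 / 4) (x j : ℕ) (hx : 2 ≤ x) (h : x < (j + 1) ^ 4) (hj : 1 ≤ j) :
    (1 : ℝ) ≤ 2 * Real.exp (1 / 4) * j * Real.exp (-(c * Real.sqrt (Real.log x))) := by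
  have hxR : (2 : ℝ) ≤ x := by exact_mod_cast hx
  have hjR : (1 : ℝ) ≤ j := by exact_mod_cast hj
  have hlog0 : 0 ≤ Real.log x := Real.log_natCast_nonneg x
  obtain ⟨s, hs⟩ : ∃ s, s = Real.sqrt (Real.log x) := ⟨_, rfl⟩
  have hs0 : 0 ≤ s := by rw [hs]; exact Real.sqrt_nonneg _
  have hs2 : s ^ 2 = Real.log x := by rw [hs]; exact Real.sq_sqrt hlog0
  rw [← hs]
  have h1 : Real.log x ≤ 4 * Real.log ((j : ℝ) + 1) := by
    have e1 : 4 * Real.log ((j : ℝ) + 1) = Real.log (((j : ℝ) + 1) ^ 4) := by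
      rw [Real.log_pow]; norm_num
    rw [e1]
    apply Real.log_le_log (by linarith)
    exact_mod_cast h.le
  have h2 : c * s ≤ 1 / 4 + Real.log ((j : ℝ) + 1) := by
    have : c * s ≤ 1 / 4 * s := mul_le_mul_of_nonneg_right hc hs0
    nlinarith [sq_nonneg (s - 1)]
  have h3 : (1 : ℝ) ≤ Real.exp (1 / 4 + Real.log ((j : ℝ) + 1) + -(c * s)) := by
    apply Real.one_le_exp
    linarith
  rw [Real.exp_add, Real.exp_add, Real.exp_log (by linarith)] at h3
  refine h3.trans ?_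
  apply mul_le_mul_of_nonneg_right _ (Real.exp_pos _).le
  have := Real.exp_pos (1 / 4 : ℝ)
  nlinarith

open Classical in
/-- The general theorem. -/
theorem general : ∃ c : ℝ, 0 < c ∧ ∀ H : Finset ℕ → Prop, ¬ H ∅ → SparseFam H → ∃ S : Set ℕ,
    (∀ e : Finset ℕ, H e → ¬ (∀ m ∈ e, m ∈ S)) ∧ (∀ m ∈ S, 2 ≤ m ∧ Sifted m) ∧
    ∀ L : Finset (ℕ × ℕ), IsSystem L → Rare H L → ∃ 𝔖 : ℝ, Tendsto (series L) atTop (𝓝 𝔖) ∧
      ((∀ p : ℕ, p.Prime → #(roots L p) < p) → 0 < 𝔖) ∧
      ∃ C : ℝ, ∀ x : ℕ, 2 ≤ x →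
        |(#((range x).filter (fun n => ∀ l ∈ L, l.1 * n + l.2 ∈ S)) : ℝ) - 𝔖 * ∑ n ∈ Ico 2 x, lw L n| ≤
          C * x * Real.exp (-(c * Real.sqrt (Real.log x))) := by
  obtain ⟨c, hc, hmain⟩ := main_term
  obtain ⟨c1, hc1⟩ : ∃ c1, c1 = min c (1 / 4) := ⟨_, rfl⟩
  have hc10 : 0 < c1 := by rw [hc1]; exact lt_min hc (by norm_num)
  have hc1c : c1 ≤ c := by rw [hc1]; exact min_le_left _ _
  have hc14 : c1 ≤ 1 / 4 := by rw [hc1]; exact min_le_right _ _
  refine ⟨c1, hc10, ?_⟩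
  intro H h0 hsp
  obtain ⟨M, hM, hS⟩ := small_den hsp
  obtain ⟨S, hS1, hS2, hS3⟩ := exists_set h0 hS
  refine ⟨S, hS1, ?_, ?_⟩
  · intro m hm
    have h1 := hS2 m hm
    unfold den at h1
    split_ifs at h1 with h2
    · refine ⟨hM.trans h2, ?_⟩
      by_contra hcon
      apply h1
      unfold sw
      rw [if_neg hcon, zero_div]
    · exact absurd rfl h1
  · intro L hL hrare
    obtain ⟨𝔖, h𝔖0, hlim, hbd, hposi⟩ := series_limit hL
    obtain ⟨C', hC', hmain'⟩ := hmain L hL 𝔖 h𝔖0 hbd M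
    obtain ⟨C2, hC2⟩ := hrare
    refine ⟨𝔖, hlim, hposi, ?_⟩
    obtain ⟨T, hT⟩ : ∃ T : ℝ, T = 2 * Real.exp (1 / 4) := ⟨_, rfl⟩
    have hT0 : 0 < T := by rw [hT]; positivity
    refine ⟨23 * T + ((thr L : ℝ) + 1) ^ 4 * T + (#L : ℝ) ^ 2 * T + |C2| * T + C', ?_⟩
    intro x hx
    have hxR : (2 : ℝ) ≤ x := by exact_mod_cast hx
    obtain ⟨g, hg⟩ : ∃ g, g = Real.exp (-(c1 * Real.sqrt (Real.log x))) := ⟨_, rfl⟩
    have hg0 : 0 < g := by rw [hg]; exact Real.exp_pos _
    rw [← hg]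
    obtain ⟨j, hj⟩ : ∃ j, j = Nat.sqrt (Nat.sqrt x) := ⟨_, rfl⟩
    have hj1 : j ^ 4 ≤ x := by
      have h1 := Nat.sqrt_le' (Nat.sqrt x)
      have h2 := Nat.sqrt_le' x
      rw [← hj] at h1
      calc j ^ 4 = (j ^ 2) ^ 2 := by ring
        _ ≤ (Nat.sqrt x) ^ 2 := Nat.pow_le_pow_left h1 2
        _ ≤ x := h2
    have hj2 : x < (j + 1) ^ 4 := by
      have h1 := Nat.lt_succ_sqrt' (Nat.sqrt x)
      have h2 := Nat.lt_succ_sqrt' x
      rw [← hj] at h1
      calc x < (Nat.sqrt x + 1) ^ 2 := h2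
        _ ≤ ((j + 1) ^ 2) ^ 2 := Nat.pow_le_pow_left (Nat.succ_le_of_lt h1) 2
        _ = (j + 1) ^ 4 := by ring
    have hj0 : 1 ≤ j := by
      rcases Nat.eq_zero_or_pos j with h | h
      · rw [h] at hj2; norm_num at hj2; omega
      · exact h
    have hjR : (1 : ℝ) ≤ j := by exact_mod_cast hj0
    have hj1R : (j : ℝ) ^ 4 ≤ x := by exact_mod_cast hj1
    have hq : 1 ≤ T * j * g := by
      rw [hT, hg]; exact quarter c1 hc10.le hc14 x j hx hj2 hj0
    -- the functions
    have hch0 : ∀ n, 0 ≤ ch H (den M) (vals L n) := fun n => ch_nonneg (fun n => (hS n).1) _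
    have hch1 : ∀ n, ch H (den M) (vals L n) ≤ 1 := fun n => ch_le_one (fun n => (hS n).1)
      (fun n => by have := (hS n).2.1; linarith) _
    obtain ⟨cn, hcn⟩ : ∃ cn : ℕ → ℝ, cn = fun x => (#((range x).filter (fun n => ∀ m ∈ vals L n, m ∈ S)) : ℝ) :=
      ⟨_, rfl⟩
    obtain ⟨Fc, hFc⟩ : ∃ Fc : ℕ → ℝ, Fc = fun x => ∑ n ∈ range x, ch H (den M) (vals L n) := ⟨_, rfl⟩
    have hcnt : (#((range x).filter (fun n => ∀ l ∈ L, l.1 * n + l.2 ∈ S)) : ℝ) = cn x := by
      rw [hcn]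
      simp only
      congr 2
      ext n
      rw [mem_filter, mem_filter]
      unfold vals
      simp only [forall_mem_image]
    rw [hcnt]
    have hcnmono : ∀ u v : ℕ, u ≤ v → cn u ≤ cn v := by
      intro u v huv
      rw [hcn]
      simp only
      exact_mod_cast card_le_card (filter_subset_filter _ (range_subset_range.2 huv))
    have hcn0 : ∀ u : ℕ, 0 ≤ cn u ∧ cn u ≤ u := by
      intro u
      rw [hcn]
      simp only
      refine ⟨Nat.cast_nonneg _, ?_⟩
      have := card_filter_le (range u) (fun n => ∀ m ∈ vals L n, m ∈ S)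
      rw [card_range] at this
      exact_mod_cast this
    have hFmono : ∀ u v : ℕ, u ≤ v → Fc u ≤ Fc v ∧ Fc v ≤ Fc u + ((v : ℝ) - u) := by
      intro u v huv
      rw [hFc]
      simp only
      rw [← sum_range_add_sum_Ico _ huv]
      have h1 : 0 ≤ ∑ n ∈ Ico u v, ch H (den M) (vals L n) := sum_nonneg fun n _ => hch0 n
      have h2 : ∑ n ∈ Ico u v, ch H (den M) (vals L n) ≤ (v : ℝ) - u := by
        calc _ ≤ ∑ n ∈ Ico u v, (1 : ℝ) := sum_le_sum fun n _ => hch1 n
          _ = (v : ℝ) - u := by rw [sum_const, Nat.card_Ico, nsmul_eq_mul, mul_one, Nat.cast_sub huv]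
      constructor <;> linarith
    have hgrid : ∀ i : ℕ, thr L < i → |cn (i ^ 4) - Fc (i ^ 4)| ≤ (i : ℝ) ^ 3 := by
      intro i hi
      rw [hcn, hFc]
      exact hS3 L hL i hi
    have hinter : |cn x - Fc x| ≤ ((thr L : ℝ) + 1) ^ 4 + 23 * (j : ℝ) ^ 3 := by
      by_cases hthr : thr L < j
      · have a1 := abs_le.1 (hgrid j hthr)
        have a2 := abs_le.1 (hgrid (j + 1) (by omega))
        have a3 := hcnmono _ _ hj1
        have a4 := hcnmono _ _ hj2.le
        have a5 := hFmono _ _ hj1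
        have a6 := hFmono _ _ hj2.le
        have a7 := hFmono (j ^ 4) ((j + 1) ^ 4) (Nat.pow_le_pow_left (by omega) 4)
        have e1 : (((j + 1 : ℕ) : ℝ)) ^ 3 + ((((j + 1) ^ 4 : ℕ) : ℝ) - ((j ^ 4 : ℕ) : ℝ)) ≤ 23 * (j : ℝ) ^ 3 := by
          push_cast
          have b1 : (1 : ℝ) ≤ j ^ 2 := one_le_pow₀ hjR
          have b2 : (j : ℝ) ≤ j ^ 2 := by nlinarith
          have b3 : (j : ℝ) ^ 2 ≤ j ^ 3 := by nlinarith
          nlinarith
        have e2 : (j : ℝ) ^ 3 ≤ (((j + 1 : ℕ) : ℝ)) ^ 3 := by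
          apply pow_le_pow_left₀ (by linarith)
          push_cast
          linarith
        have e3 : (0 : ℝ) ≤ ((thr L : ℝ) + 1) ^ 4 := by positivity
        rw [abs_le]
        constructor <;> linarith
      · have a1 := hcn0 x
        have a2 := hFmono 0 x (by omega)
        have a3 : Fc 0 = 0 := by rw [hFc]; simp
        have a4 : (x : ℝ) ≤ ((thr L : ℝ) + 1) ^ 4 := by
          have : x ≤ (thr L + 1) ^ 4 := hj2.le.trans (Nat.pow_le_pow_left (by omega) 4)
          exact_mod_cast this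
        rw [a3] at a2
        push_cast at a2
        have e3 : (0 : ℝ) ≤ 23 * (j : ℝ) ^ 3 := by positivity
        rw [abs_le]
        constructor <;> linarith
    -- the exceptional `n`
    have hexc : |Fc x - ∑ n ∈ range x, ∏ l ∈ L, den M (l.1 * n + l.2)| ≤ (#L : ℝ) ^ 2 + C2 * Real.sqrt x := by
      have b1 : ∀ n, |ch H (den M) (vals L n) - ∏ l ∈ L, den M (l.1 * n + l.2)| ≤
          (if ¬ Set.InjOn (fun l : ℕ × ℕ => l.1 * n + l.2) (L : Set (ℕ × ℕ)) then (1 : ℝ) else 0) +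
            (if ¬ Avoids H (vals L n) then (1 : ℝ) else 0) := by
        intro n
        have d1 : |ch H (den M) (vals L n) - ∏ l ∈ L, den M (l.1 * n + l.2)| ≤ 1 := by
          have e1 := hch0 n
          have e2 := hch1 n
          have e3 : 0 ≤ ∏ l ∈ L, den M (l.1 * n + l.2) := prod_nonneg fun _ _ => den_nonneg _ _
          have e4 : ∏ l ∈ L, den M (l.1 * n + l.2) ≤ 1 :=
            prod_le_one (fun _ _ => den_nonneg _ _) (fun l _ => by
              have := (hS (l.1 * n + l.2)).2.1; linarith)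
          rw [abs_le]
          constructor <;> linarith
        by_cases hi : Set.InjOn (fun l : ℕ × ℕ => l.1 * n + l.2) (L : Set (ℕ × ℕ))
        · by_cases ha : Avoids H (vals L n)
          · have : ch H (den M) (vals L n) = ∏ l ∈ L, den M (l.1 * n + l.2) := by
              unfold ch
              rw [if_pos ha]
              unfold vals
              rw [prod_image hi]
            rw [this, sub_self, abs_zero]
            positivity
          · rw [if_neg (not_not.2 hi), if_pos ha]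
            linarith
        · rw [if_pos hi]
          have : (0 : ℝ) ≤ if ¬ Avoids H (vals L n) then (1 : ℝ) else 0 := by positivity
          linarith
      rw [hFc]
      simp only
      rw [← sum_sub_distrib]
      calc |∑ n ∈ range x, (ch H (den M) (vals L n) - ∏ l ∈ L, den M (l.1 * n + l.2))|
          ≤ ∑ n ∈ range x, |ch H (den M) (vals L n) - ∏ l ∈ L, den M (l.1 * n + l.2)| := abs_sum_le_sum_abs _ _
        _ ≤ ∑ n ∈ range x, ((if ¬ Set.InjOn (fun l : ℕ × ℕ => l.1 * n + l.2) (L : Set (ℕ × ℕ)) then (1 : ℝ) else 0) +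
            (if ¬ Avoids H (vals L n) then (1 : ℝ) else 0)) := sum_le_sum fun n _ => b1 n
        _ = (#((range x).filter (fun n => ¬ Set.InjOn (fun l : ℕ × ℕ => l.1 * n + l.2) (L : Set (ℕ × ℕ)))) : ℝ) +
            (#((range x).filter (fun n => ¬ Avoids H (vals L n))) : ℝ) := by
            rw [sum_add_distrib, ← sum_filter, ← sum_filter]
            simp only [sum_const, nsmul_eq_mul, mul_one]
        _ ≤ _ := by
            apply add_le_add _ (hC2 x)
            exact_mod_cast not_inj (L := L) (range x)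
    have hmx := hmain' x hx
    have hgc : Real.exp (-(c * Real.sqrt (Real.log x))) ≤ g := by
      rw [hg]
      apply Real.exp_le_exp.2
      have := mul_le_mul_of_nonneg_right hc1c (Real.sqrt_nonneg (Real.log x))
      linarith
    have hmx2 : |∑ n ∈ range x, ∏ l ∈ L, den M (l.1 * n + l.2) - 𝔖 * ∑ n ∈ Ico 2 x, lw L n| ≤ C' * x * g :=
      hmx.trans (mul_le_mul_of_nonneg_left hgc (by positivity))
    -- everything is at most a multiple of `x g`
    have hjx : (j : ℝ) ≤ x := by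
      have : j ≤ j ^ 4 := Nat.le_self_pow (by norm_num) j
      exact_mod_cast this.trans hj1
    have k1 : (1 : ℝ) ≤ T * (x * g) := by
      calc (1 : ℝ) ≤ T * j * g := hq
        _ = T * (j * g) := by ring
        _ ≤ T * (x * g) := mul_le_mul_of_nonneg_left (mul_le_mul_of_nonneg_right hjx hg0.le) hT0.le
    have k2 : (j : ℝ) ^ 3 ≤ T * (x * g) := by
      calc (j : ℝ) ^ 3 = j ^ 3 * 1 := by ring
        _ ≤ j ^ 3 * (T * j * g) := mul_le_mul_of_nonneg_left hq (by positivity)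
        _ = T * (j ^ 4 * g) := by ring
        _ ≤ _ := mul_le_mul_of_nonneg_left (mul_le_mul_of_nonneg_right hj1R hg0.le) hT0.le
    have k3 : Real.sqrt x ≤ T * (x * g) := by
      have d1 : (j : ℝ) ≤ Real.sqrt x := by
        apply Real.le_sqrt_of_sq_le
        have : (j : ℝ) ^ 2 ≤ j ^ 4 := pow_le_pow_right₀ hjR (by norm_num)
        linarith
      have d2 : Real.sqrt x * Real.sqrt x = x := Real.mul_self_sqrt (by linarith)
      have d3 := Real.sqrt_nonneg (x : ℝ)
      calc Real.sqrt x = Real.sqrt x * 1 := by ring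
        _ ≤ Real.sqrt x * (T * j * g) := mul_le_mul_of_nonneg_left hq d3
        _ = T * ((Real.sqrt x * j) * g) := by ring
        _ ≤ T * ((Real.sqrt x * Real.sqrt x) * g) :=
            mul_le_mul_of_nonneg_left (mul_le_mul_of_nonneg_right (mul_le_mul_of_nonneg_left d1 d3) hg0.le) hT0.le
        _ = _ := by rw [d2]
    have t1 : |cn x - Fc x| ≤ (((thr L : ℝ) + 1) ^ 4 + 23) * (T * (x * g)) := by
      refine hinter.trans ?_
      have d1 : ((thr L : ℝ) + 1) ^ 4 * 1 ≤ ((thr L : ℝ) + 1) ^ 4 * (T * (x * g)) :=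
        mul_le_mul_of_nonneg_left k1 (by positivity)
      linarith
    have t2 : |Fc x - ∑ n ∈ range x, ∏ l ∈ L, den M (l.1 * n + l.2)| ≤ ((#L : ℝ) ^ 2 + |C2|) * (T * (x * g)) := by
      refine hexc.trans ?_
      have d1 : (#L : ℝ) ^ 2 * 1 ≤ (#L : ℝ) ^ 2 * (T * (x * g)) := mul_le_mul_of_nonneg_left k1 (by positivity)
      have d2 : C2 * Real.sqrt x ≤ |C2| * (T * (x * g)) :=
        mul_le_mul (le_abs_self C2) k3 (Real.sqrt_nonneg _) (abs_nonneg _)
      linarith
    calc |cn x - 𝔖 * ∑ n ∈ Ico 2 x, lw L n| =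
          |(cn x - Fc x) + (Fc x - ∑ n ∈ range x, ∏ l ∈ L, den M (l.1 * n + l.2)) +
            (∑ n ∈ range x, ∏ l ∈ L, den M (l.1 * n + l.2) - 𝔖 * ∑ n ∈ Ico 2 x, lw L n)| := by ring_nf
      _ ≤ |cn x - Fc x| + |Fc x - ∑ n ∈ range x, ∏ l ∈ L, den M (l.1 * n + l.2)| +
            |∑ n ∈ range x, ∏ l ∈ L, den M (l.1 * n + l.2) - 𝔖 * ∑ n ∈ Ico 2 x, lw L n| := abs_add_three _ _ _
      _ ≤ (((thr L : ℝ) + 1) ^ 4 + 23) * (T * (x * g)) + ((#L : ℝ) ^ 2 + |C2|) * (T * (x * g)) + C' * x * g :=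
          add_le_add (add_le_add t1 t2) hmx2
      _ = _ := by ring

end Pool.Agent.U462.Sh
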