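import Pool.Agent.U462.Sh.Lev
import Pool.Agent.U462.Sh.Fl

/-!
# Sums of the sifted weights over intervals
-/

set_option autoImplicit false

open Finset Filter Topology

namespace Pool.Agent.U462.Sh

/-- order-convex sets are intervals -/
lemma convex_eq (I : Finset ℕ) (h0 : ∀ n ∈ I, 1 ≤ n)
    (h : ∀ a ∈ I, ∀ b ∈ I, ∀ c, a ≤ c → c ≤ b → c ∈ I) :
    ∃ n1 n2 : ℕ, n1 ≤ n2 ∧ I = Ioc n1 n2 := by
  rcases I.eq_empty_or_nonempty with hI | hI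
  · exact ⟨0, 0, le_rfl, by rw [hI]; simp⟩
  · refine ⟨I.min' hI - 1, I.max' hI, ?_, ?_⟩
    · have := I.min'_le_max' hI; omega
    · ext c
      rw [mem_Ioc]
      have h1 := h0 _ (I.min'_mem hI)
      constructor
      · intro hc
        have h2 := I.min'_le c hc
        have h3 := I.le_max' c hc
        constructor <;> omega
      · rintro ⟨h2, h3⟩
        exact h _ (I.min'_mem hI) _ (I.max'_mem hI) c (by omega) h3

lemma mod_roots (s : Finset (ℕ × ℕ)) {p : ℕ} (hp : p.Prime) (n : ℕ) :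
    n % p ∉ roots s p ↔ ∀ l ∈ s, ¬ p ∣ l.1 * n + l.2 := by
  have h1 : n % p < p := Nat.mod_lt _ hp.pos
  have h2 : ∀ l : ℕ × ℕ, p ∣ l.1 * (n % p) + l.2 ↔ p ∣ l.1 * n + l.2 := by
    intro l
    rw [Nat.dvd_iff_mod_eq_zero, Nat.dvd_iff_mod_eq_zero]
    have : (l.1 * (n % p) + l.2) % p = (l.1 * n + l.2) % p := by
      rw [Nat.add_mod, Nat.mul_mod, Nat.mod_mod, ← Nat.mul_mod, ← Nat.add_mod]
    rw [this]
  unfold roots
  rw [mem_filter, mem_range]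
  constructor
  · intro h l hl h3
    exact h ⟨h1, l, hl, (h2 l).2 h3⟩
  · rintro h ⟨_, l, hl, h3⟩
    exact h l hl ((h2 l).1 h3)

/-- the forbidden residues -/
def Omg (L s : Finset (ℕ × ℕ)) (Z0 p : ℕ) : Finset ℕ := if p ≤ Z0 then roots L p else roots s p

/-- the sieve condition of a block -/
def TT (L s : Finset (ℕ × ℕ)) (Z0 Z1 n : ℕ) : Prop := ∀ p ∈ primesUpTo Z1, n % p ∉ Omg L s Z0 p

lemma Omg_subset (L s : Finset (ℕ × ℕ)) (Z0 p : ℕ) : Omg L s Z0 p ⊆ range p := by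
  unfold Omg
  split_ifs
  · exact roots_subset L p
  · exact roots_subset s p

lemma Omg_card {L s : Finset (ℕ × ℕ)} (hL : IsSystem L) (hs : s ⊆ L) (Z0 : ℕ) {p : ℕ} (hp : p.Prime) :
    #(Omg L s Z0 p) ≤ #L := by
  unfold Omg
  split_ifs
  · exact roots_card_le hL p hp
  · exact (roots_card_le (fun l hl => hL l (hs hl)) p hp).trans (card_le_card hs)

open Classical in
/-- the product of the sifted weights in a block -/
lemma prod_sw {L s : Finset (ℕ × ℕ)} (hs : s ⊆ L) {J0 n : ℕ}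
    (h1 : ∀ l ∈ s, lev (l.1 * n + l.2) = J0 + 1) (h2 : ∀ l ∈ L, l ∉ s → lev (l.1 * n + l.2) = J0) :
    ∏ l ∈ L, sw (l.1 * n + l.2) = if TT L s (2 ^ 2 ^ J0) (2 ^ 2 ^ (J0 + 1)) n then
      Wp (2 ^ 2 ^ (J0 + 1)) ^ #s * Wp (2 ^ 2 ^ J0) ^ #(L \ s) else 0 := by
  have h01 : 2 ^ 2 ^ J0 ≤ 2 ^ 2 ^ (J0 + 1) :=
    Nat.pow_le_pow_right (by norm_num) (Nat.pow_le_pow_right (by norm_num) (by omega))
  by_cases hT : TT L s (2 ^ 2 ^ J0) (2 ^ 2 ^ (J0 + 1)) n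
  · rw [if_pos hT]
    have hA : ∀ l ∈ L, ∀ p : ℕ, p.Prime → p ≤ 2 ^ 2 ^ J0 → ¬ p ∣ l.1 * n + l.2 := by
      intro l hl p hp hpz
      have h3 := hT p (mem_primes.2 ⟨hp, hpz.trans h01⟩)
      unfold Omg at h3
      rw [if_pos hpz, mod_roots L hp] at h3
      exact h3 l hl
    have hB : ∀ l ∈ s, ∀ p : ℕ, p.Prime → p ≤ 2 ^ 2 ^ (J0 + 1) → ¬ p ∣ l.1 * n + l.2 := by
      intro l hl p hp hpz
      by_cases hpz0 : p ≤ 2 ^ 2 ^ J0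
      · exact hA l (hs hl) p hp hpz0
      · have h3 := hT p (mem_primes.2 ⟨hp, hpz⟩)
        unfold Omg at h3
        rw [if_neg hpz0, mod_roots s hp] at h3
        exact h3 l hl
    have hv1 : ∀ l ∈ s, sw (l.1 * n + l.2) = Wp (2 ^ 2 ^ (J0 + 1)) := by
      intro l hl
      have hsf : Sifted (l.1 * n + l.2) := by
        intro p hp hpz
        rw [h1 l hl] at hpz
        exact hB l hl p hp hpz
      unfold sw
      rw [if_pos hsf, h1 l hl]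
    have hv2 : ∀ l ∈ L \ s, sw (l.1 * n + l.2) = Wp (2 ^ 2 ^ J0) := by
      intro l hl
      rw [Finset.mem_sdiff] at hl
      have hsf : Sifted (l.1 * n + l.2) := by
        intro p hp hpz
        rw [h2 l hl.1 hl.2] at hpz
        exact hA l hl.1 p hp hpz
      unfold sw
      rw [if_pos hsf, h2 l hl.1 hl.2]
    rw [← prod_sdiff hs, prod_congr rfl hv2, prod_congr rfl hv1, prod_const, prod_const, mul_comm]
  · rw [if_neg hT]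
    unfold TT at hT
    push Not at hT
    obtain ⟨p, hp, hpr⟩ := hT
    rw [mem_primes] at hp
    obtain ⟨l, hl, hlv, hd⟩ : ∃ l ∈ L, p ≤ 2 ^ 2 ^ lev (l.1 * n + l.2) ∧ p ∣ l.1 * n + l.2 := by
      unfold Omg at hpr
      split_ifs at hpr with hpz
      · by_contra hcon
        push Not at hcon
        refine (mod_roots L hp.1 n).2 (fun l hl => hcon l hl ?_) hpr
        refine hpz.trans (Nat.pow_le_pow_right (by norm_num) (Nat.pow_le_pow_right (by norm_num) ?_))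
        by_cases hls : l ∈ s
        · rw [h1 l hls]; omega
        · rw [h2 l hl hls]
      · by_contra hcon
        push Not at hcon
        refine (mod_roots s hp.1 n).2 (fun l hl => hcon l (hs hl) ?_) hpr
        rw [h1 l hl]
        exact hp.2
    apply prod_eq_zero hl
    unfold sw
    rw [if_neg]
    intro hsf
    exact hsf p hp.1 hlv hd

lemma prod_id {L s : Finset (ℕ × ℕ)} (hL : IsSystem L) (hs : s ⊆ L) {Z0 Z1 : ℕ} (h0 : P0 L ≤ Z0)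
    (h01 : Z0 ≤ Z1) :
    (∏ p ∈ primesUpTo Z1, (1 - (#(Omg L s Z0 p) : ℝ) / p)) * (Wp Z1 ^ #s * Wp Z0 ^ #(L \ s)) =
      series L Z0 * ∏ p ∈ (Ioc Z0 Z1).filter Nat.Prime, Fm #s p := by
  obtain ⟨e1, e2⟩ := primes_split h01
  have hW : Wp Z1 = Wp Z0 * ∏ p ∈ (Ioc Z0 Z1).filter Nat.Prime, (1 - 1 / (p : ℝ))⁻¹ := by
    unfold Wp
    rw [e1, prod_union e2]
  have hV : ∏ p ∈ primesUpTo Z1, (1 - (#(Omg L s Z0 p) : ℝ) / p) =
      (∏ p ∈ primesUpTo Z0, (1 - (#(roots L p) : ℝ) / p)) *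
        ∏ p ∈ (Ioc Z0 Z1).filter Nat.Prime, (1 - (#s : ℝ) / p) := by
    rw [e1, prod_union e2]
    congr 1
    · apply prod_congr rfl
      intro p hp
      unfold Omg
      rw [if_pos (mem_primes.1 hp).2]
    · apply prod_congr rfl
      intro p hp
      rw [mem_filter, mem_Ioc] at hp
      unfold Omg
      rw [if_neg (by omega), roots_card hL hs p hp.2 (by omega)]
  have hSer : series L Z0 = (∏ p ∈ primesUpTo Z0, (1 - (#(roots L p) : ℝ) / p)) * Wp Z0 ^ #L := by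
    unfold series Wp
    rw [← prod_pow, ← prod_mul_distrib]
    apply prod_congr rfl
    intro p _
    rw [inv_pow, div_eq_mul_inv]
  have hF : ∏ p ∈ (Ioc Z0 Z1).filter Nat.Prime, Fm #s p =
      (∏ p ∈ (Ioc Z0 Z1).filter Nat.Prime, (1 - (#s : ℝ) / p)) *
        (∏ p ∈ (Ioc Z0 Z1).filter Nat.Prime, (1 - 1 / (p : ℝ))⁻¹) ^ #s := by
    rw [← prod_pow, ← prod_mul_distrib]
    apply prod_congr rfl
    intro p _
    unfold Fm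
    rw [inv_pow, div_eq_mul_inv]
  have hc : #L = #s + #(L \ s) := by
    have := card_sdiff_add_card_eq_card hs
    omega
  rw [hV, hSer, hF, hW, hc]
  ring

/-- the number of the `n` in an interval which satisfy the sieve condition of a block -/
def NB (L s : Finset (ℕ × ℕ)) (Z0 Z1 n1 n2 : ℕ) : ℕ :=
  #((Ioc n1 n2).filter (fun n => ∀ p ∈ primesUpTo Z1, n % p ∉ Omg L s Z0 p))

/-- one block -/
theorem block : ∃ C : ℕ, 1 ≤ C ∧ ∀ L : Finset (ℕ × ℕ), IsSystem L → ∀ 𝔖 : ℝ,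
    (∀ t, P0 L ≤ t → series L t * (1 - (#L : ℝ) ^ 2 / t) ≤ 𝔖 ∧ 𝔖 ≤ series L t) →
    ∃ K : ℝ, 0 ≤ K ∧ ∀ (b J0 n1 n2 : ℕ) (s : Finset (ℕ × ℕ)), s ⊆ L → C * (#L + 1) ≤ b →
    P0 L ≤ 2 ^ 2 ^ J0 → n1 ≤ n2 →
    |(NB L s (2 ^ 2 ^ J0) (2 ^ 2 ^ (J0 + 1)) n1 n2 : ℝ) *
        (Wp (2 ^ 2 ^ (J0 + 1)) ^ #s * Wp (2 ^ 2 ^ J0) ^ #(L \ s)) - ((n2 : ℝ) - n1) * 𝔖| ≤
      ((n2 : ℝ) - n1) * (series L (P0 L) * ((1 / 2) ^ b + (#L : ℝ) ^ 2 / (2 ^ 2 ^ J0 : ℕ))) +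
        K * ((J0 : ℝ) + 3) * (2 ^ 2 ^ (J0 + 1)) ^ #L * ((2 ^ 2 ^ (J0 + 1)) ^ (C * b)) ^ 2 := by
  obtain ⟨C, hC, H⟩ := fund
  refine ⟨C, hC, ?_⟩
  intro L hL 𝔖 h𝔖
  obtain ⟨K, hK, HK⟩ := H #L
  refine ⟨K, hK, ?_⟩
  intro b J0 n1 n2 s hs hb hJ h12
  have h01 : 2 ^ 2 ^ J0 ≤ 2 ^ 2 ^ (J0 + 1) :=
    Nat.pow_le_pow_right (by norm_num) (Nat.pow_le_pow_right (by norm_num) (by omega))
  have h1 := HK b (J0 + 1) n1 n2 (primesUpTo (2 ^ 2 ^ (J0 + 1))) (Omg L s (2 ^ 2 ^ J0)) hb h12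
    (fun p hp => mem_primes.1 hp) (fun p _ => Omg_subset L s _ p)
    (fun p hp => Omg_card hL hs _ (mem_primes.1 hp).1)
  obtain ⟨N, hN⟩ : ∃ N : ℝ, N = (NB L s (2 ^ 2 ^ J0) (2 ^ 2 ^ (J0 + 1)) n1 n2 : ℝ) := ⟨_, rfl⟩
  obtain ⟨V, hV⟩ : ∃ V : ℝ, V = ∏ p ∈ primesUpTo (2 ^ 2 ^ (J0 + 1)),
    (1 - (#(Omg L s (2 ^ 2 ^ J0) p) : ℝ) / p) := ⟨_, rfl⟩
  obtain ⟨ω, hω⟩ : ∃ ω : ℝ, ω = Wp (2 ^ 2 ^ (J0 + 1)) ^ #s * Wp (2 ^ 2 ^ J0) ^ #(L \ s) := ⟨_, rfl⟩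
  have hid := prod_id hL hs hJ h01
  rw [← hV] at h1
  replace h1 : |N - ((n2 : ℝ) - n1) * V| ≤ (1 / 2) ^ b * (((n2 : ℝ) - n1) * V) +
      K * (((J0 + 1 : ℕ) : ℝ) + 2) * ((2 ^ 2 ^ (J0 + 1)) ^ (C * b)) ^ 2 := by
    rw [hN]; exact h1
  rw [← hN, ← hω]
  rw [← hV, ← hω] at hid
  have hω0 : 0 ≤ ω := by
    rw [hω]
    exact mul_nonneg (pow_nonneg (Wp_pos _).le _) (pow_nonneg (Wp_pos _).le _)
  have hωle : ω ≤ (2 ^ 2 ^ (J0 + 1)) ^ #L := by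
    have g1 : Wp (2 ^ 2 ^ (J0 + 1)) ≤ 2 ^ 2 ^ (J0 + 1) := by
      have := Wp_le (2 ^ 2 ^ (J0 + 1)) Nat.one_le_two_pow
      push_cast at this
      exact this
    have g2 : Wp (2 ^ 2 ^ J0) ≤ 2 ^ 2 ^ (J0 + 1) := (Wp_mono h01).trans g1
    have hc : #L = #s + #(L \ s) := by
      have := card_sdiff_add_card_eq_card hs
      omega
    rw [hω, hc, pow_add (2 ^ 2 ^ (J0 + 1) : ℝ) #s #(L \ s)]
    exact mul_le_mul (pow_le_pow_left₀ (Wp_pos _).le g1 _) (pow_le_pow_left₀ (Wp_pos _).le g2 _)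
      (pow_nonneg (Wp_pos _).le _) (by positivity)
  obtain ⟨B, hB⟩ : ∃ B : ℝ, B = series L (P0 L) := ⟨_, rfl⟩
  obtain ⟨Z, hZ⟩ : ∃ Z : ℕ, Z = 2 ^ 2 ^ J0 := ⟨_, rfl⟩
  have hZ1 : 1 ≤ Z := by rw [hZ]; exact Nat.one_le_two_pow
  have hcard := two_card_le L
  have hSB : series L Z ≤ B := by rw [hB]; exact (series_bounds hL le_rfl (by rw [hZ]; exact hJ)).2
  have hS0 := series_nonneg L Z
  obtain ⟨f1, f2, f3⟩ := prod_fm #s #L Z (2 ^ 2 ^ (J0 + 1)) (card_le_card hs) (by rw [hZ]; omega) hZ1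
    ((Ioc Z (2 ^ 2 ^ (J0 + 1))).filter Nat.Prime) (filter_subset _ _)
  rw [← hZ] at hid
  obtain ⟨F, hF⟩ : ∃ F : ℝ, F = ∏ p ∈ (Ioc Z (2 ^ 2 ^ (J0 + 1))).filter Nat.Prime, Fm #s p := ⟨_, rfl⟩
  rw [← hF] at f1 f2 f3 hid
  obtain ⟨g1, g2⟩ := h𝔖 Z (by rw [hZ]; exact hJ)
  obtain ⟨q, hq⟩ : ∃ q : ℝ, q = (#L : ℝ) ^ 2 / Z := ⟨_, rfl⟩
  rw [← hq] at f1 g1
  have hq0 : 0 ≤ q := by rw [hq]; positivity
  have hVω : V * ω ≤ B ∧ |V * ω - 𝔖| ≤ B * q := by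
    rw [hid]
    have k1 : series L Z * F ≤ series L Z := mul_le_of_le_one_right hS0 f2
    have k2 : series L Z * (1 - q) ≤ series L Z * F := mul_le_mul_of_nonneg_left f1 hS0
    have k3 : series L Z * q ≤ B * q := mul_le_mul_of_nonneg_right hSB hq0
    refine ⟨k1.trans hSB, ?_⟩
    rw [abs_le]
    constructor <;> nlinarith
  have hd0 : (0 : ℝ) ≤ (n2 : ℝ) - n1 := by
    rw [sub_nonneg]; exact_mod_cast h12
  obtain ⟨R, hR⟩ : ∃ R : ℝ, R = K * (((J0 + 1 : ℕ) : ℝ) + 2) * ((2 ^ 2 ^ (J0 + 1)) ^ (C * b)) ^ 2 := ⟨_, rfl⟩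
  rw [← hR] at h1
  have hR0 : 0 ≤ R := by rw [hR]; positivity
  have e1 : N * ω - ((n2 : ℝ) - n1) * 𝔖 = (N - ((n2 : ℝ) - n1) * V) * ω + ((n2 : ℝ) - n1) * (V * ω - 𝔖) := by
    ring
  have hpw : (0 : ℝ) ≤ (1 / 2) ^ b := by positivity
  have k1 : |(N - ((n2 : ℝ) - n1) * V) * ω| ≤ ((n2 : ℝ) - n1) * (B * (1 / 2) ^ b) + R * (2 ^ 2 ^ (J0 + 1)) ^ #L := by
    rw [abs_mul, abs_of_nonneg hω0]
    calc |N - ((n2 : ℝ) - n1) * V| * ω ≤ ((1 / 2) ^ b * (((n2 : ℝ) - n1) * V) + R) * ω :=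
          mul_le_mul_of_nonneg_right h1 hω0
      _ = ((n2 : ℝ) - n1) * ((V * ω) * (1 / 2) ^ b) + R * ω := by ring
      _ ≤ _ := add_le_add (mul_le_mul_of_nonneg_left (mul_le_mul_of_nonneg_right hVω.1 hpw) hd0)
            (mul_le_mul_of_nonneg_left hωle hR0)
  have k2 : |((n2 : ℝ) - n1) * (V * ω - 𝔖)| ≤ ((n2 : ℝ) - n1) * (B * q) := by
    rw [abs_mul, abs_of_nonneg hd0]
    exact mul_le_mul_of_nonneg_left hVω.2 hd0
  rw [e1, ← hB, ← hZ, ← hq]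
  refine (abs_add_le _ _).trans ((add_le_add k1 k2).trans (le_of_eq ?_))
  rw [hR]
  push_cast
  ring

end Pool.Agent.U462.Sh
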