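import Pool.Agent.U462.Sh.MomH

/-!
# Exponential moments
-/

set_option autoImplicit false

open Finset

namespace Pool.Agent.U462.Sh

/-- greedy colouring -/
lemma colouring (R : ℕ → ℕ → Prop) (hR : ∀ m n, R m n → R n m) (Δ : ℕ) (I : Finset ℕ) [DecidableRel R]
    (h : ∀ n ∈ I, #(I.filter (fun m => m ≠ n ∧ R n m)) ≤ Δ) :
    ∃ f : ℕ → ℕ, (∀ n, f n ≤ Δ) ∧ ∀ m ∈ I, ∀ n ∈ I, m ≠ n → R m n → f m ≠ f n := by
  classical
  induction I using Finset.induction_on with
  | empty => exact ⟨fun _ => 0, fun _ => Nat.zero_le _, fun m hm => absurd hm (notMem_empty m)⟩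
  | insert a I ha ih =>
    obtain ⟨f, hf1, hf2⟩ := ih (fun n hn => by
      refine (card_le_card ?_).trans (h n (mem_insert_of_mem hn))
      exact filter_subset_filter _ (subset_insert _ _))
    -- a free colour
    obtain ⟨c, hc1, hc2⟩ : ∃ c ∈ range (Δ + 1), c ∉ (I.filter (fun m => R a m)).image f := by
      by_contra hcon
      push Not at hcon
      have h1 : range (Δ + 1) ⊆ (I.filter (fun m => R a m)).image f := hcon
      have h2 := (card_le_card h1).trans card_image_le
      have h3 : I.filter (fun m => R a m) ⊆ (insert a I).filter (fun m => m ≠ a ∧ R a m) := by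
        intro m hm
        rw [mem_filter] at hm ⊢
        exact ⟨mem_insert_of_mem hm.1, fun h => ha (h ▸ hm.1), hm.2⟩
      have h4 := (card_le_card h3).trans (h a (mem_insert_self _ _))
      rw [card_range] at h2
      omega
    rw [mem_range] at hc1
    refine ⟨Function.update f a c, ?_, ?_⟩
    · intro n
      by_cases hn : n = a
      · rw [hn, Function.update_self]; omega
      · rw [Function.update_of_ne hn]; exact hf1 n
    · intro m hm n hn hmn hRmn
      rw [mem_insert] at hm hn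
      rcases hm with rfl | hm <;> rcases hn with rfl | hn
      · exact absurd rfl hmn
      · rw [Function.update_self, Function.update_of_ne (Ne.symm hmn)]
        intro hcf
        exact hc2 (mem_image.2 ⟨n, mem_filter.2 ⟨hn, hRmn⟩, hcf.symm⟩)
      · rw [Function.update_self, Function.update_of_ne hmn]
        intro hcf
        exact hc2 (mem_image.2 ⟨m, mem_filter.2 ⟨hm, hR _ _ hRmn⟩, hcf⟩)
      · have hma : m ≠ a := fun h => ha (h ▸ hm)
        have hna : n ≠ a := fun h => ha (h ▸ hn)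
        rw [Function.update_of_ne hma, Function.update_of_ne hna]
        exact hf2 m hm n hn hmn hRmn

section

variable {H : Finset ℕ → Prop} {a : ℕ → ℝ}

/-- the sets `P`, `Q` are disjoint and have no linked elements -/
def Sep (H : Finset ℕ → Prop) (P Q : Finset ℕ) : Prop := Disjoint P Q ∧ ∀ u ∈ P, ∀ v ∈ Q, ¬ Linked H u v

lemma Linked.symm' {u v : ℕ} (h : Linked H u v) : Linked H v u := by
  obtain ⟨e, h1, h2, h3⟩ := h
  exact ⟨e, h1, h3, h2⟩

lemma Sep.symm {P Q : Finset ℕ} (h : Sep H P Q) : Sep H Q P :=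
  ⟨h.1.symm, fun u hu v hv hl => h.2 v hv u hu hl.symm'⟩

lemma ch_union_eq (h0 : ¬ H ∅) {P Q : Finset ℕ} (h : Sep H P Q) : ch H a (P ∪ Q) = ch H a P * ch H a Q := by
  classical
  have key : Avoids H (P ∪ Q) ↔ Avoids H P ∧ Avoids H Q := by
    constructor
    · intro h1
      exact ⟨h1.mono subset_union_left, h1.mono subset_union_right⟩
    · rintro ⟨h1, h2⟩ e he hsub
      by_cases hP : ∃ u ∈ e, u ∈ P
      · obtain ⟨u, hue, huP⟩ := hP
        by_cases hQ : ∃ v ∈ e, v ∈ Q
        · obtain ⟨v, hve, hvQ⟩ := hQ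
          exact h.2 u huP v hvQ ⟨e, he, hue, hve⟩
        · push Not at hQ
          apply h1 e he
          intro m hm
          rcases mem_union.1 (hsub hm) with h3 | h3
          · exact h3
          · exact absurd h3 (hQ m hm)
      · push Not at hP
        apply h2 e he
        intro m hm
        rcases mem_union.1 (hsub hm) with h3 | h3
        · exact absurd h3 (hP m hm)
        · exact h3
  unfold ch
  by_cases h1 : Avoids H P <;> by_cases h2 : Avoids H Q
  · rw [if_pos (key.2 ⟨h1, h2⟩), if_pos h1, if_pos h2, prod_union h.1]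
  · rw [if_neg (fun h3 => h2 (key.1 h3).2), if_neg h2, mul_zero]
  · rw [if_neg (fun h3 => h1 (key.1 h3).1), if_neg h1, zero_mul]
  · rw [if_neg (fun h3 => h1 (key.1 h3).1), if_neg h1, zero_mul]

lemma ch_biUnion (h0 : ¬ H ∅) (P : ℕ → Finset ℕ) (B : Finset ℕ)
    (hB : ∀ m ∈ B, ∀ n ∈ B, m ≠ n → Sep H (P m) (P n)) :
    ch H a (B.biUnion P) = ∏ n ∈ B, ch H a (P n) := by
  classical
  induction B using Finset.induction_on with
  | empty => rw [biUnion_empty, prod_empty, ch_empty h0]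
  | insert n B hn ih =>
    rw [biUnion_insert, prod_insert hn, ← ih (fun m hm m' hm' => hB m (mem_insert_of_mem hm) m' (mem_insert_of_mem hm'))]
    apply ch_union_eq h0
    constructor
    · rw [disjoint_biUnion_right]
      intro m hm
      exact (hB n (mem_insert_self _ _) m (mem_insert_of_mem hm) (fun h => hn (h ▸ hm))).1
    · intro u hu v hv
      rw [mem_biUnion] at hv
      obtain ⟨m, hm, hv⟩ := hv
      exact (hB n (mem_insert_self _ _) m (mem_insert_of_mem hm) (fun h => hn (h ▸ hm))).2 u hu v hv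

open Classical in
/-- the exponential moment for independent events -/
lemma expmom (h0 : ¬ H ∅) {V : Finset ℕ} (P : ℕ → Finset ℕ) (I : Finset ℕ) (hP : ∀ n ∈ I, P n ⊆ V)
    (hI : ∀ m ∈ I, ∀ n ∈ I, m ≠ n → Sep H (P m) (P n)) (θ : ℝ) :
    ∑ A ∈ V.powerset, muH H a V A * ∏ n ∈ I, (1 + θ * (if P n ⊆ A then 1 else 0)) =
      ∏ n ∈ I, (1 + θ * ch H a (P n)) := by
  have h1 : ∀ A : Finset ℕ, ∏ n ∈ I, (1 + θ * (if P n ⊆ A then (1 : ℝ) else 0)) =
      ∑ B ∈ I.powerset, θ ^ #B * (if B.biUnion P ⊆ A then 1 else 0) := by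
    intro A
    rw [prod_one_add]
    apply sum_congr rfl
    intro B _
    rw [prod_mul_distrib, prod_const]
    congr 1
    by_cases h2 : B.biUnion P ⊆ A
    · rw [if_pos h2]
      apply prod_eq_one
      intro n hn
      rw [if_pos ((subset_biUnion_of_mem P hn).trans h2)]
    · rw [if_neg h2]
      rw [biUnion_subset] at h2
      push Not at h2
      obtain ⟨n, hn, hnA⟩ := h2
      exact prod_eq_zero hn (if_neg hnA)
  simp only [h1, mul_sum]
  rw [sum_comm, prod_one_add]
  apply sum_congr rfl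
  intro B hB
  rw [mem_powerset] at hB
  have h2 : B.biUnion P ⊆ V := biUnion_subset.2 fun n hn => hP n (hB hn)
  have h3 := marg (H := H) (a := a) h2
  rw [prod_mul_distrib, prod_const, ← ch_biUnion h0 P B (fun m hm n hn => hI m (hB hm) n (hB hn)), ← h3, mul_sum]
  apply sum_congr rfl
  intro A _
  ring

open Classical in
/-- the bound of Chernoff for independent events -/
lemma chernoff (h0 : ¬ H ∅) (hS : SmallH H a) {V : Finset ℕ} (P : ℕ → Finset ℕ) (I : Finset ℕ)
    (hP : ∀ n ∈ I, P n ⊆ V) (hI : ∀ m ∈ I, ∀ n ∈ I, m ≠ n → Sep H (P m) (P n)) (t : ℝ) (ht : |t| ≤ 1) :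
    ∑ A ∈ V.powerset, muH H a V A * Real.exp (t * (cnt P I A - ∑ n ∈ I, ch H a (P n))) ≤
      Real.exp (t ^ 2 * #I) := by
  have ha0 : ∀ n, 0 ≤ a n := fun n => (hS n).1
  have ha1 : ∀ n, a n ≤ 1 := fun n => by have := (hS n).2.1; linarith
  obtain ⟨m, hm⟩ : ∃ m, m = ∑ n ∈ I, ch H a (P n) := ⟨_, rfl⟩
  have hm0 : 0 ≤ m := by rw [hm]; exact sum_nonneg fun n _ => ch_nonneg ha0 _
  have hm1 : m ≤ #I := by
    rw [hm]
    calc _ ≤ ∑ n ∈ I, (1 : ℝ) := sum_le_sum fun n _ => ch_le_one ha0 ha1 _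
      _ = _ := by rw [sum_const, nsmul_eq_mul, mul_one]
  rw [← hm]
  have h1 : ∀ A : Finset ℕ, Real.exp (t * (cnt P I A - m)) =
      Real.exp (-(t * m)) * ∏ n ∈ I, (1 + (Real.exp t - 1) * (if P n ⊆ A then 1 else 0)) := by
    intro A
    have e1 : ∏ n ∈ I, (1 + (Real.exp t - 1) * (if P n ⊆ A then (1 : ℝ) else 0)) = Real.exp (t * cnt P I A) := by
      unfold cnt
      rw [mul_sum, Real.exp_sum]
      apply prod_congr rfl
      intro n _
      split_ifs
      · rw [mul_one, mul_one]; ring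
      · rw [mul_zero, mul_zero, Real.exp_zero, add_zero]
    rw [e1, ← Real.exp_add]
    congr 1
    ring
  have h2 : ∑ A ∈ V.powerset, muH H a V A * Real.exp (t * (cnt P I A - m)) =
      Real.exp (-(t * m)) * ∏ n ∈ I, (1 + (Real.exp t - 1) * ch H a (P n)) := by
    rw [← expmom h0 P I hP hI (Real.exp t - 1), mul_sum]
    apply sum_congr rfl
    intro A _
    rw [h1 A]
    ring
  rw [h2]
  have h3 : ∏ n ∈ I, (1 + (Real.exp t - 1) * ch H a (P n)) ≤ Real.exp ((Real.exp t - 1) * m) := by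
    rw [hm, mul_sum, Real.exp_sum]
    apply prod_le_prod
    · intro n _
      have h4 := ch_nonneg (H := H) ha0 (P n)
      have h5 := ch_le_one (H := H) ha0 ha1 (P n)
      have h6 := Real.exp_pos t
      nlinarith
    · intro n _
      have := Real.add_one_le_exp ((Real.exp t - 1) * ch H a (P n))
      linarith
  have h4 : Real.exp t - 1 ≤ t + t ^ 2 := by
    have h5 := Real.abs_exp_sub_one_sub_id_le ht
    have h6 := (abs_le.1 h5).2
    linarith
  calc Real.exp (-(t * m)) * ∏ n ∈ I, (1 + (Real.exp t - 1) * ch H a (P n))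
      ≤ Real.exp (-(t * m)) * Real.exp ((Real.exp t - 1) * m) :=
        mul_le_mul_of_nonneg_left h3 (Real.exp_pos _).le
    _ = Real.exp (-(t * m) + (Real.exp t - 1) * m) := by rw [Real.exp_add]
    _ ≤ Real.exp (t ^ 2 * #I) := by
        apply Real.exp_le_exp.2
        have h7 : (Real.exp t - 1) * m ≤ (t + t ^ 2) * m := mul_le_mul_of_nonneg_right h4 hm0
        have h8 : t ^ 2 * m ≤ t ^ 2 * #I := mul_le_mul_of_nonneg_left hm1 (sq_nonneg t)
        nlinarith

open Classical in
/-- the expectation of a weight function which is large if the deviation is large -/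
theorem dev (h0 : ¬ H ∅) (hS : SmallH H a) {V : Finset ℕ} (P : ℕ → Finset ℕ) (I : Finset ℕ)
    (hP : ∀ n ∈ I, P n ⊆ V) (Δ : ℕ)
    (hΔ : ∀ n ∈ I, #(I.filter (fun m => m ≠ n ∧ ¬ Sep H (P n) (P m))) ≤ Δ) (t s : ℝ) (ht0 : 0 ≤ t) (ht : t ≤ 1) :
    ∃ W : Finset ℕ → ℝ, (∀ A, 0 ≤ W A) ∧
      (∀ A, ((Δ : ℝ) + 1) * s ≤ |cnt P I A - ∑ n ∈ I, ch H a (P n)| → 1 ≤ W A) ∧
      ∑ A ∈ V.powerset, muH H a V A * W A ≤ 2 * ((Δ : ℝ) + 1) * Real.exp (t ^ 2 * #I - t * s) := by
  obtain ⟨f, hf1, hf2⟩ := colouring (fun m n => ¬ Sep H (P m) (P n)) (fun m n h h' => h h'.symm) Δ I hΔ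
  obtain ⟨Ic, hIc⟩ : ∃ Ic : ℕ → Finset ℕ, Ic = fun c => I.filter (fun n => f n = c) := ⟨_, rfl⟩
  obtain ⟨Y, hY⟩ : ∃ Y : ℕ → Finset ℕ → ℝ, Y = fun c A => cnt P (Ic c) A - ∑ n ∈ Ic c, ch H a (P n) := ⟨_, rfl⟩
  have hsum : ∀ A, cnt P I A - ∑ n ∈ I, ch H a (P n) = ∑ c ∈ range (Δ + 1), Y c A := by
    intro A
    rw [hY, hIc]
    simp only [sum_sub_distrib]
    congr 1
    · unfold cnt
      rw [sum_fiberwise_of_maps_to (fun n _ => mem_range.2 (Nat.lt_succ_of_le (hf1 n)))]
    · rw [sum_fiberwise_of_maps_to (fun n _ => mem_range.2 (Nat.lt_succ_of_le (hf1 n)))]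
  refine ⟨fun A => ∑ c ∈ range (Δ + 1), (Real.exp (t * Y c A) + Real.exp (-t * Y c A)) * Real.exp (-(t * s)), ?_, ?_, ?_⟩
  · intro A
    exact sum_nonneg fun c _ => by positivity
  · intro A hA
    -- some colour deviates
    obtain ⟨c, hc, hcs⟩ : ∃ c ∈ range (Δ + 1), s ≤ |Y c A| := by
      by_contra hcon
      push Not at hcon
      have h1 : |∑ c ∈ range (Δ + 1), Y c A| < ((Δ : ℝ) + 1) * s := by
        calc _ ≤ ∑ c ∈ range (Δ + 1), |Y c A| := abs_sum_le_sum_abs _ _
          _ < ∑ c ∈ range (Δ + 1), s := sum_lt_sum_of_nonempty ⟨0, mem_range.2 (Nat.succ_pos _)⟩ hcon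
          _ = _ := by rw [sum_const, card_range, nsmul_eq_mul]; push_cast; ring
      rw [hsum A] at hA
      linarith
    refine le_trans ?_ (single_le_sum (f := fun c => (Real.exp (t * Y c A) + Real.exp (-t * Y c A)) *
      Real.exp (-(t * s))) (fun c _ => by positivity) hc)
    have h1 : 1 ≤ Real.exp (t * |Y c A|) * Real.exp (-(t * s)) := by
      rw [← Real.exp_add]
      apply Real.one_le_exp
      have := mul_le_mul_of_nonneg_left hcs ht0
      linarith
    have h2 : Real.exp (t * |Y c A|) ≤ Real.exp (t * Y c A) + Real.exp (-t * Y c A) := by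
      rcases abs_choice (Y c A) with h | h
      · rw [h]
        have := Real.exp_pos (-t * Y c A)
        linarith
      · rw [h]
        have := Real.exp_pos (t * Y c A)
        have e : t * -Y c A = -t * Y c A := by ring
        rw [e]
        linarith
    exact h1.trans (mul_le_mul_of_nonneg_right h2 (Real.exp_pos _).le)
  · have h1 : ∀ c, ∀ τ : ℝ, |τ| ≤ 1 → ∑ A ∈ V.powerset, muH H a V A * Real.exp (τ * Y c A) ≤
        Real.exp (τ ^ 2 * #I) := by
      intro c τ hτ
      have hsub : Ic c ⊆ I := by rw [hIc]; exact filter_subset _ _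
      have h2 := chernoff (V := V) h0 hS P (Ic c) (fun n hn => hP n (hsub hn)) (by
        intro m hm n hn hmn
        rw [hIc] at hm hn
        rw [mem_filter] at hm hn
        by_contra hcon
        exact hf2 m hm.1 n hn.1 hmn hcon (hm.2.trans hn.2.symm)) τ hτ
      rw [hY]
      refine h2.trans (Real.exp_le_exp.2 ?_)
      apply mul_le_mul_of_nonneg_left _ (sq_nonneg τ)
      exact_mod_cast card_le_card hsub
    have ht1 : |t| ≤ 1 := by rw [abs_of_nonneg ht0]; exact ht
    have ht2 : |-t| ≤ 1 := by rw [abs_neg]; exact ht1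
    calc ∑ A ∈ V.powerset, muH H a V A * ∑ c ∈ range (Δ + 1), (Real.exp (t * Y c A) + Real.exp (-t * Y c A)) *
          Real.exp (-(t * s))
        = ∑ c ∈ range (Δ + 1), (∑ A ∈ V.powerset, muH H a V A * Real.exp (t * Y c A) +
          ∑ A ∈ V.powerset, muH H a V A * Real.exp (-t * Y c A)) * Real.exp (-(t * s)) := by
          simp only [mul_sum]
          rw [sum_comm]
          apply sum_congr rfl
          intro c _
          rw [← sum_add_distrib, sum_mul]
          apply sum_congr rfl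
          intro A _
          ring
      _ ≤ ∑ c ∈ range (Δ + 1), (Real.exp (t ^ 2 * #I) + Real.exp (t ^ 2 * #I)) * Real.exp (-(t * s)) := by
          apply sum_le_sum
          intro c _
          apply mul_le_mul_of_nonneg_right _ (Real.exp_pos _).le
          have h3 := h1 c (-t) ht2
          rw [neg_sq] at h3
          exact add_le_add (h1 c t ht1) h3
      _ = _ := by
          rw [sum_const, card_range, nsmul_eq_mul, sub_eq_add_neg, Real.exp_add]
          push_cast
          ring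

open Classical in
/-- A choice which satisfies finitely many constraints. -/
theorem choose_gen (h0 : ¬ H ∅) (hS : SmallH H a) (V : Finset ℕ) {K : Type} (C : Finset K)
    (bad : K → Finset ℕ → Prop) (W : K → Finset ℕ → ℝ) (w : K → ℝ) (hW0 : ∀ κ ∈ C, ∀ A, 0 ≤ W κ A)
    (hW1 : ∀ κ ∈ C, ∀ A, bad κ A → 1 ≤ W κ A) (hw : ∀ κ ∈ C, ∑ A ∈ V.powerset, muH H a V A * W κ A ≤ w κ)
    (hsum : ∑ κ ∈ C, w κ < 1) :
    ∃ A ⊆ V, ch H a A ≠ 0 ∧ ∀ κ ∈ C, ¬ bad κ A := by
  by_contra hcon
  push Not at hcon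
  have h1 : ∀ A ∈ V.powerset, muH H a V A ≤ muH H a V A * ∑ κ ∈ C, W κ A := by
    intro A hA
    rw [mem_powerset] at hA
    by_cases hz : muH H a V A = 0
    · rw [hz]; simp
    · obtain ⟨κ, hκ, hbad⟩ := hcon A hA (mu_ne hA hz)
      have hpos := mu_nonneg hS hA
      have h2 : 1 ≤ ∑ κ ∈ C, W κ A :=
        (hW1 κ hκ A hbad).trans (single_le_sum (f := fun κ => W κ A) (fun κ hκ => hW0 κ hκ A) hκ)
      nlinarith
  have h2 := sum_le_sum h1
  rw [total h0] at h2
  have h3 : ∑ A ∈ V.powerset, muH H a V A * ∑ κ ∈ C, W κ A = ∑ κ ∈ C, ∑ A ∈ V.powerset, muH H a V A * W κ A := by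
    simp only [mul_sum]
    rw [sum_comm]
  rw [h3] at h2
  have h4 := sum_le_sum hw
  linarith

end

end Pool.Agent.U462.Sh
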