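import Pool.Agent.U462.Sh.Sing
import Pool.Agent.U462.Gap.Sieve

/-!
# Levels and densities
-/

set_option autoImplicit false

open Finset Filter Topology

namespace Pool.Agent.U462.Sh

/-- The level of `n`: half of the (integer part of the) twice iterated logarithm to base `2`. -/
def lev (n : ℕ) : ℕ := Nat.log 2 (Nat.log 2 n) / 2

/-- `m` has no prime factor `≤ 2^(2^(lev m))`. -/
def Sifted (m : ℕ) : Prop := ∀ p : ℕ, p.Prime → p ≤ 2 ^ 2 ^ lev m → ¬ p ∣ m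

/-- the product of Mertens -/
noncomputable def Wp (t : ℕ) : ℝ := ∏ p ∈ primesUpTo t, (1 - 1 / (p : ℝ))⁻¹

open Classical in
/-- the sifted weights -/
noncomputable def sw (m : ℕ) : ℝ := if Sifted m then Wp (2 ^ 2 ^ lev m) else 0

open Classical in
/-- the densities -/
noncomputable def den (M m : ℕ) : ℝ := if M ≤ m then sw m / Real.log m else 0

lemma lev_mono : Monotone lev := by
  intro m n h
  unfold lev
  exact Nat.div_le_div_right (Nat.log_mono_right (Nat.log_mono_right h))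

lemma four_pow_lev {n : ℕ} (hn : 2 ≤ n) : 4 ^ lev n ≤ Nat.log 2 n := by
  unfold lev
  have h1 : 1 ≤ Nat.log 2 n := Nat.log_pos (by norm_num) hn
  have h2 : 2 ^ Nat.log 2 (Nat.log 2 n) ≤ Nat.log 2 n := Nat.pow_log_le_self 2 (by omega)
  refine le_trans ?_ h2
  rw [show (4:ℕ) = 2 ^ 2 by norm_num, ← pow_mul]
  exact Nat.pow_le_pow_right (by norm_num) (Nat.mul_div_le _ _)

lemma lt_four_pow_lev (n : ℕ) : Nat.log 2 n < 4 * 4 ^ lev n := by
  unfold lev
  have h1 : Nat.log 2 n < 2 ^ (Nat.log 2 (Nat.log 2 n) + 1) := Nat.lt_pow_succ_log_self (by norm_num) _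
  refine lt_of_lt_of_le h1 ?_
  have h2 : 4 * 4 ^ (Nat.log 2 (Nat.log 2 n) / 2) = 2 ^ (2 * (Nat.log 2 (Nat.log 2 n) / 2) + 2) := by
    rw [pow_add, pow_mul]; norm_num; ring
  rw [h2]
  exact Nat.pow_le_pow_right (by norm_num) (by omega)

lemma lev_step {m y : ℕ} (hy : 2 ≤ y) (h : m ≤ y ^ 4) : lev m ≤ lev y + 1 := by
  unfold lev
  have h1 : 1 ≤ Nat.log 2 y := Nat.log_pos (by norm_num) hy
  have h2 : y < 2 ^ (Nat.log 2 y + 1) := Nat.lt_pow_succ_log_self (by norm_num) _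
  have h3 : m < 2 ^ ((Nat.log 2 y + 1) * 4) := by
    rw [pow_mul]
    exact lt_of_le_of_lt h (Nat.pow_lt_pow_left h2 (by norm_num))
  have h4 : Nat.log 2 m < (Nat.log 2 y + 1) * 4 := Nat.log_lt_of_lt_pow' (by omega) h3
  have h5 : Nat.log 2 y < 2 ^ (Nat.log 2 (Nat.log 2 y) + 1) := Nat.lt_pow_succ_log_self (by norm_num) _
  have h6 : Nat.log 2 m < 2 ^ (Nat.log 2 (Nat.log 2 y) + 3) := by
    have : 2 ^ (Nat.log 2 (Nat.log 2 y) + 3) = 2 ^ (Nat.log 2 (Nat.log 2 y) + 1) * 4 := by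
      rw [pow_succ, pow_succ]; ring
    rw [this]
    omega
  have h7 : Nat.log 2 (Nat.log 2 m) < Nat.log 2 (Nat.log 2 y) + 3 :=
    Nat.log_lt_of_lt_pow' (by omega) h6
  omega

lemma lev_tendsto : Tendsto lev atTop atTop := by
  rw [tendsto_atTop]
  intro b
  filter_upwards [eventually_ge_atTop (2 ^ 2 ^ (2 * b))] with n hn
  refine le_trans ?_ (lev_mono hn)
  unfold lev
  rw [Nat.log_pow (by norm_num), Nat.log_pow (by norm_num)]
  omega

lemma Wp_eq (t : ℕ) : Wp t = Pool.Agent.U839.Sv.W t := by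
  unfold Wp Pool.Agent.U839.Sv.W
  apply prod_congr _ fun _ _ => rfl
  ext p
  rw [mem_primes, mem_filter, mem_Icc]
  constructor
  · rintro ⟨h1, h2⟩; exact ⟨⟨h1.one_lt.le, h2⟩, h1⟩
  · rintro ⟨⟨_, h2⟩, h1⟩; exact ⟨h1, h2⟩

lemma Wp_pos (t : ℕ) : 0 < Wp t := by rw [Wp_eq]; exact Pool.Agent.U839.Sv.W_pos t

lemma Wp_ge_one (t : ℕ) : 1 ≤ Wp t := by rw [Wp_eq]; exact Pool.Agent.U839.Sv.W_ge_one t

lemma Wp_mono {s t : ℕ} (h : s ≤ t) : Wp s ≤ Wp t := by
  rw [Wp_eq, Wp_eq]; exact Pool.Agent.U839.Sv.W_mono h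

lemma Wp_le (t : ℕ) (ht : 1 ≤ t) : Wp t ≤ t := by
  rw [Wp_eq]; exact Pool.Agent.U839.Sv.W_le t ht

lemma sw_nonneg (m : ℕ) : 0 ≤ sw m := by
  unfold sw
  split_ifs
  · exact (Wp_pos _).le
  · exact le_rfl

lemma den_nonneg (M m : ℕ) : 0 ≤ den M m := by
  unfold den
  split_ifs
  · exact div_nonneg (sw_nonneg m) (Real.log_natCast_nonneg m)
  · exact le_rfl

lemma two_pow_lev_le {m : ℕ} (hm : 2 ≤ m) : (2 : ℝ) ^ lev m ≤ 2 * Real.sqrt (Real.log m) := by
  have h1 := four_pow_lev hm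
  have h2 : (2 : ℕ) ^ Nat.log 2 m ≤ m := Nat.pow_log_le_self 2 (by omega)
  have h3 : (Nat.log 2 m : ℝ) * Real.log 2 ≤ Real.log m := by
    rw [← Real.log_pow]
    apply Real.log_le_log (by positivity)
    exact_mod_cast h2
  have h4 : ((4 : ℝ) ^ lev m) ≤ Nat.log 2 m := by exact_mod_cast h1
  have hl2 : (1 : ℝ) / 2 ≤ Real.log 2 := by have := Real.log_two_gt_d9; linarith
  have h5 : ((2 : ℝ) ^ lev m) ^ 2 ≤ (2 * Real.sqrt (Real.log m)) ^ 2 := by
    rw [← pow_mul, mul_comm, pow_mul, mul_pow, Real.sq_sqrt (Real.log_natCast_nonneg m)]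
    norm_num
    have : (0 : ℝ) ≤ Nat.log 2 m := Nat.cast_nonneg _
    nlinarith
  exact (sq_le_sq₀ (by positivity) (by positivity)).1 h5

/-- the densities are small -/
lemma den_bound : ∃ C : ℝ, 0 < C ∧ ∀ M m : ℕ, 2 ≤ m → den M m ≤ C / Real.sqrt (Real.log m) := by
  obtain ⟨C, hC, hW⟩ := Pool.Agent.U462.Gap.W_bound
  refine ⟨4 * C, by positivity, ?_⟩
  intro M m hm
  have hl2 : (1 : ℝ) / 2 ≤ Real.log 2 := by have := Real.log_two_gt_d9; linarith
  have hl2' : Real.log 2 ≤ 1 := by have := Real.log_two_lt_d9; linarith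
  have hlog : (1 : ℝ) / 2 ≤ Real.log m := hl2.trans (Real.log_le_log (by norm_num) (by exact_mod_cast hm))
  obtain ⟨s, hs⟩ : ∃ s, s = Real.sqrt (Real.log m) := ⟨_, rfl⟩
  have hs2 : s ^ 2 = Real.log m := by rw [hs]; exact Real.sq_sqrt (by linarith)
  have hs0 : 0 ≤ s := by rw [hs]; exact Real.sqrt_nonneg _
  have hs1 : 1 / 2 ≤ s := by nlinarith
  rw [← hs]
  have hb : Wp (2 ^ 2 ^ lev m) ≤ 4 * C * s := by
    have h1 := hW (2 ^ 2 ^ lev m)
    rw [← Wp_eq] at h1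
    have h2 := two_pow_lev_le hm
    rw [← hs] at h2
    have h3 : Real.log ((2 ^ 2 ^ lev m : ℕ) : ℝ) = 2 ^ lev m * Real.log 2 := by
      push_cast
      rw [Real.log_pow]
      push_cast
      ring
    rw [h3] at h1
    have h4 : (2 : ℝ) ^ lev m * Real.log 2 ≤ 2 * s := by
      have : (0 : ℝ) ≤ 2 ^ lev m := by positivity
      nlinarith
    have h5 : C * ((2 : ℝ) ^ lev m * Real.log 2) ≤ C * (2 * s) := mul_le_mul_of_nonneg_left h4 hC.le
    nlinarith
  have hsw : sw m ≤ 4 * C * s := by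
    unfold sw
    split_ifs
    · exact hb
    · positivity
  unfold den
  split_ifs
  · rw [← hs2, div_le_div_iff₀ (by positivity) (by positivity)]
    nlinarith
  · positivity

end Pool.Agent.U462.Sh
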