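import Pool.Agent.U462.Sh.Win

/-!
# The main term
-/

set_option autoImplicit false
set_option maxHeartbeats 4000000

open Finset Filter Topology

namespace Pool.Agent.U462.Sh

/-- the weight of the logarithmic integral of a system -/
noncomputable def lw (L : Finset (ℕ × ℕ)) (n : ℕ) : ℝ :=
  ∏ l ∈ L, 1 / Real.log ((l.1 * n + l.2 : ℕ) : ℝ)

lemma lw_nonneg (L : Finset (ℕ × ℕ)) (n : ℕ) : 0 ≤ lw L n :=
  prod_nonneg fun _ _ => div_nonneg zero_le_one (Real.log_natCast_nonneg _)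

lemma half_le_log {m : ℕ} (hm : 2 ≤ m) : (1 : ℝ) / 2 ≤ Real.log m := by
  have hl2 : (1 : ℝ) / 2 ≤ Real.log 2 := by have := Real.log_two_gt_d9; linarith
  exact hl2.trans (Real.log_le_log (by norm_num) (by exact_mod_cast hm))

lemma form_ge {L : Finset (ℕ × ℕ)} (hL : IsSystem L) {l : ℕ × ℕ} (hl : l ∈ L) (n : ℕ) :
    n ≤ l.1 * n + l.2 := by
  have h1 := (hL l hl).1
  calc n = 1 * n := (one_mul n).symm
    _ ≤ l.1 * n := Nat.mul_le_mul_right n h1
    _ ≤ _ := Nat.le_add_right _ _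

lemma lw_le {L : Finset (ℕ × ℕ)} (hL : IsSystem L) {n : ℕ} (hn : 2 ≤ n) : lw L n ≤ 2 ^ #L := by
  unfold lw
  rw [← prod_const]
  apply prod_le_prod (fun _ _ => div_nonneg zero_le_one (Real.log_natCast_nonneg _))
  intro l hl
  have h1 := half_le_log (hn.trans (form_ge hL hl n))
  rw [div_le_iff₀ (by linarith)]
  linarith

lemma lw_anti {L : Finset (ℕ × ℕ)} (hL : IsSystem L) {n : ℕ} (hn : 2 ≤ n) : lw L (n + 1) ≤ lw L n := by
  unfold lw
  apply prod_le_prod (fun _ _ => div_nonneg zero_le_one (Real.log_natCast_nonneg _))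
  intro l hl
  have h0 := hn.trans (form_ge hL hl n)
  have h1 := half_le_log h0
  apply one_div_le_one_div_of_le (by linarith)
  apply Real.log_le_log
  · exact_mod_cast (by omega : 0 < l.1 * n + l.2)
  · exact_mod_cast (by gcongr; omega : l.1 * n + l.2 ≤ l.1 * (n + 1) + l.2)

lemma den_le_const : ∃ D : ℝ, 1 ≤ D ∧ ∀ M m : ℕ, den M m ≤ D := by
  obtain ⟨C, hC, h⟩ := den_bound
  refine ⟨2 * C + 1, by linarith, ?_⟩
  intro M m
  rcases Nat.lt_or_ge m 2 with hm | hm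
  · have : Real.log (m : ℝ) = 0 := by
      interval_cases m <;> simp
    unfold den
    rw [this, div_zero]
    split_ifs <;> linarith
  · refine (h M m hm).trans ?_
    have h1 := half_le_log hm
    have h2 : (1 : ℝ) / 2 ≤ Real.sqrt (Real.log m) := by
      apply Real.le_sqrt_of_sq_le
      nlinarith
    rw [div_le_iff₀ (by linarith)]
    nlinarith

/-- the main term -/
theorem main_term : ∃ c : ℝ, 0 < c ∧ ∀ (L : Finset (ℕ × ℕ)), IsSystem L → ∀ 𝔖 : ℝ, 0 ≤ 𝔖 →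
    (∀ t, P0 L ≤ t → series L t * (1 - (#L : ℝ) ^ 2 / t) ≤ 𝔖 ∧ 𝔖 ≤ series L t) → ∀ M : ℕ,
    ∃ C' : ℝ, 0 < C' ∧ ∀ x : ℕ, 2 ≤ x →
      |∑ n ∈ range x, ∏ l ∈ L, den M (l.1 * n + l.2) - 𝔖 * ∑ n ∈ Ico 2 x, lw L n| ≤
        C' * x * Real.exp (-(c * Real.sqrt (Real.log x))) := by
  obtain ⟨C, hC, H⟩ := window
  obtain ⟨D0, hD0, hden⟩ := den_le_const
  have hCR : (1 : ℝ) ≤ C := by exact_mod_cast hC
  have hlog2 := Real.log_two_gt_d9
  have hlog2' := Real.log_two_lt_d9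
  obtain ⟨c, hc⟩ : ∃ c : ℝ, c = Real.log 2 / (48 * C) := ⟨_, rfl⟩
  have hc0 : 0 < c := by rw [hc]; positivity
  refine ⟨c, hc0, ?_⟩
  intro L hL 𝔖 h𝔖0 h𝔖 M
  obtain ⟨K, hK, HK⟩ := H L hL 𝔖 h𝔖
  obtain ⟨k, hk⟩ : ∃ k, k = #L := ⟨_, rfl⟩
  obtain ⟨A, hA⟩ : ∃ A, A = ∑ l ∈ L, (l.1 + l.2) := ⟨_, rfl⟩
  -- large `x`
  obtain ⟨N0, hN0⟩ : ∃ N0, N0 = 16 * C * (C * (k + 1)) + P0 L + 8 * (2 * k + 1) := ⟨_, rfl⟩
  have hsq : Tendsto Nat.sqrt atTop atTop := by
    rw [tendsto_atTop]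
    intro b
    filter_upwards [eventually_ge_atTop (b * b)] with n hn
    exact Nat.le_sqrt.2 hn
  obtain ⟨x0, hx0⟩ := eventually_atTop.1 (((hsq.eventually_ge_atTop (A + M + 3)).and
    ((lev_tendsto.comp hsq).eventually_ge_atTop N0)))
  -- the product of the densities is bounded
  have hprod0 : ∀ n, 0 ≤ ∏ l ∈ L, den M (l.1 * n + l.2) := fun n => prod_nonneg fun _ _ => den_nonneg _ _
  have hprod1 : ∀ n, ∏ l ∈ L, den M (l.1 * n + l.2) ≤ D0 ^ k := by
    intro n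
    rw [hk, ← prod_const]
    exact prod_le_prod (fun _ _ => den_nonneg _ _) (fun _ _ => hden _ _)
  have hsumden : ∀ y : ℕ, 0 ≤ ∑ n ∈ range y, ∏ l ∈ L, den M (l.1 * n + l.2) ∧
      ∑ n ∈ range y, ∏ l ∈ L, den M (l.1 * n + l.2) ≤ D0 ^ k * y := by
    intro y
    refine ⟨sum_nonneg fun n _ => hprod0 n, ?_⟩
    calc _ ≤ ∑ n ∈ range y, D0 ^ k := sum_le_sum fun n _ => hprod1 n
      _ = _ := by rw [sum_const, card_range, nsmul_eq_mul]; ring
  have hsumlw : ∀ y : ℕ, 0 ≤ ∑ n ∈ Ico 2 y, lw L n ∧ ∑ n ∈ Ico 2 y, lw L n ≤ 2 ^ k * y := by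
    intro y
    refine ⟨sum_nonneg fun n _ => lw_nonneg L n, ?_⟩
    calc _ ≤ ∑ n ∈ Ico 2 y, (2 : ℝ) ^ k := sum_le_sum fun n hn => by
            rw [hk]; exact lw_le hL (mem_Ico.1 hn).1
      _ = ((y - 2 : ℕ) : ℝ) * 2 ^ k := by rw [sum_const, Nat.card_Ico, nsmul_eq_mul]
      _ ≤ (y : ℝ) * 2 ^ k := by
          apply mul_le_mul_of_nonneg_right _ (by positivity)
          exact_mod_cast Nat.sub_le y 2
      _ = _ := by ring
  obtain ⟨B, hB⟩ : ∃ B : ℝ, B = series L (P0 L) := ⟨_, rfl⟩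
  have hB0 : 0 ≤ B := by rw [hB]; exact series_nonneg _ _
  obtain ⟨T1, hT1⟩ : ∃ T1 : ℝ, T1 = D0 ^ k + 𝔖 * 2 ^ k := ⟨_, rfl⟩
  have hT10 : 0 < T1 := by rw [hT1]; positivity
  obtain ⟨T2, hT2⟩ : ∃ T2 : ℝ, T2 = T1 + 2 ^ k * (B * (2 + (k : ℝ) ^ 2) + K) := ⟨_, rfl⟩
  have hT20 : 0 < T2 := by rw [hT2]; positivity
  refine ⟨T2 + T1 * Real.exp (c * Real.sqrt (Real.log x0)), by positivity, ?_⟩
  intro x hx
  obtain ⟨ε, hε⟩ : ∃ ε : ℝ, ε = Real.exp (-(c * Real.sqrt (Real.log x))) := ⟨_, rfl⟩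
  have hε0 : 0 < ε := by rw [hε]; exact Real.exp_pos _
  rw [← hε]
  have hxR : (2 : ℝ) ≤ x := by exact_mod_cast hx
  rcases Nat.lt_or_ge x x0 with hxx | hxx
  · -- small `x`
    obtain ⟨a1, a2⟩ := hsumden x
    obtain ⟨b1, b2⟩ := hsumlw x
    have h1 : |∑ n ∈ range x, ∏ l ∈ L, den M (l.1 * n + l.2) - 𝔖 * ∑ n ∈ Ico 2 x, lw L n| ≤ T1 * x := by
      have b3 : 𝔖 * ∑ n ∈ Ico 2 x, lw L n ≤ 𝔖 * (2 ^ k * x) := mul_le_mul_of_nonneg_left b2 h𝔖0
      have b4 : 0 ≤ 𝔖 * ∑ n ∈ Ico 2 x, lw L n := mul_nonneg h𝔖0 b1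
      have b5 : 0 ≤ 𝔖 * (2 ^ k * x) := by positivity
      have b6 : 0 ≤ D0 ^ k * x := by positivity
      have e : T1 * x = D0 ^ k * x + 𝔖 * (2 ^ k * x) := by rw [hT1]; ring
      rw [e, abs_le]
      constructor <;> linarith
    refine h1.trans ?_
    have h2 : 1 ≤ Real.exp (c * Real.sqrt (Real.log x0)) * ε := by
      rw [hε, ← Real.exp_add]
      apply Real.one_le_exp
      have h3 : Real.sqrt (Real.log x) ≤ Real.sqrt (Real.log x0) := by
        apply Real.sqrt_le_sqrt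
        apply Real.log_le_log (by linarith)
        exact_mod_cast hxx.le
      have := mul_le_mul_of_nonneg_left h3 hc0.le
      linarith
    have h3 : T1 * x ≤ T1 * Real.exp (c * Real.sqrt (Real.log x0)) * x * ε := by
      calc T1 * x = T1 * x * 1 := by ring
        _ ≤ T1 * x * (Real.exp (c * Real.sqrt (Real.log x0)) * ε) :=
            mul_le_mul_of_nonneg_left h2 (by positivity)
        _ = _ := by ring
    have h4 : 0 ≤ T2 * x * ε := by positivity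
    have h5 : (T2 + T1 * Real.exp (c * Real.sqrt (Real.log x0))) * x * ε =
        T2 * x * ε + T1 * Real.exp (c * Real.sqrt (Real.log x0)) * x * ε := by ring
    rw [h5]
    linarith
  · -- large `x`
    obtain ⟨hy1, hy2⟩ := hx0 x hxx
    obtain ⟨y, hy⟩ : ∃ y, y = Nat.sqrt x := ⟨_, rfl⟩
    rw [← hy] at hy1
    simp only [Function.comp_apply] at hy2
    rw [← hy] at hy2
    obtain ⟨J0, hJ0⟩ : ∃ J0, J0 = lev y := ⟨_, rfl⟩
    rw [← hJ0] at hy2
    obtain ⟨N, hN⟩ : ∃ N, N = 2 ^ J0 := ⟨_, rfl⟩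
    have hNJ : J0 < N := by rw [hN]; exact Nat.lt_two_pow_self
    have hyx : y * y ≤ x := by rw [hy]; exact Nat.sqrt_le x
    have hxy : x < (y + 1) * (y + 1) := by rw [hy]; exact Nat.lt_succ_sqrt x
    have hyx' : y ≤ x := (Nat.le_mul_self y).trans hyx
    have hNN : N * N = 4 ^ J0 := by rw [hN, ← mul_pow]; norm_num
    have hNlog : N * N ≤ Nat.log 2 y := by rw [hNN, hJ0]; exact four_pow_lev (by omega)
    have hlogN : Nat.log 2 y + 1 ≤ 4 * (N * N) := by rw [hNN, hJ0]; exact lt_four_pow_lev y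
    obtain ⟨b, hb⟩ : ∃ b, b = N / (16 * C) := ⟨_, rfl⟩
    have hbN : 16 * C * b ≤ N := by rw [hb]; exact Nat.mul_div_le _ _
    have hNb : N < 16 * C * (b + 1) := by rw [hb]; exact Nat.lt_mul_div_succ N (by omega)
    have hb1 : C * (k + 1) ≤ b := by
      rw [hb, Nat.le_div_iff_mul_le (by omega)]
      have h9 : 16 * C * (C * (k + 1)) ≤ N := by omega
      calc C * (k + 1) * (16 * C) = 16 * C * (C * (k + 1)) := by ring
        _ ≤ N := h9
    have hP0 : P0 L ≤ 2 ^ 2 ^ J0 := by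
      rw [← hN]
      have : N < 2 ^ N := Nat.lt_two_pow_self
      omega
    have hN8 : 8 * (2 * k + 1) ≤ N := by omega
    -- the levels
    have hlev : ∀ n, y ≤ n → n < x → ∀ l ∈ L, lev (l.1 * n + l.2) = J0 ∨ lev (l.1 * n + l.2) = J0 + 1 := by
      intro n hn1 hn2 l hl
      have g1 : y ≤ l.1 * n + l.2 := hn1.trans (form_ge hL hl n)
      have g2 : l.1 + l.2 ≤ A := by rw [hA]; exact le_sum_of hl
      have g3 : l.1 * n + l.2 ≤ A * x := by
        calc l.1 * n + l.2 ≤ l.1 * x + l.2 * x := by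
              apply Nat.add_le_add (Nat.mul_le_mul_left _ hn2.le)
              exact Nat.le_mul_of_pos_right _ (by omega)
          _ = (l.1 + l.2) * x := by ring
          _ ≤ A * x := Nat.mul_le_mul_right _ g2
      have g4 : A * x ≤ y ^ 4 := by
        have g5 : (y + 1) * (y + 1) ≤ y ^ 3 := by
          have hy3 : 3 ≤ y := by omega
          have g8 : 3 * y ≤ y * y := Nat.mul_le_mul_right y hy3
          have g9 : 3 * (y * y) ≤ y * (y * y) := Nat.mul_le_mul_right (y * y) hy3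
          have e3 : y ^ 3 = y * (y * y) := by ring
          have e4 : (y + 1) * (y + 1) = y * y + 2 * y + 1 := by ring
          rw [e3, e4]
          omega
        calc A * x ≤ y * y ^ 3 := Nat.mul_le_mul (by omega) (hxy.le.trans g5)
          _ = y ^ 4 := by ring
      have g6 := lev_mono g1
      have g7 := lev_step (m := l.1 * n + l.2) (y := y) (by omega) (g3.trans g4)
      rw [← hJ0] at g6 g7
      omega
    -- the tail
    obtain ⟨D, hD⟩ : ∃ D : ℝ, D = (x : ℝ) * (B * ((1 / 2) ^ b + (k : ℝ) ^ 2 / (2 ^ 2 ^ J0 : ℕ))) +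
        2 ^ k * (K * ((J0 : ℝ) + 3) * (2 ^ 2 ^ (J0 + 1)) ^ k * ((2 ^ 2 ^ (J0 + 1)) ^ (C * b)) ^ 2) := ⟨_, rfl⟩
    have hwin : ∀ m, m ≤ x - y → |∑ i ∈ range m, (∏ l ∈ L, sw (l.1 * (y + i) + l.2) - 𝔖)| ≤ D := by
      intro m hm
      have h1 := HK b J0 y (y + m) (by rw [← hk]; exact hb1) hP0 (by omega) (by omega)
        (fun n hn1 hn2 => hlev n hn1 (by omega))
      rw [sum_Ico_eq_sum_range, Nat.add_sub_cancel_left, ← hk, ← hB] at h1
      refine h1.trans ?_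
      rw [hD]
      apply add_le_add _ le_rfl
      apply mul_le_mul_of_nonneg_right _ (by positivity)
      have : (m : ℝ) ≤ x := by exact_mod_cast (by omega : m ≤ x)
      push_cast
      linarith
    have htail := abel (fun n => ∏ l ∈ L, sw (l.1 * n + l.2) - 𝔖) (lw L) y (x - y) D hwin
      (fun n _ => lw_nonneg L n) (fun n hn => lw_anti hL (by omega))
    have hD00 : 0 ≤ D := le_trans (abs_nonneg _) (hwin 0 (by omega))
    have htail2 : |∑ i ∈ range (x - y), (∏ l ∈ L, sw (l.1 * (y + i) + l.2) - 𝔖) * lw L (y + i)| ≤ D * 2 ^ k := by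
      refine htail.trans (mul_le_mul_of_nonneg_left ?_ hD00)
      rw [hk]
      exact lw_le hL (by omega)
    have hsplit : ∑ n ∈ range x, ∏ l ∈ L, den M (l.1 * n + l.2) - 𝔖 * ∑ n ∈ Ico 2 x, lw L n =
        (∑ n ∈ range y, ∏ l ∈ L, den M (l.1 * n + l.2)) - 𝔖 * ∑ n ∈ Ico 2 y, lw L n +
          ∑ i ∈ range (x - y), (∏ l ∈ L, sw (l.1 * (y + i) + l.2) - 𝔖) * lw L (y + i) := by
      have s1 : ∑ n ∈ range x, ∏ l ∈ L, den M (l.1 * n + l.2) =
          ∑ n ∈ range y, ∏ l ∈ L, den M (l.1 * n + l.2) +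
            ∑ i ∈ range (x - y), ∏ l ∈ L, den M (l.1 * (y + i) + l.2) := by
        rw [← sum_range_add_sum_Ico _ hyx', sum_Ico_eq_sum_range]
      have s2 : ∑ n ∈ Ico 2 x, lw L n = ∑ n ∈ Ico 2 y, lw L n + ∑ i ∈ range (x - y), lw L (y + i) := by
        rw [← sum_Ico_consecutive _ (by omega : 2 ≤ y) hyx', sum_Ico_eq_sum_range (lw L) y x]
      have s3 : ∑ i ∈ range (x - y), ∏ l ∈ L, den M (l.1 * (y + i) + l.2) =
          ∑ i ∈ range (x - y), (∏ l ∈ L, sw (l.1 * (y + i) + l.2)) * lw L (y + i) := by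
        apply sum_congr rfl
        intro i _
        unfold lw
        rw [← prod_mul_distrib]
        apply prod_congr rfl
        intro l hl
        have := form_ge hL hl (y + i)
        unfold den
        rw [if_pos (by omega)]
        ring
      rw [s1, s2, s3]
      simp only [sub_mul, sum_sub_distrib, ← mul_sum]
      ring
    -- the bound for `D`
    have hy0 : (0 : ℝ) ≤ y := Nat.cast_nonneg y
    have hexp : (2 : ℝ) ^ k * (((J0 : ℝ) + 3) * (2 ^ 2 ^ (J0 + 1)) ^ k * ((2 ^ 2 ^ (J0 + 1)) ^ (C * b)) ^ 2) ≤ y := by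
      have e0 : 2 ^ (J0 + 1) = 2 * N := by rw [hN, pow_succ]; ring
      rw [e0]
      have e1 : (2 : ℝ) ^ k ≤ 2 ^ (2 * N * k) := by
        apply pow_le_pow_right₀ (by norm_num)
        exact Nat.le_mul_of_pos_left _ (by omega)
      have e2 : (J0 : ℝ) + 3 ≤ 2 ^ (2 * N) := by
        have : J0 + 3 ≤ 2 ^ (2 * N) := by
          have g1 : 2 * N < 2 ^ (2 * N) := Nat.lt_two_pow_self
          omega
        exact_mod_cast this
      have e3 : (2 : ℝ) ^ k * (((J0 : ℝ) + 3) * (2 ^ (2 * N)) ^ k * ((2 ^ (2 * N)) ^ (C * b)) ^ 2) ≤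
          2 ^ (2 * N * k) * (2 ^ (2 * N) * (2 ^ (2 * N)) ^ k * ((2 ^ (2 * N)) ^ (C * b)) ^ 2) := by
        gcongr
      have e4 : (2 : ℝ) ^ (2 * N * k) * (2 ^ (2 * N) * (2 ^ (2 * N)) ^ k * ((2 ^ (2 * N)) ^ (C * b)) ^ 2) =
          2 ^ (2 * N * (2 * k + 1) + 2 * N * (C * b) * 2) := by
        rw [← pow_mul, ← pow_mul, ← pow_mul, ← pow_add, ← pow_add, ← pow_add]
        congr 1
        ring
      have e5 : 2 * N * (2 * k + 1) + 2 * N * (C * b) * 2 ≤ Nat.log 2 y := by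
        refine le_trans ?_ hNlog
        have g1 : N * (8 * (2 * k + 1)) ≤ N * N := Nat.mul_le_mul_left _ hN8
        have g2 : N * (16 * C * b) ≤ N * N := Nat.mul_le_mul_left _ hbN
        have g3 : 4 * (2 * N * (2 * k + 1) + 2 * N * (C * b) * 2) =
          N * (8 * (2 * k + 1)) + N * (16 * C * b) := by ring
        omega
      calc _ ≤ _ := e3
        _ = _ := e4
        _ ≤ (2 : ℝ) ^ (Nat.log 2 y) := pow_le_pow_right₀ (by norm_num) e5
        _ ≤ y := by exact_mod_cast Nat.pow_log_le_self 2 (by omega : y ≠ 0)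
    obtain ⟨s, hs⟩ : ∃ s : ℝ, s = Real.sqrt (Real.log x) := ⟨_, rfl⟩
    rw [← hs] at hε
    have hs0 : 0 ≤ s := by rw [hs]; exact Real.sqrt_nonneg _
    have hs2 : s ^ 2 = Real.log x := by rw [hs]; exact Real.sq_sqrt (Real.log_natCast_nonneg x)
    have hNR : (0 : ℝ) ≤ N := Nat.cast_nonneg N
    have hsN : s ≤ 3 * N := by
      have g1 : x < 2 ^ (8 * (N * N)) := by
        have h1 : y < 2 ^ (Nat.log 2 y + 1) := Nat.lt_pow_succ_log_self (by norm_num) _
        have h2 : y + 1 ≤ 2 ^ (4 * (N * N)) :=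
          (Nat.succ_le_of_lt h1).trans (Nat.pow_le_pow_right (by norm_num) hlogN)
        calc x < (y + 1) * (y + 1) := hxy
          _ ≤ 2 ^ (4 * (N * N)) * 2 ^ (4 * (N * N)) := Nat.mul_le_mul h2 h2
          _ = 2 ^ (8 * (N * N)) := by rw [← pow_add]; congr 1; ring
      have g2 : Real.log x ≤ (8 * (N * N) : ℕ) * Real.log 2 := by
        rw [← Real.log_pow]
        apply Real.log_le_log (by linarith)
        exact_mod_cast g1.le
      push_cast at g2
      have g3 : s ^ 2 ≤ (3 * N) ^ 2 := by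
        rw [hs2]
        have h9 : (0 : ℝ) ≤ (N : ℝ) * N := by positivity
        have h10 : 8 * ((N : ℝ) * N) * Real.log 2 ≤ 8 * ((N : ℝ) * N) * 1 :=
          mul_le_mul_of_nonneg_left (by linarith) (by linarith)
        have h11 : (3 * (N : ℝ)) ^ 2 = 9 * ((N : ℝ) * N) := by ring
        rw [h11]
        linarith
      exact (sq_le_sq₀ hs0 (by positivity)).1 g3
    have hcC : c * (48 * C) = Real.log 2 := by rw [hc]; field_simp
    have hcl : c ≤ Real.log 2 / 48 := by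
      rw [hc]
      apply div_le_div_of_nonneg_left (by linarith) (by norm_num)
      linarith
    -- the three small quantities
    have q1 : (1 / 2 : ℝ) ^ b ≤ 2 * ε := by
      have g1 : (1 / 2 : ℝ) ^ b = 2 * Real.exp (-(Real.log 2 * ((b : ℝ) + 1))) := by
        have : Real.exp (-(Real.log 2 * ((b : ℝ) + 1))) = (1 / 2) ^ (b + 1) := by
          rw [show -(Real.log 2 * ((b : ℝ) + 1)) = ((b + 1 : ℕ) : ℝ) * (-Real.log 2) by push_cast; ring,
            Real.exp_nat_mul, Real.exp_neg, Real.exp_log (by norm_num)]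
          norm_num
        rw [this, pow_succ]
        ring
      rw [g1, hε]
      apply mul_le_mul_of_nonneg_left _ (by norm_num)
      apply Real.exp_le_exp.2
      have g2 : (N : ℝ) ≤ 16 * C * (b + 1) := by exact_mod_cast hNb.le
      have g3 : c * s ≤ c * (3 * (16 * C * (b + 1))) := mul_le_mul_of_nonneg_left (by linarith) hc0.le
      have g4 : c * (3 * (16 * C * ((b : ℝ) + 1))) = Real.log 2 * (b + 1) := by
        rw [← hcC]; ring
      linarith
    have q2 : 1 / (2 : ℝ) ^ N ≤ ε := by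
      have g1 : 1 / (2 : ℝ) ^ N = Real.exp (-(N * Real.log 2)) := by
        rw [Real.exp_neg, Real.exp_nat_mul, Real.exp_log (by norm_num), one_div]
      rw [g1, hε]
      apply Real.exp_le_exp.2
      have h9 : c * s ≤ (Real.log 2 / 48) * (3 * N) := mul_le_mul hcl hsN hs0 (by linarith)
      have h10 : (Real.log 2 / 48) * (3 * (N : ℝ)) = (N * Real.log 2) / 16 := by ring
      have h11 : 0 ≤ (N : ℝ) * Real.log 2 := mul_nonneg hNR (by linarith)
      linarith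
    have q3 : (y : ℝ) ≤ x * ε := by
      have g1 : (2 : ℝ) ^ N ≤ y := by
        have : 2 ^ N ≤ y := by
          calc 2 ^ N ≤ 2 ^ Nat.log 2 y := by
                exact Nat.pow_le_pow_right (by norm_num) ((Nat.le_mul_self N).trans hNlog)
            _ ≤ y := Nat.pow_log_le_self 2 (by omega)
        exact_mod_cast this
      have g2 : (1 : ℝ) ≤ y * ε := by
        have h1 : (0 : ℝ) < 2 ^ N := by positivity
        calc (1 : ℝ) = 2 ^ N * (1 / 2 ^ N) := by field_simp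
          _ ≤ y * ε := mul_le_mul g1 q2 (by positivity) hy0
      have g3 : (y : ℝ) * y ≤ x := by exact_mod_cast hyx
      calc (y : ℝ) = y * 1 := by ring
        _ ≤ y * (y * ε) := mul_le_mul_of_nonneg_left g2 hy0
        _ = (y * y) * ε := by ring
        _ ≤ _ := mul_le_mul_of_nonneg_right g3 hε0.le
    have hDle : D ≤ (B * (2 + (k : ℝ) ^ 2) + K) * (x * ε) := by
      have g1 : 2 ^ k * (K * ((J0 : ℝ) + 3) * (2 ^ 2 ^ (J0 + 1)) ^ k * ((2 ^ 2 ^ (J0 + 1)) ^ (C * b)) ^ 2) ≤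
          K * (x * ε) := by
        calc _ = K * ((2 : ℝ) ^ k * (((J0 : ℝ) + 3) * (2 ^ 2 ^ (J0 + 1)) ^ k * ((2 ^ 2 ^ (J0 + 1)) ^ (C * b)) ^ 2)) := by
              ring
          _ ≤ K * y := mul_le_mul_of_nonneg_left hexp hK
          _ ≤ _ := mul_le_mul_of_nonneg_left q3 hK
      have g2 : (1 / 2 : ℝ) ^ b + (k : ℝ) ^ 2 / (2 ^ 2 ^ J0 : ℕ) ≤ (2 + (k : ℝ) ^ 2) * ε := by
        have : (k : ℝ) ^ 2 / (2 ^ 2 ^ J0 : ℕ) = (k : ℝ) ^ 2 * (1 / 2 ^ N) := by
          rw [← hN]; push_cast; ring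
        rw [this]
        have h9 : (k : ℝ) ^ 2 * (1 / 2 ^ N) ≤ (k : ℝ) ^ 2 * ε := mul_le_mul_of_nonneg_left q2 (by positivity)
        have h10 : (2 + (k : ℝ) ^ 2) * ε = 2 * ε + (k : ℝ) ^ 2 * ε := by ring
        rw [h10]
        linarith
      rw [hD]
      have g3 : (x : ℝ) * (B * ((1 / 2) ^ b + (k : ℝ) ^ 2 / (2 ^ 2 ^ J0 : ℕ))) ≤
          x * (B * ((2 + (k : ℝ) ^ 2) * ε)) := by
        apply mul_le_mul_of_nonneg_left _ (by linarith)
        exact mul_le_mul_of_nonneg_left g2 hB0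
      calc _ ≤ x * (B * ((2 + (k : ℝ) ^ 2) * ε)) + K * (x * ε) := add_le_add g3 g1
        _ = _ := by ring
    rw [hsplit]
    obtain ⟨a1, a2⟩ := hsumden y
    obtain ⟨b1, b2⟩ := hsumlw y
    have h1 : |∑ n ∈ range y, ∏ l ∈ L, den M (l.1 * n + l.2) - 𝔖 * ∑ n ∈ Ico 2 y, lw L n| ≤ T1 * y := by
      have b3 : 𝔖 * ∑ n ∈ Ico 2 y, lw L n ≤ 𝔖 * (2 ^ k * y) := mul_le_mul_of_nonneg_left b2 h𝔖0
      have b4 : 0 ≤ 𝔖 * ∑ n ∈ Ico 2 y, lw L n := mul_nonneg h𝔖0 b1
      have b5 : 0 ≤ 𝔖 * (2 ^ k * y) := by positivity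
      have b6 : 0 ≤ D0 ^ k * y := by positivity
      have e : T1 * y = D0 ^ k * y + 𝔖 * (2 ^ k * y) := by rw [hT1]; ring
      rw [e, abs_le]
      constructor <;> linarith
    have h2 : T1 * (y : ℝ) ≤ T1 * (x * ε) := mul_le_mul_of_nonneg_left q3 hT10.le
    have h3 : D * 2 ^ k ≤ 2 ^ k * (B * (2 + (k : ℝ) ^ 2) + K) * (x * ε) := by
      calc D * 2 ^ k ≤ ((B * (2 + (k : ℝ) ^ 2) + K) * (x * ε)) * 2 ^ k :=
            mul_le_mul_of_nonneg_right hDle (by positivity)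
        _ = _ := by ring
    calc _ ≤ |∑ n ∈ range y, ∏ l ∈ L, den M (l.1 * n + l.2) - 𝔖 * ∑ n ∈ Ico 2 y, lw L n| +
          |∑ i ∈ range (x - y), (∏ l ∈ L, sw (l.1 * (y + i) + l.2) - 𝔖) * lw L (y + i)| := abs_add_le _ _
      _ ≤ T1 * y + D * 2 ^ k := add_le_add h1 htail2
      _ ≤ T1 * (x * ε) + 2 ^ k * (B * (2 + (k : ℝ) ^ 2) + K) * (x * ε) := add_le_add h2 h3
      _ = T2 * x * ε := by rw [hT2]; ring
      _ ≤ (T2 + T1 * Real.exp (c * Real.sqrt (Real.log x0))) * x * ε := by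
          have h5 : 0 ≤ T1 * Real.exp (c * Real.sqrt (Real.log x0)) * x * ε := by positivity
          have h6 : (T2 + T1 * Real.exp (c * Real.sqrt (Real.log x0))) * x * ε =
              T2 * x * ε + T1 * Real.exp (c * Real.sqrt (Real.log x0)) * x * ε := by ring
          rw [h6]
          linarith

end Pool.Agent.U462.Sh
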