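import Pool.Agent.U462.Sh.WtH

/-!
# The weights of the subsets: positivity, marginals, second moments
-/

set_option autoImplicit false

open Finset

namespace Pool.Agent.U462.Sh

section

variable {H : Finset ℕ → Prop} {a : ℕ → ℝ}

lemma mu_eq {V A : Finset ℕ} (hA : A ⊆ V) :
    muH H a V A = (∏ u ∈ A, a u) * ZA H a A (V \ A) := by
  classical
  unfold muH ZA
  have h1 : ∑ B ∈ V.powerset.filter (fun B => A ⊆ B), (-1 : ℝ) ^ (B \ A).card * ch H a B =
      ∑ B ∈ (V \ A).powerset, (-1 : ℝ) ^ B.card * ch H a (A ∪ B) := by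
    apply sum_nbij' (fun B => B \ A) (fun B => A ∪ B)
    · intro B hB
      obtain ⟨h1, h2⟩ := mem_filter.1 hB
      rw [mem_powerset] at h1 ⊢
      exact sdiff_subset_sdiff h1 le_rfl
    · intro B hB
      rw [mem_powerset] at hB
      rw [mem_filter, mem_powerset]
      exact ⟨union_subset hA (hB.trans sdiff_subset), subset_union_left⟩
    · intro B hB
      obtain ⟨h1, h2⟩ := mem_filter.1 hB
      exact union_sdiff_of_subset h2
    · intro B hB
      rw [mem_powerset] at hB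
      exact union_sdiff_cancel_left (disjoint_sdiff.mono_right hB)
    · intro B hB
      obtain ⟨h1, h2⟩ := mem_filter.1 hB
      rw [union_sdiff_of_subset h2]
  rw [h1, mul_sum]
  apply sum_congr rfl
  intro B hB
  rw [mem_powerset] at hB
  unfold ch
  rw [prod_union (disjoint_sdiff.mono_right hB)]
  split_ifs
  · ring
  · ring

lemma mu_nonneg (hS : SmallH H a) {V A : Finset ℕ} (hA : A ⊆ V) : 0 ≤ muH H a V A := by
  rw [mu_eq hA]
  apply mul_nonneg (prod_nonneg fun u _ => (hS u).1)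
  by_cases h : Avoids H A
  · exact (ZA_pos hS _ _ le_rfl A h).1.le
  · rw [ZA_not h]

lemma mu_ne {V A : Finset ℕ} (hA : A ⊆ V) (h : muH H a V A ≠ 0) : ch H a A ≠ 0 := by
  rw [mu_eq hA] at h
  unfold ch
  rw [if_pos]
  · exact left_ne_zero_of_mul h
  · by_contra hcon
    rw [ZA_not hcon, mul_zero] at h
    exact h rfl

open Classical in
/-- the marginals -/
theorem marg {V U : Finset ℕ} (hU : U ⊆ V) :
    ∑ A ∈ V.powerset, muH H a V A * (if U ⊆ A then 1 else 0) = ch H a U := by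
  have h0 : ∑ A ∈ V.powerset, muH H a V A * (if U ⊆ A then 1 else 0) =
      ∑ A ∈ V.powerset.filter (fun A => U ⊆ A), ∑ B ∈ V.powerset.filter (fun B => A ⊆ B),
        (-1 : ℝ) ^ (B \ A).card * ch H a B := by
    rw [sum_filter]
    apply sum_congr rfl
    intro A _
    split_ifs
    · rw [mul_one]; rfl
    · rw [mul_zero]
  rw [h0]
  rw [sum_comm' (t' := V.powerset.filter (fun B => U ⊆ B))
    (s' := fun B => B.powerset.filter (fun A => U ⊆ A))]
  · have h1 : ∀ B ∈ V.powerset.filter (fun B => U ⊆ B),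
        ∑ A ∈ B.powerset.filter (fun A => U ⊆ A), (-1 : ℝ) ^ (B \ A).card * ch H a B =
        if B = U then ch H a B else 0 := by
      intro B hB
      obtain ⟨_, hUB⟩ := mem_filter.1 hB
      rw [← sum_mul]
      have h2 : ∑ A ∈ B.powerset.filter (fun A => U ⊆ A), (-1 : ℝ) ^ (B \ A).card =
          ∑ D ∈ (B \ U).powerset, (-1 : ℝ) ^ D.card := by
        apply sum_nbij' (fun A => B \ A) (fun D => B \ D)
        · intro A hA
          obtain ⟨h3, h4⟩ := mem_filter.1 hA
          rw [mem_powerset]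
          exact sdiff_subset_sdiff le_rfl h4
        · intro D hD
          rw [mem_powerset] at hD
          rw [mem_filter, mem_powerset]
          refine ⟨sdiff_subset, fun u hu => mem_sdiff.2 ⟨hUB hu, fun h => ?_⟩⟩
          exact (mem_sdiff.1 (hD h)).2 hu
        · intro A hA
          obtain ⟨h3, h4⟩ := mem_filter.1 hA
          rw [mem_powerset] at h3
          exact Finset.sdiff_sdiff_eq_self h3
        · intro D hD
          rw [mem_powerset] at hD
          exact Finset.sdiff_sdiff_eq_self (hD.trans sdiff_subset)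
        · intro A _
          rfl
      rw [h2]
      have h3 := sum_powerset_neg_one_pow_card (x := B \ U)
      have h4 : ∑ D ∈ (B \ U).powerset, (-1 : ℝ) ^ D.card = if B \ U = ∅ then 1 else 0 := by
        have : ((∑ D ∈ (B \ U).powerset, (-1 : ℤ) ^ D.card : ℤ) : ℝ) = ((if B \ U = ∅ then 1 else 0 : ℤ) : ℝ) := by
          rw [h3]
        push_cast at this
        rw [this]
      rw [h4]
      by_cases h5 : B = U
      · rw [if_pos h5, h5, sdiff_self]
        simp
      · rw [if_neg h5, if_neg, zero_mul]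
        intro h6
        rw [sdiff_eq_empty_iff_subset] at h6
        exact h5 (h6.antisymm hUB)
    rw [sum_congr rfl h1, sum_ite_eq', if_pos]
    rw [mem_filter, mem_powerset]
    exact ⟨hU, le_rfl⟩
  · intro A B
    simp only [mem_filter, mem_powerset]
    constructor
    · rintro ⟨⟨h1, h2⟩, h3, h4⟩
      exact ⟨⟨h4, h2⟩, h3, h2.trans h4⟩
    · rintro ⟨⟨h1, h2⟩, h3, h4⟩
      exact ⟨⟨h1.trans h3, h2⟩, h3, h1⟩

lemma total (h0 : ¬ H ∅) (V : Finset ℕ) : ∑ A ∈ V.powerset, muH H a V A = 1 := by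
  classical
  have h := marg (H := H) (a := a) (empty_subset V)
  simpa [ch_empty h0] using h

open Classical in
/-- the number of the `n` in `I` for which `P n` is contained in `A` -/
noncomputable def cnt (P : ℕ → Finset ℕ) (I A : Finset ℕ) : ℝ :=
  ∑ n ∈ I, (if P n ⊆ A then 1 else 0)

open Classical in
/-- the second moment -/
theorem second (h0 : ¬ H ∅) (hS : SmallH H a) {V I : Finset ℕ} {P : ℕ → Finset ℕ}
    (hP : ∀ n ∈ I, P n ⊆ V) :
    ∑ A ∈ V.powerset, muH H a V A * (cnt P I A - ∑ n ∈ I, ch H a (P n)) ^ 2 ≤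
      ∑ n ∈ I, (((I.filter (fun n' => ¬ Disjoint (P n) (P n'))).card : ℕ) : ℝ) := by
  obtain ⟨m, hm⟩ : ∃ m, m = ∑ n ∈ I, ch H a (P n) := ⟨_, rfl⟩
  rw [← hm]
  have ha0 : ∀ n, 0 ≤ a n := fun n => (hS n).1
  have ha1 : ∀ n, a n ≤ 1 := fun n => by have := (hS n).2.1; linarith
  have h1 : ∑ A ∈ V.powerset, muH H a V A * cnt P I A = m := by
    unfold cnt
    simp only [mul_sum]
    rw [sum_comm, hm]
    exact sum_congr rfl fun n hn => marg (hP n hn)
  have h2 : ∑ A ∈ V.powerset, muH H a V A * (cnt P I A) ^ 2 =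
      ∑ n ∈ I, ∑ n' ∈ I, ch H a (P n ∪ P n') := by
    have e1 : ∀ A : Finset ℕ, (cnt P I A) ^ 2 = ∑ n ∈ I, ∑ n' ∈ I, (if P n ∪ P n' ⊆ A then 1 else 0) := by
      intro A
      unfold cnt
      rw [sq, sum_mul_sum]
      refine sum_congr rfl fun n _ => sum_congr rfl fun n' _ => ?_
      simp only [union_subset_iff]
      by_cases h1 : P n ⊆ A <;> by_cases h2 : P n' ⊆ A <;> simp [h1, h2]
    simp only [e1, mul_sum]
    rw [sum_comm]
    refine sum_congr rfl fun n hn => ?_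
    rw [sum_comm]
    exact sum_congr rfl fun n' hn' => marg (union_subset (hP n hn) (hP n' hn'))
  have h3 : ∑ A ∈ V.powerset, muH H a V A * (cnt P I A - m) ^ 2 =
      ∑ n ∈ I, ∑ n' ∈ I, (ch H a (P n ∪ P n') - ch H a (P n) * ch H a (P n')) := by
    have e1 : ∀ A : Finset ℕ, muH H a V A * (cnt P I A - m) ^ 2 =
        muH H a V A * (cnt P I A) ^ 2 - 2 * m * (muH H a V A * cnt P I A) + m ^ 2 * muH H a V A := by
      intro A; ring
    simp only [e1]
    rw [sum_add_distrib, sum_sub_distrib, ← mul_sum, ← mul_sum, h1, h2, total h0]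
    simp only [sum_sub_distrib]
    have e2 : ∑ n ∈ I, ∑ n' ∈ I, ch H a (P n) * ch H a (P n') = m ^ 2 := by
      rw [sq, hm, sum_mul_sum]
    rw [e2]
    ring
  rw [h3]
  refine sum_le_sum fun n hn => ?_
  rw [card_eq_sum_ones, Nat.cast_sum, sum_filter]
  refine sum_le_sum fun n' hn' => ?_
  by_cases hd : Disjoint (P n) (P n')
  · rw [if_neg (not_not.2 hd)]
    have e1 := ch_union_le (H := H) (a := a) ha0 hd
    linarith
  · rw [if_pos hd]
    have e1 := ch_le_one (H := H) ha0 ha1 (P n ∪ P n')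
    have e2 := mul_nonneg (ch_nonneg (H := H) ha0 (P n)) (ch_nonneg (H := H) ha0 (P n'))
    push_cast
    linarith

open Classical in
/-- A choice which satisfies finitely many constraints. -/
theorem choose_set (h0 : ¬ H ∅) (hS : SmallH H a) (V : Finset ℕ) {K : Type} (C : Finset K)
    (I : K → Finset ℕ) (P : K → ℕ → Finset ℕ) (t v : K → ℝ) (ht : ∀ κ ∈ C, 0 < t κ)
    (hP : ∀ κ ∈ C, ∀ n ∈ I κ, P κ n ⊆ V)
    (hv : ∀ κ ∈ C, ∑ n ∈ I κ, ((((I κ).filter (fun n' => ¬ Disjoint (P κ n) (P κ n'))).card : ℕ) : ℝ) ≤ v κ)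
    (hsum : ∑ κ ∈ C, v κ / t κ ^ 2 < 1) :
    ∃ A ⊆ V, ch H a A ≠ 0 ∧ ∀ κ ∈ C, |cnt (P κ) (I κ) A - ∑ n ∈ I κ, ch H a (P κ n)| < t κ := by
  by_contra hcon
  push Not at hcon
  -- every `A` violates some constraint or has weight `0`
  have h1 : ∀ A ∈ V.powerset, muH H a V A ≤
      muH H a V A * ∑ κ ∈ C, (cnt (P κ) (I κ) A - ∑ n ∈ I κ, ch H a (P κ n)) ^ 2 / t κ ^ 2 := by
    intro A hA
    rw [mem_powerset] at hA
    by_cases h0 : muH H a V A = 0
    · rw [h0]; simp
    · obtain ⟨κ, hκ, hge⟩ := hcon A hA (mu_ne hA h0)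
      have hpos := mu_nonneg hS hA
      have h2 : 1 ≤ ∑ κ ∈ C, (cnt (P κ) (I κ) A - ∑ n ∈ I κ, ch H a (P κ n)) ^ 2 / t κ ^ 2 := by
        refine le_trans ?_ (single_le_sum (f := fun κ => (cnt (P κ) (I κ) A - ∑ n ∈ I κ, ch H a (P κ n)) ^ 2 / t κ ^ 2)
          (fun κ _ => by positivity) hκ)
        have h3 := ht κ hκ
        rw [le_div_iff₀ (by positivity), one_mul, ← sq_abs (cnt (P κ) (I κ) A - ∑ n ∈ I κ, ch H a (P κ n))]
        exact pow_le_pow_left₀ h3.le hge 2
      nlinarith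
  have h2 := sum_le_sum h1
  rw [total h0] at h2
  have h3 : ∑ A ∈ V.powerset, muH H a V A * ∑ κ ∈ C, (cnt (P κ) (I κ) A - ∑ n ∈ I κ, ch H a (P κ n)) ^ 2 / t κ ^ 2 =
      ∑ κ ∈ C, (∑ A ∈ V.powerset, muH H a V A * (cnt (P κ) (I κ) A - ∑ n ∈ I κ, ch H a (P κ n)) ^ 2) / t κ ^ 2 := by
    simp only [mul_sum]
    rw [sum_comm]
    refine sum_congr rfl fun κ _ => ?_
    rw [sum_div]
    exact sum_congr rfl fun A _ => by ring
  rw [h3] at h2
  have h4 : ∑ κ ∈ C, (∑ A ∈ V.powerset, muH H a V A * (cnt (P κ) (I κ) A - ∑ n ∈ I κ, ch H a (P κ n)) ^ 2) / t κ ^ 2 ≤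
      ∑ κ ∈ C, v κ / t κ ^ 2 := by
    refine sum_le_sum fun κ hκ => ?_
    have h5 := ht κ hκ
    exact div_le_div_of_nonneg_right ((second h0 hS (hP κ hκ)).trans (hv κ hκ)) (by positivity)
  linarith

end

end Pool.Agent.U462.Sh
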