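import Pool.Agent.U462.Sh.Hoef
import Pool.Agent.U462.Sh.Gen

/-!
# Infinite sets with small deviations in all intervals
-/

set_option autoImplicit false
set_option maxHeartbeats 1000000

open Finset Filter Topology

namespace Pool.Agent.U462.Sh

section

variable {H : Finset ℕ → Prop} {a : ℕ → ℝ}

/-- the sum of the coefficients -/
def AA (L : Finset (ℕ × ℕ)) : ℕ := ∑ l ∈ L, (l.1 + l.2)

lemma form_le {L : Finset (ℕ × ℕ)} {l : ℕ × ℕ} (hl : l ∈ L) {m v : ℕ} (hm : m < v) :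
    l.1 * m + l.2 ≤ AA L * v := by
  have h1 : l.1 + l.2 ≤ AA L := le_sum_of hl
  calc l.1 * m + l.2 ≤ l.1 * v + l.2 * v :=
        Nat.add_le_add (Nat.mul_le_mul_left _ hm.le) (Nat.le_mul_of_pos_right _ (by omega))
    _ = (l.1 + l.2) * v := by ring
    _ ≤ _ := Nat.mul_le_mul_right _ h1

/-- the bound for the degrees -/
noncomputable def DD (L : Finset (ℕ × ℕ)) (v : ℕ) : ℕ :=
  #L ^ 2 + #L ^ 2 * ⌊Real.sqrt (Real.log ((AA L * v : ℕ) : ℝ))⌋₊

open Classical in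
lemma degree {L : Finset (ℕ × ℕ)} (hL : IsSystem L) {M : ℕ}
    (hdeg : ∀ x : ℕ, M ≤ x → ∀ (T : ℕ) (F : Finset ℕ), (∀ y ∈ F, M ≤ y ∧ y ≤ T ∧ Linked H x y) →
      (#F : ℝ) ≤ Real.sqrt (Real.log T)) {u v n : ℕ} (hu : M ≤ u) (hn : n ∈ Ico u v) :
    #((Ico u v).filter (fun m => m ≠ n ∧ ¬ Sep H (vals L n) (vals L m))) ≤ DD L v := by
  obtain ⟨Y, hY⟩ : ∃ Y : ℕ × ℕ → Finset ℕ, Y = fun l => (range (AA L * v + 1)).filter
    (fun y => M ≤ y ∧ Linked H (l.1 * n + l.2) y) := ⟨_, rfl⟩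
  have hYcard : ∀ l ∈ L, #(Y l) ≤ ⌊Real.sqrt (Real.log ((AA L * v : ℕ) : ℝ))⌋₊ := by
    intro l hl
    apply Nat.le_floor
    apply hdeg (l.1 * n + l.2) (by
      rw [mem_Ico] at hn
      exact (hu.trans hn.1).trans (form_ge hL hl n)) (AA L * v)
    intro y hy
    rw [hY] at hy
    rw [mem_filter, mem_range] at hy
    exact ⟨hy.2.1, by omega, hy.2.2⟩
  have hsub : (Ico u v).filter (fun m => m ≠ n ∧ ¬ Sep H (vals L n) (vals L m)) ⊆
      (Ico u v).filter (fun m => ¬ Disjoint (vals L n) (vals L m)) ∪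
        L.biUnion fun l => (Y l).biUnion fun y => L.biUnion fun l' =>
          (Ico u v).filter fun m => l'.1 * m + l'.2 = y := by
    intro m hm
    rw [mem_filter] at hm
    obtain ⟨hmI, _, hsep⟩ := hm
    rw [mem_union]
    by_cases hd : Disjoint (vals L n) (vals L m)
    · right
      unfold Sep at hsep
      push Not at hsep
      obtain ⟨x, hx, y, hy, hxy⟩ := hsep hd
      unfold vals at hx hy
      obtain ⟨l, hl, rfl⟩ := mem_image.1 hx
      obtain ⟨l', hl', rfl⟩ := mem_image.1 hy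
      rw [mem_biUnion]
      refine ⟨l, hl, ?_⟩
      rw [mem_biUnion]
      rw [mem_Ico] at hmI
      refine ⟨l'.1 * m + l'.2, ?_, ?_⟩
      · rw [hY]
        rw [mem_filter, mem_range]
        exact ⟨Nat.lt_succ_of_le (form_le hl' hmI.2), (hu.trans hmI.1).trans (form_ge hL hl' m), hxy⟩
      · rw [mem_biUnion]
        exact ⟨l', hl', mem_filter.2 ⟨mem_Ico.2 hmI, rfl⟩⟩
    · left
      exact mem_filter.2 ⟨hmI, hd⟩
  refine (card_le_card hsub).trans ((card_union_le _ _).trans ?_)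
  unfold DD
  apply Nat.add_le_add (overlap hL _ n)
  rw [sq, mul_assoc]
  apply card_biUnion_le_card_mul
  intro l hl
  refine (card_biUnion_le_card_mul _ _ #L ?_).trans ?_
  · intro y _
    refine (card_biUnion_le_card_mul _ _ 1 ?_).trans (by rw [mul_one])
    intro l' hl'
    rw [card_le_one]
    intro m hm m' hm'
    rw [mem_filter] at hm hm'
    exact form_inj hL hl' (hm.2.trans hm'.2.symm)
  · rw [mul_comm]
    exact Nat.mul_le_mul_left _ (hYcard l hl)

/-- a constant -/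
def GG (L : Finset (ℕ × ℕ)) : ℕ := 1 + #L ^ 2 + #L ^ 2 * AA L

lemma sqrt_log_le (T : ℕ) : Real.sqrt (Real.log T) ≤ T := by
  rcases Nat.eq_zero_or_pos T with h | h
  · rw [h]; simp
  · have hT : (1 : ℝ) ≤ T := by exact_mod_cast h
    rw [Real.sqrt_le_left (by linarith)]
    have := Real.log_le_sub_one_of_pos (by linarith : (0 : ℝ) < T)
    nlinarith

lemma DD_le (L : Finset (ℕ × ℕ)) {v : ℕ} (hv : 1 ≤ v) : DD L v + 1 ≤ GG L * v := by
  have h1 : ⌊Real.sqrt (Real.log ((AA L * v : ℕ) : ℝ))⌋₊ ≤ AA L * v :=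
    Nat.floor_le_of_le (sqrt_log_le (AA L * v))
  unfold DD GG
  have h2 : #L ^ 2 * ⌊Real.sqrt (Real.log ((AA L * v : ℕ) : ℝ))⌋₊ ≤ #L ^ 2 * (AA L * v) :=
    Nat.mul_le_mul_left _ h1
  have h3 : (1 + #L ^ 2 + #L ^ 2 * AA L) * v = (1 + #L ^ 2) * v + #L ^ 2 * (AA L * v) := by ring
  have h4 : (1 + #L ^ 2) * 1 ≤ (1 + #L ^ 2) * v := Nat.mul_le_mul_left _ hv
  rw [h3]
  omega

/-- the bound from which the constraints of a system start -/
noncomputable def thr2 (L : Finset (ℕ × ℕ)) : ℕ := 2 * GG L * 2 ^ (Encodable.encode L + 2)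

open Classical in
/-- the finitely many constraints up to `X` -/
noncomputable def cons2 (M X : ℕ) : Finset (Finset (ℕ × ℕ) × (ℕ × ℕ)) :=
  (sys X ×ˢ (range X ×ˢ range X)).filter fun κ => IsSystem κ.1 ∧ M ≤ κ.2.1 ∧ κ.2.1 < κ.2.2 ∧
    thr2 κ.1 < κ.2.2 ∧ 9 * Real.log κ.2.2 ≤ (κ.2.2 : ℝ) - κ.2.1

lemma mem_cons2 {M X : ℕ} {κ : Finset (ℕ × ℕ) × (ℕ × ℕ)} : κ ∈ cons2 M X ↔
    (Encodable.encode κ.1 < X ∧ κ.2.1 < X ∧ κ.2.2 < X) ∧ IsSystem κ.1 ∧ M ≤ κ.2.1 ∧ κ.2.1 < κ.2.2 ∧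
    thr2 κ.1 < κ.2.2 ∧ 9 * Real.log κ.2.2 ≤ (κ.2.2 : ℝ) - κ.2.1 := by
  classical
  unfold cons2
  rw [mem_filter, mem_product, mem_product, mem_sys, mem_range, mem_range]

lemma sum_cons2 (M X : ℕ) : ∑ κ ∈ cons2 M X, (2 * (GG κ.1 : ℝ)) * ((κ.2.2 : ℝ) ^ 3)⁻¹ < 1 := by
  classical
  have hone : ∀ L ∈ sys X, ∑ q ∈ range X ×ˢ range X, (if IsSystem L ∧ M ≤ q.1 ∧ q.1 < q.2 ∧
      thr2 L < q.2 ∧ 9 * Real.log q.2 ≤ (q.2 : ℝ) - q.1 then (2 * (GG L : ℝ)) * ((q.2 : ℝ) ^ 3)⁻¹ else 0) ≤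
        (1 / 2) ^ (Encodable.encode L + 2) := by
    intro L _
    have hG : 1 ≤ GG L := by unfold GG; omega
    have hthr : 1 ≤ thr2 L := by
      unfold thr2
      exact Nat.mul_pos (by omega) (by positivity)
    have hthrR : (0 : ℝ) < thr2 L := by exact_mod_cast hthr
    have h1 : ∑ q ∈ range X ×ˢ range X, (if IsSystem L ∧ M ≤ q.1 ∧ q.1 < q.2 ∧
        thr2 L < q.2 ∧ 9 * Real.log q.2 ≤ (q.2 : ℝ) - q.1 then (2 * (GG L : ℝ)) * ((q.2 : ℝ) ^ 3)⁻¹ else 0) ≤
        ∑ v ∈ range X, (if thr2 L < v then (2 * (GG L : ℝ)) * ((v : ℝ) ^ 2)⁻¹ else 0) := by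
      rw [sum_product_right]
      apply sum_le_sum
      intro v _
      by_cases hv : thr2 L < v
      · rw [if_pos hv]
        have hv0 : (0 : ℝ) < v := by exact_mod_cast (by omega : 0 < v)
        calc ∑ u ∈ range X, (if IsSystem L ∧ M ≤ u ∧ u < v ∧
              thr2 L < v ∧ 9 * Real.log v ≤ (v : ℝ) - u then (2 * (GG L : ℝ)) * ((v : ℝ) ^ 3)⁻¹ else 0)
            ≤ ∑ u ∈ range X, (if u < v then (2 * (GG L : ℝ)) * ((v : ℝ) ^ 3)⁻¹ else 0) := by
              apply sum_le_sum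
              intro u _
              by_cases huv : u < v
              · rw [if_pos huv]
                split_ifs
                · exact le_rfl
                · positivity
              · rw [if_neg huv, if_neg (fun h => huv h.2.2.1)]
          _ = #((range X).filter (fun u => u < v)) * ((2 * (GG L : ℝ)) * ((v : ℝ) ^ 3)⁻¹) := by
              rw [← sum_filter, sum_const, nsmul_eq_mul]
          _ ≤ v * ((2 * (GG L : ℝ)) * ((v : ℝ) ^ 3)⁻¹) := by
              apply mul_le_mul_of_nonneg_right _ (by positivity)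
              have : (range X).filter (fun u => u < v) ⊆ range v := by
                intro u hu
                rw [mem_filter] at hu
                exact mem_range.2 hu.2
              have h2 := card_le_card this
              rw [card_range] at h2
              exact_mod_cast h2
          _ = _ := by field_simp
      · rw [if_neg hv]
        apply le_of_eq
        apply sum_eq_zero
        intro u _
        rw [if_neg (fun h => hv h.2.2.2.1)]
    refine h1.trans ?_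
    have h2 : ∑ v ∈ range X, (if thr2 L < v then (2 * (GG L : ℝ)) * ((v : ℝ) ^ 2)⁻¹ else 0) ≤
        (2 * (GG L : ℝ)) * (thr2 L : ℝ)⁻¹ := by
      rw [← sum_filter]
      rcases Nat.lt_or_ge X (thr2 L) with hX | hX
      · have : (range X).filter (fun j => thr2 L < j) = ∅ := by
          rw [filter_eq_empty_iff]
          intro j hj h
          rw [mem_range] at hj
          omega
        rw [this, sum_empty]
        positivity
      · calc ∑ j ∈ (range X).filter (fun j => thr2 L < j), (2 * (GG L : ℝ)) * ((j : ℝ) ^ 2)⁻¹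
            ≤ ∑ j ∈ Ioc (thr2 L) X, (2 * (GG L : ℝ)) * ((j : ℝ) ^ 2)⁻¹ := by
              apply sum_le_sum_of_subset_of_nonneg
              · intro j hj
                rw [mem_filter, mem_range] at hj
                rw [mem_Ioc]
                omega
              · intro j _ _
                positivity
          _ = (2 * (GG L : ℝ)) * ∑ j ∈ Ioc (thr2 L) X, ((j : ℝ) ^ 2)⁻¹ := by rw [mul_sum]
          _ ≤ (2 * (GG L : ℝ)) * ((thr2 L : ℝ)⁻¹ - (X : ℝ)⁻¹) :=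
              mul_le_mul_of_nonneg_left (sum_Ioc_inv_sq_le_sub (by omega) hX) (by positivity)
          _ ≤ _ := by
              apply mul_le_mul_of_nonneg_left _ (by positivity)
              have : (0 : ℝ) ≤ (X : ℝ)⁻¹ := by positivity
              linarith
    refine h2.trans ?_
    rw [← div_eq_mul_inv, div_le_iff₀ hthrR]
    unfold thr2
    push_cast
    have e1 : (1 / 2 : ℝ) ^ (Encodable.encode L + 2) * (2 * (GG L : ℝ) * 2 ^ (Encodable.encode L + 2)) =
        2 * (GG L : ℝ) * ((1 / 2) ^ (Encodable.encode L + 2) * 2 ^ (Encodable.encode L + 2)) := by ring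
    rw [e1, ← mul_pow]
    norm_num
  unfold cons2
  rw [sum_filter, sum_product]
  refine lt_of_le_of_lt (sum_le_sum hone) ?_
  have h2 : ∑ L ∈ sys X, (1 / 2 : ℝ) ^ (Encodable.encode L + 2) ≤ ∑ i ∈ range X, (1 / 2 : ℝ) ^ (i + 2) := by
    rw [← sum_image (f := fun i : ℕ => (1 / 2 : ℝ) ^ (i + 2)) (g := fun L : Finset (ℕ × ℕ) => Encodable.encode L)
      (fun a _ b _ h => Encodable.encode_injective h)]
    apply sum_le_sum_of_subset_of_nonneg
    · intro i hi
      rw [mem_image] at hi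
      obtain ⟨L, hL, rfl⟩ := hi
      rw [mem_range]
      exact mem_sys.1 hL
    · intro i _ _
      positivity
  refine lt_of_le_of_lt h2 ?_
  have h3 : ∀ X : ℕ, ∑ i ∈ range X, (1 / 2 : ℝ) ^ (i + 2) = 1 / 2 - (1 / 2) ^ (X + 1) := by
    intro X
    induction X with
    | zero => norm_num
    | succ X ih => rw [sum_range_succ, ih]; ring
  rw [h3]
  have : (0 : ℝ) < (1 / 2) ^ (X + 1) := by positivity
  linarith

open Classical in
/-- A set without forbidden configurations with small deviations in all intervals. -/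
theorem exists_set2 (h0 : ¬ H ∅) (hS : SmallH H a) {M : ℕ} (hM : 2 ≤ M)
    (hdeg : ∀ x : ℕ, M ≤ x → ∀ (T : ℕ) (F : Finset ℕ), (∀ y ∈ F, M ≤ y ∧ y ≤ T ∧ Linked H x y) →
      (#F : ℝ) ≤ Real.sqrt (Real.log T)) : ∃ S : Set ℕ,
    (∀ e : Finset ℕ, H e → ¬ (∀ m ∈ e, m ∈ S)) ∧ (∀ m ∈ S, a m ≠ 0) ∧
    ∀ L : Finset (ℕ × ℕ), IsSystem L → ∀ u v : ℕ, M ≤ u → u < v → thr2 L < v →
      9 * Real.log v ≤ (v : ℝ) - u →
      |(#((Ico u v).filter (fun n => ∀ m ∈ vals L n, m ∈ S)) : ℝ) -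
        ∑ n ∈ Ico u v, ch H a (vals L n)| ≤
        ((DD L v : ℝ) + 1) * (6 * Real.sqrt (((v : ℝ) - u) * Real.log v)) := by
  -- the finite sets
  have hfin : ∀ X : ℕ, ∃ A : Finset ℕ, ch H a A ≠ 0 ∧ ∀ κ ∈ cons2 M X,
      ¬ (((DD κ.1 κ.2.2 : ℝ) + 1) * (6 * Real.sqrt (((κ.2.2 : ℝ) - κ.2.1) * Real.log κ.2.2)) ≤
        |cnt (fun n => vals κ.1 n) (Ico κ.2.1 κ.2.2) A - ∑ n ∈ Ico κ.2.1 κ.2.2, ch H a (vals κ.1 n)|) := by
    intro X
    obtain ⟨V, hV⟩ : ∃ V : Finset ℕ, V = (cons2 M X).biUnion fun κ => (Ico κ.2.1 κ.2.2).biUnion fun n => vals κ.1 n :=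
      ⟨_, rfl⟩
    have hW : ∀ κ ∈ cons2 M X, ∃ W : Finset ℕ → ℝ, (∀ A, 0 ≤ W A) ∧
        (∀ A, (((DD κ.1 κ.2.2 : ℝ) + 1) * (6 * Real.sqrt (((κ.2.2 : ℝ) - κ.2.1) * Real.log κ.2.2)) ≤
          |cnt (fun n => vals κ.1 n) (Ico κ.2.1 κ.2.2) A - ∑ n ∈ Ico κ.2.1 κ.2.2, ch H a (vals κ.1 n)|) → 1 ≤ W A) ∧
        ∑ A ∈ V.powerset, muH H a V A * W A ≤ (2 * (GG κ.1 : ℝ)) * ((κ.2.2 : ℝ) ^ 3)⁻¹ := by
      intro κ hκ
      obtain ⟨_, hsys, hMu, huv, hthr, hlen⟩ := mem_cons2.1 hκ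
      obtain ⟨L, u, v⟩ := κ
      simp only at hsys hMu huv hthr hlen ⊢
      have hv1 : (1 : ℝ) ≤ v := by exact_mod_cast (by omega : 1 ≤ v)
      have hv2 : (2 : ℝ) ≤ v := by exact_mod_cast (by omega : 2 ≤ v)
      have hlog : 0 < Real.log v := Real.log_pos (by linarith)
      obtain ⟨N, hN⟩ : ∃ N : ℝ, N = (v : ℝ) - u := ⟨_, rfl⟩
      rw [← hN] at hlen ⊢
      have hN0 : 0 < N := by linarith
      obtain ⟨s, hs⟩ : ∃ s : ℝ, s = 6 * Real.sqrt (N * Real.log v) := ⟨_, rfl⟩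
      have hs2 : s ^ 2 = 36 * (N * Real.log v) := by
        rw [hs, mul_pow, Real.sq_sqrt (by positivity)]; norm_num
      have hs0 : 0 ≤ s := by rw [hs]; positivity
      rw [← hs]
      obtain ⟨t, ht⟩ : ∃ t : ℝ, t = s / (2 * N) := ⟨_, rfl⟩
      have ht0 : 0 ≤ t := by rw [ht]; positivity
      have ht1 : t ≤ 1 := by
        rw [ht, div_le_one (by positivity)]
        apply (sq_le_sq₀ hs0 (by positivity)).1
        rw [hs2]
        nlinarith
      obtain ⟨W, hW0, hW1, hW2⟩ := dev (V := V) h0 hS (fun n => vals L n) (Ico u v) (by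
        intro n hn
        rw [hV]
        exact (subset_biUnion_of_mem (fun n => vals L n) hn).trans
          (subset_biUnion_of_mem (fun κ : Finset (ℕ × ℕ) × (ℕ × ℕ) => (Ico κ.2.1 κ.2.2).biUnion fun n => vals κ.1 n) hκ))
        (DD L v) (fun n hn => by
          have := degree hsys hdeg hMu hn
          convert this using 2) t s ht0 ht1
      refine ⟨W, hW0, hW1, hW2.trans ?_⟩
      have hcard : ((#(Ico u v) : ℕ) : ℝ) = N := by
        rw [Nat.card_Ico, hN, Nat.cast_sub huv.le]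
      rw [hcard]
      have hexp : t ^ 2 * N - t * s = -(9 * Real.log v) := by
        have e1 : t ^ 2 * N - t * s = -(s ^ 2 / (4 * N)) := by
          rw [ht]; field_simp; ring
        rw [e1, hs2]
        field_simp
        ring
      have hexp2 : Real.exp (-(9 * Real.log v)) = ((v : ℝ) ^ 9)⁻¹ := by
        rw [Real.exp_neg]
        congr 1
        rw [show (9 : ℝ) * Real.log v = ((9 : ℕ) : ℝ) * Real.log v by norm_num, Real.exp_nat_mul,
          Real.exp_log (by linarith)]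
      rw [hexp, hexp2]
      have hDD : ((DD L v : ℝ) + 1) ≤ GG L * v := by exact_mod_cast DD_le L (by omega : 1 ≤ v)
      have hpow : (v : ℝ) * ((v : ℝ) ^ 9)⁻¹ ≤ ((v : ℝ) ^ 3)⁻¹ := by
        have e1 : (v : ℝ) * ((v : ℝ) ^ 9)⁻¹ = ((v : ℝ) ^ 8)⁻¹ := by field_simp
        rw [e1]
        apply inv_anti₀ (by positivity)
        exact pow_le_pow_right₀ hv1 (by norm_num)
      calc 2 * ((DD L v : ℝ) + 1) * ((v : ℝ) ^ 9)⁻¹ ≤ 2 * (GG L * v) * ((v : ℝ) ^ 9)⁻¹ := by
            apply mul_le_mul_of_nonneg_right _ (by positivity)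
            linarith
        _ = (2 * (GG L : ℝ)) * ((v : ℝ) * ((v : ℝ) ^ 9)⁻¹) := by ring
        _ ≤ _ := mul_le_mul_of_nonneg_left hpow (by positivity)
    choose! W hW0 hW1 hW2 using hW
    obtain ⟨A, _, h1, h2⟩ := choose_gen h0 hS V (cons2 M X)
      (fun κ A => ((DD κ.1 κ.2.2 : ℝ) + 1) * (6 * Real.sqrt (((κ.2.2 : ℝ) - κ.2.1) * Real.log κ.2.2)) ≤
          |cnt (fun n => vals κ.1 n) (Ico κ.2.1 κ.2.2) A - ∑ n ∈ Ico κ.2.1 κ.2.2, ch H a (vals κ.1 n)|)
      W (fun κ => (2 * (GG κ.1 : ℝ)) * ((κ.2.2 : ℝ) ^ 3)⁻¹) hW0 hW1 hW2 (sum_cons2 M X)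
    exact ⟨A, h1, h2⟩
  choose A hA1 hA2 using hfin
  refine ⟨{m | ∀ᶠ X in (hyperfilter ℕ : Filter ℕ), m ∈ A X}, ?_, ?_, ?_⟩
  · intro e he hsub
    have h1 : ∀ᶠ X in (hyperfilter ℕ : Filter ℕ), ∀ m ∈ e, m ∈ A X := by
      rw [Filter.eventually_all_finset]
      exact hsub
    obtain ⟨X, hX⟩ := h1.exists
    have h2 : Avoids H (A X) := by
      by_contra hcon
      have := hA1 X
      unfold ch at this
      rw [if_neg hcon] at this
      exact this rfl
    exact h2 e he hX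
  · intro m hm
    obtain ⟨X, hX⟩ := (show ∀ᶠ X in (hyperfilter ℕ : Filter ℕ), m ∈ A X from hm).exists
    intro hm0
    apply hA1 X
    unfold ch
    split_ifs
    · exact prod_eq_zero hX hm0
    · rfl
  · intro L hL u v hMu huv hthr hlen
    have h1 : ∀ m : ℕ, ∀ᶠ X in (hyperfilter ℕ : Filter ℕ),
        (m ∈ A X ↔ m ∈ {m | ∀ᶠ X in (hyperfilter ℕ : Filter ℕ), m ∈ A X}) := by
      intro m
      by_cases h : ∀ᶠ X in (hyperfilter ℕ : Filter ℕ), m ∈ A X
      · filter_upwards [h] with X hX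
        exact ⟨fun _ => h, fun _ => hX⟩
      · filter_upwards [Ultrafilter.eventually_not.2 h] with X hX
        exact ⟨fun h' => absurd h' hX, fun h' => absurd h' h⟩
    have h2 : ∀ᶠ X in (hyperfilter ℕ : Filter ℕ), ∀ m ∈ (Ico u v).biUnion (fun n => vals L n),
        (m ∈ A X ↔ m ∈ {m | ∀ᶠ X in (hyperfilter ℕ : Filter ℕ), m ∈ A X}) := by
      rw [Filter.eventually_all_finset]
      exact fun m _ => h1 m
    have h3 : ∀ᶠ X in (hyperfilter ℕ : Filter ℕ), max (Encodable.encode L) v < X := by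
      have : ∀ᶠ X in atTop, max (Encodable.encode L) v < X := eventually_gt_atTop _
      exact (Nat.cofinite_eq_atTop ▸ this).filter_mono hyperfilter_le_cofinite
    obtain ⟨X, hX2, hX3⟩ := (h2.and h3).exists
    have g1 := le_max_left (Encodable.encode L) v
    have g2 := le_max_right (Encodable.encode L) v
    have h4 := hA2 X (L, (u, v)) (mem_cons2.2 ⟨⟨by simp only; omega, by simp only; omega, by simp only; omega⟩,
      hL, hMu, huv, hthr, hlen⟩)
    simp only [not_le] at h4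
    refine le_of_eq_of_le ?_ h4.le
    congr 2
    unfold cnt
    rw [card_eq_sum_ones, Nat.cast_sum, sum_filter]
    apply sum_congr rfl
    intro n hn
    have h5 : (∀ m ∈ vals L n, m ∈ {m | ∀ᶠ X in (hyperfilter ℕ : Filter ℕ), m ∈ A X}) ↔ vals L n ⊆ A X := by
      constructor
      · intro h m hm
        exact (hX2 m (mem_biUnion.2 ⟨n, hn, hm⟩)).2 (h m hm)
      · intro h m hm
        exact (hX2 m (mem_biUnion.2 ⟨n, hn, hm⟩)).1 (h hm)
    by_cases h6 : vals L n ⊆ A X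
    · rw [if_pos h6, if_pos (h5.2 h6)]; norm_num
    · rw [if_neg h6, if_neg (fun h => h6 (h5.1 h))]

end

end Pool.Agent.U462.Sh
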