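import Pool.Agent.U462.Sh.Blk

/-!
# Sums of the sifted weights over windows, and partial summation
-/

set_option autoImplicit false

open Finset Filter Topology

namespace Pool.Agent.U462.Sh

/-- partial summation -/
lemma abel (u w : ℕ → ℝ) (y m0 : ℕ) (D : ℝ) (hD : ∀ m, m ≤ m0 → |∑ i ∈ range m, u (y + i)| ≤ D)
    (hw : ∀ n, y ≤ n → 0 ≤ w n) (hw1 : ∀ n, y ≤ n → w (n + 1) ≤ w n) :
    |∑ i ∈ range m0, u (y + i) * w (y + i)| ≤ D * w y := by
  have key : ∀ m, m ≤ m0 →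
      |∑ i ∈ range m, u (y + i) * w (y + i) - (∑ i ∈ range m, u (y + i)) * w (y + m)| ≤
      D * (w y - w (y + m)) := by
    intro m
    induction m with
    | zero => intro _; simp
    | succ m ih =>
      intro hm
      have e1 : ∑ i ∈ range (m + 1), u (y + i) * w (y + i) -
          (∑ i ∈ range (m + 1), u (y + i)) * w (y + (m + 1)) =
          (∑ i ∈ range m, u (y + i) * w (y + i) - (∑ i ∈ range m, u (y + i)) * w (y + m)) +
            (∑ i ∈ range (m + 1), u (y + i)) * (w (y + m) - w (y + (m + 1))) := by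
        rw [sum_range_succ, sum_range_succ]; ring
      rw [e1]
      have h1 : 0 ≤ w (y + m) - w (y + (m + 1)) := by
        have := hw1 (y + m) (by omega)
        rw [add_assoc] at this
        linarith
      calc _ ≤ |∑ i ∈ range m, u (y + i) * w (y + i) - (∑ i ∈ range m, u (y + i)) * w (y + m)| +
            |(∑ i ∈ range (m + 1), u (y + i)) * (w (y + m) - w (y + (m + 1)))| := abs_add_le _ _
        _ ≤ D * (w y - w (y + m)) + D * (w (y + m) - w (y + (m + 1))) := by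
          apply add_le_add (ih (by omega))
          rw [abs_mul, abs_of_nonneg h1]
          exact mul_le_mul_of_nonneg_right (hD _ hm) h1
        _ = _ := by ring
  have h2 := key m0 le_rfl
  have h3 : |(∑ i ∈ range m0, u (y + i)) * w (y + m0)| ≤ D * w (y + m0) := by
    rw [abs_mul, abs_of_nonneg (hw _ (by omega))]
    exact mul_le_mul_of_nonneg_right (hD _ le_rfl) (hw _ (by omega))
  calc |∑ i ∈ range m0, u (y + i) * w (y + i)| =
        |(∑ i ∈ range m0, u (y + i) * w (y + i) - (∑ i ∈ range m0, u (y + i)) * w (y + m0)) +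
          (∑ i ∈ range m0, u (y + i)) * w (y + m0)| := by ring_nf
    _ ≤ _ := abs_add_le _ _
    _ ≤ D * (w y - w (y + m0)) + D * w (y + m0) := add_le_add h2 h3
    _ = _ := by ring

open Classical in
/-- sums over windows in which only two levels occur -/
theorem window : ∃ C : ℕ, 1 ≤ C ∧ ∀ L : Finset (ℕ × ℕ), IsSystem L → ∀ 𝔖 : ℝ,
    (∀ t, P0 L ≤ t → series L t * (1 - (#L : ℝ) ^ 2 / t) ≤ 𝔖 ∧ 𝔖 ≤ series L t) →
    ∃ K : ℝ, 0 ≤ K ∧ ∀ (b J0 y t : ℕ), C * (#L + 1) ≤ b → P0 L ≤ 2 ^ 2 ^ J0 → 1 ≤ y → y ≤ t →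
    (∀ n, y ≤ n → n < t → ∀ l ∈ L, lev (l.1 * n + l.2) = J0 ∨ lev (l.1 * n + l.2) = J0 + 1) →
    |∑ n ∈ Ico y t, (∏ l ∈ L, sw (l.1 * n + l.2) - 𝔖)| ≤
      ((t : ℝ) - y) * (series L (P0 L) * ((1 / 2) ^ b + (#L : ℝ) ^ 2 / (2 ^ 2 ^ J0 : ℕ))) +
        2 ^ #L * (K * ((J0 : ℝ) + 3) * (2 ^ 2 ^ (J0 + 1)) ^ #L * ((2 ^ 2 ^ (J0 + 1)) ^ (C * b)) ^ 2) := by
  obtain ⟨C, hC, H⟩ := block
  refine ⟨C, hC, ?_⟩
  intro L hL 𝔖 h𝔖
  obtain ⟨K, hK, HK⟩ := H L hL 𝔖 h𝔖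
  refine ⟨K, hK, ?_⟩
  intro b J0 y t hb hJ hy hyt hlev
  obtain ⟨σ, hσ⟩ : ∃ σ : ℕ → Finset (ℕ × ℕ), σ = fun n => L.filter (fun l => lev (l.1 * n + l.2) = J0 + 1) :=
    ⟨_, rfl⟩
  have hσL : ∀ n, σ n ⊆ L := fun n => by rw [hσ]; exact filter_subset _ _
  have hmono : ∀ m n, y ≤ m → m ≤ n → n < t → σ m ⊆ σ n := by
    intro m n hm hmn hn l hl
    rw [hσ] at hl ⊢
    simp only [mem_filter] at hl ⊢
    refine ⟨hl.1, ?_⟩
    rcases hlev n (by omega) hn l hl.1 with h | h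
    · have h1 : lev (l.1 * m + l.2) ≤ lev (l.1 * n + l.2) := lev_mono (by gcongr)
      omega
    · exact h
  obtain ⟨E1, hE1⟩ : ∃ E1 : ℝ, E1 = series L (P0 L) * ((1 / 2) ^ b + (#L : ℝ) ^ 2 / (2 ^ 2 ^ J0 : ℕ)) := ⟨_, rfl⟩
  obtain ⟨E2, hE2⟩ : ∃ E2 : ℝ, E2 = K * ((J0 : ℝ) + 3) * (2 ^ 2 ^ (J0 + 1)) ^ #L * ((2 ^ 2 ^ (J0 + 1)) ^ (C * b)) ^ 2 :=
    ⟨_, rfl⟩
  rw [← hE1, ← hE2]
  rw [← sum_fiberwise_of_maps_to (s := Ico y t) (t := L.powerset) (g := σ)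
    (fun n _ => mem_powerset.2 (hσL n))]
  have hone : ∀ s ∈ L.powerset, |∑ n ∈ (Ico y t).filter (fun n => σ n = s),
      (∏ l ∈ L, sw (l.1 * n + l.2) - 𝔖)| ≤ (#((Ico y t).filter (fun n => σ n = s)) : ℝ) * E1 + E2 := by
    intro s hs
    rw [mem_powerset] at hs
    obtain ⟨n1, n2, h12, hI⟩ := convex_eq ((Ico y t).filter (fun n => σ n = s)) (by
      intro n hn
      rw [mem_filter, mem_Ico] at hn
      omega) (by
      intro a ha c hc d had hdc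
      rw [mem_filter, mem_Ico] at ha hc ⊢
      refine ⟨⟨by omega, by omega⟩, ?_⟩
      apply Subset.antisymm
      · rw [← hc.2]; exact hmono d c (by omega) hdc hc.1.2
      · rw [← ha.2]; exact hmono a d ha.1.1 had (by omega))
    have h1 := HK b J0 n1 n2 s hs hb hJ h12
    rw [← hE1, ← hE2] at h1
    have hcard : (#((Ico y t).filter (fun n => σ n = s)) : ℝ) = (n2 : ℝ) - n1 := by
      rw [hI, Nat.card_Ioc, Nat.cast_sub h12]
    have hval : ∀ n ∈ Ioc n1 n2, ∏ l ∈ L, sw (l.1 * n + l.2) =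
        if TT L s (2 ^ 2 ^ J0) (2 ^ 2 ^ (J0 + 1)) n then
          Wp (2 ^ 2 ^ (J0 + 1)) ^ #s * Wp (2 ^ 2 ^ J0) ^ #(L \ s) else 0 := by
      intro n hn
      rw [← hI, mem_filter, mem_Ico] at hn
      obtain ⟨⟨hn1, hn2⟩, hns⟩ := hn
      refine prod_sw hs (J0 := J0) (n := n) ?_ ?_
      · intro l hl
        rw [← hns, hσ] at hl
        exact (mem_filter.1 hl).2
      · intro l hl hls
        rcases hlev n hn1 hn2 l hl with h | h
        · exact h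
        · exact absurd (by rw [← hns, hσ]; exact mem_filter.2 ⟨hl, h⟩) hls
    have hsum : ∑ n ∈ (Ico y t).filter (fun n => σ n = s), (∏ l ∈ L, sw (l.1 * n + l.2) - 𝔖) =
        (NB L s (2 ^ 2 ^ J0) (2 ^ 2 ^ (J0 + 1)) n1 n2 : ℝ) *
        (Wp (2 ^ 2 ^ (J0 + 1)) ^ #s * Wp (2 ^ 2 ^ J0) ^ #(L \ s)) - ((n2 : ℝ) - n1) * 𝔖 := by
      rw [hI, sum_sub_distrib, sum_congr rfl hval, ← sum_filter, sum_const, sum_const, nsmul_eq_mul,
        nsmul_eq_mul, Nat.card_Ioc, Nat.cast_sub h12]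
      have hNB : NB L s (2 ^ 2 ^ J0) (2 ^ 2 ^ (J0 + 1)) n1 n2 =
          #((Ioc n1 n2).filter (fun n => TT L s (2 ^ 2 ^ J0) (2 ^ 2 ^ (J0 + 1)) n)) := by
        unfold NB TT
        congr
      rw [hNB]
    rw [hsum, hcard]
    exact h1
  have hcardsum : ∑ s ∈ L.powerset, (#((Ico y t).filter (fun n => σ n = s)) : ℝ) = (t : ℝ) - y := by
    have h1 := card_eq_sum_card_fiberwise (s := Ico y t) (t := L.powerset) (f := σ)
      (fun n _ => by rw [mem_coe, mem_powerset]; exact hσL n)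
    rw [Nat.card_Ico] at h1
    rw [← Nat.cast_sum, ← h1, Nat.cast_sub hyt]
  calc |∑ s ∈ L.powerset, ∑ n ∈ (Ico y t).filter (fun n => σ n = s), (∏ l ∈ L, sw (l.1 * n + l.2) - 𝔖)|
      ≤ ∑ s ∈ L.powerset, |∑ n ∈ (Ico y t).filter (fun n => σ n = s), (∏ l ∈ L, sw (l.1 * n + l.2) - 𝔖)| :=
        abs_sum_le_sum_abs _ _
    _ ≤ ∑ s ∈ L.powerset, ((#((Ico y t).filter (fun n => σ n = s)) : ℝ) * E1 + E2) := sum_le_sum hone
    _ = ((t : ℝ) - y) * E1 + 2 ^ #L * E2 := by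
        rw [sum_add_distrib, ← sum_mul, hcardsum, sum_const, card_powerset, nsmul_eq_mul]
        push_cast
        ring

end Pool.Agent.U462.Sh
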