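import Mathlib

/-!
# Random sets without forbidden configurations (after Shearer)

`H` is a family of forbidden finite sets of natural numbers, `a` the densities. The members of a set
which contains no forbidden set are chosen as if they were independent, and no forbidden set is ever
chosen.
-/

set_option autoImplicit false

open Finset

namespace Pool.Agent.U462.Sh

/-- `B` contains no forbidden set -/
def Avoids (H : Finset ℕ → Prop) (B : Finset ℕ) : Prop := ∀ e, H e → ¬ e ⊆ B

/-- `n` and `m` lie in a common forbidden set -/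
def Linked (H : Finset ℕ → Prop) (n m : ℕ) : Prop := ∃ e, H e ∧ n ∈ e ∧ m ∈ e

open Classical in
/-- the probability that all members of `B` are chosen -/
noncomputable def ch (H : Finset ℕ → Prop) (a : ℕ → ℝ) (B : Finset ℕ) : ℝ :=
  if Avoids H B then ∏ u ∈ B, a u else 0

open Classical in
/-- the partition function relative to `A` -/
noncomputable def ZA (H : Finset ℕ → Prop) (a : ℕ → ℝ) (A V : Finset ℕ) : ℝ :=
  ∑ B ∈ V.powerset, (-1 : ℝ) ^ B.card * (if Avoids H (A ∪ B) then ∏ u ∈ B, a u else 0)

open Classical in
/-- the weight of `A` as a subset of `V` -/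
noncomputable def muH (H : Finset ℕ → Prop) (a : ℕ → ℝ) (V A : Finset ℕ) : ℝ :=
  ∑ B ∈ V.powerset.filter (fun B => A ⊆ B), (-1 : ℝ) ^ (B \ A).card * ch H a B

section

variable {H : Finset ℕ → Prop} {a : ℕ → ℝ}

lemma Avoids.mono {A B : Finset ℕ} (h : Avoids H B) (hAB : A ⊆ B) : Avoids H A :=
  fun e he heA => h e he (heA.trans hAB)

lemma ch_empty (h0 : ¬ H ∅) : ch H a ∅ = 1 := by
  unfold ch
  rw [if_pos]
  · simp
  · intro e he h
    rw [subset_empty] at h
    exact h0 (h ▸ he)

lemma ch_nonneg (ha : ∀ n, 0 ≤ a n) (B : Finset ℕ) : 0 ≤ ch H a B := by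
  unfold ch
  split_ifs
  · exact prod_nonneg fun u _ => ha u
  · exact le_rfl

lemma ch_le_one (ha : ∀ n, 0 ≤ a n) (ha1 : ∀ n, a n ≤ 1) (B : Finset ℕ) : ch H a B ≤ 1 := by
  unfold ch
  split_ifs
  · exact prod_le_one (fun u _ => ha u) (fun u _ => ha1 u)
  · exact zero_le_one

/-- negative dependence -/
lemma ch_union_le (ha : ∀ n, 0 ≤ a n) {A B : Finset ℕ} (hd : Disjoint A B) :
    ch H a (A ∪ B) ≤ ch H a A * ch H a B := by
  classical
  by_cases h : Avoids H (A ∪ B)
  · unfold ch
    rw [if_pos h, if_pos (h.mono subset_union_left), if_pos (h.mono subset_union_right), prod_union hd]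
  · have : ch H a (A ∪ B) = 0 := by
      unfold ch
      rw [if_neg h]
    rw [this]
    exact mul_nonneg (ch_nonneg ha _) (ch_nonneg ha _)

lemma ZA_not {A : Finset ℕ} (h : ¬ Avoids H A) (V : Finset ℕ) : ZA H a A V = 0 := by
  classical
  unfold ZA
  apply sum_eq_zero
  intro B _
  rw [if_neg (fun h' => h (h'.mono subset_union_left)), mul_zero]

lemma ZA_empty {A : Finset ℕ} (h : Avoids H A) : ZA H a A ∅ = 1 := by
  classical
  unfold ZA
  simp [h]

/-- the recursion -/
lemma ZA_insert {n : ℕ} {V : Finset ℕ} (A : Finset ℕ) (hn : n ∉ V) :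
    ZA H a A (insert n V) = ZA H a A V - a n * ZA H a (insert n A) V := by
  classical
  unfold ZA
  rw [sum_powerset_insert hn, sub_eq_add_neg, mul_sum, ← sum_neg_distrib]
  congr 1
  apply sum_congr rfl
  intro B hB
  rw [mem_powerset] at hB
  have hnB : n ∉ B := fun h => hn (hB h)
  have e1 : A ∪ insert n B = insert n A ∪ B := by
    rw [union_insert, insert_union]
  rw [card_insert_of_notMem hnB, e1, prod_insert hnB]
  split_ifs
  · ring
  · ring

/-- sets without members linked to `n` -/
lemma ZA_local {n : ℕ} {A U : Finset ℕ} (hA : Avoids H (insert n A)) (hU : ∀ m ∈ U, ¬ Linked H n m) :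
    ZA H a (insert n A) U = ZA H a A U := by
  classical
  unfold ZA
  apply sum_congr rfl
  intro B hB
  rw [mem_powerset] at hB
  have : Avoids H (insert n A ∪ B) ↔ Avoids H (A ∪ B) := by
    constructor
    · intro h
      exact h.mono (union_subset_union_left (subset_insert _ _))
    · intro h e he hsub
      by_cases hne : n ∈ e
      · apply hA e he
        intro m hm
        rcases mem_union.1 (hsub hm) with h1 | h1
        · exact h1
        · exact absurd ⟨e, he, hne, hm⟩ (hU m (hB h1))
      · apply h e he
        intro m hm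
        rcases mem_union.1 (hsub hm) with h1 | h1
        · rcases mem_insert.1 h1 with h2 | h2
          · exact absurd (h2 ▸ hm) hne
          · exact mem_union_left _ h2
        · exact mem_union_right _ h1
  simp only [this]

/-- the condition on the weights -/
def SmallH (H : Finset ℕ → Prop) (a : ℕ → ℝ) : Prop :=
  ∀ n, 0 ≤ a n ∧ a n ≤ 1 / 4 ∧ (a n ≠ 0 → ∀ F : Finset ℕ, (∀ m ∈ F, Linked H n m) → ∑ m ∈ F, a m ≤ 1 / 4)

lemma prod_geH (F : Finset ℕ) (x : ℕ → ℝ) (hx : ∀ n, 0 ≤ x n) (hx1 : ∀ n, x n ≤ 1) :
    1 - ∑ m ∈ F, x m ≤ ∏ m ∈ F, (1 - x m) ∧ 0 ≤ ∏ m ∈ F, (1 - x m) ∧ ∏ m ∈ F, (1 - x m) ≤ 1 := by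
  classical
  induction F using Finset.induction_on with
  | empty => simp
  | insert n F hn ih =>
    rw [sum_insert hn, prod_insert hn]
    obtain ⟨h1, h2, h3⟩ := ih
    have h4 := hx n
    have h5 := hx1 n
    refine ⟨?_, mul_nonneg (by linarith) h2, mul_le_one₀ (by linarith) h2 h3⟩
    nlinarith

/-- positivity -/
theorem ZA_pos (hS : SmallH H a) : ∀ k : ℕ, ∀ V : Finset ℕ, V.card ≤ k → ∀ A : Finset ℕ, Avoids H A →
    0 < ZA H a A V ∧ ∀ n ∈ V, (1 - 2 * a n) * ZA H a A (V.erase n) ≤ ZA H a A V ∧
      ZA H a A V ≤ ZA H a A (V.erase n) := by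
  classical
  intro k
  induction k with
  | zero =>
    intro V hV A hA
    have : V = ∅ := by
      rw [← card_eq_zero]; omega
    subst this
    refine ⟨?_, fun n hn => by simp at hn⟩
    rw [ZA_empty hA]; exact zero_lt_one
  | succ k ih =>
    intro V hV A hA
    -- nonnegativity for smaller sets
    have nonneg : ∀ W : Finset ℕ, W.card ≤ k → ∀ A' : Finset ℕ, 0 ≤ ZA H a A' W := by
      intro W hW A'
      by_cases h : Avoids H A'
      · exact (ih W hW A' h).1.le
      · rw [ZA_not h]
    -- the chains for smaller sets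
    have chain : ∀ j : ℕ, ∀ W U : Finset ℕ, W.card = j → Disjoint W U → (U ∪ W).card ≤ k →
        ∀ A' : Finset ℕ, Avoids H A' →
        (∏ m ∈ W, (1 - 2 * a m)) * ZA H a A' U ≤ ZA H a A' (U ∪ W) ∧ ZA H a A' (U ∪ W) ≤ ZA H a A' U := by
      intro j
      induction j with
      | zero =>
        intro W U hW _ _ A' _
        rw [card_eq_zero] at hW
        subst hW
        simp
      | succ j ihj =>
        intro W U hW hd hc A' hA'
        obtain ⟨m, hm⟩ : W.Nonempty := by rw [← card_pos]; omega
        have h1 := ihj (W.erase m) U (by rw [card_erase_of_mem hm]; omega)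
          (hd.mono_left (erase_subset _ _))
          ((card_le_card (union_subset_union_right (erase_subset _ _))).trans hc) A' hA'
        have hmU : m ∉ U := fun h => (disjoint_left.1 hd) hm h
        have e1 : U ∪ W.erase m = (U ∪ W).erase m := by
          ext t
          simp only [mem_union, mem_erase]
          constructor
          · rintro (h | h)
            · exact ⟨fun h2 => hmU (h2 ▸ h), Or.inl h⟩
            · exact ⟨h.1, Or.inr h.2⟩
          · rintro ⟨h, h2 | h2⟩
            · exact Or.inl h2
            · exact Or.inr ⟨h, h2⟩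
        have h2 := (ih (U ∪ W) hc A' hA').2 m (mem_union_right _ hm)
        rw [← e1] at h2
        rw [← mul_prod_erase W _ hm, mul_assoc]
        have h3 := (hS m).2.1
        have h4 := (hS m).1
        constructor
        · calc (1 - 2 * a m) * ((∏ x ∈ W.erase m, (1 - 2 * a x)) * ZA H a A' U)
              ≤ (1 - 2 * a m) * ZA H a A' (U ∪ W.erase m) := by
                apply mul_le_mul_of_nonneg_left h1.1; linarith
            _ ≤ _ := h2.1
        · exact h2.2.trans h1.2
    have step : ∀ n ∈ V, (1 - 2 * a n) * ZA H a A (V.erase n) ≤ ZA H a A V ∧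
        ZA H a A V ≤ ZA H a A (V.erase n) := by
      intro n hn
      have hc : (V.erase n).card ≤ k := by rw [card_erase_of_mem hn]; omega
      have hpos := (ih (V.erase n) hc A hA).1
      have h1 := ZA_insert (H := H) (a := a) A (notMem_erase n V)
      rw [insert_erase hn] at h1
      rw [h1]
      have ha0 := (hS n).1
      have hnn := nonneg (V.erase n) hc (insert n A)
      refine ⟨?_, by have := mul_nonneg ha0 hnn; linarith⟩
      by_cases h0 : a n = 0
      · rw [h0]
        simp
      · by_cases hA2 : Avoids H (insert n A)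
        · have h2 := (hS n).2.2 h0
          obtain ⟨U, hU⟩ : ∃ U, U = (V.erase n).filter (fun m => ¬ Linked H n m) := ⟨_, rfl⟩
          obtain ⟨W, hW⟩ : ∃ W, W = (V.erase n).filter (fun m => Linked H n m) := ⟨_, rfl⟩
          have hUW : U ∪ W = V.erase n := by
            rw [hU, hW, union_comm, filter_union_filter_not_eq]
          have hdis : Disjoint W U := by
            rw [hU, hW]; exact disjoint_filter_filter_not _ _ _
          have h3 := (chain _ W U rfl hdis (by rw [hUW]; exact hc) A hA).1
          have h3' := (chain _ W U rfl hdis (by rw [hUW]; exact hc) (insert n A) hA2).2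
          rw [hUW] at h3 h3'
          rw [ZA_local (U := U) hA2 (fun m hm => by rw [hU] at hm; exact (mem_filter.1 hm).2)] at h3'
          have h4 := (prod_geH W (fun m => 2 * a m) (fun m => by have := (hS m).1; linarith)
            (fun m => by have := (hS m).2.1; linarith)).1
          have h5 := h2 W (fun m hm => by rw [hW] at hm; exact (mem_filter.1 hm).2)
          rw [← mul_sum] at h4
          have h6 : (1 : ℝ) / 2 ≤ ∏ m ∈ W, (1 - 2 * a m) := by linarith
          have hUpos := (ih U (by rw [hU]; exact (card_le_card (filter_subset _ _)).trans hc) A hA).1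
          have h7 : ZA H a A U ≤ 2 * ZA H a A (V.erase n) := by nlinarith
          have h9 : a n * ZA H a (insert n A) (V.erase n) ≤ a n * (2 * ZA H a A (V.erase n)) :=
            mul_le_mul_of_nonneg_left (h3'.trans h7) ha0
          linarith
        · rw [ZA_not hA2]
          have := mul_nonneg ha0 hpos.le
          linarith
    refine ⟨?_, step⟩
    rcases V.eq_empty_or_nonempty with h | ⟨n, hn⟩
    · subst h
      rw [ZA_empty hA]; exact zero_lt_one
    · have hc : (V.erase n).card ≤ k := by rw [card_erase_of_mem hn]; omega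
      have hpos := (ih (V.erase n) hc A hA).1
      have h1 := (step n hn).1
      have h3 := (hS n).2.1
      have h4 : 0 < (1 - 2 * a n) * ZA H a A (V.erase n) := mul_pos (by linarith) hpos
      linarith

end

end Pool.Agent.U462.Sh
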