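import Pool.Agent.U462.Sh.ZSing
import Pool.Agent.U462.Sh.Blk

/-!
# Sums of the sifted weights of systems with integer coefficients over intervals
-/

set_option autoImplicit false
set_option maxHeartbeats 1000000

open Finset Filter Topology

namespace Pool.Agent.U462.Sh

/-- the value of a form (`0` if it is negative) -/
def val (l : ℤ × ℤ) (n : ℕ) : ℕ := (l.1 * (n : ℤ) + l.2).toNat

lemma val_cast {l : ℤ × ℤ} {n : ℕ} (h : 0 ≤ l.1 * (n : ℤ) + l.2) : ((val l n : ℕ) : ℤ) = l.1 * (n : ℤ) + l.2 :=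
  Int.toNat_of_nonneg h

lemma mod_rts (s : Finset (ℤ × ℤ)) {p : ℕ} (hp : p.Prime) (n : ℕ) :
    n % p ∉ rts s p ↔ ∀ l ∈ s, ¬ (p : ℤ) ∣ l.1 * (n : ℤ) + l.2 := by
  have h1 : n % p < p := Nat.mod_lt _ hp.pos
  have h2 : ∀ l : ℤ × ℤ, (p : ℤ) ∣ l.1 * ((n % p : ℕ) : ℤ) + l.2 ↔ (p : ℤ) ∣ l.1 * (n : ℤ) + l.2 := by
    intro l
    have e1 : (n : ℤ) = (p : ℤ) * ((n / p : ℕ) : ℤ) + ((n % p : ℕ) : ℤ) := by
      exact_mod_cast (Nat.div_add_mod n p).symm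
    have e2 : l.1 * (n : ℤ) + l.2 = (p : ℤ) * (l.1 * ((n / p : ℕ) : ℤ)) + (l.1 * ((n % p : ℕ) : ℤ) + l.2) := by
      linear_combination l.1 * e1
    rw [e2]
    exact (dvd_add_right (dvd_mul_right _ _)).symm
  unfold rts
  rw [mem_filter, mem_range]
  constructor
  · intro h l hl h3
    exact h ⟨h1, l, hl, (h2 l).2 h3⟩
  · rintro h ⟨_, l, hl, h3⟩
    exact h l hl ((h2 l).1 h3)

/-- the forms which are sifted by `p` -/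
def act (L : Finset (ℤ × ℤ)) (lam : ℤ × ℤ → ℕ) (p : ℕ) : Finset (ℤ × ℤ) := L.filter fun l => p ≤ 2 ^ 2 ^ lam l

/-- the forbidden residues -/
def OmZ (L : Finset (ℤ × ℤ)) (lam : ℤ × ℤ → ℕ) (p : ℕ) : Finset ℕ := rts (act L lam p) p

/-- the sieve condition of a block -/
def TZ (L : Finset (ℤ × ℤ)) (lam : ℤ × ℤ → ℕ) (Z1 n : ℕ) : Prop := ∀ p ∈ primesUpTo Z1, n % p ∉ OmZ L lam p

lemma act_subset (L : Finset (ℤ × ℤ)) (lam : ℤ × ℤ → ℕ) (p : ℕ) : act L lam p ⊆ L := filter_subset _ _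

open Classical in
/-- the product of the sifted weights in a block -/
lemma prod_swZ {L : Finset (ℤ × ℤ)} {lam : ℤ × ℤ → ℕ} {Z1 n : ℕ} (hpos : ∀ l ∈ L, 0 ≤ l.1 * (n : ℤ) + l.2)
    (hlev : ∀ l ∈ L, lev (val l n) = lam l) (hZ : ∀ l ∈ L, 2 ^ 2 ^ lam l ≤ Z1) :
    ∏ l ∈ L, sw (val l n) = if TZ L lam Z1 n then ∏ l ∈ L, Wp (2 ^ 2 ^ lam l) else 0 := by
  by_cases hT : TZ L lam Z1 n
  · rw [if_pos hT]
    apply prod_congr rfl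
    intro l hl
    have hsf : Sifted (val l n) := by
      intro p hp hpz hd
      rw [hlev l hl] at hpz
      have h3 := hT p (mem_primes.2 ⟨hp, hpz.trans (hZ l hl)⟩)
      unfold OmZ at h3
      rw [mod_rts _ hp] at h3
      apply h3 l (mem_filter.2 ⟨hl, hpz⟩)
      rw [← val_cast (hpos l hl)]
      exact_mod_cast hd
    unfold sw
    rw [if_pos hsf, hlev l hl]
  · rw [if_neg hT]
    unfold TZ at hT
    push Not at hT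
    obtain ⟨p, hp, hpr⟩ := hT
    rw [mem_primes] at hp
    obtain ⟨l, hl, hlv, hd⟩ : ∃ l ∈ L, p ≤ 2 ^ 2 ^ lam l ∧ p ∣ val l n := by
      by_contra hcon
      push Not at hcon
      unfold OmZ at hpr
      refine (mod_rts _ hp.1 n).2 (fun l hl hdv => ?_) hpr
      unfold act at hl
      rw [mem_filter] at hl
      apply hcon l hl.1 hl.2
      rw [← val_cast (hpos l hl.1)] at hdv
      exact_mod_cast hdv
    apply prod_eq_zero hl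
    unfold sw
    rw [if_neg]
    intro hsf
    refine hsf p hp.1 ?_ hd
    rw [hlev l hl]
    exact hlv

lemma prod_idZ {L : Finset (ℤ × ℤ)} {lam : ℤ × ℤ → ℕ} {Z0 Z1 : ℕ} (h01 : Z0 ≤ Z1)
    (h0 : ∀ l ∈ L, Z0 ≤ 2 ^ 2 ^ lam l) (h1 : ∀ l ∈ L, 2 ^ 2 ^ lam l ≤ Z1) :
    (∏ p ∈ primesUpTo Z1, (1 - (#(OmZ L lam p) : ℝ) / p)) * ∏ l ∈ L, Wp (2 ^ 2 ^ lam l) =
      ser L Z0 * ∏ p ∈ (Ioc Z0 Z1).filter Nat.Prime, phi #(OmZ L lam p) #(act L lam p) p := by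
  classical
  have hΩ : ∏ l ∈ L, Wp (2 ^ 2 ^ lam l) = ∏ p ∈ primesUpTo Z1, ((1 - 1 / (p : ℝ))⁻¹) ^ #(act L lam p) := by
    have e1 : ∀ l ∈ L, Wp (2 ^ 2 ^ lam l) =
        ∏ p ∈ primesUpTo Z1, (if p ≤ 2 ^ 2 ^ lam l then (1 - 1 / (p : ℝ))⁻¹ else 1) := by
      intro l hl
      rw [← prod_filter]
      unfold Wp
      apply prod_congr _ fun _ _ => rfl
      ext p
      rw [mem_filter, mem_primes, mem_primes]
      constructor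
      · rintro ⟨h2, h3⟩; exact ⟨⟨h2, h3.trans (h1 l hl)⟩, h3⟩
      · rintro ⟨⟨h2, _⟩, h3⟩; exact ⟨h2, h3⟩
    rw [prod_congr rfl e1, Finset.prod_comm]
    apply prod_congr rfl
    intro p _
    rw [← prod_filter, prod_const]
    rfl
  rw [hΩ, ← prod_mul_distrib]
  have e2 : ∏ p ∈ primesUpTo Z1, ((1 - (#(OmZ L lam p) : ℝ) / p) * ((1 - 1 / (p : ℝ))⁻¹) ^ #(act L lam p)) =
      ∏ p ∈ primesUpTo Z1, phi #(OmZ L lam p) #(act L lam p) p := by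
    apply prod_congr rfl
    intro p _
    unfold phi
    rw [inv_pow, ← div_eq_mul_inv]
  rw [e2, (primes_split h01).1, prod_union (primes_split h01).2]
  congr 1
  unfold ser
  apply prod_congr rfl
  intro p hp
  have hpZ := (mem_primes.1 hp).2
  have e3 : act L lam p = L := by
    unfold act
    rw [filter_eq_self]
    intro l hl
    exact hpZ.trans (h0 l hl)
  unfold phi OmZ
  rw [e3]

/-- the number of the `n` in an interval which satisfy the sieve condition of a block -/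
def NBZ (L : Finset (ℤ × ℤ)) (lam : ℤ × ℤ → ℕ) (Z1 n1 n2 : ℕ) : ℕ :=
  #((Ioc n1 n2).filter (fun n => ∀ p ∈ primesUpTo Z1, n % p ∉ OmZ L lam p))

/-- one block -/
theorem blockZ : ∃ C : ℕ, 1 ≤ C ∧ ∀ k : ℕ, ∃ K : ℝ, 0 ≤ K ∧ ∀ L : Finset (ℤ × ℤ), IsSys L → #L = k → ∀ 𝔖 : ℝ,
    (∀ t, 2 * #L + 1 ≤ t → ser L t * (1 - (#L : ℝ) ^ 2 / t) ≤ 𝔖 ∧
      𝔖 ≤ ser L t * Real.exp (2 * #L * #(badp L) / t)) →
    ∀ (lam : ℤ × ℤ → ℕ) (b J0 J1 n1 n2 : ℕ), (∀ l ∈ L, J0 ≤ lam l ∧ lam l ≤ J1) → J0 ≤ J1 → C * (k + 1) ≤ b →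
    2 * k + 1 ≤ 2 ^ 2 ^ J0 → 2 * k * #(badp L) ≤ 2 ^ 2 ^ J0 → n1 ≤ n2 →
    |(NBZ L lam (2 ^ 2 ^ J1) n1 n2 : ℝ) * ∏ l ∈ L, Wp (2 ^ 2 ^ lam l) - ((n2 : ℝ) - n1) * 𝔖| ≤
      ((n2 : ℝ) - n1) * (Wp (2 ^ 2 ^ J0) ^ k * (3 * (1 / 2) ^ b +
        (4 * k * #(badp L) + (k : ℝ) ^ 2) / (2 ^ 2 ^ J0 : ℕ))) +
        K * ((J1 : ℝ) + 2) * (2 ^ 2 ^ J1) ^ k * ((2 ^ 2 ^ J1) ^ (C * b)) ^ 2 := by
  obtain ⟨C, hC, Hf⟩ := fund
  refine ⟨C, hC, ?_⟩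
  intro k
  obtain ⟨K, hK, HK⟩ := Hf k
  refine ⟨K, hK, ?_⟩
  intro L hL hk 𝔖 h𝔖 lam b J0 J1 n1 n2 hlam hJ01 hb hJ hbad h12
  have h01 : 2 ^ 2 ^ J0 ≤ 2 ^ 2 ^ J1 :=
    Nat.pow_le_pow_right (by norm_num) (Nat.pow_le_pow_right (by norm_num) hJ01)
  have hZ0 : ∀ l ∈ L, 2 ^ 2 ^ J0 ≤ 2 ^ 2 ^ lam l := fun l hl =>
    Nat.pow_le_pow_right (by norm_num) (Nat.pow_le_pow_right (by norm_num) (hlam l hl).1)
  have hZ1 : ∀ l ∈ L, 2 ^ 2 ^ lam l ≤ 2 ^ 2 ^ J1 := fun l hl =>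
    Nat.pow_le_pow_right (by norm_num) (Nat.pow_le_pow_right (by norm_num) (hlam l hl).2)
  have hOm : ∀ p : ℕ, p.Prime → #(OmZ L lam p) ≤ #(act L lam p) := fun p hp =>
    rts_card_le hL (act_subset L lam p) p hp
  have hact : ∀ p : ℕ, #(act L lam p) ≤ k := fun p => by
    rw [← hk]; exact card_le_card (act_subset L lam p)
  have h1 := HK b J1 n1 n2 (primesUpTo (2 ^ 2 ^ J1)) (OmZ L lam) hb h12
    (fun p hp => mem_primes.1 hp) (fun p _ => rts_subset _ p)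
    (fun p hp => (hOm p (mem_primes.1 hp).1).trans (hact p))
  obtain ⟨N, hN⟩ : ∃ N : ℝ, N = (NBZ L lam (2 ^ 2 ^ J1) n1 n2 : ℝ) := ⟨_, rfl⟩
  obtain ⟨V, hV⟩ : ∃ V : ℝ, V = ∏ p ∈ primesUpTo (2 ^ 2 ^ J1), (1 - (#(OmZ L lam p) : ℝ) / p) := ⟨_, rfl⟩
  obtain ⟨ω, hω⟩ : ∃ ω : ℝ, ω = ∏ l ∈ L, Wp (2 ^ 2 ^ lam l) := ⟨_, rfl⟩
  have hid := prod_idZ h01 hZ0 hZ1
  rw [← hV] at h1
  replace h1 : |N - ((n2 : ℝ) - n1) * V| ≤ (1 / 2) ^ b * (((n2 : ℝ) - n1) * V) +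
      K * ((J1 : ℝ) + 2) * ((2 ^ 2 ^ J1) ^ (C * b)) ^ 2 := by
    rw [hN]; exact h1
  rw [← hN, ← hω]
  rw [← hV, ← hω] at hid
  have hω0 : 0 ≤ ω := by
    rw [hω]
    exact prod_nonneg fun l _ => (Wp_pos _).le
  have hωle : ω ≤ (2 ^ 2 ^ J1) ^ k := by
    rw [hω, ← hk, ← prod_const]
    apply prod_le_prod (fun l _ => (Wp_pos _).le)
    intro l hl
    have g1 := Wp_le (2 ^ 2 ^ J1) Nat.one_le_two_pow
    push_cast at g1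
    exact (Wp_mono (hZ1 l hl)).trans g1
  obtain ⟨B, hB⟩ : ∃ B : ℝ, B = Wp (2 ^ 2 ^ J0) ^ k := ⟨_, rfl⟩
  obtain ⟨Z, hZ⟩ : ∃ Z : ℕ, Z = 2 ^ 2 ^ J0 := ⟨_, rfl⟩
  have hZpos : 1 ≤ Z := by rw [hZ]; exact Nat.one_le_two_pow
  have hZR : (1 : ℝ) ≤ Z := by exact_mod_cast hZpos
  have hSB : ser L Z ≤ B := by rw [hB, hZ, ← hk]; exact ser_le L _
  have hS0 := ser_nonneg L Z
  rw [← hZ] at hid hJ hbad
  obtain ⟨f1, f2, f3⟩ := prod_phi k Z (2 ^ 2 ^ J1) (by omega) hZpos (fun p => #(OmZ L lam p))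
    (fun p => #(act L lam p)) ((Ioc Z (2 ^ 2 ^ J1)).filter Nat.Prime) (badp L) (filter_subset _ _)
    (fun p hp => hOm p (mem_filter.1 hp).2) (fun p _ => hact p) (by
      intro p hp hpB
      have hpp := (mem_filter.1 hp).2
      exact rts_card (act_subset L lam p) p hpp (fun h' => hpB ((mem_badp hL hpp).2 h')))
  obtain ⟨F, hF⟩ : ∃ F : ℝ, F = ∏ p ∈ (Ioc Z (2 ^ 2 ^ J1)).filter Nat.Prime,
    phi #(OmZ L lam p) #(act L lam p) p := ⟨_, rfl⟩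
  rw [← hF] at f1 f2 f3 hid
  obtain ⟨g1, g2⟩ := h𝔖 Z (by omega)
  rw [hk] at g1 g2
  obtain ⟨q, hq⟩ : ∃ q : ℝ, q = (k : ℝ) ^ 2 / Z := ⟨_, rfl⟩
  rw [← hq] at f1 g1
  have hq0 : 0 ≤ q := by rw [hq]; positivity
  obtain ⟨x, hx⟩ : ∃ x : ℝ, x = 2 * k * #(badp L) / Z := ⟨_, rfl⟩
  rw [← hx] at f3 g2
  have hx0 : 0 ≤ x := by rw [hx]; positivity
  have hx1 : x ≤ 1 := by
    rw [hx, div_le_one (by linarith)]
    exact_mod_cast hbad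
  have hE : Real.exp x ≤ 1 + 2 * x := by
    have h5 := Real.abs_exp_sub_one_sub_id_le (by rw [abs_of_nonneg hx0]; exact hx1 : |x| ≤ 1)
    have h6 := (abs_le.1 h5).2
    nlinarith
  have hVω : V * ω ≤ 3 * B ∧ |V * ω - 𝔖| ≤ B * (2 * x + q) := by
    rw [hid]
    have k0 : F ≤ 1 + 2 * x := f3.trans hE
    have k1 : ser L Z * F ≤ ser L Z * (1 + 2 * x) := mul_le_mul_of_nonneg_left k0 hS0
    have k2 : ser L Z * (1 - q) ≤ ser L Z * F := mul_le_mul_of_nonneg_left f1 hS0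
    have k3 : ser L Z * (2 * x + q) ≤ B * (2 * x + q) := mul_le_mul_of_nonneg_right hSB (by positivity)
    have k4 : 𝔖 ≤ ser L Z * (1 + 2 * x) := g2.trans (mul_le_mul_of_nonneg_left hE hS0)
    have k5 : ser L Z * (1 + 2 * x) ≤ B * 3 := mul_le_mul hSB (by linarith) (by linarith) (hS0.trans hSB)
    refine ⟨by linarith, ?_⟩
    rw [abs_le]
    constructor <;> nlinarith
  have hd0 : (0 : ℝ) ≤ (n2 : ℝ) - n1 := by
    rw [sub_nonneg]; exact_mod_cast h12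
  obtain ⟨R, hR⟩ : ∃ R : ℝ, R = K * ((J1 : ℝ) + 2) * ((2 ^ 2 ^ J1) ^ (C * b)) ^ 2 := ⟨_, rfl⟩
  rw [← hR] at h1
  have hR0 : 0 ≤ R := by rw [hR]; positivity
  have e1 : N * ω - ((n2 : ℝ) - n1) * 𝔖 = (N - ((n2 : ℝ) - n1) * V) * ω + ((n2 : ℝ) - n1) * (V * ω - 𝔖) := by
    ring
  have hpw : (0 : ℝ) ≤ (1 / 2) ^ b := by positivity
  have k1 : |(N - ((n2 : ℝ) - n1) * V) * ω| ≤ ((n2 : ℝ) - n1) * (3 * B * (1 / 2) ^ b) + R * (2 ^ 2 ^ J1) ^ k := by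
    rw [abs_mul, abs_of_nonneg hω0]
    calc |N - ((n2 : ℝ) - n1) * V| * ω ≤ ((1 / 2) ^ b * (((n2 : ℝ) - n1) * V) + R) * ω :=
          mul_le_mul_of_nonneg_right h1 hω0
      _ = ((n2 : ℝ) - n1) * ((V * ω) * (1 / 2) ^ b) + R * ω := by ring
      _ ≤ _ := add_le_add (mul_le_mul_of_nonneg_left (mul_le_mul_of_nonneg_right hVω.1 hpw) hd0)
            (mul_le_mul_of_nonneg_left hωle hR0)
  have k2 : |((n2 : ℝ) - n1) * (V * ω - 𝔖)| ≤ ((n2 : ℝ) - n1) * (B * (2 * x + q)) := by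
    rw [abs_mul, abs_of_nonneg hd0]
    exact mul_le_mul_of_nonneg_left hVω.2 hd0
  rw [e1, ← hB, ← hZ]
  refine (abs_add_le _ _).trans ((add_le_add k1 k2).trans (le_of_eq ?_))
  rw [hR, hx, hq]
  ring

end Pool.Agent.U462.Sh
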