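import Pool.Agent.U462.Sh.ZBlk
import Pool.Agent.U462.Sh.Stat

/-!
# Infinite sets with small deviations for all systems, uniformly
-/

set_option autoImplicit false
set_option maxHeartbeats 1000000

open Finset Filter Topology

namespace Pool.Agent.U462.Sh

section

variable {H : Finset ℕ → Prop} {a : ℕ → ℝ}

/-- the values of the forms of `L` at `n` -/
def valsZ (L : Finset (ℤ × ℤ)) (n : ℕ) : Finset ℕ := L.image fun l => val l n

/-- the coefficients of the forms are at most `X` -/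
def InBox (L : Finset (ℤ × ℤ)) (X : ℕ) : Prop := ∀ l ∈ L, |l.1| ≤ X ∧ |l.2| ≤ X

open Classical in
/-- the `n` for which all values are at least `M` -/
noncomputable def IZ (M : ℕ) (L : Finset (ℤ × ℤ)) (u v : ℕ) : Finset ℕ :=
  (Ico u v).filter fun n => ∀ l ∈ L, M ≤ val l n

lemma mem_IZ {M : ℕ} {L : Finset (ℤ × ℤ)} {u v n : ℕ} : n ∈ IZ M L u v ↔
    (u ≤ n ∧ n < v) ∧ ∀ l ∈ L, M ≤ val l n := by
  classical
  unfold IZ
  rw [mem_filter, mem_Ico]

lemma val_pos_cast {l : ℤ × ℤ} {n : ℕ} (h : 1 ≤ val l n) : ((val l n : ℕ) : ℤ) = l.1 * (n : ℤ) + l.2 := by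
  apply val_cast
  by_contra hcon
  push Not at hcon
  have : val l n = 0 := by
    unfold val
    exact Int.toNat_of_nonpos hcon.le
  omega

lemma val_inj {L : Finset (ℤ × ℤ)} (hL : IsSys L) {l : ℤ × ℤ} (hl : l ∈ L) {m n : ℕ} (hm : 1 ≤ val l m)
    (h : val l m = val l n) : m = n := by
  have e1 := val_pos_cast hm
  have e2 := val_pos_cast (by rw [← h]; exact hm : 1 ≤ val l n)
  rw [h, e2] at e1
  have h2 : l.1 * (n : ℤ) = l.1 * (m : ℤ) := by linarith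
  have h3 := mul_left_cancel₀ (hL.1 l hl).1 h2
  exact_mod_cast h3.symm

lemma val_le {L : Finset (ℤ × ℤ)} {X : ℕ} (hbox : InBox L X) {l : ℤ × ℤ} (hl : l ∈ L) {n : ℕ} (hn : n < X) :
    val l n ≤ 2 * X ^ 2 := by
  by_cases h0 : 0 ≤ l.1 * (n : ℤ) + l.2
  · have e1 := val_cast h0
    have h1 : ((val l n : ℕ) : ℤ) ≤ 2 * (X : ℤ) ^ 2 := by
      rw [e1]
      obtain ⟨h2, h3⟩ := hbox l hl
      have h4 : (n : ℤ) ≤ X := by exact_mod_cast hn.le
      have h5 : l.1 * (n : ℤ) ≤ X * X := by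
        calc l.1 * (n : ℤ) ≤ |l.1| * n := mul_le_mul_of_nonneg_right (le_abs_self _) (by positivity)
          _ ≤ X * X := mul_le_mul h2 h4 (by positivity) (by positivity)
      have h6 : l.2 ≤ X := (le_abs_self _).trans h3
      have h7 : (1 : ℤ) ≤ X := by exact_mod_cast (by omega : 1 ≤ X)
      nlinarith
    exact_mod_cast h1
  · have : val l n = 0 := by
      unfold val
      exact Int.toNat_of_nonpos (by push Not at h0; exact h0.le)
    omega

open Classical in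
lemma overlapZ {L : Finset (ℤ × ℤ)} (hL : IsSys L) {M u v : ℕ} (hM : 1 ≤ M) (n : ℕ) :
    #((IZ M L u v).filter (fun n' => ¬ Disjoint (valsZ L n) (valsZ L n'))) ≤ #L ^ 2 := by
  have h1 : (IZ M L u v).filter (fun n' => ¬ Disjoint (valsZ L n) (valsZ L n')) ⊆
      (L ×ˢ L).biUnion fun q => (IZ M L u v).filter fun n' => val q.2 n' = val q.1 n := by
    intro n' hn'
    rw [mem_filter, not_disjoint_iff] at hn'
    obtain ⟨hI, x, hu1, hu2⟩ := hn'
    unfold valsZ at hu1 hu2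
    rw [mem_image] at hu1 hu2
    obtain ⟨l, hl, hlu⟩ := hu1
    obtain ⟨l', hl', hlu'⟩ := hu2
    rw [mem_biUnion]
    refine ⟨(l, l'), mem_product.2 ⟨hl, hl'⟩, mem_filter.2 ⟨hI, ?_⟩⟩
    simp only
    rw [hlu, hlu']
  refine (card_le_card h1).trans ((card_biUnion_le_card_mul _ _ 1 ?_).trans ?_)
  · intro q hq
    rw [mem_product] at hq
    rw [card_le_one]
    intro m hm m' hm'
    rw [mem_filter] at hm hm'
    exact val_inj hL hq.2 (hM.trans ((mem_IZ.1 hm.1).2 _ hq.2)) (hm.2.trans hm'.2.symm)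
  · rw [mul_one, card_product, sq]

/-- the bound for the degrees -/
noncomputable def DDZ (k X : ℕ) : ℕ := k ^ 2 + k ^ 2 * ⌊Real.sqrt (Real.log ((2 * X ^ 2 : ℕ) : ℝ))⌋₊

open Classical in
lemma degreeZ {L : Finset (ℤ × ℤ)} (hL : IsSys L) {M X : ℕ} (hM : 1 ≤ M) (hbox : InBox L X)
    (hdeg : ∀ x : ℕ, M ≤ x → ∀ (T : ℕ) (F : Finset ℕ), (∀ y ∈ F, M ≤ y ∧ y ≤ T ∧ Linked H x y) →
      (#F : ℝ) ≤ Real.sqrt (Real.log T)) {u v n : ℕ} (hvX : v ≤ X) (hn : n ∈ IZ M L u v) :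
    #((IZ M L u v).filter (fun m => m ≠ n ∧ ¬ Sep H (valsZ L n) (valsZ L m))) ≤ DDZ #L X := by
  obtain ⟨Y, hY⟩ : ∃ Y : ℤ × ℤ → Finset ℕ, Y = fun l => (range (2 * X ^ 2 + 1)).filter
    (fun y => M ≤ y ∧ Linked H (val l n) y) := ⟨_, rfl⟩
  have hYcard : ∀ l ∈ L, #(Y l) ≤ ⌊Real.sqrt (Real.log ((2 * X ^ 2 : ℕ) : ℝ))⌋₊ := by
    intro l hl
    apply Nat.le_floor
    apply hdeg (val l n) ((mem_IZ.1 hn).2 l hl) (2 * X ^ 2)
    intro y hy
    rw [hY] at hy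
    rw [mem_filter, mem_range] at hy
    exact ⟨hy.2.1, by omega, hy.2.2⟩
  have hsub : (IZ M L u v).filter (fun m => m ≠ n ∧ ¬ Sep H (valsZ L n) (valsZ L m)) ⊆
      (IZ M L u v).filter (fun m => ¬ Disjoint (valsZ L n) (valsZ L m)) ∪
        L.biUnion fun l => (Y l).biUnion fun y => L.biUnion fun l' =>
          (IZ M L u v).filter fun m => val l' m = y := by
    intro m hm
    rw [mem_filter] at hm
    obtain ⟨hmI, _, hsep⟩ := hm
    rw [mem_union]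
    by_cases hd : Disjoint (valsZ L n) (valsZ L m)
    · right
      unfold Sep at hsep
      push Not at hsep
      obtain ⟨x, hx, y, hy, hxy⟩ := hsep hd
      unfold valsZ at hx hy
      obtain ⟨l, hl, rfl⟩ := mem_image.1 hx
      obtain ⟨l', hl', rfl⟩ := mem_image.1 hy
      rw [mem_biUnion]
      refine ⟨l, hl, ?_⟩
      rw [mem_biUnion]
      obtain ⟨hm1, hm2⟩ := mem_IZ.1 hmI
      refine ⟨val l' m, ?_, ?_⟩
      · rw [hY]
        rw [mem_filter, mem_range]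
        exact ⟨Nat.lt_succ_of_le (val_le hbox hl' (by omega)), hm2 l' hl', hxy⟩
      · rw [mem_biUnion]
        exact ⟨l', hl', mem_filter.2 ⟨hmI, rfl⟩⟩
    · left
      exact mem_filter.2 ⟨hmI, hd⟩
  refine (card_le_card hsub).trans ((card_union_le _ _).trans ?_)
  unfold DDZ
  apply Nat.add_le_add (overlapZ hL hM n)
  rw [sq, mul_assoc]
  apply card_biUnion_le_card_mul
  intro l hl
  refine (card_biUnion_le_card_mul _ _ #L ?_).trans ?_
  · intro y _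
    refine (card_biUnion_le_card_mul _ _ 1 ?_).trans (by rw [mul_one])
    intro l' hl'
    rw [card_le_one]
    intro m hm m' hm'
    rw [mem_filter] at hm hm'
    exact val_inj hL hl' (hM.trans ((mem_IZ.1 hm.1).2 _ hl')) (hm.2.trans hm'.2.symm)
  · rw [mul_comm]
    exact Nat.mul_le_mul_left _ (hYcard l hl)

lemma DDZ_le (k : ℕ) {X : ℕ} (hX : 1 ≤ X) : DDZ k X + 1 ≤ (1 + 3 * k ^ 2) * X := by
  have h1 : ⌊Real.sqrt (Real.log ((2 * X ^ 2 : ℕ) : ℝ))⌋₊ ≤ 2 * X := by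
    apply Nat.floor_le_of_le
    rw [Real.sqrt_le_left (by positivity)]
    have hXR : (1 : ℝ) ≤ X := by exact_mod_cast hX
    have := Real.log_le_sub_one_of_pos (by positivity : (0 : ℝ) < ((2 * X ^ 2 : ℕ) : ℝ))
    push_cast at this ⊢
    nlinarith
  unfold DDZ
  have h2 := Nat.mul_le_mul_left (k ^ 2) h1
  have h3 : (1 + 3 * k ^ 2) * X = X + k ^ 2 * X + k ^ 2 * (2 * X) := by ring
  have h4 : k ^ 2 * 1 ≤ k ^ 2 * X := Nat.mul_le_mul_left _ hX
  rw [h3]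
  omega

/-- the bound from which the constraints start -/
def thr3 (k : ℕ) : ℕ := 2 * (1 + 3 * k ^ 2) * 2 ^ (k + 2)

/-- the box of the coefficients -/
noncomputable def box (X : ℕ) : Finset (ℤ × ℤ) := Icc (-(X : ℤ)) X ×ˢ Icc (-(X : ℤ)) X

lemma card_box (X : ℕ) : #(box X) = (2 * X + 1) ^ 2 := by
  unfold box
  rw [card_product, Int.card_Icc, sq]
  have : ((X : ℤ) + 1 - -(X : ℤ)).toNat = 2 * X + 1 := by omega
  rw [this]

lemma subset_box {L : Finset (ℤ × ℤ)} {X : ℕ} (h : InBox L X) : L ⊆ box X := by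
  intro l hl
  obtain ⟨h1, h2⟩ := h l hl
  unfold box
  rw [mem_product, mem_Icc, mem_Icc]
  rw [abs_le] at h1 h2
  exact ⟨h1, h2⟩

open Classical in
/-- the finitely many constraints up to `T` -/
noncomputable def cons3 (M T : ℕ) : Finset (Σ _ : ℕ × ℕ, Finset (ℤ × ℤ) × (ℕ × ℕ)) :=
  (range T ×ˢ range T).sigma fun kX =>
    ((((box kX.2).powersetCard kX.1) ×ˢ (range (kX.2 + 1) ×ˢ range (kX.2 + 1))).filter fun κ =>
      IsSys κ.1 ∧ InBox κ.1 kX.2 ∧ κ.2.1 < κ.2.2 ∧ thr3 kX.1 < kX.2 ∧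
      (4 * (kX.1 : ℝ) + 8) * Real.log kX.2 ≤ (κ.2.2 : ℝ) - κ.2.1)

lemma mem_cons3 {M T k X : ℕ} {L : Finset (ℤ × ℤ)} {u v : ℕ} :
    (⟨(k, X), (L, (u, v))⟩ : Σ _ : ℕ × ℕ, Finset (ℤ × ℤ) × (ℕ × ℕ)) ∈ cons3 M T ↔
    (k < T ∧ X < T) ∧ ((L ⊆ box X ∧ #L = k) ∧ u ≤ X ∧ v ≤ X) ∧ IsSys L ∧ InBox L X ∧ u < v ∧ thr3 k < X ∧
      (4 * (k : ℝ) + 8) * Real.log X ≤ (v : ℝ) - u := by
  classical
  unfold cons3
  rw [mem_sigma, mem_product, mem_range, mem_range, mem_filter, mem_product, mem_product, mem_powersetCard,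
    mem_range, mem_range]
  simp only [Nat.lt_succ_iff]

lemma sum_cons3 (M T : ℕ) : ∑ κ ∈ cons3 M T, (2 * (1 + 3 * (κ.1.1 : ℝ) ^ 2) * κ.1.2) * ((κ.1.2 : ℝ) ^ (4 * κ.1.1 + 8))⁻¹ < 1 := by
  classical
  have hone : ∀ k : ℕ, ∀ X : ℕ, ∑ κ ∈ (((box X).powersetCard k) ×ˢ (range (X + 1) ×ˢ range (X + 1))).filter
      (fun κ => IsSys κ.1 ∧ InBox κ.1 X ∧ κ.2.1 < κ.2.2 ∧ thr3 k < X ∧
        (4 * (k : ℝ) + 8) * Real.log X ≤ (κ.2.2 : ℝ) - κ.2.1),
        (2 * (1 + 3 * (k : ℝ) ^ 2) * X) * ((X : ℝ) ^ (4 * k + 8))⁻¹ ≤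
      if thr3 k < X then (2 * (1 + 3 * (k : ℝ) ^ 2)) * ((X : ℝ) ^ 2)⁻¹ else 0 := by
    intro k X
    by_cases hX : thr3 k < X
    · rw [if_pos hX, sum_const, nsmul_eq_mul]
      have h8 : 8 ≤ thr3 k := by
        unfold thr3
        have h1 : 1 ≤ 1 + 3 * k ^ 2 := by omega
        have h2 : 4 ≤ 2 ^ (k + 2) := by
          rw [pow_add]
          have : 1 ≤ 2 ^ k := Nat.one_le_two_pow
          omega
        calc 8 = 2 * 1 * 4 := by norm_num
          _ ≤ _ := Nat.mul_le_mul (Nat.mul_le_mul_left 2 h1) h2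
      have hX8 : 8 < X := by omega
      have hcard : #((((box X).powersetCard k) ×ˢ (range (X + 1) ×ˢ range (X + 1))).filter
          (fun κ => IsSys κ.1 ∧ InBox κ.1 X ∧ κ.2.1 < κ.2.2 ∧ thr3 k < X ∧
            (4 * (k : ℝ) + 8) * Real.log X ≤ (κ.2.2 : ℝ) - κ.2.1)) ≤ X ^ (4 * k + 4) := by
        refine (card_filter_le _ _).trans ?_
        rw [card_product, card_product, card_powersetCard, card_range, card_box]
        have h1 : 2 * X + 1 ≤ X ^ 2 := by nlinarith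
        have h2 : X + 1 ≤ X ^ 2 := by nlinarith
        calc ((2 * X + 1) ^ 2).choose k * ((X + 1) * (X + 1)) ≤ ((X ^ 2) ^ 2) ^ k * (X ^ 2 * X ^ 2) := by
              apply Nat.mul_le_mul
              · refine (Nat.choose_le_pow _ _).trans ?_
                exact Nat.pow_le_pow_left (Nat.pow_le_pow_left h1 2) k
              · exact Nat.mul_le_mul h2 h2
          _ = X ^ (4 * k + 4) := by
              rw [← pow_mul, ← pow_mul, ← pow_add, ← pow_add]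
              congr 1
              ring
      have hXR : (1 : ℝ) ≤ X := by exact_mod_cast (by omega : 1 ≤ X)
      have hX0 : (0 : ℝ) < X := by linarith
      have hcardR : ((#((((box X).powersetCard k) ×ˢ (range (X + 1) ×ˢ range (X + 1))).filter
          (fun κ => IsSys κ.1 ∧ InBox κ.1 X ∧ κ.2.1 < κ.2.2 ∧ thr3 k < X ∧
            (4 * (k : ℝ) + 8) * Real.log X ≤ (κ.2.2 : ℝ) - κ.2.1)) : ℕ) : ℝ) ≤ (X : ℝ) ^ (4 * k + 4) := by
        exact_mod_cast hcard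
      calc _ ≤ (X : ℝ) ^ (4 * k + 4) * ((2 * (1 + 3 * (k : ℝ) ^ 2) * X) * ((X : ℝ) ^ (4 * k + 8))⁻¹) :=
            mul_le_mul_of_nonneg_right hcardR (by positivity)
        _ = (2 * (1 + 3 * (k : ℝ) ^ 2)) * ((X : ℝ) ^ 3)⁻¹ := by
            have e1 : (X : ℝ) ^ (4 * k + 8) = X ^ (4 * k + 4) * (X * X ^ 3) := by
              rw [show 4 * k + 8 = (4 * k + 4) + 4 by omega, pow_add]
              ring
            rw [e1]
            field_simp
        _ ≤ _ := by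
            apply mul_le_mul_of_nonneg_left _ (by positivity)
            apply inv_anti₀ (by positivity)
            exact pow_le_pow_right₀ hXR (by norm_num)
    · rw [if_neg hX]
      apply le_of_eq
      apply sum_eq_zero
      intro κ hκ
      exact absurd (mem_filter.1 hκ).2.2.2.2.1 hX
  have htwo : ∀ k ∈ range T, ∑ X ∈ range T, (if thr3 k < X then (2 * (1 + 3 * (k : ℝ) ^ 2)) * ((X : ℝ) ^ 2)⁻¹ else 0) ≤
      (1 / 2) ^ (k + 2) := by
    intro k _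
    have hthr : 1 ≤ thr3 k := by unfold thr3; exact Nat.mul_pos (by omega) (by positivity)
    have hthrR : (0 : ℝ) < thr3 k := by exact_mod_cast hthr
    have h2 : ∑ X ∈ range T, (if thr3 k < X then (2 * (1 + 3 * (k : ℝ) ^ 2)) * ((X : ℝ) ^ 2)⁻¹ else 0) ≤
        (2 * (1 + 3 * (k : ℝ) ^ 2)) * (thr3 k : ℝ)⁻¹ := by
      rw [← sum_filter]
      rcases Nat.lt_or_ge T (thr3 k) with hX | hX
      · have : (range T).filter (fun j => thr3 k < j) = ∅ := by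
          rw [filter_eq_empty_iff]
          intro j hj h
          rw [mem_range] at hj
          omega
        rw [this, sum_empty]
        positivity
      · calc ∑ j ∈ (range T).filter (fun j => thr3 k < j), (2 * (1 + 3 * (k : ℝ) ^ 2)) * ((j : ℝ) ^ 2)⁻¹
            ≤ ∑ j ∈ Ioc (thr3 k) T, (2 * (1 + 3 * (k : ℝ) ^ 2)) * ((j : ℝ) ^ 2)⁻¹ := by
              apply sum_le_sum_of_subset_of_nonneg
              · intro j hj
                rw [mem_filter, mem_range] at hj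
                rw [mem_Ioc]
                omega
              · intro j _ _
                positivity
          _ = (2 * (1 + 3 * (k : ℝ) ^ 2)) * ∑ j ∈ Ioc (thr3 k) T, ((j : ℝ) ^ 2)⁻¹ := by rw [mul_sum]
          _ ≤ (2 * (1 + 3 * (k : ℝ) ^ 2)) * ((thr3 k : ℝ)⁻¹ - (T : ℝ)⁻¹) :=
              mul_le_mul_of_nonneg_left (sum_Ioc_inv_sq_le_sub (by omega) hX) (by positivity)
          _ ≤ _ := by
              apply mul_le_mul_of_nonneg_left _ (by positivity)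
              have : (0 : ℝ) ≤ (T : ℝ)⁻¹ := by positivity
              linarith
    refine h2.trans ?_
    rw [← div_eq_mul_inv, div_le_iff₀ hthrR]
    unfold thr3
    push_cast
    have e1 : (1 / 2 : ℝ) ^ (k + 2) * (2 * (1 + 3 * (k : ℝ) ^ 2) * 2 ^ (k + 2)) =
        2 * (1 + 3 * (k : ℝ) ^ 2) * ((1 / 2) ^ (k + 2) * 2 ^ (k + 2)) := by ring
    rw [e1, ← mul_pow]
    norm_num
  unfold cons3
  rw [sum_sigma]
  refine lt_of_le_of_lt (sum_le_sum (fun kX _ => hone kX.1 kX.2)) ?_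
  rw [sum_product (f := fun kX : ℕ × ℕ => if thr3 kX.1 < kX.2 then (2 * (1 + 3 * (kX.1 : ℝ) ^ 2)) * ((kX.2 : ℝ) ^ 2)⁻¹ else 0)]
  refine lt_of_le_of_lt (sum_le_sum htwo) ?_
  have h3 : ∀ X : ℕ, ∑ i ∈ range X, (1 / 2 : ℝ) ^ (i + 2) = 1 / 2 - (1 / 2) ^ (X + 1) := by
    intro X
    induction X with
    | zero => norm_num
    | succ X ih => rw [sum_range_succ, ih]; ring
  rw [h3]
  have : (0 : ℝ) < (1 / 2) ^ (T + 1) := by positivity
  linarith

open Classical in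
/-- A set without forbidden configurations with small deviations for all systems in all intervals. -/
theorem exists_set3 (h0 : ¬ H ∅) (hS : SmallH H a) {M : ℕ} (hM : 2 ≤ M)
    (hdeg : ∀ x : ℕ, M ≤ x → ∀ (T : ℕ) (F : Finset ℕ), (∀ y ∈ F, M ≤ y ∧ y ≤ T ∧ Linked H x y) →
      (#F : ℝ) ≤ Real.sqrt (Real.log T)) : ∃ S : Set ℕ,
    (∀ e : Finset ℕ, H e → ¬ (∀ m ∈ e, m ∈ S)) ∧ (∀ m ∈ S, a m ≠ 0) ∧
    ∀ (L : Finset (ℤ × ℤ)) (X u v : ℕ), IsSys L → InBox L X → u < v → v ≤ X → thr3 #L < X →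
      (4 * (#L : ℝ) + 8) * Real.log X ≤ (v : ℝ) - u →
      |(#((IZ M L u v).filter (fun n => ∀ m ∈ valsZ L n, m ∈ S)) : ℝ) -
        ∑ n ∈ IZ M L u v, ch H a (valsZ L n)| ≤
        ((DDZ #L X : ℝ) + 1) * (2 * Real.sqrt (((v : ℝ) - u) * ((4 * (#L : ℝ) + 8) * Real.log X))) := by
  -- the finite sets
  have hfin : ∀ T : ℕ, ∃ A : Finset ℕ, ch H a A ≠ 0 ∧ ∀ κ ∈ cons3 M T,
      ¬ (((DDZ κ.1.1 κ.1.2 : ℝ) + 1) * (2 * Real.sqrt (((κ.2.2.2 : ℝ) - κ.2.2.1) *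
        ((4 * (κ.1.1 : ℝ) + 8) * Real.log κ.1.2))) ≤
        |cnt (fun n => valsZ κ.2.1 n) (IZ M κ.2.1 κ.2.2.1 κ.2.2.2) A -
          ∑ n ∈ IZ M κ.2.1 κ.2.2.1 κ.2.2.2, ch H a (valsZ κ.2.1 n)|) := by
    intro T
    obtain ⟨V, hV⟩ : ∃ V : Finset ℕ, V = (cons3 M T).biUnion fun κ =>
      (IZ M κ.2.1 κ.2.2.1 κ.2.2.2).biUnion fun n => valsZ κ.2.1 n := ⟨_, rfl⟩
    have hW : ∀ κ ∈ cons3 M T, ∃ W : Finset ℕ → ℝ, (∀ A, 0 ≤ W A) ∧
        (∀ A, (((DDZ κ.1.1 κ.1.2 : ℝ) + 1) * (2 * Real.sqrt (((κ.2.2.2 : ℝ) - κ.2.2.1) *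
          ((4 * (κ.1.1 : ℝ) + 8) * Real.log κ.1.2))) ≤
          |cnt (fun n => valsZ κ.2.1 n) (IZ M κ.2.1 κ.2.2.1 κ.2.2.2) A -
            ∑ n ∈ IZ M κ.2.1 κ.2.2.1 κ.2.2.2, ch H a (valsZ κ.2.1 n)|) → 1 ≤ W A) ∧
        ∑ A ∈ V.powerset, muH H a V A * W A ≤
          (2 * (1 + 3 * (κ.1.1 : ℝ) ^ 2) * κ.1.2) * ((κ.1.2 : ℝ) ^ (4 * κ.1.1 + 8))⁻¹ := by
      intro κ hκ
      have hVκ : ∀ n ∈ IZ M κ.2.1 κ.2.2.1 κ.2.2.2, valsZ κ.2.1 n ⊆ V := by
        intro n hn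
        rw [hV]
        exact (subset_biUnion_of_mem (fun n => valsZ κ.2.1 n) hn).trans
          (subset_biUnion_of_mem (fun κ : Σ _ : ℕ × ℕ, Finset (ℤ × ℤ) × (ℕ × ℕ) =>
            (IZ M κ.2.1 κ.2.2.1 κ.2.2.2).biUnion fun n => valsZ κ.2.1 n) hκ)
      obtain ⟨⟨k, X⟩, ⟨L, ⟨u, v⟩⟩⟩ := κ
      obtain ⟨_, ⟨⟨_, hk⟩, _, hvX⟩, hsys, hbox, huv, hthr, hlen⟩ := mem_cons3.1 hκ
      simp only at hVκ ⊢
      have hX2 : (2 : ℝ) ≤ X := by
        have h1 : 1 ≤ thr3 k := by unfold thr3; exact Nat.mul_pos (by omega) (by positivity)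
        exact_mod_cast (by omega : 2 ≤ X)
      have hlog : 0 < Real.log X := Real.log_pos (by linarith)
      obtain ⟨N, hN⟩ : ∃ N : ℝ, N = (v : ℝ) - u := ⟨_, rfl⟩
      obtain ⟨B, hB⟩ : ∃ B : ℝ, B = (4 * (k : ℝ) + 8) * Real.log X := ⟨_, rfl⟩
      rw [← hN, ← hB] at hlen ⊢
      have hB0 : 0 < B := by rw [hB]; positivity
      have hN0 : 0 < N := by linarith
      obtain ⟨s, hs⟩ : ∃ s : ℝ, s = 2 * Real.sqrt (N * B) := ⟨_, rfl⟩
      have hs2 : s ^ 2 = 4 * (N * B) := by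
        rw [hs, mul_pow, Real.sq_sqrt (by positivity)]; norm_num
      have hs0 : 0 ≤ s := by rw [hs]; positivity
      rw [← hs]
      obtain ⟨t, ht⟩ : ∃ t : ℝ, t = s / (2 * N) := ⟨_, rfl⟩
      have ht0 : 0 ≤ t := by rw [ht]; positivity
      have ht1 : t ≤ 1 := by
        rw [ht, div_le_one (by positivity)]
        apply (sq_le_sq₀ hs0 (by positivity)).1
        rw [hs2]
        nlinarith
      obtain ⟨W, hW0, hW1, hW2⟩ := dev (V := V) h0 hS (fun n => valsZ L n) (IZ M L u v) hVκ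
        (DDZ k X) (fun n hn => by
          have := degreeZ hsys (by omega) hbox hdeg hvX hn
          rw [hk] at this
          convert this using 2) t s ht0 ht1
      refine ⟨W, hW0, hW1, hW2.trans ?_⟩
      have hcard : ((#(IZ M L u v) : ℕ) : ℝ) ≤ N := by
        have h1 : #(IZ M L u v) ≤ #(Ico u v) := by unfold IZ; exact card_filter_le _ _
        rw [Nat.card_Ico] at h1
        rw [hN, ← Nat.cast_sub huv.le]
        exact_mod_cast h1
      have hexp : t ^ 2 * #(IZ M L u v) - t * s ≤ -B := by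
        have e1 : t ^ 2 * N - t * s = -(s ^ 2 / (4 * N)) := by
          rw [ht]; field_simp; ring
        have e2 : t ^ 2 * #(IZ M L u v) ≤ t ^ 2 * N := mul_le_mul_of_nonneg_left hcard (sq_nonneg t)
        have e3 : s ^ 2 / (4 * N) = B := by
          rw [hs2]; field_simp
        linarith
      have hexp2 : Real.exp (-B) = ((X : ℝ) ^ (4 * k + 8))⁻¹ := by
        rw [Real.exp_neg, hB]
        congr 1
        rw [show (4 * (k : ℝ) + 8) * Real.log X = ((4 * k + 8 : ℕ) : ℝ) * Real.log X by push_cast; ring,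
          Real.exp_nat_mul, Real.exp_log (by linarith)]
      have hDD : ((DDZ k X : ℝ) + 1) ≤ (1 + 3 * (k : ℝ) ^ 2) * X := by
        exact_mod_cast DDZ_le k (by exact_mod_cast (by linarith : (1 : ℝ) ≤ X) : 1 ≤ X)
      calc 2 * ((DDZ k X : ℝ) + 1) * Real.exp (t ^ 2 * #(IZ M L u v) - t * s)
          ≤ 2 * ((1 + 3 * (k : ℝ) ^ 2) * X) * Real.exp (-B) := by
            apply mul_le_mul _ (Real.exp_le_exp.2 hexp) (Real.exp_pos _).le (by positivity)
            linarith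
        _ = _ := by rw [hexp2]; ring
    choose! W hW0 hW1 hW2 using hW
    obtain ⟨A, _, h1, h2⟩ := choose_gen h0 hS V (cons3 M T)
      (fun κ A => ((DDZ κ.1.1 κ.1.2 : ℝ) + 1) * (2 * Real.sqrt (((κ.2.2.2 : ℝ) - κ.2.2.1) *
          ((4 * (κ.1.1 : ℝ) + 8) * Real.log κ.1.2))) ≤
          |cnt (fun n => valsZ κ.2.1 n) (IZ M κ.2.1 κ.2.2.1 κ.2.2.2) A -
            ∑ n ∈ IZ M κ.2.1 κ.2.2.1 κ.2.2.2, ch H a (valsZ κ.2.1 n)|)
      W (fun κ => (2 * (1 + 3 * (κ.1.1 : ℝ) ^ 2) * κ.1.2) * ((κ.1.2 : ℝ) ^ (4 * κ.1.1 + 8))⁻¹) hW0 hW1 hW2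
      (sum_cons3 M T)
    exact ⟨A, h1, h2⟩
  choose A hA1 hA2 using hfin
  refine ⟨{m | ∀ᶠ T in (hyperfilter ℕ : Filter ℕ), m ∈ A T}, ?_, ?_, ?_⟩
  · intro e he hsub
    have h1 : ∀ᶠ T in (hyperfilter ℕ : Filter ℕ), ∀ m ∈ e, m ∈ A T := by
      rw [Filter.eventually_all_finset]
      exact hsub
    obtain ⟨T, hT⟩ := h1.exists
    have h2 : Avoids H (A T) := by
      by_contra hcon
      have := hA1 T
      unfold ch at this
      rw [if_neg hcon] at this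
      exact this rfl
    exact h2 e he hT
  · intro m hm
    obtain ⟨T, hT⟩ := (show ∀ᶠ T in (hyperfilter ℕ : Filter ℕ), m ∈ A T from hm).exists
    intro hm0
    apply hA1 T
    unfold ch
    split_ifs
    · exact prod_eq_zero hT hm0
    · rfl
  · intro L X u v hL hbox huv hvX hthr hlen
    have h1 : ∀ m : ℕ, ∀ᶠ T in (hyperfilter ℕ : Filter ℕ),
        (m ∈ A T ↔ m ∈ {m | ∀ᶠ T in (hyperfilter ℕ : Filter ℕ), m ∈ A T}) := by
      intro m
      by_cases h : ∀ᶠ T in (hyperfilter ℕ : Filter ℕ), m ∈ A T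
      · filter_upwards [h] with T hT
        exact ⟨fun _ => h, fun _ => hT⟩
      · filter_upwards [Ultrafilter.eventually_not.2 h] with T hT
        exact ⟨fun h' => absurd h' hT, fun h' => absurd h' h⟩
    have h2 : ∀ᶠ T in (hyperfilter ℕ : Filter ℕ), ∀ m ∈ (IZ M L u v).biUnion (fun n => valsZ L n),
        (m ∈ A T ↔ m ∈ {m | ∀ᶠ T in (hyperfilter ℕ : Filter ℕ), m ∈ A T}) := by
      rw [Filter.eventually_all_finset]
      exact fun m _ => h1 m
    have h3 : ∀ᶠ T in (hyperfilter ℕ : Filter ℕ), max #L X < T := by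
      have : ∀ᶠ T in atTop, max #L X < T := eventually_gt_atTop _
      exact (Nat.cofinite_eq_atTop ▸ this).filter_mono hyperfilter_le_cofinite
    obtain ⟨T, hT2, hT3⟩ := (h2.and h3).exists
    have g1 := le_max_left #L X
    have g2 := le_max_right #L X
    have h4 := hA2 T ⟨(#L, X), (L, (u, v))⟩ (mem_cons3.2 ⟨⟨by omega, by omega⟩,
      ⟨⟨subset_box hbox, rfl⟩, by omega, hvX⟩, hL, hbox, huv, hthr, hlen⟩)
    simp only [not_le] at h4
    refine le_of_eq_of_le ?_ h4.le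
    congr 2
    unfold cnt
    rw [card_eq_sum_ones, Nat.cast_sum, sum_filter]
    apply sum_congr rfl
    intro n hn
    have h5 : (∀ m ∈ valsZ L n, m ∈ {m | ∀ᶠ T in (hyperfilter ℕ : Filter ℕ), m ∈ A T}) ↔ valsZ L n ⊆ A T := by
      constructor
      · intro h m hm
        exact (hT2 m (mem_biUnion.2 ⟨n, hn, hm⟩)).2 (h m hm)
      · intro h m hm
        exact (hT2 m (mem_biUnion.2 ⟨n, hn, hm⟩)).1 (h hm)
    by_cases h6 : valsZ L n ⊆ A T
    · rw [if_pos h6, if_pos (h5.2 h6)]; norm_num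
    · rw [if_neg h6, if_neg (fun h => h6 (h5.1 h))]

end

end Pool.Agent.U462.Sh
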