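import Pool.Agent.U462.Sh.ZMain
import Pool.Agent.U462.Sh.ZStat

/-!
# The general theorem, uniformly in the system
-/

set_option autoImplicit false
set_option maxHeartbeats 4000000

open Finset Filter Topology

namespace Pool.Agent.U462.Sh

lemma small_den2 {H : Finset ℕ → Prop} (hsp : SparseFam H) : ∃ M : ℕ, 2 ≤ M ∧ SmallH H (den M) ∧
    ∀ x : ℕ, M ≤ x → ∀ (T : ℕ) (F : Finset ℕ), (∀ y ∈ F, M ≤ y ∧ y ≤ T ∧ Linked H x y) →
      (#F : ℝ) ≤ Real.sqrt (Real.log T) := by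
  classical
  obtain ⟨C, hC, hb⟩ := den_bound
  obtain ⟨M0, hM0⟩ := hsp (1 / (4 * C)) (by positivity)
  obtain ⟨M1, hM1⟩ := hsp 1 (by norm_num)
  obtain ⟨M, hM⟩ : ∃ M, M = max (max (max M0 M1) 2) ⌈Real.exp (16 * C ^ 2)⌉₊ := ⟨_, rfl⟩
  have h1 : M0 ≤ M := by
    rw [hM]; exact ((le_max_left _ _).trans (le_max_left _ _)).trans (le_max_left _ _)
  have h1' : M1 ≤ M := by
    rw [hM]; exact ((le_max_right _ _).trans (le_max_left _ _)).trans (le_max_left _ _)
  have h2 : 2 ≤ M := by rw [hM]; exact (le_max_right _ _).trans (le_max_left _ _)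
  have h3 : Real.exp (16 * C ^ 2) ≤ M := by
    rw [hM]
    exact (Nat.le_ceil _).trans (by exact_mod_cast le_max_right _ _)
  refine ⟨M, h2, fun n => ⟨den_nonneg M n, ?_, ?_⟩, ?_⟩
  · by_cases hn : M ≤ n
    · refine (hb M n (h2.trans hn)).trans ?_
      have h4 : 16 * C ^ 2 ≤ Real.log n := by
        rw [← Real.log_exp (16 * C ^ 2)]
        apply Real.log_le_log (Real.exp_pos _)
        exact h3.trans (by exact_mod_cast hn)
      have h5 : 4 * C ≤ Real.sqrt (Real.log n) := by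
        apply Real.le_sqrt_of_sq_le
        nlinarith
      rw [div_le_iff₀ (by linarith)]
      linarith
    · unfold den
      rw [if_neg hn]
      norm_num
  · intro hne F hF
    have hn : M ≤ n := by
      by_contra hcon
      apply hne
      unfold den
      rw [if_neg hcon]
    have e1 : ∑ m ∈ F, den M m = ∑ m ∈ F.filter (fun m => M ≤ m), den M m := by
      rw [sum_filter]
      apply sum_congr rfl
      intro m _
      split_ifs with h
      · rfl
      · unfold den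
        rw [if_neg h]
    rw [e1]
    calc ∑ m ∈ F.filter (fun m => M ≤ m), den M m
        ≤ ∑ m ∈ F.filter (fun m => M ≤ m), C * (1 / Real.sqrt (Real.log m)) := by
          apply sum_le_sum
          intro m hm
          refine (hb M m (h2.trans (mem_filter.1 hm).2)).trans (le_of_eq ?_)
          ring
      _ = C * ∑ m ∈ F.filter (fun m => M ≤ m), 1 / Real.sqrt (Real.log m) := by rw [mul_sum]
      _ ≤ C * (1 / (4 * C)) := by
          apply mul_le_mul_of_nonneg_left _ hC.le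
          apply hM0 n (h1.trans hn)
          intro m hm
          rw [mem_filter] at hm
          exact ⟨h1.trans hm.2, hF m hm.1⟩
      _ = 1 / 4 := by field_simp
  · intro x hx T F hF
    rcases F.eq_empty_or_nonempty with h | ⟨y0, hy0⟩
    · rw [h]; simp
    · have hT2 : 2 ≤ T := (h2.trans (hF y0 hy0).1).trans (hF y0 hy0).2.1
      have hlogT := half_le_log hT2
      have hsq : 0 < Real.sqrt (Real.log T) := Real.sqrt_pos.2 (by linarith)
      have h4 := hM1 x (h1'.trans hx) F (fun y hy => ⟨h1'.trans (hF y hy).1, (hF y hy).2.2⟩)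
      have h5 : ∑ y ∈ F, 1 / Real.sqrt (Real.log T) ≤ ∑ y ∈ F, 1 / Real.sqrt (Real.log y) := by
        apply sum_le_sum
        intro y hy
        have hy2 : 2 ≤ y := h2.trans (hF y hy).1
        have hlogy := half_le_log hy2
        apply one_div_le_one_div_of_le (Real.sqrt_pos.2 (by linarith))
        apply Real.sqrt_le_sqrt
        apply Real.log_le_log (by exact_mod_cast (by omega : 0 < y))
        exact_mod_cast (hF y hy).2.1
      rw [sum_const, nsmul_eq_mul] at h5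
      have h6 : (#F : ℝ) * (1 / Real.sqrt (Real.log T)) ≤ 1 := h5.trans h4
      rw [mul_one_div, div_le_one hsq] at h6
      exact h6

/-- polynomials are smaller than exponentials -/
lemma poly_expR (Q c : ℝ) (hc : 0 < c) (k : ℕ) : ∀ᶠ z : ℝ in atTop, Q * (1 + z) ^ k ≤ Real.exp (c * z) := by
  have h1 := (isLittleO_pow_exp_pos_mul_atTop k hc).def (c := 1 / (|Q| * 2 ^ k + 1)) (by positivity)
  filter_upwards [h1, eventually_ge_atTop 1] with z h3 hz
  rw [Real.norm_of_nonneg (by positivity), Real.norm_of_nonneg (Real.exp_pos _).le] at h3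
  have h4 : (1 + z) ^ k ≤ 2 ^ k * z ^ k := by
    rw [← mul_pow]
    exact pow_le_pow_left₀ (by linarith) (by linarith) k
  have h5 : z ^ k * (|Q| * 2 ^ k + 1) ≤ Real.exp (c * z) := by
    rw [one_div, inv_mul_eq_div, le_div_iff₀ (by positivity)] at h3
    exact h3
  have h6 : Q * (1 + z) ^ k ≤ |Q| * (2 ^ k * z ^ k) :=
    mul_le_mul (le_abs_self Q) h4 (by positivity) (abs_nonneg Q)
  have h7 : (0 : ℝ) ≤ z ^ k := by positivity
  linarith

lemma one_solZ {a b a' b' : ℤ} (h : ¬ (a' = a ∧ b' = b)) {m n : ℕ} (hm : a' * (m : ℤ) + b' = a * m + b)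
    (hn : a' * (n : ℤ) + b' = a * n + b) : m = n := by
  have h1 : (a' - a) * ((m : ℤ) - n) = 0 := by linear_combination hm - hn
  rcases mul_eq_zero.1 h1 with h2 | h2
  · exfalso
    apply h
    have h3 : a' = a := by omega
    subst h3
    exact ⟨rfl, by omega⟩
  · omega

open Classical in
/-- few `n` for which two of the values coincide -/
lemma not_injZ {L : Finset (ℤ × ℤ)} (I : Finset ℕ) (hI : ∀ n ∈ I, ∀ l ∈ L, 0 ≤ l.1 * (n : ℤ) + l.2) :
    #(I.filter (fun n => ¬ Set.InjOn (fun l : ℤ × ℤ => val l n) (L : Set (ℤ × ℤ)))) ≤ #L ^ 2 := by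
  have h1 : I.filter (fun n => ¬ Set.InjOn (fun l : ℤ × ℤ => val l n) (L : Set (ℤ × ℤ))) ⊆
      ((L ×ˢ L).filter (fun q => q.1 ≠ q.2)).biUnion fun q =>
        I.filter fun n => q.1.1 * (n : ℤ) + q.1.2 = q.2.1 * (n : ℤ) + q.2.2 := by
    intro n hn
    rw [mem_filter] at hn
    obtain ⟨hnI, hn⟩ := hn
    unfold Set.InjOn at hn
    push Not at hn
    obtain ⟨l, hl, l', hl', he, hne⟩ := hn
    rw [mem_biUnion]
    refine ⟨(l, l'), mem_filter.2 ⟨mem_product.2 ⟨hl, hl'⟩, hne⟩, mem_filter.2 ⟨hnI, ?_⟩⟩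
    simp only at he ⊢
    rw [← val_cast (hI n hnI l hl), ← val_cast (hI n hnI l' hl'), he]
  refine (card_le_card h1).trans ((card_biUnion_le_card_mul _ _ 1 ?_).trans ?_)
  · intro q hq
    rw [mem_filter] at hq
    rw [card_le_one]
    intro m hm m' hm'
    rw [mem_filter] at hm hm'
    refine one_solZ (fun h => hq.2 ?_) hm.2 hm'.2
    exact Prod.ext h.1 h.2
  · rw [mul_one]
    refine (card_le_card (filter_subset _ _)).trans ?_
    rw [card_product, sq]

open Classical in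
/-- The general theorem, uniformly in the system and the interval. -/
theorem generalZ : ∃ c : ℕ → ℝ, (∀ q, 1 ≤ q → 0 < c q) ∧ ∀ H : Finset ℕ → Prop, ¬ H ∅ → SparseFam H →
    ∃ S : Set ℕ, (∀ e : Finset ℕ, H e → ¬ (∀ m ∈ e, m ∈ S)) ∧ (∀ m ∈ S, 2 ≤ m ∧ Sifted m) ∧
    ∀ q k : ℕ, 1 ≤ q → ∃ X0 : ℕ, ∀ X : ℕ, X0 ≤ X → ∀ L : Finset (ℤ × ℤ), IsSys L → #L = k → InBox L X →
      ∃ 𝔖 : ℝ, Tendsto (ser L) atTop (𝓝 𝔖) ∧ ((∀ p : ℕ, p.Prime → #(rts L p) < p) → 0 < 𝔖) ∧
        ∀ u v : ℕ, u < v → v ≤ X → X ≤ (v - u) ^ q →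
          (∀ n : ℕ, u ≤ n → n < v → ∀ l ∈ L, 2 ≤ l.1 * (n : ℤ) + l.2) →
          |(#((Ico u v).filter (fun n => ∀ l ∈ L, val l n ∈ S)) : ℝ) - 𝔖 * ∑ n ∈ Ico u v, lwZ L n| ≤
            ((v : ℝ) - u) * Real.exp (-(c q * Real.sqrt (Real.log X))) +
              #((Ico u v).filter (fun n => ¬ Avoids H (valsZ L n))) := by
  have hmainZ := mainZ
  choose! c0 hc0 hmain using hmainZ
  refine ⟨fun q => c0 q / 2, fun q hq => by have := hc0 q hq; positivity, ?_⟩
  intro H h0 hsp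
  obtain ⟨M, hM, hS, hdeg⟩ := small_den2 hsp
  obtain ⟨S, hS1, hS2, hS3⟩ := exists_set3 h0 hS hM hdeg
  have hSM : ∀ m ∈ S, M ≤ m ∧ Sifted m := by
    intro m hm
    have h1 := hS2 m hm
    unfold den at h1
    split_ifs at h1 with h2
    · refine ⟨h2, ?_⟩
      by_contra hcon
      apply h1
      unfold sw
      rw [if_neg hcon, zero_div]
    · exact absurd rfl h1
  refine ⟨S, hS1, fun m hm => ⟨hM.trans (hSM m hm).1, (hSM m hm).2⟩, ?_⟩
  intro q k hq
  have hcq := hc0 q hq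
  obtain ⟨X1, hX1⟩ := hmain q hq k M
  have hqR : (1 : ℝ) ≤ q := by exact_mod_cast hq
  -- large `X`
  obtain ⟨A, hA⟩ : ∃ A : ℝ, A = (1 + 2 * (k : ℝ) ^ 2) * (2 * (4 * k + 8)) + k ^ 2 := ⟨_, rfl⟩
  have hA0 : 0 < A := by rw [hA]; positivity
  have hev : ∀ᶠ z : ℝ in atTop, A * (1 + z) ^ 2 ≤ Real.exp (1 * z) ∧ 2 * q * (c0 q + 1) ≤ z ∧
      2 * (1 + z) ^ 0 ≤ Real.exp (c0 q / 2 * z) :=
    (poly_expR A 1 one_pos 2).and ((eventually_ge_atTop _).and (poly_expR 2 (c0 q / 2) (by positivity) 0))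
  have htz : Tendsto (fun X : ℕ => Real.sqrt (Real.log X)) atTop atTop :=
    Real.tendsto_sqrt_atTop.comp (Real.tendsto_log_atTop.comp tendsto_natCast_atTop_atTop)
  obtain ⟨X2, hX2⟩ := eventually_atTop.1 (htz.eventually hev)
  refine ⟨X1 + X2 + thr3 k + 2, ?_⟩
  intro X hX L hL hk hbox
  obtain ⟨𝔖, h𝔖0, hlim, hbd, hposi⟩ := ser_limit hL
  refine ⟨𝔖, hlim, hposi, ?_⟩
  intro u v huv hvX hXq hpos
  obtain ⟨hz1, hz2, hz3⟩ := hX2 X (by omega)
  obtain ⟨z, hz⟩ : ∃ z, z = Real.sqrt (Real.log X) := ⟨_, rfl⟩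
  rw [← hz] at hz1 hz2 hz3 ⊢
  have hXR : (2 : ℝ) ≤ X := by exact_mod_cast (by omega : 2 ≤ X)
  have hlogX : 0 ≤ Real.log X := Real.log_natCast_nonneg X
  have hz0 : 0 ≤ z := by rw [hz]; exact Real.sqrt_nonneg _
  have hzsq : z ^ 2 = Real.log X := by rw [hz]; exact Real.sq_sqrt hlogX
  rw [pow_zero, mul_one] at hz3
  rw [one_mul] at hz1
  obtain ⟨N, hN⟩ : ∃ N : ℝ, N = (v : ℝ) - u := ⟨_, rfl⟩
  have hNn : N = ((v - u : ℕ) : ℝ) := by rw [hN, Nat.cast_sub huv.le]
  have hN1 : 1 ≤ N := by rw [hNn]; exact_mod_cast (by omega : 1 ≤ v - u)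
  obtain ⟨r, hr⟩ : ∃ r : ℝ, r = Real.sqrt N := ⟨_, rfl⟩
  have hr0 : 0 ≤ r := by rw [hr]; exact Real.sqrt_nonneg _
  have hrr : r * r = N := by rw [hr]; exact Real.mul_self_sqrt (by linarith)
  have hr1 : 1 ≤ r := by rw [hr]; exact Real.one_le_sqrt.2 hN1
  -- `√N` is large
  have hbigN : A * (1 + z) ^ 2 * Real.exp (c0 q * z) ≤ r := by
    have h1 : Real.log X ≤ q * Real.log N := by
      rw [← Real.log_pow]
      apply Real.log_le_log (by linarith)
      rw [hNn]
      exact_mod_cast hXq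
    have h2 : r = Real.exp (Real.log N / 2) := by
      rw [hr, Real.sqrt_eq_rpow, Real.rpow_def_of_pos (by linarith)]
      congr 1
      ring
    have h3 : z + c0 q * z ≤ Real.log N / 2 := by
      have h4 : z * (2 * q * (c0 q + 1)) ≤ z * z := mul_le_mul_of_nonneg_left hz2 hz0
      have h5 : q * (2 * (z + c0 q * z)) ≤ q * Real.log N := by
        calc q * (2 * (z + c0 q * z)) = z * (2 * q * (c0 q + 1)) := by ring
          _ ≤ z * z := h4
          _ = Real.log X := by rw [← hzsq]; ring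
          _ ≤ _ := h1
      have h6 := le_of_mul_le_mul_left h5 (by linarith)
      linarith
    calc A * (1 + z) ^ 2 * Real.exp (c0 q * z) ≤ Real.exp z * Real.exp (c0 q * z) :=
          mul_le_mul_of_nonneg_right hz1 (Real.exp_pos _).le
      _ = Real.exp (z + c0 q * z) := by rw [Real.exp_add]
      _ ≤ Real.exp (Real.log N / 2) := Real.exp_le_exp.2 h3
      _ = r := h2.symm
  have hexp1 : 1 ≤ Real.exp (c0 q * z) := Real.one_le_exp (by positivity)
  have hAz : A * (1 + z) ^ 2 ≤ r := by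
    refine le_trans ?_ hbigN
    exact le_mul_of_one_le_right (by positivity) hexp1
  have hlen : (4 * (#L : ℝ) + 8) * Real.log X ≤ (v : ℝ) - u := by
    rw [← hN, hk, ← hzsq]
    have h1 : (4 * (k : ℝ) + 8) ≤ A := by
      rw [hA]
      have : (0 : ℝ) ≤ 2 * (k : ℝ) ^ 2 * (2 * (4 * k + 8)) := by positivity
      have : (0 : ℝ) ≤ (k : ℝ) := Nat.cast_nonneg k
      nlinarith
    have h2 : z ^ 2 ≤ (1 + z) ^ 2 := pow_le_pow_left₀ hz0 (by linarith) 2
    calc (4 * (k : ℝ) + 8) * z ^ 2 ≤ A * (1 + z) ^ 2 := mul_le_mul h1 h2 (by positivity) hA0.le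
      _ ≤ r := hAz
      _ ≤ r * r := le_mul_of_one_le_left hr0 hr1
      _ = N := hrr
  have hdev := hS3 L X u v hL hbox huv hvX (by rw [hk]; omega) hlen
  have hmt := hX1 X (by omega) L hL hk hbox 𝔖 h𝔖0 hbd u v huv hvX hXq hpos
  rw [← hz, ← hN] at hmt
  rw [← hN, hk] at hdev
  -- the counts
  have hval : ∀ n : ℕ, u ≤ n → n < v → ∀ l ∈ L, 0 ≤ l.1 * (n : ℤ) + l.2 := fun n h1 h2 l hl => by
    have := hpos n h1 h2 l hl; linarith
  have hc1 : ((Ico u v).filter (fun n => ∀ l ∈ L, val l n ∈ S)) =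
      (IZ M L u v).filter (fun n => ∀ m ∈ valsZ L n, m ∈ S) := by
    ext n
    rw [mem_filter, mem_filter, mem_Ico, mem_IZ]
    unfold valsZ
    simp only [forall_mem_image]
    constructor
    · rintro ⟨h1, h2⟩
      exact ⟨⟨h1, fun l hl => (hSM _ (h2 l hl)).1⟩, h2⟩
    · rintro ⟨⟨h1, _⟩, h2⟩
      exact ⟨h1, h2⟩
  have hc2 : ∑ n ∈ IZ M L u v, ch H (den M) (valsZ L n) = ∑ n ∈ Ico u v, ch H (den M) (valsZ L n) := by
    unfold IZ
    rw [sum_filter]
    apply sum_congr rfl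
    intro n _
    split_ifs with h
    · rfl
    · push Not at h
      obtain ⟨l, hl, hlt⟩ := h
      unfold ch
      split_ifs
      · symm
        apply prod_eq_zero (i := val l n) (by unfold valsZ; exact mem_image_of_mem _ hl)
        unfold den
        rw [if_neg (by omega)]
      · rfl
  rw [hc1]
  rw [hc2] at hdev
  have hexc : |∑ n ∈ Ico u v, ch H (den M) (valsZ L n) - ∑ n ∈ Ico u v, ∏ l ∈ L, den M (val l n)| ≤
      (k : ℝ) ^ 2 + #((Ico u v).filter (fun n => ¬ Avoids H (valsZ L n))) := by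
    have hch0 : ∀ n, 0 ≤ ch H (den M) (valsZ L n) := fun n => ch_nonneg (fun n => (hS n).1) _
    have hch1 : ∀ n, ch H (den M) (valsZ L n) ≤ 1 := fun n => ch_le_one (fun n => (hS n).1)
      (fun n => by have := (hS n).2.1; linarith) _
    have b1 : ∀ n, |ch H (den M) (valsZ L n) - ∏ l ∈ L, den M (val l n)| ≤
        (if ¬ Set.InjOn (fun l : ℤ × ℤ => val l n) (L : Set (ℤ × ℤ)) then (1 : ℝ) else 0) +
          (if ¬ Avoids H (valsZ L n) then (1 : ℝ) else 0) := by
      intro n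
      have d1 : |ch H (den M) (valsZ L n) - ∏ l ∈ L, den M (val l n)| ≤ 1 := by
        have e1 := hch0 n
        have e2 := hch1 n
        have e3 : 0 ≤ ∏ l ∈ L, den M (val l n) := prod_nonneg fun _ _ => den_nonneg _ _
        have e4 : ∏ l ∈ L, den M (val l n) ≤ 1 :=
          prod_le_one (fun _ _ => den_nonneg _ _) (fun l _ => by
            have := (hS (val l n)).2.1; linarith)
        rw [abs_le]
        constructor <;> linarith
      by_cases hi : Set.InjOn (fun l : ℤ × ℤ => val l n) (L : Set (ℤ × ℤ))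
      · by_cases ha : Avoids H (valsZ L n)
        · have : ch H (den M) (valsZ L n) = ∏ l ∈ L, den M (val l n) := by
            unfold ch
            rw [if_pos ha]
            unfold valsZ
            rw [prod_image hi]
          rw [this, sub_self, abs_zero]
          positivity
        · rw [if_neg (not_not.2 hi), if_pos ha]
          linarith
      · rw [if_pos hi]
        have : (0 : ℝ) ≤ if ¬ Avoids H (valsZ L n) then (1 : ℝ) else 0 := by positivity
        linarith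
    rw [← sum_sub_distrib]
    calc |∑ n ∈ Ico u v, (ch H (den M) (valsZ L n) - ∏ l ∈ L, den M (val l n))|
        ≤ ∑ n ∈ Ico u v, |ch H (den M) (valsZ L n) - ∏ l ∈ L, den M (val l n)| := abs_sum_le_sum_abs _ _
      _ ≤ ∑ n ∈ Ico u v, ((if ¬ Set.InjOn (fun l : ℤ × ℤ => val l n) (L : Set (ℤ × ℤ)) then (1 : ℝ) else 0) +
          (if ¬ Avoids H (valsZ L n) then (1 : ℝ) else 0)) := sum_le_sum fun n _ => b1 n
      _ = (#((Ico u v).filter (fun n => ¬ Set.InjOn (fun l : ℤ × ℤ => val l n) (L : Set (ℤ × ℤ)))) : ℝ) +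
          (#((Ico u v).filter (fun n => ¬ Avoids H (valsZ L n))) : ℝ) := by
          rw [sum_add_distrib, ← sum_filter, ← sum_filter]
          simp only [sum_const, nsmul_eq_mul, mul_one]
      _ ≤ _ := by
          have := not_injZ (L := L) (Ico u v) (fun n hn => by
            rw [mem_Ico] at hn
            exact hval n hn.1 hn.2)
          rw [hk] at this
          have h9 : (#((Ico u v).filter (fun n => ¬ Set.InjOn (fun l : ℤ × ℤ => val l n) (L : Set (ℤ × ℤ)))) : ℝ) ≤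
              (k : ℝ) ^ 2 := by exact_mod_cast this
          linarith
  -- the size of the deviation
  have hsmall : ((DDZ k X : ℝ) + 1) * (2 * Real.sqrt (N * ((4 * (k : ℝ) + 8) * Real.log X))) + (k : ℝ) ^ 2 ≤
      N * Real.exp (-(c0 q * z)) := by
    have h1 : Real.sqrt (N * ((4 * (k : ℝ) + 8) * Real.log X)) ≤ r * ((4 * k + 8) * z) := by
      rw [Real.sqrt_le_left (by positivity), ← hzsq]
      have h2 : (r * ((4 * (k : ℝ) + 8) * z)) ^ 2 = (r * r) * ((4 * k + 8) * (4 * k + 8) * z ^ 2) := by ring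
      rw [h2, hrr]
      apply mul_le_mul_of_nonneg_left _ (by linarith)
      apply mul_le_mul_of_nonneg_right _ (by positivity)
      have : (1 : ℝ) ≤ 4 * k + 8 := by
        have : (0 : ℝ) ≤ k := Nat.cast_nonneg k
        linarith
      nlinarith
    have h2 : (DDZ k X : ℝ) + 1 ≤ (1 + 2 * (k : ℝ) ^ 2) * (1 + z) := by
      have h3 : Real.sqrt (Real.log ((2 * X ^ 2 : ℕ) : ℝ)) ≤ 2 * z := by
        rw [Real.sqrt_le_left (by positivity)]
        push_cast
        rw [Real.log_mul (by norm_num) (by positivity), Real.log_pow]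
        have h4 : Real.log 2 ≤ Real.log X := Real.log_le_log (by norm_num) hXR
        have e4 : (2 * z) ^ 2 = 4 * Real.log X := by rw [← hzsq]; ring
        rw [e4]
        push_cast
        linarith
      have h4 : (⌊Real.sqrt (Real.log ((2 * X ^ 2 : ℕ) : ℝ))⌋₊ : ℝ) ≤ 2 * z :=
        (Nat.floor_le (Real.sqrt_nonneg _)).trans h3
      unfold DDZ
      push_cast at h4 ⊢
      have h5 : (k : ℝ) ^ 2 * (⌊Real.sqrt (Real.log (2 * (X : ℝ) ^ 2))⌋₊ : ℝ) ≤ (k : ℝ) ^ 2 * (2 * z) :=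
        mul_le_mul_of_nonneg_left h4 (by positivity)
      have h6 : (0 : ℝ) ≤ (k : ℝ) ^ 2 := by positivity
      nlinarith
    have h3 : ((DDZ k X : ℝ) + 1) * (2 * Real.sqrt (N * ((4 * (k : ℝ) + 8) * Real.log X))) ≤
        ((1 + 2 * (k : ℝ) ^ 2) * (1 + z)) * (2 * (r * ((4 * k + 8) * z))) :=
      mul_le_mul h2 (by linarith) (by positivity) (by positivity)
    have h4 : ((1 + 2 * (k : ℝ) ^ 2) * (1 + z)) * (2 * (r * ((4 * k + 8) * z))) + (k : ℝ) ^ 2 ≤
        A * (1 + z) ^ 2 * r := by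
      have e4 : A * (1 + z) ^ 2 * r = (1 + 2 * (k : ℝ) ^ 2) * (2 * (4 * k + 8)) * ((1 + z) * (1 + z)) * r +
        k ^ 2 * ((1 + z) ^ 2 * r) := by rw [hA]; ring
      have e5 : ((1 + 2 * (k : ℝ) ^ 2) * (1 + z)) * (2 * (r * ((4 * k + 8) * z))) =
        (1 + 2 * (k : ℝ) ^ 2) * (2 * (4 * k + 8)) * ((1 + z) * z) * r := by ring
      rw [e4, e5]
      have f1 : (1 + z) * z ≤ (1 + z) * (1 + z) := mul_le_mul_of_nonneg_left (by linarith) (by linarith)
      have f2 : (1 + 2 * (k : ℝ) ^ 2) * (2 * (4 * k + 8)) * ((1 + z) * z) * r ≤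
          (1 + 2 * (k : ℝ) ^ 2) * (2 * (4 * k + 8)) * ((1 + z) * (1 + z)) * r :=
        mul_le_mul_of_nonneg_right (mul_le_mul_of_nonneg_left f1 (by positivity)) hr0
      have f3 : 1 ≤ (1 + z) ^ 2 * r := by
        have g1 : 1 ≤ (1 + z) ^ 2 := one_le_pow₀ (by linarith)
        calc (1 : ℝ) = 1 * 1 := by ring
          _ ≤ (1 + z) ^ 2 * r := mul_le_mul g1 hr1 (by norm_num) (by positivity)
      have f4 : (k : ℝ) ^ 2 * 1 ≤ (k : ℝ) ^ 2 * ((1 + z) ^ 2 * r) := mul_le_mul_of_nonneg_left f3 (by positivity)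
      linarith
    have h5 : A * (1 + z) ^ 2 * r ≤ N * Real.exp (-(c0 q * z)) := by
      have h6 : A * (1 + z) ^ 2 ≤ r * Real.exp (-(c0 q * z)) := by
        have h7 := mul_le_mul_of_nonneg_right hbigN (Real.exp_pos (-(c0 q * z))).le
        rw [mul_assoc, ← Real.exp_add] at h7
        have e7 : c0 q * z + -(c0 q * z) = 0 := by ring
        rw [e7, Real.exp_zero, mul_one] at h7
        exact h7
      calc A * (1 + z) ^ 2 * r ≤ (r * Real.exp (-(c0 q * z))) * r := mul_le_mul_of_nonneg_right h6 hr0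
        _ = (r * r) * Real.exp (-(c0 q * z)) := by ring
        _ = _ := by rw [hrr]
    linarith
  have htwo : 2 * Real.exp (-(c0 q * z)) ≤ Real.exp (-(c0 q / 2 * z)) := by
    have h1 : Real.exp (-(c0 q / 2 * z)) = Real.exp (c0 q / 2 * z) * Real.exp (-(c0 q * z)) := by
      rw [← Real.exp_add]
      congr 1
      ring
    rw [h1]
    exact mul_le_mul_of_nonneg_right hz3 (Real.exp_pos _).le
  rw [← hN]
  obtain ⟨cn, hcn⟩ : ∃ cn : ℝ, cn = (#((IZ M L u v).filter (fun n => ∀ m ∈ valsZ L n, m ∈ S)) : ℝ) := ⟨_, rfl⟩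
  obtain ⟨F1, hF1⟩ : ∃ F1 : ℝ, F1 = ∑ n ∈ Ico u v, ch H (den M) (valsZ L n) := ⟨_, rfl⟩
  obtain ⟨F2, hF2⟩ : ∃ F2 : ℝ, F2 = ∑ n ∈ Ico u v, ∏ l ∈ L, den M (val l n) := ⟨_, rfl⟩
  rw [← hcn, ← hF1] at hdev
  rw [← hF1, ← hF2] at hexc
  rw [← hF2] at hmt
  rw [← hcn]
  have h2N : 2 * N * Real.exp (-(c0 q * z)) ≤ N * Real.exp (-(c0 q / 2 * z)) := by
    have := mul_le_mul_of_nonneg_left htwo (by linarith : (0 : ℝ) ≤ N)
    linarith
  calc |cn - 𝔖 * ∑ n ∈ Ico u v, lwZ L n| =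
        |(cn - F1) + (F1 - F2) + (F2 - 𝔖 * ∑ n ∈ Ico u v, lwZ L n)| := by ring_nf
    _ ≤ |cn - F1| + |F1 - F2| + |F2 - 𝔖 * ∑ n ∈ Ico u v, lwZ L n| := abs_add_three _ _ _
    _ ≤ ((DDZ k X : ℝ) + 1) * (2 * Real.sqrt (N * ((4 * (k : ℝ) + 8) * Real.log X))) +
        ((k : ℝ) ^ 2 + #((Ico u v).filter (fun n => ¬ Avoids H (valsZ L n)))) +
        N * Real.exp (-(c0 q * z)) := add_le_add (add_le_add hdev hexc) hmt
    _ ≤ _ := by linarith

end Pool.Agent.U462.Sh
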