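import Pool.Agent.U462.Sh.ZWin
import Pool.Agent.U462.Sh.Main

/-!
# The main term for systems with integer coefficients, uniformly
-/

set_option autoImplicit false
set_option maxHeartbeats 4000000

open Finset Filter Topology

namespace Pool.Agent.U462.Sh

lemma two_sq {X : ℕ} (hX : 1 ≤ X) : X ≤ 2 * X ^ 2 ∧ 1 ≤ 2 * X ^ 2 ∧ 2 ≤ 2 * X ^ 2 := by
  have h1 : X * 1 ≤ X * X := Nat.mul_le_mul_left X hX
  have h2 : X ^ 2 = X * X := sq X
  rw [h2]
  refine ⟨by omega, by omega, by omega⟩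

lemma val_le_box {X : ℕ} {l : ℤ × ℤ} (hbox : |l.1| ≤ X ∧ |l.2| ≤ X) {n : ℕ} (hX : 1 ≤ X) (hn : n ≤ X)
    (h0 : 0 ≤ l.1 * (n : ℤ) + l.2) : val l n ≤ 2 * X ^ 2 := by
  have e1 := val_cast h0
  have h1 : ((val l n : ℕ) : ℤ) ≤ 2 * (X : ℤ) ^ 2 := by
    rw [e1]
    obtain ⟨h2, h3⟩ := hbox
    have h4 : (n : ℤ) ≤ X := by exact_mod_cast hn
    have h5 : l.1 * (n : ℤ) ≤ X * X := by
      calc l.1 * (n : ℤ) ≤ |l.1| * n := mul_le_mul_of_nonneg_right (le_abs_self _) (by positivity)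
        _ ≤ X * X := mul_le_mul h2 h4 (by positivity) (by positivity)
    have h6 : l.2 ≤ X := (le_abs_self _).trans h3
    have h7 : (1 : ℤ) ≤ X := by exact_mod_cast hX
    nlinarith
  exact_mod_cast h1

lemma disc_le {L : Finset (ℤ × ℤ)} {X : ℕ} (hX : 1 ≤ X) (h : ∀ l ∈ L, |l.1| ≤ X ∧ |l.2| ≤ X) :
    (disc L).natAbs ≤ (2 * X ^ 2) ^ (#L + #L ^ 2) := by
  have h' : ∀ l ∈ L, l.1.natAbs ≤ X ∧ l.2.natAbs ≤ X := by
    intro l hl
    obtain ⟨h1, h2⟩ := h l hl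
    rw [Int.abs_eq_natAbs] at h1 h2
    exact ⟨by exact_mod_cast h1, by exact_mod_cast h2⟩
  have e1 : (disc L).natAbs = (∏ l ∈ L, l.1.natAbs) * ∏ q ∈ L.offDiag, (q.1.1 * q.2.2 - q.2.1 * q.1.2).natAbs := by
    unfold disc
    rw [Int.natAbs_mul]
    congr 1
    · exact map_prod Int.natAbsHom _ _
    · exact map_prod Int.natAbsHom _ _
  have hX2 : X ≤ 2 * X ^ 2 := (two_sq hX).1
  have hX3 : 1 ≤ 2 * X ^ 2 := (two_sq hX).2.1
  rw [e1, pow_add]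
  apply Nat.mul_le_mul
  · refine (prod_le_pow_card L _ X fun l hl => (h' l hl).1).trans ?_
    exact Nat.pow_le_pow_left hX2 _
  · refine (prod_le_pow_card L.offDiag _ (2 * X ^ 2) ?_).trans ?_
    · intro q hq
      rw [mem_offDiag] at hq
      have h1 := h' q.1 hq.1
      have h2 := h' q.2 hq.2.1
      calc (q.1.1 * q.2.2 - q.2.1 * q.1.2).natAbs ≤ (q.1.1 * q.2.2).natAbs + (q.2.1 * q.1.2).natAbs :=
            Int.natAbs_sub_le _ _
        _ = q.1.1.natAbs * q.2.2.natAbs + q.2.1.natAbs * q.1.2.natAbs := by rw [Int.natAbs_mul, Int.natAbs_mul]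
        _ ≤ X * X + X * X := Nat.add_le_add (Nat.mul_le_mul h1.1 h2.2) (Nat.mul_le_mul h2.1 h1.2)
        _ = 2 * X ^ 2 := by ring
    · apply Nat.pow_le_pow_right hX3
      rw [offDiag_card, sq]
      exact Nat.sub_le _ _

/-- the weight of the logarithmic integral of a system -/
noncomputable def lwZ (L : Finset (ℤ × ℤ)) (n : ℕ) : ℝ := ∏ l ∈ L, 1 / Real.log (val l n)

lemma inv_log_bounds (m : ℕ) : 0 ≤ 1 / Real.log (m : ℝ) ∧ 1 / Real.log (m : ℝ) ≤ 2 := by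
  refine ⟨div_nonneg zero_le_one (Real.log_natCast_nonneg m), ?_⟩
  rcases Nat.lt_or_ge m 2 with h | h
  · have : Real.log (m : ℝ) = 0 := by interval_cases m <;> simp
    rw [this]; norm_num
  · have h1 := half_le_log h
    rw [div_le_iff₀ (by linarith)]
    linarith

lemma lwZ_bounds (L : Finset (ℤ × ℤ)) (n : ℕ) : 0 ≤ lwZ L n ∧ lwZ L n ≤ 2 ^ #L := by
  unfold lwZ
  refine ⟨prod_nonneg fun l _ => (inv_log_bounds _).1, ?_⟩
  rw [← prod_const]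
  exact prod_le_prod (fun l _ => (inv_log_bounds _).1) (fun l _ => (inv_log_bounds _).2)

/-- the variation of the weight -/
lemma tv_lwZ (L : Finset (ℤ × ℤ)) (y g m : ℕ) (hpos : ∀ n, y ≤ n → n ≤ g → ∀ l ∈ L, 2 ≤ l.1 * (n : ℤ) + l.2)
    (hyg : y ≤ g) :
    tv (fun n => lwZ L (min n g)) y m ≤ #L * 2 ^ #L := by
  have h1 : (fun n => lwZ L (min n g)) = fun n => ∏ l ∈ L, (fun n => 1 / Real.log (val l (min n g))) n := by
    ext n; rfl
  rw [h1]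
  refine (tv_prod L (fun l n => 1 / Real.log (val l (min n g))) y m ?_ ?_).1
  · intro l _ i _
    have := inv_log_bounds (val l (min (y + i) g))
    rw [abs_of_nonneg this.1]
    exact this.2
  · intro l hl
    have hval : ∀ a c, y ≤ a → a ≤ c → c ≤ g → ((val l a : ℕ) : ℤ) = l.1 * (a : ℤ) + l.2 ∧
        ((val l c : ℕ) : ℤ) = l.1 * (c : ℤ) + l.2 := by
      intro a c ha hac hc
      exact ⟨val_cast (by have := hpos a ha (by omega) l hl; linarith),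
        val_cast (by have := hpos c (by omega) hc l hl; linarith)⟩
    have hb1 := inv_log_bounds (val l (min (y + m) g))
    have hb2 := inv_log_bounds (val l (min y g))
    have hstep : ∀ a c, y ≤ a → a ≤ c → c ≤ g → (0 ≤ l.1 → 1 / Real.log (val l c) ≤ 1 / Real.log (val l a)) ∧
        (l.1 ≤ 0 → 1 / Real.log (val l a) ≤ 1 / Real.log (val l c)) := by
      intro a c ha hac hc
      obtain ⟨e1, e2⟩ := hval a c ha hac hc
      have hac' : (a : ℤ) ≤ c := by exact_mod_cast hac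
      have p1 := hpos a ha (by omega) l hl
      have p2 := hpos c (by omega) hc l hl
      have q1 : 2 ≤ val l a := by exact_mod_cast (by rw [e1]; exact p1 : (2 : ℤ) ≤ ((val l a : ℕ) : ℤ))
      have q2 : 2 ≤ val l c := by exact_mod_cast (by rw [e2]; exact p2 : (2 : ℤ) ≤ ((val l c : ℕ) : ℤ))
      constructor
      · intro h
        have h3 : val l a ≤ val l c := by
          have : ((val l a : ℕ) : ℤ) ≤ ((val l c : ℕ) : ℤ) := by
            rw [e1, e2]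
            have := mul_le_mul_of_nonneg_left hac' h
            linarith
          exact_mod_cast this
        have h4 := half_le_log q1
        apply one_div_le_one_div_of_le (by linarith)
        apply Real.log_le_log (by exact_mod_cast (by omega : 0 < val l a))
        exact_mod_cast h3
      · intro h
        have h3 : val l c ≤ val l a := by
          have : ((val l c : ℕ) : ℤ) ≤ ((val l a : ℕ) : ℤ) := by
            rw [e1, e2]
            have := mul_le_mul_of_nonpos_left hac' h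
            linarith
          exact_mod_cast this
        have h4 := half_le_log q2
        apply one_div_le_one_div_of_le (by linarith)
        apply Real.log_le_log (by exact_mod_cast (by omega : 0 < val l c))
        exact_mod_cast h3
    rcases le_total 0 l.1 with h | h
    · rw [tv_anti]
      · linarith
      · intro i _
        exact (hstep (min (y + i) g) (min (y + (i + 1)) g) (by omega) (by omega) (by omega)).1 h
    · rw [tv_mono]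
      · linarith
      · intro i _
        exact (hstep (min (y + i) g) (min (y + (i + 1)) g) (by omega) (by omega) (by omega)).2 h

/-- polynomials are smaller than exponentials -/
lemma poly_exp (Q c : ℝ) (hc : 0 < c) (k : ℕ) : ∃ n0 : ℕ, ∀ N : ℕ, n0 ≤ N →
    Q * (1 + (N : ℝ)) ^ k ≤ Real.exp (c * N) := by
  have h1 := (isLittleO_pow_exp_pos_mul_atTop k hc).def (c := 1 / (|Q| * 2 ^ k + 1)) (by positivity)
  have h2 := tendsto_natCast_atTop_atTop (R := ℝ) |>.eventually h1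
  obtain ⟨n0, hn0⟩ := eventually_atTop.1 h2
  refine ⟨n0 + 1, fun N hN => ?_⟩
  have h3 := hn0 N (by omega)
  rw [Real.norm_of_nonneg (by positivity), Real.norm_of_nonneg (Real.exp_pos _).le] at h3
  have hNR : (1 : ℝ) ≤ N := by exact_mod_cast (by omega : 1 ≤ N)
  have h4 : (1 + (N : ℝ)) ^ k ≤ 2 ^ k * (N : ℝ) ^ k := by
    rw [← mul_pow]
    exact pow_le_pow_left₀ (by linarith) (by linarith) k
  have h5 : (N : ℝ) ^ k * (|Q| * 2 ^ k + 1) ≤ Real.exp (c * N) := by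
    rw [one_div, inv_mul_eq_div, le_div_iff₀ (by positivity)] at h3
    exact h3
  have h6 : Q * (1 + (N : ℝ)) ^ k ≤ |Q| * (2 ^ k * (N : ℝ) ^ k) :=
    mul_le_mul (le_abs_self Q) h4 (by positivity) (abs_nonneg Q)
  have h7 : (0 : ℝ) ≤ (N : ℝ) ^ k := by positivity
  linarith

open Classical in
/-- few points with a small value -/
lemma card_outside {L : Finset (ℤ × ℤ)} (hL : IsSys L) {u v : ℕ} (Y : ℕ)
    (hpos : ∀ n, u ≤ n → n < v → ∀ l ∈ L, 2 ≤ l.1 * (n : ℤ) + l.2) :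
    #((Ico u v).filter (fun n => ¬ (1 ≤ n ∧ ∀ l ∈ L, Y ≤ val l n))) ≤ #L * Y + 1 := by
  have hsub : (Ico u v).filter (fun n => ¬ (1 ≤ n ∧ ∀ l ∈ L, Y ≤ val l n)) ⊆
      (L.biUnion fun l => (Ico u v).filter (fun n => val l n < Y)) ∪ {0} := by
    intro n hn
    rw [mem_filter] at hn
    rw [mem_union, mem_singleton]
    by_cases h0 : n = 0
    · right; exact h0
    · left
      obtain ⟨hnI, hn2⟩ := hn
      rw [mem_biUnion]
      by_contra hcon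
      push Not at hcon
      apply hn2
      refine ⟨by omega, fun l hl => ?_⟩
      have := hcon l hl
      rw [mem_filter] at this
      push Not at this
      exact this hnI
  refine (card_le_card hsub).trans ((card_union_le _ _).trans ?_)
  rw [card_singleton]
  apply Nat.add_le_add_right
  apply card_biUnion_le_card_mul
  intro l hl
  have h1 : #((Ico u v).filter (fun n => val l n < Y)) ≤ #(range Y) := by
    apply card_le_card_of_injOn (fun n => val l n)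
    · intro n hn
      rw [mem_coe, mem_filter] at hn
      rw [mem_coe, mem_range]
      exact hn.2
    · intro m hm n hn hmn
      rw [mem_coe, mem_filter, mem_Ico] at hm hn
      simp only at hmn
      have e1 := val_cast (by have := hpos m hm.1.1 hm.1.2 l hl; linarith : 0 ≤ l.1 * (m : ℤ) + l.2)
      have e2 := val_cast (by have := hpos n hn.1.1 hn.1.2 l hl; linarith : 0 ≤ l.1 * (n : ℤ) + l.2)
      rw [hmn, e2] at e1
      have h2 : l.1 * (n : ℤ) = l.1 * (m : ℤ) := by linarith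
      have h3 := mul_left_cancel₀ (hL.1 l hl).1 h2
      exact_mod_cast h3.symm
  rwa [card_range] at h1

open Classical in
/-- the main term, uniformly -/
theorem mainZ : ∀ q : ℕ, 1 ≤ q → ∃ c : ℝ, 0 < c ∧ ∀ k M : ℕ, ∃ X0 : ℕ, ∀ X : ℕ, X0 ≤ X →
    ∀ L : Finset (ℤ × ℤ), IsSys L → #L = k → (∀ l ∈ L, |l.1| ≤ X ∧ |l.2| ≤ X) → ∀ 𝔖 : ℝ, 0 ≤ 𝔖 →
    (∀ t, 2 * #L + 1 ≤ t → ser L t * (1 - (#L : ℝ) ^ 2 / t) ≤ 𝔖 ∧
      𝔖 ≤ ser L t * Real.exp (2 * #L * #(badp L) / t)) →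
    ∀ u v : ℕ, u < v → v ≤ X → X ≤ (v - u) ^ q →
    (∀ n : ℕ, u ≤ n → n < v → ∀ l ∈ L, 2 ≤ l.1 * (n : ℤ) + l.2) →
    |∑ n ∈ Ico u v, ∏ l ∈ L, den M (val l n) - 𝔖 * ∑ n ∈ Ico u v, lwZ L n| ≤
      ((v : ℝ) - u) * Real.exp (-(c * Real.sqrt (Real.log X))) := by
  intro q hq
  obtain ⟨C, hC, H⟩ := windowZ
  obtain ⟨D0, hD0, hden⟩ := den_le_const
  obtain ⟨Cw, hCw, hWb⟩ := Pool.Agent.U462.Gap.W_bound
  have hCR : (1 : ℝ) ≤ C := by exact_mod_cast hC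
  have hqR : (1 : ℝ) ≤ q := by exact_mod_cast hq
  have hlog2 := Real.log_two_gt_d9
  have hlog2' := Real.log_two_lt_d9
  -- the constants in the exponents
  obtain ⟨c5, hc5⟩ : ∃ c5 : ℝ, c5 = Real.log 2 / (160 * C * q) := ⟨_, rfl⟩
  have hc50 : 0 < c5 := by rw [hc5]; positivity
  have hc51 : c5 ≤ Real.log 2 := by
    rw [hc5]
    apply div_le_self (by linarith)
    have h9 : (1 : ℝ) * 1 ≤ C * q := mul_le_mul hCR hqR (by norm_num) (by linarith)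
    linarith
  refine ⟨c5 / (6 * q), by positivity, ?_⟩
  intro k M
  obtain ⟨K, hK, HK⟩ := H k
  -- the constants
  obtain ⟨A1, hA1⟩ : ∃ A1 : ℝ, A1 = 19 * q * (k + (k : ℝ) ^ 2) := ⟨_, rfl⟩
  have hA10 : 0 ≤ A1 := by rw [hA1]; positivity
  obtain ⟨Q, hQ⟩ : ∃ Q : ℝ, Q = (k + 1) * (D0 ^ k + 3 * Cw ^ k * 2 ^ k) +
    (k + 1) * 2 ^ k * (Cw ^ k * (6 + 4 * k * A1 + k ^ 2) + K) := ⟨_, rfl⟩
  have hQ0 : 0 ≤ Q := by rw [hQ]; positivity
  obtain ⟨n1, hn1⟩ := poly_exp Q (c5 / 2) (by positivity) (k + 2)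
  obtain ⟨n2, hn2⟩ := poly_exp (2 * k * A1 + 2 * k + 1) (Real.log 2) (by linarith) 2
  obtain ⟨n0, hn0⟩ : ∃ n0, n0 = n1 + n2 + M + 2 + 160 * C * q * (C * (k + 1)) + 80 * q * (2 * k + 1) := ⟨_, rfl⟩
  refine ⟨2 ^ (8 * q * (n0 * n0)), ?_⟩
  intro X hX L hL hk hbox 𝔖 h𝔖0 h𝔖 u v huv hvX hXq hpos
  have hX1 : 1 ≤ X := Nat.one_le_two_pow.trans hX
  have hXlog : 8 * q * (n0 * n0) ≤ Nat.log 2 X := Nat.le_log_of_pow_le (by norm_num) hX
  obtain ⟨ℓ, hℓ⟩ : ∃ ℓ, ℓ = v - u := ⟨_, rfl⟩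
  rw [← hℓ] at hXq
  have hℓ0 : 1 ≤ ℓ := by omega
  have hℓR : ((v : ℝ) - u) = (ℓ : ℝ) := by rw [hℓ, Nat.cast_sub huv.le]
  obtain ⟨Y, hY⟩ : ∃ Y, Y = Nat.sqrt ℓ := ⟨_, rfl⟩
  have hYY : Y * Y ≤ ℓ := by rw [hY]; exact Nat.sqrt_le ℓ
  have hYY2 : ℓ < (Y + 1) * (Y + 1) := by rw [hY]; exact Nat.lt_succ_sqrt ℓ
  obtain ⟨J0, hJ0⟩ : ∃ J0, J0 = lev Y := ⟨_, rfl⟩
  obtain ⟨J1, hJ1⟩ : ∃ J1, J1 = lev (2 * X ^ 2) := ⟨_, rfl⟩
  obtain ⟨N0, hN0⟩ : ∃ N0, N0 = 2 ^ J0 := ⟨_, rfl⟩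
  obtain ⟨N1, hN1⟩ : ∃ N1, N1 = 2 ^ J1 := ⟨_, rfl⟩
  have hN0N : N0 * N0 = 4 ^ J0 := by rw [hN0, ← mul_pow]; norm_num
  have hN1N : N1 * N1 = 4 ^ J1 := by rw [hN1, ← mul_pow]; norm_num
  have hN01 : 1 ≤ N0 := by rw [hN0]; exact Nat.one_le_two_pow
  -- `log X` against `N0`
  have hYlog : Nat.log 2 Y + 1 ≤ 4 * (N0 * N0) := by
    rw [hN0N, hJ0]; exact lt_four_pow_lev Y
  have hXY : Nat.log 2 X + 1 ≤ 2 * q * (Nat.log 2 Y + 1) := by
    have h1 : Y + 1 ≤ 2 ^ (Nat.log 2 Y + 1) := Nat.succ_le_of_lt (Nat.lt_pow_succ_log_self (by norm_num) _)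
    have h2 : ℓ < 2 ^ (2 * (Nat.log 2 Y + 1)) := by
      calc ℓ < (Y + 1) * (Y + 1) := hYY2
        _ ≤ 2 ^ (Nat.log 2 Y + 1) * 2 ^ (Nat.log 2 Y + 1) := Nat.mul_le_mul h1 h1
        _ = 2 ^ (2 * (Nat.log 2 Y + 1)) := by rw [← pow_add]; congr 1; ring
    have h3 : X < 2 ^ (2 * q * (Nat.log 2 Y + 1)) := by
      calc X ≤ ℓ ^ q := hXq
        _ < (2 ^ (2 * (Nat.log 2 Y + 1))) ^ q := Nat.pow_lt_pow_left h2 (by omega)
        _ = 2 ^ (2 * q * (Nat.log 2 Y + 1)) := by rw [← pow_mul]; congr 1; ring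
    exact Nat.log_lt_of_lt_pow' (by positivity) h3
  have hXN : Nat.log 2 X + 1 ≤ 8 * q * (N0 * N0) := by
    calc Nat.log 2 X + 1 ≤ 2 * q * (Nat.log 2 Y + 1) := hXY
      _ ≤ 2 * q * (4 * (N0 * N0)) := Nat.mul_le_mul_left _ hYlog
      _ = _ := by ring
  have hn0N : n0 ≤ N0 := by
    by_contra hcon
    push Not at hcon
    have h1 : N0 * N0 ≤ n0 * n0 := Nat.mul_le_mul hcon.le hcon.le
    have h2 : 8 * q * (N0 * N0) ≤ 8 * q * (n0 * n0) := Nat.mul_le_mul_left _ h1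
    omega
  have hYlog2 : 1 ≤ Nat.log 2 Y := by
    by_contra hcon
    have h0 : Nat.log 2 Y = 0 := by omega
    rw [h0] at hXY
    have h1 : 4 ≤ n0 * n0 := by
      have h9 : 2 ≤ n0 := by omega
      exact Nat.mul_le_mul h9 h9
    have h2 : 8 * q * 4 ≤ 8 * q * (n0 * n0) := Nat.mul_le_mul_left _ h1
    omega
  have hY2 : 2 ≤ Y := by
    by_contra hcon
    have : Nat.log 2 Y = 0 := Nat.log_of_lt (by omega)
    omega
  have hN0Y : N0 * N0 ≤ Nat.log 2 Y := by rw [hN0N, hJ0]; exact four_pow_lev hY2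
  have hpowY : 2 ^ (N0 * N0) ≤ Y :=
    (Nat.pow_le_pow_right (by norm_num) hN0Y).trans (Nat.pow_log_le_self 2 (by omega))
  have hN0sq : N0 ≤ N0 * N0 := Nat.le_mul_self N0
  have hpowY' : 2 ^ N0 ≤ Y := (Nat.pow_le_pow_right (by norm_num) hN0sq).trans hpowY
  have hMY : M ≤ Y := by
    have : N0 < 2 ^ N0 := Nat.lt_two_pow_self
    omega
  -- `N1` against `N0`
  have h2X : Nat.log 2 (2 * X ^ 2) ≤ 2 * (Nat.log 2 X + 1) := by
    have h1 : X < 2 ^ (Nat.log 2 X + 1) := Nat.lt_pow_succ_log_self (by norm_num) _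
    have h2 : 2 * X ^ 2 < 2 ^ (2 * (Nat.log 2 X + 1) + 1) := by
      have h3 : X ^ 2 < (2 ^ (Nat.log 2 X + 1)) ^ 2 := Nat.pow_lt_pow_left h1 (by norm_num)
      have h4 : 2 ^ (2 * (Nat.log 2 X + 1) + 1) = 2 * (2 ^ (Nat.log 2 X + 1)) ^ 2 := by
        rw [pow_succ, ← pow_mul]
        rw [mul_comm (Nat.log 2 X + 1) 2]
        ring
      rw [h4]
      omega
    exact Nat.lt_succ_iff.1 (Nat.log_lt_of_lt_pow' (by positivity) h2)
  have hX2two : 2 ≤ 2 * X ^ 2 := (two_sq hX1).2.2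
  have hN1le : N1 * N1 ≤ 16 * q * (N0 * N0) := by
    rw [hN1N, hJ1]
    refine (four_pow_lev hX2two).trans (h2X.trans ?_)
    have := Nat.mul_le_mul_left 2 hXN
    calc 2 * (Nat.log 2 X + 1) ≤ 2 * (8 * q * (N0 * N0)) := this
      _ = _ := by ring
  have hN1N0 : N1 ≤ 5 * q * N0 := by
    by_contra hcon
    push Not at hcon
    have h1 : (5 * q * N0) * (5 * q * N0) < N1 * N1 := Nat.mul_lt_mul'' hcon hcon
    have h2 : (5 * q * N0) * (5 * q * N0) = 25 * (q * q) * (N0 * N0) := by ring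
    have h3 : 16 * q * (N0 * N0) ≤ 25 * (q * q) * (N0 * N0) := by
      apply Nat.mul_le_mul_right
      have h9 : q ≤ q * q := Nat.le_mul_self q
      omega
    omega
  obtain ⟨b, hb⟩ : ∃ b, b = N0 / (160 * C * q) := ⟨_, rfl⟩
  have hCq : 0 < 160 * C * q := by positivity
  have hbN : 160 * C * q * b ≤ N0 := by rw [hb]; exact Nat.mul_div_le _ _
  have hNb : N0 < 160 * C * q * (b + 1) := by rw [hb]; exact Nat.lt_mul_div_succ N0 hCq
  have hb1 : C * (k + 1) ≤ b := by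
    rw [hb, Nat.le_div_iff_mul_le hCq]
    calc C * (k + 1) * (160 * C * q) = 160 * C * q * (C * (k + 1)) := by ring
      _ ≤ N0 := by omega
  have hN0R : (1 : ℝ) ≤ N0 := by exact_mod_cast hN01
  -- the number of bad primes
  have hω : (#(badp L) : ℝ) ≤ A1 * (N0 : ℝ) ^ 2 := by
    have h1 := card_badp hL
    have h2 := disc_le hX1 hbox
    rw [hk] at h2
    have h3 : Nat.log 2 (disc L).natAbs ≤ (k + k ^ 2) * (Nat.log 2 (2 * X ^ 2) + 1) := by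
      have h4 : (disc L).natAbs < 2 ^ ((k + k ^ 2) * (Nat.log 2 (2 * X ^ 2) + 1) + 1) := by
        calc (disc L).natAbs ≤ (2 * X ^ 2) ^ (k + k ^ 2) := h2
          _ ≤ (2 ^ (Nat.log 2 (2 * X ^ 2) + 1)) ^ (k + k ^ 2) :=
            Nat.pow_le_pow_left (Nat.lt_pow_succ_log_self (by norm_num) _).le _
          _ = 2 ^ ((k + k ^ 2) * (Nat.log 2 (2 * X ^ 2) + 1)) := by rw [← pow_mul, mul_comm]
          _ < _ := Nat.pow_lt_pow_right (by norm_num) (Nat.lt_succ_self _)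
      exact Nat.lt_succ_iff.1 (Nat.log_lt_of_lt_pow' (by positivity) h4)
    have h5 : Nat.log 2 (2 * X ^ 2) + 1 ≤ 17 * q * (N0 * N0) := by
      have h6 : 1 ≤ q * (N0 * N0) := Nat.mul_pos (by omega) (Nat.mul_pos (by omega) (by omega))
      have h7 := Nat.mul_le_mul_left 2 hXN
      have h8 : 2 * (8 * q * (N0 * N0)) = 16 * (q * (N0 * N0)) := by ring
      have h9 : 17 * q * (N0 * N0) = 17 * (q * (N0 * N0)) := by ring
      rw [h9]
      omega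
    have h6 : #(badp L) ≤ (k + k ^ 2) * (17 * q * (N0 * N0)) :=
      h1.trans (h3.trans (Nat.mul_le_mul_left _ h5))
    have h7 : (#(badp L) : ℝ) ≤ (((k + k ^ 2) * (17 * q * (N0 * N0)) : ℕ) : ℝ) := by exact_mod_cast h6
    refine h7.trans ?_
    push_cast
    rw [hA1]
    have h8 : (0 : ℝ) ≤ q * (k + (k : ℝ) ^ 2) * (N0 : ℝ) ^ 2 := by positivity
    have e8 : ((k : ℝ) + k ^ 2) * (17 * q * (N0 * N0)) = 17 * (q * (k + (k : ℝ) ^ 2) * (N0 : ℝ) ^ 2) := by ring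
    have e9 : 19 * (q : ℝ) * (k + (k : ℝ) ^ 2) * (N0 : ℝ) ^ 2 = 19 * (q * (k + (k : ℝ) ^ 2) * (N0 : ℝ) ^ 2) := by ring
    rw [e8, e9]
    linarith
  have h2pow : (2 : ℝ) ^ N0 = Real.exp (Real.log 2 * N0) := by
    rw [mul_comm, Real.exp_nat_mul, Real.exp_log (by norm_num)]
  have hbig : 2 * k * A1 * (N0 : ℝ) ^ 2 + 2 * k + 1 ≤ 2 ^ N0 := by
    rw [h2pow]
    refine le_trans ?_ (hn2 N0 (by omega))
    have h1 : (N0 : ℝ) ^ 2 ≤ (1 + (N0 : ℝ)) ^ 2 := pow_le_pow_left₀ (by linarith) (by linarith) 2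
    have h2 : (1 : ℝ) ≤ (1 + (N0 : ℝ)) ^ 2 := one_le_pow₀ (by linarith)
    have h3 : 2 * k * A1 * (N0 : ℝ) ^ 2 ≤ 2 * k * A1 * (1 + (N0 : ℝ)) ^ 2 :=
      mul_le_mul_of_nonneg_left h1 (by positivity)
    have h4 : (2 * (k : ℝ) + 1) * 1 ≤ (2 * k + 1) * (1 + (N0 : ℝ)) ^ 2 :=
      mul_le_mul_of_nonneg_left h2 (by positivity)
    have e5 : (2 * k * A1 + 2 * k + 1) * (1 + (N0 : ℝ)) ^ 2 =
      2 * k * A1 * (1 + (N0 : ℝ)) ^ 2 + (2 * k + 1) * (1 + (N0 : ℝ)) ^ 2 := by ring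
    rw [e5]
    linarith
  have hcond1 : 2 * k + 1 ≤ 2 ^ 2 ^ J0 := by
    rw [← hN0]
    have h1 : (2 * (k : ℝ) + 1) ≤ 2 ^ N0 := by
      have : 0 ≤ 2 * k * A1 * (N0 : ℝ) ^ 2 := by positivity
      linarith
    exact_mod_cast h1
  have hcond2 : 2 * k * #(badp L) ≤ 2 ^ 2 ^ J0 := by
    rw [← hN0]
    have h1 : (2 * (k : ℝ) * #(badp L)) ≤ 2 ^ N0 := by
      have h2 : 2 * (k : ℝ) * #(badp L) ≤ 2 * k * (A1 * (N0 : ℝ) ^ 2) :=
        mul_le_mul_of_nonneg_left hω (by positivity)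
      have h3 : 2 * (k : ℝ) * (A1 * (N0 : ℝ) ^ 2) = 2 * k * A1 * (N0 : ℝ) ^ 2 := by ring
      have : (0 : ℝ) ≤ 2 * k + 1 := by positivity
      linarith
    exact_mod_cast h1
  -- the quantities of size `ε`
  obtain ⟨ε, hε⟩ : ∃ ε : ℝ, ε = Real.exp (-(c5 * N0)) := ⟨_, rfl⟩
  have hε0 : 0 < ε := by rw [hε]; exact Real.exp_pos _
  have q1 : (1 / 2 : ℝ) ^ b ≤ 2 * ε := by
    have g1 : (1 / 2 : ℝ) ^ b = 2 * Real.exp (-(Real.log 2 * ((b : ℝ) + 1))) := by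
      have : Real.exp (-(Real.log 2 * ((b : ℝ) + 1))) = (1 / 2) ^ (b + 1) := by
        rw [show -(Real.log 2 * ((b : ℝ) + 1)) = ((b + 1 : ℕ) : ℝ) * (-Real.log 2) by push_cast; ring,
          Real.exp_nat_mul, Real.exp_neg, Real.exp_log (by norm_num)]
        norm_num
      rw [this, pow_succ]
      ring
    rw [g1, hε]
    apply mul_le_mul_of_nonneg_left _ (by norm_num)
    apply Real.exp_le_exp.2
    have g2 : (N0 : ℝ) ≤ 160 * C * q * (b + 1) := by exact_mod_cast hNb.le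
    have g3 : c5 * N0 ≤ c5 * (160 * C * q * (b + 1)) := mul_le_mul_of_nonneg_left g2 hc50.le
    have g4 : c5 * (160 * C * q * ((b : ℝ) + 1)) = Real.log 2 * (b + 1) := by
      rw [hc5]; field_simp
    linarith
  have q2 : 1 / (2 : ℝ) ^ N0 ≤ ε := by
    rw [h2pow, one_div, ← Real.exp_neg, hε]
    apply Real.exp_le_exp.2
    have := mul_le_mul_of_nonneg_right hc51 (by linarith : (0 : ℝ) ≤ N0)
    linarith
  have hYR : (0 : ℝ) < Y := by exact_mod_cast (by omega : 0 < Y)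
  have q3 : (Y : ℝ) ≤ ℓ * ε := by
    have g1 : (2 : ℝ) ^ N0 ≤ Y := by exact_mod_cast hpowY'
    have g2 : (1 : ℝ) ≤ Y * ε := by
      have h1 : (0 : ℝ) < 2 ^ N0 := by positivity
      calc (1 : ℝ) = 2 ^ N0 * (1 / 2 ^ N0) := by field_simp
        _ ≤ Y * ε := mul_le_mul g1 q2 (by positivity) hYR.le
    have g3 : (Y : ℝ) * Y ≤ ℓ := by exact_mod_cast hYY
    calc (Y : ℝ) = Y * 1 := by ring
      _ ≤ Y * (Y * ε) := mul_le_mul_of_nonneg_left g2 hYR.le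
      _ = (Y * Y) * ε := by ring
      _ ≤ _ := mul_le_mul_of_nonneg_right g3 hε0.le
  -- Mertens
  obtain ⟨R, hR⟩ : ∃ R : ℝ, R = 1 + (N0 : ℝ) := ⟨_, rfl⟩
  have hR1 : 1 ≤ R := by rw [hR]; linarith
  have hW : Wp (2 ^ 2 ^ J0) ^ k ≤ Cw ^ k * R ^ k := by
    rw [← mul_pow]
    apply pow_le_pow_left₀ (Wp_pos _).le
    have h1 := hWb (2 ^ 2 ^ J0)
    rw [← Wp_eq] at h1
    have h2 : Real.log ((2 ^ 2 ^ J0 : ℕ) : ℝ) = N0 * Real.log 2 := by
      rw [← hN0]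
      push_cast
      rw [Real.log_pow]
    rw [h2] at h1
    have h3 : Cw * ((N0 : ℝ) * Real.log 2) ≤ Cw * (N0 * 1) :=
      mul_le_mul_of_nonneg_left (mul_le_mul_of_nonneg_left (by linarith) (by linarith)) hCw.le
    rw [hR]
    linarith
  have hWk0 : 0 ≤ Wp (2 ^ 2 ^ J0) ^ k := pow_nonneg (Wp_pos _).le _
  have h𝔖le : 𝔖 ≤ 3 * (Cw ^ k * R ^ k) := by
    have h1 := (h𝔖 (2 ^ 2 ^ J0) (by rw [hk]; exact hcond1)).2
    have h2 : Real.exp (2 * #L * #(badp L) / ((2 ^ 2 ^ J0 : ℕ) : ℝ)) ≤ 3 := by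
      have h3 : 2 * (#L : ℝ) * #(badp L) / ((2 ^ 2 ^ J0 : ℕ) : ℝ) ≤ 1 := by
        rw [hk, div_le_one (by positivity)]
        exact_mod_cast hcond2
      have h4 := Real.exp_one_lt_d9
      have h5 := Real.exp_le_exp.2 h3
      linarith
    have h6 : ser L (2 ^ 2 ^ J0) ≤ Cw ^ k * R ^ k := by
      have := ser_le L (2 ^ 2 ^ J0)
      rw [hk] at this
      exact this.trans hW
    calc 𝔖 ≤ ser L (2 ^ 2 ^ J0) * Real.exp (2 * #L * #(badp L) / ((2 ^ 2 ^ J0 : ℕ) : ℝ)) := h1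
      _ ≤ (Cw ^ k * R ^ k) * 3 := mul_le_mul h6 h2 (Real.exp_pos _).le (by positivity)
      _ = _ := by ring
  -- the good points
  obtain ⟨G, hG⟩ : ∃ G : Finset ℕ, G = (Ico u v).filter (fun n => 1 ≤ n ∧ ∀ l ∈ L, Y ≤ val l n) := ⟨_, rfl⟩
  have hGsub : G ⊆ Ico u v := by rw [hG]; exact filter_subset _ _
  have hGmem : ∀ n ∈ G, (u ≤ n ∧ n < v) ∧ 1 ≤ n ∧ ∀ l ∈ L, Y ≤ val l n := by
    intro n hn
    rw [hG, mem_filter, mem_Ico] at hn
    exact hn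
  obtain ⟨g1, g2, hg12, hGI⟩ := convex_eq G (fun n hn => (hGmem n hn).2.1) (by
    intro a ha c hc d had hdc
    obtain ⟨⟨ha1, ha2⟩, ha3, ha4⟩ := hGmem a ha
    obtain ⟨⟨hc1, hc2⟩, hc3, hc4⟩ := hGmem c hc
    rw [hG, mem_filter, mem_Ico]
    refine ⟨⟨by omega, by omega⟩, by omega, fun l hl => ?_⟩
    have e1 := val_cast (by have := hpos a ha1 ha2 l hl; linarith : 0 ≤ l.1 * (a : ℤ) + l.2)
    have e2 := val_cast (by have := hpos c hc1 hc2 l hl; linarith : 0 ≤ l.1 * (c : ℤ) + l.2)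
    have e3 := val_cast (by have := hpos d (by omega) (by omega) l hl; linarith : 0 ≤ l.1 * (d : ℤ) + l.2)
    have f1 : (Y : ℤ) ≤ ((val l a : ℕ) : ℤ) := by exact_mod_cast ha4 l hl
    have f2 : (Y : ℤ) ≤ ((val l c : ℕ) : ℤ) := by exact_mod_cast hc4 l hl
    have had' : (a : ℤ) ≤ d := by exact_mod_cast had
    have hdc' : (d : ℤ) ≤ c := by exact_mod_cast hdc
    have f3 : (Y : ℤ) ≤ ((val l d : ℕ) : ℤ) := by
      rw [e1] at f1
      rw [e2] at f2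
      rw [e3]
      rcases le_total 0 l.1 with h | h
      · have := mul_le_mul_of_nonneg_left had' h
        linarith
      · have := mul_le_mul_of_nonpos_left hdc' h
        linarith
    exact_mod_cast f3)
  have hval2X : ∀ n, u ≤ n → n < v → ∀ l ∈ L, val l n ≤ 2 * X ^ 2 := by
    intro n hn1 hn2 l hl
    exact val_le_box (hbox l hl) hX1 (by omega) (by have := hpos n hn1 hn2 l hl; linarith)
  have hJ01 : J0 ≤ J1 := by
    rw [hJ0, hJ1]
    apply lev_mono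
    have h1 : Y ≤ ℓ := by rw [hY]; exact Nat.sqrt_le_self ℓ
    have h2 : ℓ ≤ X := by omega
    exact (h1.trans h2).trans (two_sq hX1).1
  have hlevG : ∀ n : ℕ, g1 + 1 ≤ n → n < g2 + 1 → ∀ l ∈ L, 0 ≤ l.1 * (n : ℤ) + l.2 ∧
      J0 ≤ lev (val l n) ∧ lev (val l n) ≤ J1 := by
    intro n hn1 hn2 l hl
    have hnG : n ∈ G := by rw [hGI, mem_Ioc]; omega
    obtain ⟨⟨h1, h2⟩, h3, h4⟩ := hGmem n hnG
    refine ⟨by have := hpos n h1 h2 l hl; linarith, ?_, ?_⟩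
    · rw [hJ0]; exact lev_mono (h4 l hl)
    · rw [hJ1]; exact lev_mono (hval2X n h1 h2 l hl)
  have hlenG : (g2 : ℝ) - g1 ≤ ℓ := by
    have h1 : #G ≤ ℓ := by
      have := card_le_card hGsub
      rw [Nat.card_Ico] at this
      omega
    rw [hGI, Nat.card_Ioc] at h1
    have h2 : ((g2 - g1 : ℕ) : ℝ) ≤ ℓ := by exact_mod_cast h1
    rwa [Nat.cast_sub hg12] at h2
  -- the bound for the partial sums
  obtain ⟨E1, hE1⟩ : ∃ E1 : ℝ, E1 = Wp (2 ^ 2 ^ J0) ^ k * (3 * (1 / 2) ^ b +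
        (4 * k * #(badp L) + (k : ℝ) ^ 2) / (2 ^ 2 ^ J0 : ℕ)) := ⟨_, rfl⟩
  obtain ⟨E2, hE2⟩ : ∃ E2 : ℝ, E2 = 2 ^ (k * (J1 + 1)) * (K * ((J1 : ℝ) + 2) * (2 ^ 2 ^ J1) ^ k *
    ((2 ^ 2 ^ J1) ^ (C * b)) ^ 2) := ⟨_, rfl⟩
  have hE10 : 0 ≤ E1 := by rw [hE1]; positivity
  have hwin : ∀ m, m ≤ g2 - g1 → |∑ i ∈ range m, (∏ l ∈ L, sw (val l (g1 + 1 + i)) - 𝔖)| ≤ ℓ * E1 + E2 := by
    intro m hm
    have h1 := HK L hL hk 𝔖 h𝔖 b J0 J1 (g1 + 1) (g1 + 1 + m) hJ01 hb1 hcond1 hcond2 (by omega) (by omega)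
      (fun n hn1 hn2 => hlevG n hn1 (by omega))
    rw [sum_Ico_eq_sum_range, Nat.add_sub_cancel_left, ← hE1, ← hE2] at h1
    refine h1.trans ?_
    apply add_le_add _ le_rfl
    apply mul_le_mul_of_nonneg_right _ hE10
    have h2 : (m : ℝ) ≤ (g2 : ℝ) - g1 := by
      have h3 : ((m : ℕ) : ℝ) ≤ ((g2 - g1 : ℕ) : ℝ) := by exact_mod_cast hm
      rwa [Nat.cast_sub hg12] at h3
    push_cast
    linarith
  have hDnn : 0 ≤ ℓ * E1 + E2 := le_trans (abs_nonneg _) (hwin 0 (by omega))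
  -- the sum over the good points
  have hgood : |∑ n ∈ G, (∏ l ∈ L, den M (val l n) - 𝔖 * lwZ L n)| ≤
      (ℓ * E1 + E2) * ((k + 1) * 2 ^ k) := by
    have h1 : ∑ n ∈ G, (∏ l ∈ L, den M (val l n) - 𝔖 * lwZ L n) =
        ∑ i ∈ range (g2 - g1), (∏ l ∈ L, sw (val l (g1 + 1 + i)) - 𝔖) * lwZ L (min (g1 + 1 + i) g2) := by
      have h2 : G = Ico (g1 + 1) (g2 + 1) := by
        rw [hGI]; ext n; rw [mem_Ioc, mem_Ico]; omega
      rw [h2, sum_Ico_eq_sum_range]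
      have h3 : g2 + 1 - (g1 + 1) = g2 - g1 := by omega
      rw [h3]
      apply sum_congr rfl
      intro i hi
      rw [mem_range] at hi
      have hmin : min (g1 + 1 + i) g2 = g1 + 1 + i := by omega
      rw [hmin]
      have hnG : g1 + 1 + i ∈ G := by rw [hGI, mem_Ioc]; omega
      obtain ⟨_, _, h4⟩ := hGmem _ hnG
      have h5 : ∏ l ∈ L, den M (val l (g1 + 1 + i)) = (∏ l ∈ L, sw (val l (g1 + 1 + i))) * lwZ L (g1 + 1 + i) := by
        unfold lwZ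
        rw [← prod_mul_distrib]
        apply prod_congr rfl
        intro l hl
        have := h4 l hl
        unfold den
        rw [if_pos (by omega)]
        ring
      rw [h5]
      ring
    rw [h1]
    rcases Nat.lt_or_ge g1 g2 with hlt | hge
    · refine (abel_tv (fun n => ∏ l ∈ L, sw (val l n) - 𝔖) (fun n => lwZ L (min n g2)) (g1 + 1) (g2 - g1)
        (ℓ * E1 + E2) hwin).trans ?_
      apply mul_le_mul_of_nonneg_left _ hDnn
      have h6 := tv_lwZ L (g1 + 1) g2 (g2 - g1) (by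
        intro n hn1 hn2 l hl
        have hnG : n ∈ G := by rw [hGI, mem_Ioc]; omega
        obtain ⟨⟨h1, h2⟩, _⟩ := hGmem n hnG
        exact hpos n h1 h2 l hl) (by omega)
      have h7 := lwZ_bounds L (min (g1 + 1 + (g2 - g1)) g2)
      rw [hk] at h6 h7
      rw [abs_of_nonneg h7.1]
      linarith
    · have : g2 - g1 = 0 := by omega
      rw [this, range_zero, sum_empty, abs_zero]
      positivity
  -- the other points
  have hout : |∑ n ∈ Ico u v \ G, (∏ l ∈ L, den M (val l n) - 𝔖 * lwZ L n)| ≤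
      ((k + 1) * Y) * (D0 ^ k + 𝔖 * 2 ^ k) := by
    have h1 : #(Ico u v \ G) ≤ k * Y + 1 := by
      have h2 := card_outside hL Y hpos
      rw [hk] at h2
      refine le_trans (le_of_eq ?_) h2
      congr 1
      rw [hG]
      ext n
      rw [Finset.mem_sdiff, mem_filter, mem_filter]
      constructor
      · rintro ⟨h1, h2⟩
        exact ⟨h1, fun h3 => h2 ⟨h1, h3⟩⟩
      · rintro ⟨h1, h2⟩
        exact ⟨h1, fun h3 => h2 h3.2⟩
    calc _ ≤ ∑ n ∈ Ico u v \ G, |∏ l ∈ L, den M (val l n) - 𝔖 * lwZ L n| := abs_sum_le_sum_abs _ _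
      _ ≤ ∑ n ∈ Ico u v \ G, (D0 ^ k + 𝔖 * 2 ^ k) := by
          apply sum_le_sum
          intro n _
          have a1 : 0 ≤ ∏ l ∈ L, den M (val l n) := prod_nonneg fun _ _ => den_nonneg _ _
          have a2 : ∏ l ∈ L, den M (val l n) ≤ D0 ^ k := by
            rw [← hk, ← prod_const]
            exact prod_le_prod (fun _ _ => den_nonneg _ _) (fun _ _ => hden _ _)
          obtain ⟨a3, a4⟩ := lwZ_bounds L n
          rw [hk] at a4
          have a5 : 𝔖 * lwZ L n ≤ 𝔖 * 2 ^ k := mul_le_mul_of_nonneg_left a4 h𝔖0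
          have a6 : 0 ≤ 𝔖 * lwZ L n := mul_nonneg h𝔖0 a3
          have a7 : (0 : ℝ) ≤ D0 ^ k := by positivity
          rw [abs_le]
          constructor <;> linarith
      _ = #(Ico u v \ G) * (D0 ^ k + 𝔖 * 2 ^ k) := by rw [sum_const, nsmul_eq_mul]
      _ ≤ _ := by
          apply mul_le_mul_of_nonneg_right _ (by positivity)
          have h2 : (#(Ico u v \ G) : ℝ) ≤ k * Y + 1 := by exact_mod_cast h1
          have h3 : (1 : ℝ) ≤ Y := by exact_mod_cast (by omega : 1 ≤ Y)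
          linarith
  -- the size of the errors
  have hE1le : E1 ≤ Cw ^ k * R ^ k * ((6 + 4 * k * A1 + k ^ 2) * R ^ 2 * ε) := by
    rw [hE1]
    apply mul_le_mul hW _ (by positivity) (by positivity)
    have e1 : (4 * (k : ℝ) * #(badp L) + (k : ℝ) ^ 2) / (2 ^ 2 ^ J0 : ℕ) =
        (4 * (k : ℝ) * #(badp L) + (k : ℝ) ^ 2) * (1 / 2 ^ N0) := by
      rw [← hN0]; push_cast; ring
    rw [e1]
    have h1 : 4 * (k : ℝ) * #(badp L) ≤ 4 * k * (A1 * (N0 : ℝ) ^ 2) := mul_le_mul_of_nonneg_left hω (by positivity)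
    have hRN : (N0 : ℝ) ^ 2 ≤ R ^ 2 := by
      apply pow_le_pow_left₀ (by linarith)
      rw [hR]; linarith
    have hR2 : (1 : ℝ) ≤ R ^ 2 := one_le_pow₀ hR1
    have h2 : 4 * (k : ℝ) * (A1 * (N0 : ℝ) ^ 2) ≤ 4 * k * A1 * R ^ 2 := by
      have : 4 * (k : ℝ) * A1 * (N0 : ℝ) ^ 2 ≤ 4 * k * A1 * R ^ 2 := mul_le_mul_of_nonneg_left hRN (by positivity)
      linarith
    have h3 : (k : ℝ) ^ 2 * 1 ≤ k ^ 2 * R ^ 2 := mul_le_mul_of_nonneg_left hR2 (by positivity)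
    have h4 : (4 * (k : ℝ) * #(badp L) + (k : ℝ) ^ 2) * (1 / 2 ^ N0) ≤ (4 * k * A1 * R ^ 2 + k ^ 2 * R ^ 2) * ε :=
      mul_le_mul (by linarith) q2 (by positivity) (by positivity)
    have h5 : 6 * ε ≤ 6 * R ^ 2 * ε := by
      apply mul_le_mul_of_nonneg_right _ hε0.le
      linarith
    have e2 : (6 + 4 * k * A1 + (k : ℝ) ^ 2) * R ^ 2 * ε = 6 * R ^ 2 * ε + (4 * k * A1 * R ^ 2 + k ^ 2 * R ^ 2) * ε := by
      ring
    rw [e2]
    linarith
  have hE2le : E2 ≤ K * (ℓ * ε) := by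
    have h1 : (2 : ℝ) ^ (k * (J1 + 1)) * (((J1 : ℝ) + 2) * (2 ^ 2 ^ J1) ^ k * ((2 ^ 2 ^ J1) ^ (C * b)) ^ 2) ≤ Y := by
      rw [← hN1]
      have f1 : J1 + 1 ≤ N1 := by rw [hN1]; exact Nat.succ_le_of_lt Nat.lt_two_pow_self
      have f2 : (2 : ℝ) ^ (k * (J1 + 1)) ≤ 2 ^ (k * N1) :=
        pow_le_pow_right₀ (by norm_num) (Nat.mul_le_mul_left _ f1)
      have f3 : (J1 : ℝ) + 2 ≤ 2 ^ N1 := by
        have : J1 + 2 ≤ 2 ^ N1 := by
          have : N1 < 2 ^ N1 := Nat.lt_two_pow_self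
          omega
        exact_mod_cast this
      have f4 : (2 : ℝ) ^ (k * (J1 + 1)) * (((J1 : ℝ) + 2) * (2 ^ N1) ^ k * ((2 ^ N1) ^ (C * b)) ^ 2) ≤
          2 ^ (k * N1) * (2 ^ N1 * (2 ^ N1) ^ k * ((2 ^ N1) ^ (C * b)) ^ 2) := by
        gcongr
      have f5 : (2 : ℝ) ^ (k * N1) * (2 ^ N1 * (2 ^ N1) ^ k * ((2 ^ N1) ^ (C * b)) ^ 2) =
          2 ^ ((2 * k + 1) * N1 + 2 * (C * b) * N1) := by
        rw [← pow_mul, ← pow_mul, ← pow_mul, ← pow_add, ← pow_add, ← pow_add]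
        congr 1
        ring
      have f6 : (2 * k + 1) * N1 + 2 * (C * b) * N1 ≤ Nat.log 2 Y := by
        refine le_trans ?_ hN0Y
        have d1 : (2 * k + 1) * N1 ≤ (2 * k + 1) * (5 * q * N0) := Nat.mul_le_mul_left _ hN1N0
        have d2 : 2 * (C * b) * N1 ≤ 2 * (C * b) * (5 * q * N0) := Nat.mul_le_mul_left _ hN1N0
        have d3 : N0 * (80 * q * (2 * k + 1)) ≤ N0 * N0 := Nat.mul_le_mul_left _ (by omega)
        have d4 : N0 * (160 * C * q * b) ≤ N0 * N0 := Nat.mul_le_mul_left _ hbN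
        have e3 : 16 * ((2 * k + 1) * (5 * q * N0)) = N0 * (80 * q * (2 * k + 1)) := by ring
        have e4 : 16 * (2 * (C * b) * (5 * q * N0)) = N0 * (160 * C * q * b) := by ring
        omega
      calc _ ≤ _ := f4
        _ = _ := f5
        _ ≤ (2 : ℝ) ^ (Nat.log 2 Y) := pow_le_pow_right₀ (by norm_num) f6
        _ ≤ Y := by exact_mod_cast Nat.pow_log_le_self 2 (by omega : Y ≠ 0)
    rw [hE2]
    calc _ = K * ((2 : ℝ) ^ (k * (J1 + 1)) * (((J1 : ℝ) + 2) * (2 ^ 2 ^ J1) ^ k * ((2 ^ 2 ^ J1) ^ (C * b)) ^ 2)) := by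
          ring
      _ ≤ K * Y := mul_le_mul_of_nonneg_left h1 hK
      _ ≤ _ := mul_le_mul_of_nonneg_left q3 hK
  -- conclusion
  have hRk1 : (1 : ℝ) ≤ R ^ k := one_le_pow₀ hR1
  have hRk2 : R ^ (k + 2) = R ^ k * R ^ 2 := pow_add R k 2
  have hR2 : (1 : ℝ) ≤ R ^ 2 := one_le_pow₀ hR1
  have hRk : (1 : ℝ) ≤ R ^ (k + 2) := one_le_pow₀ hR1
  have hℓε : 0 ≤ (ℓ : ℝ) * ε := by positivity
  have ht1 : ((k + 1) * (Y : ℝ)) * (D0 ^ k + 𝔖 * 2 ^ k) ≤
      ((k + 1) * (D0 ^ k + 3 * Cw ^ k * 2 ^ k)) * (R ^ (k + 2) * (ℓ * ε)) := by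
    have h1 : D0 ^ k + 𝔖 * 2 ^ k ≤ (D0 ^ k + 3 * Cw ^ k * 2 ^ k) * R ^ (k + 2) := by
      have h2 : 𝔖 * 2 ^ k ≤ 3 * (Cw ^ k * R ^ k) * 2 ^ k := mul_le_mul_of_nonneg_right h𝔖le (by positivity)
      have h3 : R ^ k ≤ R ^ (k + 2) := pow_le_pow_right₀ hR1 (by omega)
      have h4 : (3 * Cw ^ k * 2 ^ k) * R ^ k ≤ (3 * Cw ^ k * 2 ^ k) * R ^ (k + 2) :=
        mul_le_mul_of_nonneg_left h3 (by positivity)
      have h5 : D0 ^ k * 1 ≤ D0 ^ k * R ^ (k + 2) := mul_le_mul_of_nonneg_left hRk (by positivity)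
      have e5 : 3 * (Cw ^ k * R ^ k) * 2 ^ k = (3 * Cw ^ k * 2 ^ k) * R ^ k := by ring
      have e6 : (D0 ^ k + 3 * Cw ^ k * 2 ^ k) * R ^ (k + 2) = D0 ^ k * R ^ (k + 2) + (3 * Cw ^ k * 2 ^ k) * R ^ (k + 2) := by
        ring
      rw [e6]
      linarith
    calc ((k + 1) * (Y : ℝ)) * (D0 ^ k + 𝔖 * 2 ^ k)
        ≤ ((k + 1) * (ℓ * ε)) * ((D0 ^ k + 3 * Cw ^ k * 2 ^ k) * R ^ (k + 2)) :=
          mul_le_mul (mul_le_mul_of_nonneg_left q3 (by positivity)) h1 (by positivity) (by positivity)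
      _ = _ := by ring
  have ht2 : (ℓ * E1 + E2) * ((k + 1) * 2 ^ k) ≤
      ((k + 1) * 2 ^ k * (Cw ^ k * (6 + 4 * k * A1 + k ^ 2) + K)) * (R ^ (k + 2) * (ℓ * ε)) := by
    have h1 : (ℓ : ℝ) * E1 ≤ Cw ^ k * (6 + 4 * k * A1 + k ^ 2) * (R ^ (k + 2) * (ℓ * ε)) := by
      calc (ℓ : ℝ) * E1 ≤ ℓ * (Cw ^ k * R ^ k * ((6 + 4 * k * A1 + k ^ 2) * R ^ 2 * ε)) :=
            mul_le_mul_of_nonneg_left hE1le (Nat.cast_nonneg _)
        _ = _ := by rw [hRk2]; ring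
    have h2 : E2 ≤ K * (R ^ (k + 2) * (ℓ * ε)) := by
      refine hE2le.trans (mul_le_mul_of_nonneg_left ?_ hK)
      exact le_mul_of_one_le_left hℓε hRk
    calc (ℓ * E1 + E2) * ((k + 1) * 2 ^ k)
        ≤ (Cw ^ k * (6 + 4 * k * A1 + k ^ 2) * (R ^ (k + 2) * (ℓ * ε)) + K * (R ^ (k + 2) * (ℓ * ε))) *
          ((k + 1) * 2 ^ k) := mul_le_mul_of_nonneg_right (add_le_add h1 h2) (by positivity)
      _ = _ := by ring
  have hfin : |∑ n ∈ Ico u v, ∏ l ∈ L, den M (val l n) - 𝔖 * ∑ n ∈ Ico u v, lwZ L n| ≤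
      Q * R ^ (k + 2) * (ℓ * ε) := by
    have e1 : ∑ n ∈ Ico u v, ∏ l ∈ L, den M (val l n) - 𝔖 * ∑ n ∈ Ico u v, lwZ L n =
        ∑ n ∈ Ico u v \ G, (∏ l ∈ L, den M (val l n) - 𝔖 * lwZ L n) +
          ∑ n ∈ G, (∏ l ∈ L, den M (val l n) - 𝔖 * lwZ L n) := by
      rw [sum_sdiff hGsub, sum_sub_distrib, ← mul_sum]
    rw [e1]
    calc _ ≤ _ := abs_add_le _ _
      _ ≤ ((k + 1) * (Y : ℝ)) * (D0 ^ k + 𝔖 * 2 ^ k) + (ℓ * E1 + E2) * ((k + 1) * 2 ^ k) := add_le_add hout hgood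
      _ ≤ ((k + 1) * (D0 ^ k + 3 * Cw ^ k * 2 ^ k)) * (R ^ (k + 2) * (ℓ * ε)) +
          ((k + 1) * 2 ^ k * (Cw ^ k * (6 + 4 * k * A1 + k ^ 2) + K)) * (R ^ (k + 2) * (ℓ * ε)) :=
          add_le_add ht1 ht2
      _ = _ := by rw [hQ]; ring
  refine hfin.trans ?_
  rw [hℓR]
  have h1 := hn1 N0 (by omega)
  rw [← hR] at h1
  have h2 : Real.exp (c5 / 2 * N0) * ε = Real.exp (-(c5 / 2 * N0)) := by
    rw [hε, ← Real.exp_add]
    congr 1
    ring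
  have h3 : Real.sqrt (Real.log X) ≤ 3 * q * N0 := by
    rw [Real.sqrt_le_left (by positivity)]
    have h4 : (X : ℝ) ≤ 2 ^ (8 * q * (N0 * N0)) := by
      have h5 : X < 2 ^ (Nat.log 2 X + 1) := Nat.lt_pow_succ_log_self (by norm_num) _
      exact_mod_cast h5.le.trans (Nat.pow_le_pow_right (by norm_num) hXN)
    have h6 : Real.log X ≤ (8 * q * (N0 * N0) : ℕ) * Real.log 2 := by
      rw [← Real.log_pow]
      apply Real.log_le_log (by exact_mod_cast hX1)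
      exact h4
    push_cast at h6
    have h7 : 8 * (q : ℝ) * (N0 * N0) * Real.log 2 ≤ 8 * q * (N0 * N0) * 1 :=
      mul_le_mul_of_nonneg_left (by linarith) (by positivity)
    have h8 : (3 * (q : ℝ) * N0) ^ 2 = 9 * (q * q) * (N0 * N0) := by ring
    have h9 : 8 * (q : ℝ) * (N0 * N0) ≤ 9 * (q * q) * (N0 * N0) := by
      apply mul_le_mul_of_nonneg_right _ (by positivity)
      have h10 : (q : ℝ) * 1 ≤ q * q := mul_le_mul_of_nonneg_left hqR (by linarith)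
      linarith
    rw [h8]
    linarith
  have h4 : Real.exp (-(c5 / 2 * N0)) ≤ Real.exp (-(c5 / (6 * q) * Real.sqrt (Real.log X))) := by
    apply Real.exp_le_exp.2
    have h5 : c5 / (6 * q) * Real.sqrt (Real.log X) ≤ c5 / (6 * q) * (3 * q * N0) :=
      mul_le_mul_of_nonneg_left h3 (by positivity)
    have h6 : c5 / (6 * q) * (3 * q * N0) = c5 / 2 * N0 := by field_simp; ring
    linarith
  calc Q * R ^ (k + 2) * (ℓ * ε) ≤ Real.exp (c5 / 2 * N0) * (ℓ * ε) := mul_le_mul_of_nonneg_right h1 hℓε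
    _ = ℓ * (Real.exp (c5 / 2 * N0) * ε) := by ring
    _ = ℓ * Real.exp (-(c5 / 2 * N0)) := by rw [h2]
    _ ≤ _ := mul_le_mul_of_nonneg_left h4 (Nat.cast_nonneg _)

end Pool.Agent.U462.Sh
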