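import Pool.Agent.U462.Sh.ZOn

/-!
# Many values where the law holds
-/

set_option autoImplicit false
set_option maxHeartbeats 4000000

open Finset Filter Topology

namespace Pool.Agent.U462.Sh

/-- For a fixed admissible system the law gives many values in long intervals. -/
lemma many {S : Set ℕ} {good : Finset (ℤ × ℤ) → ℕ → ℕ → Prop} (hlaw : Law.LawOn S good) (L : Finset (ℤ × ℤ))
    (hL : Law.IsSystem L) (hadm : ∀ p : ℕ, p.Prime → Law.rootCount L p < p) (δ : ℝ) (hδ : 0 < δ) (K : ℕ) :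
    ∃ X₀ : ℕ, ∀ X : ℕ, X₀ ≤ X → ∀ u v : ℕ, u < v → v ≤ X → (X : ℝ) ^ δ ≤ (v : ℝ) - u →
      (∀ n : ℕ, u ≤ n → n < v → ∀ l ∈ L, 2 ≤ l.1 * (n : ℤ) + l.2) → good L u v → K ≤ Law.count S L u v := by
  classical
  obtain ⟨c, hc, h1⟩ := hlaw δ hδ
  obtain ⟨X1, h2⟩ := h1 #L
  obtain ⟨B, hB⟩ : ∃ B : ℕ, B = ∑ l ∈ L, (l.1.natAbs + l.2.natAbs) := ⟨_, rfl⟩
  have hbox : ∀ X : ℕ, B ≤ X → ∀ l ∈ L, |l.1| ≤ X ∧ |l.2| ≤ X := by
    intro X hX l hl
    have h3 : l.1.natAbs + l.2.natAbs ≤ B := by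
      rw [hB]
      exact single_le_sum (f := fun l : ℤ × ℤ => l.1.natAbs + l.2.natAbs) (fun _ _ => Nat.zero_le _) hl
    have e1 : |l.1| = (l.1.natAbs : ℤ) := (Int.natCast_natAbs l.1).symm
    have e2 : |l.2| = (l.2.natAbs : ℤ) := (Int.natCast_natAbs l.2).symm
    rw [e1, e2]
    constructor
    · exact_mod_cast (by omega : l.1.natAbs ≤ X)
    · exact_mod_cast (by omega : l.2.natAbs ≤ X)
  -- the singular series
  obtain ⟨𝔖, hlim, hpos, _⟩ := h2 (X1 + B) (by omega) L hL rfl (hbox _ (by omega))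
  have h𝔖 := hpos hadm
  obtain ⟨k, hk⟩ : ∃ k, k = #L := ⟨_, rfl⟩
  -- large X
  have htz : Tendsto (fun X : ℕ => Real.sqrt (Real.log X)) atTop atTop :=
    Real.tendsto_sqrt_atTop.comp (Real.tendsto_log_atTop.comp tendsto_natCast_atTop_atTop)
  obtain ⟨X2, hX2⟩ := eventually_atTop.1 (htz.eventually
    (((poly_expR (2 * 3 ^ k / 𝔖) c hc (2 * k)).and (poly_expR (K * (2 * 3 ^ k) / 𝔖) δ hδ (2 * k))).and
      (eventually_ge_atTop 1)))
  refine ⟨X1 + B + X2 + 2, ?_⟩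
  intro X hX u v huv hvX hlen hval hgood
  obtain ⟨𝔖', hlim', _, h3⟩ := h2 X (by omega) L hL rfl (hbox X (by omega))
  have hSS : 𝔖' = 𝔖 := tendsto_nhds_unique hlim' hlim
  rw [hSS] at h3
  have h4 := h3 u v huv hvX hlen hval hgood
  obtain ⟨⟨h5, h6⟩, h7⟩ := hX2 X (by omega)
  obtain ⟨z, hz⟩ : ∃ z, z = Real.sqrt (Real.log X) := ⟨_, rfl⟩
  rw [← hz] at h4 h5 h6 h7
  have hXR : (2 : ℝ) ≤ X := by exact_mod_cast (by omega : 2 ≤ X)
  have hzsq : z ^ 2 = Real.log X := by rw [hz]; exact Real.sq_sqrt (Real.log_natCast_nonneg X)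
  have hN0 : 0 ≤ (v : ℝ) - u := by
    rw [sub_nonneg]; exact_mod_cast huv.le
  -- the weight
  have hw : ((v : ℝ) - u) / (3 * z ^ 2) ^ k ≤ Law.weight L u v := by
    unfold Law.weight
    have h8 : ∀ n ∈ Ico u v, 1 / (3 * z ^ 2) ^ k ≤ ∏ l ∈ L, 1 / Real.log (Law.value l n) := by
      intro n hn
      rw [mem_Ico] at hn
      rw [hk, ← one_div_pow, ← prod_const]
      apply Finset.prod_le_prod
      · intro _ _; positivity
      · intro l hl
        have h9 := hval n hn.1 hn.2 l hl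
        have h10 : ((Law.value l n : ℕ) : ℤ) = l.1 * (n : ℤ) + l.2 := Int.toNat_of_nonneg (by linarith)
        have h11 : (2 : ℝ) ≤ Law.value l n := by
          have : (2 : ℤ) ≤ ((Law.value l n : ℕ) : ℤ) := by rw [h10]; exact h9
          exact_mod_cast this
        have h12 : ((Law.value l n : ℕ) : ℝ) ≤ (X : ℝ) ^ 3 := by
          have h13 := hbox X (by omega) l hl
          have h14 : l.1 * (n : ℤ) ≤ X * X := by
            have h15 : l.1 ≤ X := (le_abs_self _).trans h13.1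
            have h16 : (n : ℤ) ≤ X := by exact_mod_cast (by omega : n ≤ X)
            have h17 : (0 : ℤ) ≤ n := Int.natCast_nonneg n
            have h18 : (0 : ℤ) ≤ X := Int.natCast_nonneg X
            calc l.1 * (n : ℤ) ≤ X * n := mul_le_mul_of_nonneg_right h15 h17
              _ ≤ X * X := mul_le_mul_of_nonneg_left h16 h18
          have h19 : l.2 ≤ X := (le_abs_self _).trans h13.2
          have h20 : ((Law.value l n : ℕ) : ℤ) ≤ X * X + X := by rw [h10]; linarith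
          have h21 : ((Law.value l n : ℕ) : ℝ) ≤ X * X + X := by exact_mod_cast h20
          nlinarith
        have h22 : Real.log (Law.value l n) ≤ 3 * z ^ 2 := by
          rw [hzsq]
          have := Real.log_le_log (by linarith) h12
          rwa [Real.log_pow] at this
        exact one_div_le_one_div_of_le (Real.log_pos (by linarith)) h22
    have h23 := sum_le_sum h8
    rw [sum_const, nsmul_eq_mul, Nat.card_Ico, Nat.cast_sub huv.le] at h23
    refine le_trans (le_of_eq ?_) h23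
    ring
  have hzpos : (0 : ℝ) < (3 * z ^ 2) ^ k := by positivity
  have hz1 : z ^ (2 * k) ≤ (1 + z) ^ (2 * k) := pow_le_pow_left₀ (by linarith) (by linarith) _
  -- the error is at most half of the main term
  have h8 : Real.exp (-(c * z)) ≤ 𝔖 / (2 * (3 * z ^ 2) ^ k) := by
    rw [Real.exp_neg, inv_eq_one_div, div_le_div_iff₀ (Real.exp_pos _) (by positivity), one_mul]
    have e1 : 2 * 3 ^ k / 𝔖 * z ^ (2 * k) = 2 * (3 * z ^ 2) ^ k / 𝔖 := by
      rw [mul_pow, ← pow_mul]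
      ring
    replace h5 := (mul_le_mul_of_nonneg_left hz1 (by positivity)).trans h5
    rw [e1, div_le_iff₀ h𝔖] at h5
    linarith
  have h9 : (K : ℝ) ≤ (X : ℝ) ^ δ * (𝔖 / (2 * (3 * z ^ 2) ^ k)) := by
    have e1 : (K : ℝ) * (2 * 3 ^ k) / 𝔖 * z ^ (2 * k) = K * (2 * (3 * z ^ 2) ^ k) / 𝔖 := by
      rw [mul_pow, ← pow_mul]
      ring
    replace h6 := (mul_le_mul_of_nonneg_left hz1 (by positivity)).trans h6
    rw [e1, div_le_iff₀ h𝔖] at h6
    have h10 : Real.exp (δ * z) ≤ (X : ℝ) ^ δ := by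
      rw [Real.rpow_def_of_pos (by linarith), Real.exp_le_exp, ← hzsq]
      have h15 : 0 ≤ δ * z * (z - 1) := mul_nonneg (mul_nonneg hδ.le (by linarith)) (by linarith)
      nlinarith [h15]
    rw [← mul_div_assoc, le_div_iff₀ (by positivity)]
    refine h6.trans ?_
    exact mul_le_mul_of_nonneg_right h10 h𝔖.le
  have h10 : (K : ℝ) ≤ ((v : ℝ) - u) * (𝔖 / (2 * (3 * z ^ 2) ^ k)) :=
    h9.trans (mul_le_mul_of_nonneg_right hlen (by positivity))
  have h11 : 𝔖 * (((v : ℝ) - u) / (3 * z ^ 2) ^ k) ≤ 𝔖 * Law.weight L u v :=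
    mul_le_mul_of_nonneg_left hw h𝔖.le
  have h12 := (abs_le.1 h4).1
  have h13 := mul_le_mul_of_nonneg_left h8 hN0
  have e2 : 𝔖 * (((v : ℝ) - u) / (3 * z ^ 2) ^ k) = 2 * (((v : ℝ) - u) * (𝔖 / (2 * (3 * z ^ 2) ^ k))) := by
    field_simp
  have h14 : (K : ℝ) ≤ (Law.count S L u v : ℝ) := by linarith
  exact_mod_cast h14

end Pool.Agent.U462.Sh
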