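import Pool.Agent.U462.Sh.Lev

/-!
# Singular series of systems of linear forms with integer coefficients, uniformly
-/

set_option autoImplicit false
set_option maxHeartbeats 1000000

open Finset Filter Topology

namespace Pool.Agent.U462.Sh

/-- The residues `r` modulo `p` for which `p` divides `a r + b` for some `(a, b)` in `L`. -/
def rts (L : Finset (ℤ × ℤ)) (p : ℕ) : Finset ℕ :=
  (range p).filter fun r => ∃ l ∈ L, (p : ℤ) ∣ l.1 * (r : ℤ) + l.2

/-- The partial product of the singular series. -/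
noncomputable def ser (L : Finset (ℤ × ℤ)) (t : ℕ) : ℝ :=
  ∏ p ∈ primesUpTo t, (1 - ((rts L p).card : ℝ) / p) / (1 - 1 / (p : ℝ)) ^ L.card

/-- `L` is a finite set of primitive linear forms, no two of them proportional. -/
def IsSys (L : Finset (ℤ × ℤ)) : Prop :=
  (∀ l ∈ L, l.1 ≠ 0 ∧ IsCoprime l.1 l.2) ∧ ∀ l ∈ L, ∀ l' ∈ L, l ≠ l' → l.1 * l'.2 ≠ l'.1 * l.2

/-- the discriminant -/
def disc (L : Finset (ℤ × ℤ)) : ℤ := (∏ l ∈ L, l.1) * ∏ q ∈ L.offDiag, (q.1.1 * q.2.2 - q.2.1 * q.1.2)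

lemma disc_ne {L : Finset (ℤ × ℤ)} (hL : IsSys L) : disc L ≠ 0 := by
  unfold disc
  apply mul_ne_zero
  · exact prod_ne_zero_iff.2 fun l hl => (hL.1 l hl).1
  · apply prod_ne_zero_iff.2
    intro q hq
    rw [mem_offDiag] at hq
    exact sub_ne_zero.2 (hL.2 _ hq.1 _ hq.2.1 hq.2.2)

lemma rts_subset (L : Finset (ℤ × ℤ)) (p : ℕ) : rts L p ⊆ range p := filter_subset _ _

lemma rts_single (p : ℕ) (hp : p.Prime) (l : ℤ × ℤ) (h : ¬ (p : ℤ) ∣ l.1) :
    ∃ r, rts {l} p = {r} := by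
  have : Fact p.Prime := ⟨hp⟩
  have ha : (l.1 : ZMod p) ≠ 0 := by
    rw [Ne, ZMod.intCast_zmod_eq_zero_iff_dvd]; exact h
  refine ⟨((-(l.2 : ZMod p)) * (l.1 : ZMod p)⁻¹).val, ?_⟩
  ext r
  unfold rts
  simp only [mem_filter, mem_range, mem_singleton, exists_eq_left]
  constructor
  · rintro ⟨h1, h2⟩
    rw [← ZMod.intCast_zmod_eq_zero_iff_dvd] at h2
    push_cast at h2
    have h3 : (r : ZMod p) = (-(l.2 : ZMod p)) * (l.1 : ZMod p)⁻¹ := by
      field_simp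
      linear_combination h2
    rw [← h3, ZMod.val_natCast, Nat.mod_eq_of_lt h1]
  · rintro rfl
    refine ⟨ZMod.val_lt _, ?_⟩
    rw [← ZMod.intCast_zmod_eq_zero_iff_dvd]
    push_cast
    rw [ZMod.natCast_zmod_val]
    field_simp
    ring

lemma rts_single_le (p : ℕ) (hp : p.Prime) (l : ℤ × ℤ) (h : IsCoprime l.1 l.2) :
    (rts {l} p).card ≤ 1 := by
  by_cases h1 : (p : ℤ) ∣ l.1
  · have : rts {l} p = ∅ := by
      unfold rts
      rw [filter_eq_empty_iff]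
      intro r _
      simp only [mem_singleton, exists_eq_left]
      intro h2
      have h3 : (p : ℤ) ∣ l.2 := (dvd_add_right (h1.mul_right (r : ℤ))).1 h2
      have h4 := h.isUnit_of_dvd' h1 h3
      rw [Int.isUnit_iff] at h4
      have := hp.one_lt
      omega
    rw [this]; simp
  · obtain ⟨r, hr⟩ := rts_single p hp l h1
    rw [hr]; simp

lemma rts_biUnion (L : Finset (ℤ × ℤ)) (p : ℕ) : rts L p = L.biUnion fun l => rts {l} p := by
  ext r
  simp only [rts, mem_filter, mem_biUnion, mem_singleton, exists_eq_left, mem_range]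
  constructor
  · rintro ⟨h1, l, h2, h3⟩; exact ⟨l, h2, h1, h3⟩
  · rintro ⟨l, h2, h1, h3⟩; exact ⟨h1, l, h2, h3⟩

lemma rts_card_le {L s : Finset (ℤ × ℤ)} (hL : IsSys L) (hs : s ⊆ L) (p : ℕ) (hp : p.Prime) :
    (rts s p).card ≤ s.card := by
  rw [rts_biUnion]
  refine (card_biUnion_le_card_mul s _ 1 fun l hl => rts_single_le p hp l (hL.1 l (hs hl)).2).trans ?_
  rw [mul_one]

lemma rts_card {L s : Finset (ℤ × ℤ)} (hs : s ⊆ L) (p : ℕ) (hp : p.Prime)
    (hd : ¬ (p : ℤ) ∣ disc L) : (rts s p).card = s.card := by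
  have hp' : Prime (p : ℤ) := Nat.prime_iff_prime_int.1 hp
  have hd1 : ∀ l ∈ L, ¬ (p : ℤ) ∣ l.1 := by
    intro l hl h
    apply hd
    unfold disc
    exact (h.trans (dvd_prod_of_mem _ hl)).mul_right _
  have hd2 : ∀ l ∈ L, ∀ l' ∈ L, l ≠ l' → ¬ (p : ℤ) ∣ l.1 * l'.2 - l'.1 * l.2 := by
    intro l hl l' hl' hne h
    apply hd
    unfold disc
    refine Dvd.dvd.mul_left (h.trans ?_) _
    exact dvd_prod_of_mem (fun q : (ℤ × ℤ) × (ℤ × ℤ) => q.1.1 * q.2.2 - q.2.1 * q.1.2)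
      (mem_offDiag.2 ⟨hl, hl', hne⟩ : (l, l') ∈ L.offDiag)
  rw [rts_biUnion, card_biUnion]
  · have : ∀ l ∈ s, (rts {l} p).card = 1 := by
      intro l hl
      obtain ⟨r, hr⟩ := rts_single p hp l (hd1 l (hs hl))
      rw [hr]; simp
    rw [sum_congr rfl this]
    simp
  · intro l hl l' hl' hne
    show Disjoint (rts {l} p) (rts {l'} p)
    rw [disjoint_left]
    intro r h1 h2
    replace hl : l ∈ s := hl
    replace hl' : l' ∈ s := hl'
    simp only [rts, mem_filter, mem_singleton, exists_eq_left, mem_range] at h1 h2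
    apply hd2 l (hs hl) l' (hs hl') hne
    have := dvd_sub (dvd_mul_of_dvd_right h2.2 l.1) (dvd_mul_of_dvd_right h1.2 l'.1)
    have e3 : l.1 * (l'.1 * (r : ℤ) + l'.2) - l'.1 * (l.1 * r + l.2) = l.1 * l'.2 - l'.1 * l.2 := by ring
    rwa [e3] at this

/-- the local factor -/
noncomputable def phi (c m p : ℕ) : ℝ := (1 - (c : ℝ) / p) / (1 - 1 / (p : ℝ)) ^ m

lemma phi_bounds (c m k p : ℕ) (hc : c ≤ m) (hm : m ≤ k) (hp : 2 * k ≤ p) (hp2 : 2 ≤ p) :
    1 - (k : ℝ) ^ 2 * ((p : ℝ) ^ 2)⁻¹ ≤ phi c m p ∧ 0 ≤ phi c m p ∧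
      phi c m p ≤ Real.exp (2 * k / p) ∧ (c = m → phi c m p ≤ 1) := by
  obtain ⟨h1, h2, h3⟩ := fm_bounds m k p hm hp hp2
  have hpR : (2 : ℝ) ≤ p := by exact_mod_cast hp2
  have hp0 : (0 : ℝ) < p := by linarith
  have hx1 : 1 / (p : ℝ) ≤ 1 / 2 := one_div_le_one_div_of_le (by norm_num) hpR
  have hpow : 0 < (1 - 1 / (p : ℝ)) ^ m := pow_pos (by linarith) m
  have hcm : (c : ℝ) ≤ m := by exact_mod_cast hc
  have hc0 : (0 : ℝ) ≤ c := Nat.cast_nonneg c
  have h4 : Fm m p ≤ phi c m p := by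
    unfold Fm phi
    apply div_le_div_of_nonneg_right _ hpow.le
    have : (c : ℝ) / p ≤ m / p := div_le_div_of_nonneg_right hcm hp0.le
    linarith
  refine ⟨h1.trans h4, h3.trans h4, ?_, ?_⟩
  · unfold phi
    rw [div_le_iff₀ hpow]
    have h5 : (1 : ℝ) ≤ (Real.exp (2 * (1 / p)) * (1 - 1 / (p : ℝ))) ^ m := by
      apply one_le_pow₀
      have h6 := Real.add_one_le_exp (2 * (1 / (p : ℝ)))
      have hx0 : 0 < 1 / (p : ℝ) := by positivity
      nlinarith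
    rw [mul_pow, ← Real.exp_nat_mul] at h5
    have h7 : Real.exp (m * (2 * (1 / (p : ℝ)))) ≤ Real.exp (2 * k / p) := by
      apply Real.exp_le_exp.2
      have hmk : (m : ℝ) ≤ k := by exact_mod_cast hm
      rw [mul_one_div, mul_div_assoc', mul_comm (m : ℝ) 2]
      apply div_le_div_of_nonneg_right _ hp0.le
      linarith
    calc 1 - (c : ℝ) / p ≤ 1 := by
          have : 0 ≤ (c : ℝ) / p := by positivity
          linarith
      _ ≤ _ := h5
      _ ≤ _ := mul_le_mul_of_nonneg_right h7 hpow.le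
  · intro hcm'
    rw [hcm']
    exact h2

/-- products of local factors over large primes -/
lemma prod_phi (k Z N : ℕ) (hZ : 2 * k ≤ Z) (hZ1 : 1 ≤ Z) (c m : ℕ → ℕ) (S B : Finset ℕ) (hS : S ⊆ Ioc Z N)
    (hc : ∀ p ∈ S, c p ≤ m p) (hm : ∀ p ∈ S, m p ≤ k) (hB : ∀ p ∈ S, p ∉ B → c p = m p) :
    1 - (k : ℝ) ^ 2 / Z ≤ ∏ p ∈ S, phi (c p) (m p) p ∧ 0 ≤ ∏ p ∈ S, phi (c p) (m p) p ∧
      ∏ p ∈ S, phi (c p) (m p) p ≤ Real.exp (2 * k * #B / Z) := by
  have hZR : (1 : ℝ) ≤ Z := by exact_mod_cast hZ1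
  have hb : ∀ p ∈ S, 1 - (k : ℝ) ^ 2 * ((p : ℝ) ^ 2)⁻¹ ≤ phi (c p) (m p) p ∧ 0 ≤ phi (c p) (m p) p ∧
      phi (c p) (m p) p ≤ Real.exp (2 * k / p) ∧ (c p = m p → phi (c p) (m p) p ≤ 1) := by
    intro p hp
    have := mem_Ioc.1 (hS hp)
    exact phi_bounds (c p) (m p) k p (hc p hp) (hm p hp) (by omega) (by omega)
  refine ⟨?_, prod_nonneg fun p hp => (hb p hp).2.1, ?_⟩
  · have hx : ∀ p ∈ S, 0 ≤ (k : ℝ) ^ 2 * ((p : ℝ) ^ 2)⁻¹ ∧ (k : ℝ) ^ 2 * ((p : ℝ) ^ 2)⁻¹ ≤ 1 := by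
      intro p hp
      have h1 := mem_Ioc.1 (hS hp)
      have hkp : (k : ℝ) ≤ p := by exact_mod_cast (by omega : k ≤ p)
      have hp0 : (0 : ℝ) < p := by exact_mod_cast (by omega : 0 < p)
      refine ⟨by positivity, ?_⟩
      rw [← div_eq_mul_inv, div_le_one (by positivity)]
      exact pow_le_pow_left₀ (Nat.cast_nonneg k) hkp 2
    have h1 := prod_ge' S (fun p => (k : ℝ) ^ 2 * ((p : ℝ) ^ 2)⁻¹) hx
    have h2 : ∑ p ∈ S, (k : ℝ) ^ 2 * ((p : ℝ) ^ 2)⁻¹ ≤ (k : ℝ) ^ 2 / Z := by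
      rcases Nat.lt_or_ge N Z with hNZ | hNZ
      · have : S = ∅ := by
          rw [← subset_empty]
          refine hS.trans ?_
          rw [Ioc_eq_empty (by omega)]
        rw [this, sum_empty]
        positivity
      · calc ∑ p ∈ S, (k : ℝ) ^ 2 * ((p : ℝ) ^ 2)⁻¹
            ≤ ∑ p ∈ Ioc Z N, (k : ℝ) ^ 2 * ((p : ℝ) ^ 2)⁻¹ :=
              sum_le_sum_of_subset_of_nonneg hS fun p _ _ => by positivity
          _ = (k : ℝ) ^ 2 * ∑ p ∈ Ioc Z N, ((p : ℝ) ^ 2)⁻¹ := by rw [mul_sum]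
          _ ≤ (k : ℝ) ^ 2 * ((Z : ℝ)⁻¹ - (N : ℝ)⁻¹) :=
              mul_le_mul_of_nonneg_left (sum_Ioc_inv_sq_le_sub (by omega) hNZ) (by positivity)
          _ ≤ (k : ℝ) ^ 2 * (Z : ℝ)⁻¹ := by
              apply mul_le_mul_of_nonneg_left _ (by positivity)
              have : (0 : ℝ) ≤ (N : ℝ)⁻¹ := by positivity
              linarith
          _ = _ := by rw [div_eq_mul_inv]
    calc 1 - (k : ℝ) ^ 2 / Z ≤ 1 - ∑ p ∈ S, (k : ℝ) ^ 2 * ((p : ℝ) ^ 2)⁻¹ := by linarith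
      _ ≤ ∏ p ∈ S, (1 - (k : ℝ) ^ 2 * ((p : ℝ) ^ 2)⁻¹) := h1.1
      _ ≤ _ := prod_le_prod (fun p hp => by have := (hx p hp).2; linarith) (fun p hp => (hb p hp).1)
  · calc ∏ p ∈ S, phi (c p) (m p) p ≤ ∏ p ∈ S, (if p ∈ B then Real.exp (2 * k / Z) else 1) := by
          apply prod_le_prod (fun p hp => (hb p hp).2.1)
          intro p hp
          split_ifs with hpB
          · refine (hb p hp).2.2.1.trans (Real.exp_le_exp.2 ?_)
            have h1 := mem_Ioc.1 (hS hp)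
            apply div_le_div_of_nonneg_left (by positivity) (by linarith)
            exact_mod_cast h1.1.le
          · exact (hb p hp).2.2.2 (hB p hp hpB)
      _ = Real.exp (2 * k / Z) ^ #(S.filter (fun p => p ∈ B)) := by
          rw [← prod_filter, prod_const]
      _ ≤ Real.exp (2 * k / Z) ^ #B := by
          apply pow_le_pow_right₀ (Real.one_le_exp (by positivity))
          apply card_le_card
          intro p hp
          exact (mem_filter.1 hp).2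
      _ = _ := by
          rw [← Real.exp_nat_mul]
          congr 1
          ring

/-- the primes which divide the discriminant -/
def badp (L : Finset (ℤ × ℤ)) : Finset ℕ := (disc L).natAbs.primeFactors

lemma mem_badp {L : Finset (ℤ × ℤ)} (hL : IsSys L) {p : ℕ} (hp : p.Prime) : p ∈ badp L ↔ (p : ℤ) ∣ disc L := by
  unfold badp
  rw [Nat.mem_primeFactors]
  constructor
  · rintro ⟨_, h, _⟩
    exact Int.natCast_dvd.2 h
  · intro h
    exact ⟨hp, Int.natCast_dvd.1 h, by rw [Ne, Int.natAbs_eq_zero]; exact disc_ne hL⟩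

lemma card_badp {L : Finset (ℤ × ℤ)} (hL : IsSys L) : #(badp L) ≤ Nat.log 2 (disc L).natAbs := by
  have h0 : (disc L).natAbs ≠ 0 := by rw [Ne, Int.natAbs_eq_zero]; exact disc_ne hL
  apply Nat.le_log_of_pow_le (by norm_num)
  unfold badp
  calc 2 ^ #((disc L).natAbs.primeFactors) ≤ ∏ p ∈ (disc L).natAbs.primeFactors, p :=
        pow_card_le_prod _ _ _ fun p hp => (Nat.prime_of_mem_primeFactors hp).two_le
    _ ≤ _ := Nat.le_of_dvd (Nat.pos_of_ne_zero h0) (Nat.prod_primeFactors_dvd _)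

lemma sfactor_nonneg (L : Finset (ℤ × ℤ)) (p : ℕ) (hp : p.Prime) :
    0 ≤ (1 - ((rts L p).card : ℝ) / p) / (1 - 1 / (p : ℝ)) ^ L.card := by
  have hpR : (1 : ℝ) < p := by exact_mod_cast hp.one_lt
  have h1 : ((rts L p).card : ℝ) ≤ p := by
    have := card_le_card (rts_subset L p)
    rw [card_range] at this
    exact_mod_cast this
  apply div_nonneg
  · rw [sub_nonneg, div_le_one (by linarith)]; exact h1
  · apply pow_nonneg
    rw [sub_nonneg, div_le_one (by linarith)]; exact hpR.le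

lemma ser_nonneg (L : Finset (ℤ × ℤ)) (t : ℕ) : 0 ≤ ser L t :=
  prod_nonneg fun p hp => sfactor_nonneg L p (mem_primes.1 hp).1

lemma ser_split (L : Finset (ℤ × ℤ)) {s t : ℕ} (h : s ≤ t) :
    ser L t = ser L s * ∏ p ∈ (Ioc s t).filter Nat.Prime, phi #(rts L p) #L p := by
  unfold ser
  rw [(primes_split h).1, prod_union (primes_split h).2]
  rfl

lemma ser_bounds {L : Finset (ℤ × ℤ)} (hL : IsSys L) {s t : ℕ} (h0 : 2 * #L + 1 ≤ s) (h : s ≤ t) :
    ser L s * (1 - (#L : ℝ) ^ 2 / s) ≤ ser L t ∧ ser L t ≤ ser L s * Real.exp (2 * #L * #(badp L) / s) ∧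
      ((disc L).natAbs ≤ s → ser L t ≤ ser L s) := by
  have hc : ∀ p ∈ (Ioc s t).filter Nat.Prime, #(rts L p) ≤ #L :=
    fun p hp => rts_card_le hL le_rfl p (mem_filter.1 hp).2
  have hgood : ∀ p ∈ (Ioc s t).filter Nat.Prime, p ∉ badp L → #(rts L p) = #L := by
    intro p hp hpB
    have hpp := (mem_filter.1 hp).2
    exact rts_card le_rfl p hpp (fun h' => hpB ((mem_badp hL hpp).2 h'))
  obtain ⟨h2, h3, h4⟩ := prod_phi #L s t (by omega) (by omega) (fun p => #(rts L p)) (fun _ => #L)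
    ((Ioc s t).filter Nat.Prime) (badp L) (filter_subset _ _) hc (fun _ _ => le_rfl) hgood
  have h5 := ser_nonneg L s
  rw [ser_split L h]
  refine ⟨mul_le_mul_of_nonneg_left h2 h5, mul_le_mul_of_nonneg_left h4 h5, ?_⟩
  intro hds
  refine (mul_le_mul_of_nonneg_left (prod_le_one (fun p hp => ?_) (fun p hp => ?_)) h5).trans (by rw [mul_one])
  · have := mem_Ioc.1 (mem_filter.1 hp).1
    exact (phi_bounds _ _ #L p (hc p hp) le_rfl (by omega) (by omega)).2.1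
  · have := mem_Ioc.1 (mem_filter.1 hp).1
    refine (phi_bounds _ _ #L p (hc p hp) le_rfl (by omega) (by omega)).2.2.2 (hgood p hp ?_)
    intro hpB
    unfold badp at hpB
    have := Nat.le_of_mem_primeFactors hpB
    omega

/-- the singular series -/
theorem ser_limit {L : Finset (ℤ × ℤ)} (hL : IsSys L) : ∃ 𝔖 : ℝ, 0 ≤ 𝔖 ∧
    Tendsto (ser L) atTop (𝓝 𝔖) ∧
    (∀ t, 2 * #L + 1 ≤ t → ser L t * (1 - (#L : ℝ) ^ 2 / t) ≤ 𝔖 ∧
      𝔖 ≤ ser L t * Real.exp (2 * #L * #(badp L) / t)) ∧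
    ((∀ p : ℕ, p.Prime → (rts L p).card < p) → 0 < 𝔖) := by
  obtain ⟨P, hP⟩ : ∃ P, P = (disc L).natAbs + 2 * #L + 1 := ⟨_, rfl⟩
  have h1 : Antitone fun n : ℕ => ser L (n + P) := by
    intro m n hmn
    exact (ser_bounds hL (s := m + P) (t := n + P) (by omega) (by omega)).2.2 (by omega)
  have h2 : Tendsto (fun n : ℕ => ser L (n + P)) atTop (𝓝 (⨅ n, ser L (n + P))) :=
    tendsto_atTop_ciInf h1 ⟨0, by rintro _ ⟨n, rfl⟩; exact ser_nonneg _ _⟩
  obtain ⟨𝔖, h𝔖⟩ : ∃ 𝔖, 𝔖 = ⨅ n, ser L (n + P) := ⟨_, rfl⟩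
  rw [← h𝔖] at h2
  have h3 : Tendsto (ser L) atTop (𝓝 𝔖) := (tendsto_add_atTop_iff_nat P).1 h2
  have h4 : ∀ t, 2 * #L + 1 ≤ t → ser L t * (1 - (#L : ℝ) ^ 2 / t) ≤ 𝔖 ∧
      𝔖 ≤ ser L t * Real.exp (2 * #L * #(badp L) / t) := by
    intro t ht
    constructor
    · exact ge_of_tendsto h3 (by
        filter_upwards [eventually_ge_atTop t] with n hn
        exact (ser_bounds hL ht hn).1)
    · exact le_of_tendsto h3 (by
        filter_upwards [eventually_ge_atTop t] with n hn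
        exact (ser_bounds hL ht hn).2.1)
  refine ⟨𝔖, ge_of_tendsto' h3 fun n => ser_nonneg L n, h3, h4, ?_⟩
  intro hadm
  obtain ⟨t, ht⟩ : ∃ t : ℕ, t = 2 * #L + 1 + 2 * #L ^ 2 := ⟨_, rfl⟩
  have h5 := (h4 t (by omega)).1
  have h6 : 0 < ser L t := by
    apply prod_pos
    intro p hp
    have hpp := (mem_primes.1 hp).1
    have hpR : (1 : ℝ) < p := by exact_mod_cast hpp.one_lt
    apply div_pos
    · rw [sub_pos, div_lt_one (by linarith)]
      exact_mod_cast hadm p hpp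
    · apply pow_pos
      rw [sub_pos, div_lt_one (by linarith)]
      exact hpR
  have h7 : (#L : ℝ) ^ 2 / t ≤ 1 / 2 := by
    have htR : (t : ℝ) = 2 * #L + 1 + 2 * (#L : ℝ) ^ 2 := by rw [ht]; push_cast; ring
    have : (0 : ℝ) ≤ #L := Nat.cast_nonneg _
    rw [div_le_iff₀ (by rw [htR]; positivity), htR]
    linarith
  nlinarith

/-- the trivial bound -/
lemma ser_le (L : Finset (ℤ × ℤ)) (t : ℕ) : ser L t ≤ Wp t ^ #L := by
  unfold ser Wp
  rw [← prod_pow]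
  apply prod_le_prod (fun p hp => sfactor_nonneg L p (mem_primes.1 hp).1)
  intro p hp
  have hpp := (mem_primes.1 hp).1
  have hpR : (1 : ℝ) < p := by exact_mod_cast hpp.one_lt
  have hpos : 0 < 1 - 1 / (p : ℝ) := by
    rw [sub_pos, div_lt_one (by linarith)]; exact hpR
  rw [inv_pow, div_eq_mul_inv]
  apply mul_le_of_le_one_left (by positivity)
  have : 0 ≤ ((rts L p).card : ℝ) / p := by positivity
  linarith

end Pool.Agent.U462.Sh
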