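import Pool.Agent.U462.Sh.ZBlk
import Pool.Agent.U462.Sh.Win

/-!
# Sums of the sifted weights of systems with integer coefficients over windows
-/

set_option autoImplicit false
set_option maxHeartbeats 1000000

open Finset Filter Topology

namespace Pool.Agent.U462.Sh

/-- the levels between two points -/
lemma lev_between {l : ℤ × ℤ} {a d c : ℕ} (had : a ≤ d) (hdc : d ≤ c) :
    (lev (val l a) ≤ lev (val l d) ∧ lev (val l d) ≤ lev (val l c)) ∨
      (lev (val l c) ≤ lev (val l d) ∧ lev (val l d) ≤ lev (val l a)) := by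
  have had' : (a : ℤ) ≤ d := by exact_mod_cast had
  have hdc' : (d : ℤ) ≤ c := by exact_mod_cast hdc
  rcases le_total 0 l.1 with h | h
  · left
    constructor <;> apply lev_mono <;> unfold val <;> apply Int.toNat_le_toNat
    · have := mul_le_mul_of_nonneg_left had' h
      linarith
    · have := mul_le_mul_of_nonneg_left hdc' h
      linarith
  · right
    constructor <;> apply lev_mono <;> unfold val <;> apply Int.toNat_le_toNat
    · have := mul_le_mul_of_nonpos_left hdc' h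
      linarith
    · have := mul_le_mul_of_nonpos_left had' h
      linarith

open Classical in
/-- sums over windows -/
theorem windowZ : ∃ C : ℕ, 1 ≤ C ∧ ∀ k : ℕ, ∃ K : ℝ, 0 ≤ K ∧ ∀ L : Finset (ℤ × ℤ), IsSys L → #L = k → ∀ 𝔖 : ℝ,
    (∀ t, 2 * #L + 1 ≤ t → ser L t * (1 - (#L : ℝ) ^ 2 / t) ≤ 𝔖 ∧
      𝔖 ≤ ser L t * Real.exp (2 * #L * #(badp L) / t)) →
    ∀ (b J0 J1 y t : ℕ), J0 ≤ J1 → C * (k + 1) ≤ b →
    2 * k + 1 ≤ 2 ^ 2 ^ J0 → 2 * k * #(badp L) ≤ 2 ^ 2 ^ J0 → 1 ≤ y → y ≤ t →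
    (∀ n : ℕ, y ≤ n → n < t → ∀ l ∈ L, 0 ≤ l.1 * (n : ℤ) + l.2 ∧ J0 ≤ lev (val l n) ∧ lev (val l n) ≤ J1) →
    |∑ n ∈ Ico y t, (∏ l ∈ L, sw (val l n) - 𝔖)| ≤
      ((t : ℝ) - y) * (Wp (2 ^ 2 ^ J0) ^ k * (3 * (1 / 2) ^ b +
        (4 * k * #(badp L) + (k : ℝ) ^ 2) / (2 ^ 2 ^ J0 : ℕ))) +
        2 ^ (k * (J1 + 1)) * (K * ((J1 : ℝ) + 2) * (2 ^ 2 ^ J1) ^ k * ((2 ^ 2 ^ J1) ^ (C * b)) ^ 2) := by
  obtain ⟨C, hC, Hb⟩ := blockZ
  refine ⟨C, hC, ?_⟩
  intro k
  obtain ⟨K, hK, HK⟩ := Hb k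
  refine ⟨K, hK, ?_⟩
  intro L hL hk 𝔖 h𝔖 b J0 J1 y t hJ01 hb hJ hbad hy hyt hlev
  obtain ⟨σ, hσ⟩ : ∃ σ : ℕ → Finset ((ℤ × ℤ) × ℕ), σ = fun n => (L ×ˢ range (J1 + 1)).filter
    (fun q => q.2 < lev (val q.1 n)) := ⟨_, rfl⟩
  have hσL : ∀ n, σ n ⊆ L ×ˢ range (J1 + 1) := fun n => by rw [hσ]; exact filter_subset _ _
  have hmem : ∀ n, ∀ l ∈ L, ∀ j, j ≤ J1 → ((l, j) ∈ σ n ↔ j < lev (val l n)) := by
    intro n l hl j hj
    rw [hσ]
    simp only [mem_filter, mem_product, mem_range]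
    constructor
    · rintro ⟨_, h⟩; exact h
    · intro h; exact ⟨⟨hl, by omega⟩, h⟩
  have hconv : ∀ a d c : ℕ, a ≤ d → d ≤ c → σ a = σ c → σ d = σ a := by
    intro a d c had hdc hac
    ext ⟨l, j⟩
    by_cases hlj : l ∈ L ∧ j ≤ J1
    · have hac' : (l, j) ∈ σ a ↔ (l, j) ∈ σ c := by rw [hac]
      rw [hmem a l hlj.1 j hlj.2, hmem c l hlj.1 j hlj.2] at hac'
      rw [hmem d l hlj.1 j hlj.2, hmem a l hlj.1 j hlj.2]
      rcases lev_between (l := l) had hdc with ⟨h1, h2⟩ | ⟨h1, h2⟩ <;> omega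
    · have h1 : ∀ n, (l, j) ∉ σ n := by
        intro n hn
        have := hσL n hn
        rw [mem_product, mem_range] at this
        exact hlj ⟨this.1, by have := this.2; simp only at this; omega⟩
      exact ⟨fun h => absurd h (h1 d), fun h => absurd h (h1 a)⟩
  obtain ⟨E1, hE1⟩ : ∃ E1 : ℝ, E1 = Wp (2 ^ 2 ^ J0) ^ k * (3 * (1 / 2) ^ b +
        (4 * k * #(badp L) + (k : ℝ) ^ 2) / (2 ^ 2 ^ J0 : ℕ)) := ⟨_, rfl⟩
  obtain ⟨E2, hE2⟩ : ∃ E2 : ℝ, E2 = K * ((J1 : ℝ) + 2) * (2 ^ 2 ^ J1) ^ k * ((2 ^ 2 ^ J1) ^ (C * b)) ^ 2 :=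
    ⟨_, rfl⟩
  have hE20 : 0 ≤ E2 := by rw [hE2]; positivity
  rw [← hE1, ← hE2]
  rw [← sum_fiberwise_of_maps_to (s := Ico y t) (t := (L ×ˢ range (J1 + 1)).powerset) (g := σ)
    (fun n _ => mem_powerset.2 (hσL n))]
  have hone : ∀ s ∈ (L ×ˢ range (J1 + 1)).powerset, |∑ n ∈ (Ico y t).filter (fun n => σ n = s),
      (∏ l ∈ L, sw (val l n) - 𝔖)| ≤ (#((Ico y t).filter (fun n => σ n = s)) : ℝ) * E1 + E2 := by
    intro s _
    rcases ((Ico y t).filter (fun n => σ n = s)).eq_empty_or_nonempty with hempty | ⟨n0, hn0⟩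
    · rw [hempty]
      simpa using hE20
    obtain ⟨n1, n2, h12, hI⟩ := convex_eq ((Ico y t).filter (fun n => σ n = s)) (by
      intro n hn
      rw [mem_filter, mem_Ico] at hn
      omega) (by
      intro a ha c hc d had hdc
      rw [mem_filter, mem_Ico] at ha hc ⊢
      refine ⟨⟨by omega, by omega⟩, ?_⟩
      rw [hconv a d c had hdc (ha.2.trans hc.2.symm)]
      exact ha.2)
    rw [mem_filter, mem_Ico] at hn0
    obtain ⟨lam, hlam⟩ : ∃ lam : ℤ × ℤ → ℕ, lam = fun l => lev (val l n0) := ⟨_, rfl⟩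
    have hlamb : ∀ l ∈ L, J0 ≤ lam l ∧ lam l ≤ J1 := by
      intro l hl
      rw [hlam]
      exact (hlev n0 hn0.1.1 hn0.1.2 l hl).2
    have hfib : ∀ n ∈ Ioc n1 n2, (∀ l ∈ L, 0 ≤ l.1 * (n : ℤ) + l.2) ∧ ∀ l ∈ L, lev (val l n) = lam l := by
      intro n hn
      rw [← hI, mem_filter, mem_Ico] at hn
      refine ⟨fun l hl => (hlev n hn.1.1 hn.1.2 l hl).1, fun l hl => ?_⟩
      have h1 := (hlev n hn.1.1 hn.1.2 l hl).2
      have h2 := (hlev n0 hn0.1.1 hn0.1.2 l hl).2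
      have hs : σ n = σ n0 := hn.2.trans hn0.2.symm
      rw [hlam]
      simp only
      rcases lt_trichotomy (lev (val l n)) (lev (val l n0)) with h | h | h
      · exfalso
        have h3 := (hmem n0 l hl (lev (val l n)) h1.2).2 h
        rw [← hs, hmem n l hl _ h1.2] at h3
        exact lt_irrefl _ h3
      · exact h
      · exfalso
        have h3 := (hmem n l hl (lev (val l n0)) h2.2).2 h
        rw [hs, hmem n0 l hl _ h2.2] at h3
        exact lt_irrefl _ h3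
    have h1 := HK L hL hk 𝔖 h𝔖 lam b J0 J1 n1 n2 hlamb hJ01 hb hJ hbad h12
    rw [← hE1, ← hE2] at h1
    have hcard : (#((Ico y t).filter (fun n => σ n = s)) : ℝ) = (n2 : ℝ) - n1 := by
      rw [hI, Nat.card_Ioc, Nat.cast_sub h12]
    have hval : ∀ n ∈ Ioc n1 n2, ∏ l ∈ L, sw (val l n) =
        if TZ L lam (2 ^ 2 ^ J1) n then ∏ l ∈ L, Wp (2 ^ 2 ^ lam l) else 0 := by
      intro n hn
      refine prod_swZ (hfib n hn).1 (hfib n hn).2 ?_
      intro l hl
      exact Nat.pow_le_pow_right (by norm_num) (Nat.pow_le_pow_right (by norm_num) (hlamb l hl).2)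
    have hsum : ∑ n ∈ (Ico y t).filter (fun n => σ n = s), (∏ l ∈ L, sw (val l n) - 𝔖) =
        (NBZ L lam (2 ^ 2 ^ J1) n1 n2 : ℝ) * ∏ l ∈ L, Wp (2 ^ 2 ^ lam l) - ((n2 : ℝ) - n1) * 𝔖 := by
      rw [hI, sum_sub_distrib, sum_congr rfl hval, ← sum_filter, sum_const, sum_const, nsmul_eq_mul,
        nsmul_eq_mul, Nat.card_Ioc, Nat.cast_sub h12]
      have hNB : NBZ L lam (2 ^ 2 ^ J1) n1 n2 = #((Ioc n1 n2).filter (fun n => TZ L lam (2 ^ 2 ^ J1) n)) := by
        unfold NBZ TZ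
        congr
      rw [hNB]
    rw [hsum, hcard]
    exact h1
  have hcardsum : ∑ s ∈ (L ×ˢ range (J1 + 1)).powerset, (#((Ico y t).filter (fun n => σ n = s)) : ℝ) =
      (t : ℝ) - y := by
    have h1 := card_eq_sum_card_fiberwise (s := Ico y t) (t := (L ×ˢ range (J1 + 1)).powerset) (f := σ)
      (fun n _ => by rw [mem_coe, mem_powerset]; exact hσL n)
    rw [Nat.card_Ico] at h1
    rw [← Nat.cast_sum, ← h1, Nat.cast_sub hyt]
  calc |∑ s ∈ (L ×ˢ range (J1 + 1)).powerset, ∑ n ∈ (Ico y t).filter (fun n => σ n = s),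
        (∏ l ∈ L, sw (val l n) - 𝔖)|
      ≤ ∑ s ∈ (L ×ˢ range (J1 + 1)).powerset, |∑ n ∈ (Ico y t).filter (fun n => σ n = s),
        (∏ l ∈ L, sw (val l n) - 𝔖)| := abs_sum_le_sum_abs _ _
    _ ≤ ∑ s ∈ (L ×ˢ range (J1 + 1)).powerset, ((#((Ico y t).filter (fun n => σ n = s)) : ℝ) * E1 + E2) :=
        sum_le_sum hone
    _ = ((t : ℝ) - y) * E1 + 2 ^ (k * (J1 + 1)) * E2 := by
        rw [sum_add_distrib, ← sum_mul, hcardsum, sum_const, card_powerset, card_product, card_range, hk,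
          nsmul_eq_mul]
        push_cast
        ring

/-- the variation of a function on an interval -/
noncomputable def tv (f : ℕ → ℝ) (y m : ℕ) : ℝ := ∑ i ∈ range m, |f (y + (i + 1)) - f (y + i)|

/-- partial summation with a weight of bounded variation -/
lemma abel_tv (u w : ℕ → ℝ) (y m0 : ℕ) (D : ℝ) (hD : ∀ m, m ≤ m0 → |∑ i ∈ range m, u (y + i)| ≤ D) :
    |∑ i ∈ range m0, u (y + i) * w (y + i)| ≤ D * (|w (y + m0)| + tv w y m0) := by
  have key : ∀ m, m ≤ m0 →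
      |∑ i ∈ range m, u (y + i) * w (y + i) - (∑ i ∈ range m, u (y + i)) * w (y + m)| ≤ D * tv w y m := by
    intro m
    induction m with
    | zero => intro _; simp [tv]
    | succ m ih =>
      intro hm
      have e1 : ∑ i ∈ range (m + 1), u (y + i) * w (y + i) -
          (∑ i ∈ range (m + 1), u (y + i)) * w (y + (m + 1)) =
          (∑ i ∈ range m, u (y + i) * w (y + i) - (∑ i ∈ range m, u (y + i)) * w (y + m)) -
            (∑ i ∈ range (m + 1), u (y + i)) * (w (y + (m + 1)) - w (y + m)) := by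
        rw [sum_range_succ, sum_range_succ]; ring
      have e2 : tv w y (m + 1) = tv w y m + |w (y + (m + 1)) - w (y + m)| := by
        unfold tv
        rw [sum_range_succ]
      rw [e1, e2]
      calc _ ≤ |∑ i ∈ range m, u (y + i) * w (y + i) - (∑ i ∈ range m, u (y + i)) * w (y + m)| +
            |(∑ i ∈ range (m + 1), u (y + i)) * (w (y + (m + 1)) - w (y + m))| := abs_sub _ _
        _ ≤ D * tv w y m + D * |w (y + (m + 1)) - w (y + m)| := by
          apply add_le_add (ih (by omega))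
          rw [abs_mul]
          exact mul_le_mul_of_nonneg_right (hD _ hm) (abs_nonneg _)
        _ = _ := by ring
  have h2 := key m0 le_rfl
  have h3 : |(∑ i ∈ range m0, u (y + i)) * w (y + m0)| ≤ D * |w (y + m0)| := by
    rw [abs_mul]
    exact mul_le_mul_of_nonneg_right (hD _ le_rfl) (abs_nonneg _)
  calc |∑ i ∈ range m0, u (y + i) * w (y + i)| =
        |(∑ i ∈ range m0, u (y + i) * w (y + i) - (∑ i ∈ range m0, u (y + i)) * w (y + m0)) +
          (∑ i ∈ range m0, u (y + i)) * w (y + m0)| := by ring_nf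
    _ ≤ _ := abs_add_le _ _
    _ ≤ D * tv w y m0 + D * |w (y + m0)| := add_le_add h2 h3
    _ = _ := by ring

lemma tv_mul (f g : ℕ → ℝ) (y m : ℕ) (F G : ℝ) (hf : ∀ i, i ≤ m → |f (y + i)| ≤ F)
    (hg : ∀ i, i ≤ m → |g (y + i)| ≤ G) : tv (fun n => f n * g n) y m ≤ F * tv g y m + G * tv f y m := by
  unfold tv
  rw [mul_sum, mul_sum, ← sum_add_distrib]
  apply sum_le_sum
  intro i hi
  rw [mem_range] at hi
  have e1 : f (y + (i + 1)) * g (y + (i + 1)) - f (y + i) * g (y + i) =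
      f (y + (i + 1)) * (g (y + (i + 1)) - g (y + i)) + g (y + i) * (f (y + (i + 1)) - f (y + i)) := by ring
  rw [e1]
  refine (abs_add_le _ _).trans ?_
  rw [abs_mul, abs_mul]
  exact add_le_add (mul_le_mul_of_nonneg_right (hf _ (by omega)) (abs_nonneg _))
    (mul_le_mul_of_nonneg_right (hg _ (by omega)) (abs_nonneg _))

/-- the variation of a product of functions with values in `[0, 2]` and small variation -/
lemma tv_prod {ι : Type} (s : Finset ι) (f : ι → ℕ → ℝ) (y m : ℕ)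
    (h0 : ∀ l ∈ s, ∀ i, i ≤ m → |f l (y + i)| ≤ 2) (h1 : ∀ l ∈ s, tv (f l) y m ≤ 2) :
    tv (fun n => ∏ l ∈ s, f l n) y m ≤ #s * 2 ^ #s ∧ ∀ i, i ≤ m → |∏ l ∈ s, f l (y + i)| ≤ 2 ^ #s := by
  classical
  induction s using Finset.induction_on with
  | empty => simp [tv]
  | insert l s hl ih =>
    obtain ⟨h2, h3⟩ := ih (fun l' hl' => h0 l' (mem_insert_of_mem hl')) (fun l' hl' => h1 l' (mem_insert_of_mem hl'))
    rw [card_insert_of_notMem hl]
    constructor
    · have e1 : (fun n => ∏ l' ∈ insert l s, f l' n) = fun n => f l n * ∏ l' ∈ s, f l' n := by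
        ext n
        rw [prod_insert hl]
      rw [e1]
      refine (tv_mul (f l) (fun n => ∏ l' ∈ s, f l' n) y m 2 (2 ^ #s) (h0 l (mem_insert_self _ _)) h3).trans ?_
      have h4 := h1 l (mem_insert_self _ _)
      have h5 : (0 : ℝ) ≤ 2 ^ #s := by positivity
      have h6 : (2 : ℝ) ^ #s * tv (f l) y m ≤ 2 ^ #s * 2 := mul_le_mul_of_nonneg_left h4 h5
      push_cast
      rw [pow_succ]
      linarith
    · intro i hi
      rw [prod_insert hl, abs_mul, pow_succ, mul_comm ((2 : ℝ) ^ #s)]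
      exact mul_le_mul (h0 l (mem_insert_self _ _) i hi) (h3 i hi) (abs_nonneg _) (by norm_num)

/-- the variation of a monotone function -/
lemma tv_mono (f : ℕ → ℝ) (y m : ℕ) (h : ∀ i, i < m → f (y + i) ≤ f (y + (i + 1))) :
    tv f y m = f (y + m) - f y := by
  unfold tv
  have e1 : ∑ i ∈ range m, |f (y + (i + 1)) - f (y + i)| = ∑ i ∈ range m, (f (y + (i + 1)) - f (y + i)) := by
    apply sum_congr rfl
    intro i hi
    rw [mem_range] at hi
    rw [abs_of_nonneg]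
    have := h i hi
    linarith
  rw [e1, sum_range_sub (fun i => f (y + i))]
  simp

lemma tv_anti (f : ℕ → ℝ) (y m : ℕ) (h : ∀ i, i < m → f (y + (i + 1)) ≤ f (y + i)) :
    tv f y m = f y - f (y + m) := by
  unfold tv
  have e1 : ∑ i ∈ range m, |f (y + (i + 1)) - f (y + i)| = ∑ i ∈ range m, (f (y + i) - f (y + (i + 1))) := by
    apply sum_congr rfl
    intro i hi
    rw [mem_range] at hi
    rw [abs_sub_comm, abs_of_nonneg]
    have := h i hi
    linarith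
  rw [e1, sum_range_sub' (fun i => f (y + i))]
  simp

end Pool.Agent.U462.Sh
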